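import Mathlib

open Polynomial Finset

namespace MP225

private theorem disclog_prod {L : Type*} [Field L] [NumberField L] (x : L) (hx : IsIntegral ℤ x)
    (h0 : x ≠ 0) : (1 : ℝ) ≤ ∏ φ : L →+* ℂ, ‖φ x‖ := by
  have h1 : (algebraMap ℚ ℂ) (Algebra.norm ℚ x) = ∏ σ : L →ₐ[ℚ] ℂ, σ x :=
    Algebra.norm_eq_prod_embeddings ℚ ℂ x
  have h2 : ∏ σ : L →ₐ[ℚ] ℂ, σ x = ∏ φ : L →+* ℂ, φ x :=
    Fintype.prod_equiv (RingHom.equivRatAlgHom L ℂ).symm _ _ (fun σ => rfl)
  have h3 : IsIntegral ℤ (Algebra.norm ℚ x) := Algebra.isIntegral_norm ℚ hx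
  obtain ⟨z, hz⟩ := IsIntegrallyClosed.isIntegral_iff.mp h3
  have hz0 : z ≠ 0 := by
    rintro rfl
    rw [map_zero] at hz
    exact h0 ((Algebra.norm_eq_zero_iff).mp hz.symm)
  have h4 : ‖∏ φ : L →+* ℂ, φ x‖ = |(z : ℝ)| := by
    rw [← h2, ← h1, ← hz]
    simp
  rw [← norm_prod, h4]
  exact_mod_cast Int.one_le_abs hz0

/-- DISCLOG. Let `δ = ∏_{z root of G} G'(z)` (the resultant of `G`, `G'`; a polynomial in the coefficients of `G`),
an algebraic integer of `L`, nonzero since `G` is separable. For each `φ`,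
`φ δ = ∏_z ∏_{w ≠ z} (z - w)` over the roots of `G.map φ`, so the sum equals `∑_φ log ‖φ δ‖ = log |Norm δ| ≥ 0`.
(E.g. `Polynomial.resultant G G.derivative`, or the norm from `AdjoinRoot G`, or the determinant of a matrix.) -/
theorem disc_log {L : Type*} [Field L] [NumberField L] (G : L[X]) (hG : G.Monic)
    (hint : ∀ i, IsIntegral ℤ (G.coeff i)) (hsep : G.Separable) :
    0 ≤ ∑ φ : L →+* ℂ, ∑ z ∈ (G.map φ).roots.toFinset,
      ∑ w ∈ ((G.map φ).roots.toFinset).erase z, Real.log ‖z - w‖ := by
  set δ : L := resultant G (derivative G) G.natDegree (derivative G).natDegree with hδ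
  -- integrality
  have hδint : IsIntegral ℤ δ := by
    have hl : G ∈ lifts (algebraMap (integralClosure ℤ L) L) := by
      rw [lifts_iff_coeff_lifts]
      intro i
      exact ⟨⟨G.coeff i, hint i⟩, rfl⟩
    obtain ⟨G₀, hG₀⟩ := (mem_lifts G).1 hl
    have h1 : δ = algebraMap (integralClosure ℤ L) L
        (resultant G₀ (derivative G₀) G.natDegree (derivative G).natDegree) := by
      rw [hδ]
      conv_lhs => rw [← hG₀]
      rw [derivative_map, resultant_map_map]
      rw [hG₀]
      congr 2
      rw [← hG₀, derivative_map]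
    rw [h1]
    exact (resultant G₀ (derivative G₀) G.natDegree (derivative G).natDegree).2
  -- for every embedding
  have key : ∀ φ : L →+* ℂ, (∑ z ∈ (G.map φ).roots.toFinset,
      ∑ w ∈ ((G.map φ).roots.toFinset).erase z, Real.log ‖z - w‖ = Real.log ‖φ δ‖) ∧ φ δ ≠ 0 := by
    intro φ
    set P : ℂ[X] := G.map φ with hP
    have hPm : P.Monic := hG.map _
    have hsepP : P.Separable := hsep.map
    have hnd : P.roots.Nodup := nodup_roots hsepP
    have hspl : P.Splits := IsAlgClosed.splits P
    have hdeg : P.natDegree = G.natDegree := hG.natDegree_map _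
    set S : Finset ℂ := P.roots.toFinset with hS
    have hr : S.val = P.roots := by
      rw [hS, Multiset.toFinset_val]
      exact Multiset.dedup_eq_self.2 hnd
    have hprod : (P.roots.map fun a => X - C a).prod = P :=
      (hspl.eq_prod_roots_of_monic hPm).symm
    have hder : ∀ z ∈ S, eval z (derivative P) = ∏ w ∈ S.erase z, (z - w) := by
      intro z hz
      have hz' : z ∈ P.roots := by rw [← hr]; exact hz
      have h := eval_multiset_prod_X_sub_C_derivative hz'
      rw [hprod] at h
      rw [h, Finset.prod, Finset.erase_val, hr]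
    have hres : φ δ = ∏ z ∈ S, ∏ w ∈ S.erase z, (z - w) := by
      have h1 := resultant_eq_prod_eval P (derivative P) (derivative G).natDegree
        (by rw [hP, derivative_map]; exact natDegree_map_le) hspl
      rw [hPm.leadingCoeff, one_pow, one_mul, hdeg] at h1
      have h2 : resultant P (derivative P) G.natDegree (derivative G).natDegree = φ δ := by
        rw [hP, derivative_map, resultant_map_map]
      rw [h2] at h1
      rw [h1, ← Finset.prod_congr rfl hder, Finset.prod, hr]
    have hne : ∀ z ∈ S, ∀ w ∈ S.erase z, ‖z - w‖ ≠ 0 := by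
      intro z _ w hw
      exact norm_ne_zero_iff.2 (sub_ne_zero.2 (Finset.ne_of_mem_erase hw).symm)
    have hδ0 : φ δ ≠ 0 := by
      rw [hres, Finset.prod_ne_zero_iff]
      intro z hz
      rw [Finset.prod_ne_zero_iff]
      intro w hw
      exact norm_ne_zero_iff.1 (hne z hz w hw)
    refine ⟨?_, hδ0⟩
    rw [hres, norm_prod, Real.log_prod]
    · apply Finset.sum_congr rfl
      intro z hz
      rw [norm_prod, Real.log_prod]
      intro w hw
      exact hne z hz w hw
    · intro z hz
      rw [norm_ne_zero_iff, Finset.prod_ne_zero_iff]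
      intro w hw
      exact norm_ne_zero_iff.1 (hne z hz w hw)
  rw [Finset.sum_congr rfl fun φ _ => (key φ).1]
  have hδ0 : δ ≠ 0 := by
    intro h
    obtain ⟨φ⟩ : Nonempty (L →+* ℂ) := inferInstance
    exact (key φ).2 (by rw [h, map_zero])
  rw [← Real.log_prod (fun φ _ => norm_ne_zero_iff.2 (key φ).2)]
  exact Real.log_nonneg (disclog_prod δ hδint hδ0)

end MP225
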