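import Mathlib

open Finset

namespace MP225

private theorem amgm_prod {L : Type*} [Field L] [NumberField L] (x : L) (hx : IsIntegral ℤ x) (h0 : x ≠ 0) :
    (1 : ℝ) ≤ ∏ φ : L →+* ℂ, ‖φ x‖ := by
  have h1 : (algebraMap ℚ ℂ) (Algebra.norm ℚ x) = ∏ σ : L →ₐ[ℚ] ℂ, σ x :=
    Algebra.norm_eq_prod_embeddings ℚ ℂ x
  have h2 : ∏ σ : L →ₐ[ℚ] ℂ, σ x = ∏ φ : L →+* ℂ, φ x :=
    Fintype.prod_equiv (RingHom.equivRatAlgHom L ℂ).symm _ _ (fun σ => rfl)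
  have h3 : IsIntegral ℤ (Algebra.norm ℚ x) := Algebra.isIntegral_norm ℚ hx
  obtain ⟨z, hz⟩ := IsIntegrallyClosed.isIntegral_iff.mp h3
  have hz0 : z ≠ 0 := by
    rintro rfl
    rw [map_zero] at hz
    exact h0 ((Algebra.norm_eq_zero_iff).mp hz.symm)
  have h4 : ‖∏ φ : L →+* ℂ, φ x‖ = |(z : ℝ)| := by
    rw [← h2, ← h1, ← hz]
    simp
  rw [← norm_prod, h4]
  exact_mod_cast Int.one_le_abs hz0

/-- AMGM (piece N1). `∏_φ ‖φ x‖ = |Norm x| ≥ 1` (nonzero integer), and `‖φ x‖² ≥ 1 + log ‖φ x‖²`;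
sum over the `finrank ℚ L` embeddings. -/
theorem amgm {L : Type*} [Field L] [NumberField L] (x : L) (hx : IsIntegral ℤ x) (h0 : x ≠ 0) :
    (Module.finrank ℚ L : ℝ) ≤ ∑ φ : L →+* ℂ, ‖φ x‖ ^ 2 := by
  have hpos : ∀ φ : L →+* ℂ, 0 < ‖φ x‖ := fun φ => by
    rw [norm_pos_iff]
    exact (map_ne_zero φ).mpr h0
  have h1 : ∀ φ : L →+* ℂ, 1 + 2 * Real.log ‖φ x‖ ≤ ‖φ x‖ ^ 2 := fun φ => by
    have h := Real.log_le_sub_one_of_pos (pow_pos (hpos φ) 2)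
    rw [Real.log_pow] at h
    push_cast at h
    linarith
  have h2 : ∑ φ : L →+* ℂ, (1 + 2 * Real.log ‖φ x‖) ≤ ∑ φ : L →+* ℂ, ‖φ x‖ ^ 2 :=
    Finset.sum_le_sum fun φ _ => h1 φ
  have h3 : ∑ φ : L →+* ℂ, (1 + 2 * Real.log ‖φ x‖) =
      (Module.finrank ℚ L : ℝ) + 2 * Real.log (∏ φ : L →+* ℂ, ‖φ x‖) := by
    rw [Finset.sum_add_distrib, ← Finset.mul_sum, Real.log_prod (fun φ _ => (hpos φ).ne'),
      Finset.sum_const, Finset.card_univ, NumberField.Embeddings.card]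
    simp
  have h4 : 0 ≤ Real.log (∏ φ : L →+* ℂ, ‖φ x‖) := Real.log_nonneg (amgm_prod x hx h0)
  linarith

/-- FINISH (piece N1). Let `k = round c`, so `|c-k| ≤ 1/2`. `‖φ(x-k)‖² ≤ 2‖φ x - c‖² + 2|c-k|²`, so
`∑ ‖φ(x-k)‖² ≤ (2δ + 1/2) n < n`, hence `x = k` by `amgm`; then `n (k-c)² = ∑ ‖φ x - c‖² ≤ δ n`. -/
theorem finish {L : Type*} [Field L] [NumberField L] (x : L) (hx : IsIntegral ℤ x) (c δ : ℝ)
    (hδ : δ < 1 / 4) (h : ∑ φ : L →+* ℂ, ‖φ x - c‖ ^ 2 ≤ δ * Module.finrank ℚ L) :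
    ∃ k : ℤ, ((k : ℝ) - c) ^ 2 ≤ δ := by
  refine ⟨round c, ?_⟩
  have hn : (0 : ℝ) < Module.finrank ℚ L := by exact_mod_cast Module.finrank_pos
  have hcard : (Finset.univ : Finset (L →+* ℂ)).card = Module.finrank ℚ L := by
    rw [Finset.card_univ, NumberField.Embeddings.card]
  have hk : |c - round c| ≤ 1 / 2 := abs_sub_round c
  have hk2 : (c - round c) ^ 2 ≤ 1 / 4 := by
    have := abs_le.mp hk
    nlinarith
  have hnorm : ∀ r : ℝ, ‖(r : ℂ)‖ = |r| := fun r => by simp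
  by_cases hxk : x = ((round c : ℤ) : L)
  · have h1 : ∀ φ : L →+* ℂ, ‖φ x - c‖ ^ 2 = (((round c : ℤ) : ℝ) - c) ^ 2 := fun φ => by
      rw [hxk, map_intCast]
      have : (((round c : ℤ) : ℂ) - (c : ℂ)) = (((((round c : ℤ) : ℝ) - c : ℝ)) : ℂ) := by push_cast; rfl
      rw [this, hnorm, sq_abs]
    rw [Finset.sum_congr rfl (fun φ _ => h1 φ), Finset.sum_const, hcard, nsmul_eq_mul] at h
    nlinarith
  · exfalso
    have hy0 : x - ((round c : ℤ) : L) ≠ 0 := sub_ne_zero.mpr hxk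
    have hyi : IsIntegral ℤ (x - ((round c : ℤ) : L)) := hx.sub (isIntegral_algebraMap (R := ℤ) (x := round c))
    have h1 := amgm _ hyi hy0
    have h2 : ∀ φ : L →+* ℂ, ‖φ (x - ((round c : ℤ) : L))‖ ^ 2 ≤ 2 * ‖φ x - c‖ ^ 2 + 1 / 2 := fun φ => by
      have h3 : φ (x - ((round c : ℤ) : L)) = (φ x - c) + (((c - round c : ℝ)) : ℂ) := by
        rw [map_sub, map_intCast]
        push_cast
        ring
      have h4 : ‖φ (x - ((round c : ℤ) : L))‖ ≤ ‖φ x - c‖ + |c - round c| := by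
        rw [h3]
        refine (norm_add_le _ _).trans ?_
        rw [hnorm]
      have h5 : 0 ≤ ‖φ (x - ((round c : ℤ) : L))‖ := norm_nonneg _
      have h6 : |c - round c| ^ 2 ≤ 1 / 4 := by rw [sq_abs]; exact hk2
      nlinarith [sq_nonneg (‖φ x - c‖ - |c - round c|), norm_nonneg (φ x - c), abs_nonneg (c - round c)]
    have h3 : ∑ φ : L →+* ℂ, ‖φ (x - ((round c : ℤ) : L))‖ ^ 2 ≤
        ∑ φ : L →+* ℂ, (2 * ‖φ x - c‖ ^ 2 + 1 / 2) := Finset.sum_le_sum fun φ _ => h2 φ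
    rw [Finset.sum_add_distrib, ← Finset.mul_sum, Finset.sum_const, hcard, nsmul_eq_mul] at h3
    nlinarith

end MP225
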