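import Mathlib

open Finset

namespace MP225

/-- One step of the expansion: multiply by `2cos θ`. -/
private lemma cosexp_step (j : ℕ) (e : ℤ) (c : ℕ → ℤ)
    (h : ∀ θ : ℝ, (2 * Real.cos θ) ^ j = e + ∑ m ∈ Icc 1 j, (c m : ℝ) * (2 * Real.cos (m * θ))) :
    ∃ e' : ℤ, ∃ c' : ℕ → ℤ, ∀ θ : ℝ, (2 * Real.cos θ) ^ (j + 1) =
      e' + ∑ m ∈ Icc 1 (j + 1), (c' m : ℝ) * (2 * Real.cos (m * θ)) := by
  refine ⟨if 1 ≤ j then 2 * c 1 else 0, fun m => (if m = 1 then e else 0) +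
    (if 2 ≤ m ∧ m ≤ j + 1 then c (m - 1) else 0) + (if m + 1 ≤ j then c (m + 1) else 0), ?_⟩
  intro θ
  have key : ∀ m : ℕ, 1 ≤ m → (2 * Real.cos θ) * (2 * Real.cos (m * θ)) =
      2 * Real.cos ((m + 1 : ℕ) * θ) + 2 * Real.cos ((m - 1 : ℕ) * θ) := by
    intro m hm
    have h1 : ((m + 1 : ℕ) : ℝ) * θ = m * θ + θ := by push_cast; ring
    have h2 : ((m - 1 : ℕ) : ℝ) * θ = m * θ - θ := by
      rw [Nat.cast_sub hm]; push_cast; ring
    rw [h1, h2, Real.cos_add, Real.cos_sub]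
    ring
  have hL : (2 * Real.cos θ) ^ (j + 1) = e * (2 * Real.cos θ) +
      ∑ m ∈ Icc 1 j, (c m : ℝ) * (2 * Real.cos ((m + 1 : ℕ) * θ)) +
      ∑ m ∈ Icc 1 j, (c m : ℝ) * (2 * Real.cos ((m - 1 : ℕ) * θ)) := by
    rw [pow_succ, h θ, add_mul, sum_mul, add_assoc, ← sum_add_distrib]
    congr 1
    apply sum_congr rfl
    intro m hm
    have hm1 : 1 ≤ m := (mem_Icc.mp hm).1
    have := key m hm1
    calc (c m : ℝ) * (2 * Real.cos (m * θ)) * (2 * Real.cos θ)
        = c m * ((2 * Real.cos θ) * (2 * Real.cos (m * θ))) := by ring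
      _ = _ := by rw [this]; ring
  have hs1 : ∑ m ∈ Icc 1 j, (c m : ℝ) * (2 * Real.cos ((m + 1 : ℕ) * θ)) =
      ∑ m ∈ Icc 1 (j + 1), ((if 2 ≤ m ∧ m ≤ j + 1 then c (m - 1) else 0 : ℤ) : ℝ) *
        (2 * Real.cos (m * θ)) := by
    have e1 : ∑ m ∈ Icc 1 j, (c m : ℝ) * (2 * Real.cos ((m + 1 : ℕ) * θ)) =
        ∑ m ∈ Icc 2 (j + 1), (c (m - 1) : ℝ) * (2 * Real.cos (m * θ)) := by
      apply sum_bij (fun m _ => m + 1)
      · intro m hm; rw [mem_Icc] at hm ⊢; omega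
      · intro m _ n _ hmn; omega
      · intro m hm
        rw [mem_Icc] at hm
        exact ⟨m - 1, by rw [mem_Icc]; omega, by omega⟩
      · intro m _
        simp
    rw [e1]
    have hsub : Icc 2 (j + 1) ⊆ Icc 1 (j + 1) := Icc_subset_Icc (by norm_num) le_rfl
    rw [← sum_subset hsub]
    · apply sum_congr rfl
      intro m hm
      rw [mem_Icc] at hm
      rw [if_pos hm]
    · intro m hm hm'
      rw [if_neg]
      · simp
      · rw [mem_Icc] at hm hm'
        omega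
  have hs2 : ∑ m ∈ Icc 1 j, (c m : ℝ) * (2 * Real.cos ((m - 1 : ℕ) * θ)) =
      ((if 1 ≤ j then 2 * c 1 else 0 : ℤ) : ℝ) +
      ∑ m ∈ Icc 1 (j + 1), ((if m + 1 ≤ j then c (m + 1) else 0 : ℤ) : ℝ) *
        (2 * Real.cos (m * θ)) := by
    by_cases hj : 1 ≤ j
    · rw [if_pos hj]
      have hins : Icc 1 j = insert 1 (Icc 2 j) := by
        ext m; rw [mem_insert, mem_Icc, mem_Icc]; omega
      rw [hins, sum_insert (by rw [mem_Icc]; omega)]
      congr 1
      · simp; ring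
      · have e1 : ∑ m ∈ Icc 2 j, (c m : ℝ) * (2 * Real.cos ((m - 1 : ℕ) * θ)) =
            ∑ m ∈ Icc 1 (j - 1), (c (m + 1) : ℝ) * (2 * Real.cos (m * θ)) := by
          apply sum_bij (fun m _ => m - 1)
          · intro m hm; rw [mem_Icc] at hm ⊢; omega
          · intro m hm n hn hmn; rw [mem_Icc] at hm hn; omega
          · intro m hm
            rw [mem_Icc] at hm
            exact ⟨m + 1, by rw [mem_Icc]; omega, by omega⟩
          · intro m hm
            rw [mem_Icc] at hm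
            have : m - 1 + 1 = m := by omega
            rw [this]
        rw [e1]
        have hsub : Icc 1 (j - 1) ⊆ Icc 1 (j + 1) := Icc_subset_Icc le_rfl (by omega)
        rw [← sum_subset hsub]
        · apply sum_congr rfl
          intro m hm
          rw [mem_Icc] at hm
          rw [if_pos (by omega)]
        · intro m hm hm'
          rw [if_neg]
          · simp
          · rw [mem_Icc] at hm hm'
            omega
    · have hj0 : j = 0 := by omega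
      subst hj0
      simp
  have hs0 : (e : ℝ) * (2 * Real.cos θ) =
      ∑ m ∈ Icc 1 (j + 1), ((if m = 1 then e else 0 : ℤ) : ℝ) * (2 * Real.cos (m * θ)) := by
    rw [sum_eq_single 1]
    · simp
    · intro m _ hm
      rw [if_neg hm]; simp
    · intro hm
      exact absurd (mem_Icc.mpr ⟨le_rfl, by omega⟩) hm
  rw [hL, hs1, hs2, hs0]
  rw [add_comm ((if 1 ≤ j then 2 * c 1 else 0 : ℤ) : ℝ), ← add_assoc, ← sum_add_distrib,
    ← sum_add_distrib, add_comm]
  congr 1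
  apply sum_congr rfl
  intro m _
  push_cast
  ring

/-- COSEXP. Powers of `2cos θ` as integer combinations of `2cos(mθ)`; `e j` does not depend on `θ`.
Induction: show for every `j` there are integers `e_j` and `c_m` (`1 ≤ m ≤ j`) (independent of `θ`); multiply by
`2cos θ`: `2cosθ·2cos(mθ) = 2cos((m+1)θ) + 2cos((m-1)θ)` for `m ≥ 2`, `= 2cos 2θ + 2` for `m = 1`, and
`2cosθ·e_j = e_j·(2cos θ)`. -/
theorem cos_expansion : ∃ e : ℕ → ℤ, e 0 = 1 ∧ ∀ j : ℕ, ∃ c : ℕ → ℤ, ∀ θ : ℝ,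
    (2 * Real.cos θ) ^ j = e j + ∑ m ∈ Icc 1 j, (c m : ℝ) * (2 * Real.cos (m * θ)) := by
  have h : ∀ j : ℕ, ∃ e : ℤ, (j = 0 → e = 1) ∧ ∃ c : ℕ → ℤ, ∀ θ : ℝ,
      (2 * Real.cos θ) ^ j = e + ∑ m ∈ Icc 1 j, (c m : ℝ) * (2 * Real.cos (m * θ)) := by
    intro j
    induction j with
    | zero => exact ⟨1, fun _ => rfl, fun _ => 0, fun θ => by simp⟩
    | succ j ih =>
      obtain ⟨e, -, c, hc⟩ := ih
      obtain ⟨e', c', h'⟩ := cosexp_step j e c hc
      exact ⟨e', fun h0 => by omega, c', h'⟩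
  choose e he1 c hc using h
  exact ⟨e, he1 0 rfl, fun j => ⟨c j, hc j⟩⟩

end MP225
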