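import Mathlib

/-!
# MP_225a87_nt : conjugate sets in intervals of length 4 (definitions)

`ConjIn a p`: `p` is a monic irreducible integer polynomial all of whose complex roots are real and lie
in `[a, a+4]`, i.e. the zeros of `p` form a conjugate set contained in `[a, a+4]`.
-/

open Polynomial

namespace MP225

/-- The zeros of `p` form a conjugate set contained in `[a, a+4]`. -/
def ConjIn (a : ℝ) (p : ℤ[X]) : Prop :=
  p.Monic ∧ Irreducible p ∧ ∀ z : ℂ, aeval z p = 0 → z.im = 0 ∧ a ≤ z.re ∧ z.re ≤ a + 4

/-- The finite set of complex roots of `p`. -/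
noncomputable def rts (p : ℤ[X]) : Finset ℂ := (p.aroots ℂ).toFinset

end MP225
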