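import Mathlib

open Polynomial Finset IntermediateField

namespace MP225

/-- the second coefficient of a cyclotomic polynomial of non-squarefree index vanishes -/
private theorem D1_nextCoeff (m : ℕ) (hm : 0 < m) (h : ¬ Squarefree m) :
    (cyclotomic m ℚ).nextCoeff = 0 := by
  rw [Nat.squarefree_iff_prime_squarefree] at h
  push Not at h
  obtain ⟨q, hq, n, hn⟩ := h
  have hn0 : 0 < n := by
    rcases Nat.eq_zero_or_pos n with h0 | h0
    · rw [h0, mul_zero] at hn
      omega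
    · exact h0
  have h1 : m = (q * n) * q := by rw [hn]; ring
  rw [h1, ← cyclotomic_expand_eq_cyclotomic hq (Dvd.intro n rfl) ℚ]
  have hdeg : (expand ℚ q (cyclotomic (q * n) ℚ)).natDegree = (q * n).totient * q := by
    rw [natDegree_expand, natDegree_cyclotomic]
  have htot : 0 < (q * n).totient := Nat.totient_pos.2 (Nat.mul_pos hq.pos hn0)
  have hpos : 0 < (q * n).totient * q := Nat.mul_pos htot hq.pos
  rw [nextCoeff_of_natDegree_pos (by rw [hdeg]; exact hpos), hdeg, coeff_expand hq.pos, if_neg]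
  intro hdvd
  have h2 : q ∣ 1 := by
    have h3 : q ∣ (q * n).totient * q := Dvd.intro_left _ rfl
    have h4 := Nat.dvd_sub h3 hdvd
    rwa [Nat.sub_sub_self hpos] at h4
  exact hq.one_lt.ne' (Nat.dvd_one.1 h2)

/-- totient of a squarefree number -/
private theorem D1_tot (m : ℕ) (hm : Squarefree m) : m.totient = ∏ p ∈ m.primeFactors, (p - 1) := by
  have h := Nat.totient_mul_prod_primeFactors m
  rw [Nat.prod_primeFactors_of_squarefree hm, mul_comm] at h
  exact Nat.eq_of_mul_eq_mul_left (Nat.pos_of_ne_zero hm.ne_zero) h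

/-- the case of a root of unity -/
private theorem D1_root {L : Type*} [Field L] [NumberField L] (N : ℕ) [NeZero N]
    [IsCyclotomicExtension {N} ℚ L] (S : Finset ℕ) (hS : ∀ q : ℕ, q.Prime → q ∣ N → q ∈ S)
    (w : L) (hw : w ^ N = 1) :
    ∃ t : ℤ, (∏ q ∈ S.filter Nat.Prime, ((q : ℚ) - 1)) * Algebra.trace ℚ L w =
      t * N.totient := by
  have hN : 0 < N := NeZero.pos N
  obtain ⟨m, hm⟩ : ∃ m, m = orderOf w := ⟨_, rfl⟩
  have hprim : IsPrimitiveRoot w m := by rw [hm]; exact IsPrimitiveRoot.orderOf w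
  have hmN : m ∣ N := by rw [hm]; exact orderOf_dvd_of_pow_eq_one hw
  have hm0 : 0 < m := Nat.pos_of_dvd_of_pos hmN hN
  have hmin : minpoly ℚ w = cyclotomic m ℚ := (cyclotomic_eq_minpoly_rat hprim hm0).symm
  have htr := trace_eq_finrank_mul_minpoly_nextCoeff ℚ w
  rw [hmin] at htr
  have hint : IsIntegral ℚ w := Algebra.IsIntegral.isIntegral w
  have hfin : Module.finrank ℚ ℚ⟮w⟯ * Module.finrank ℚ⟮w⟯ L = Module.finrank ℚ L :=
    Module.finrank_mul_finrank _ _ _
  rw [IntermediateField.adjoin.finrank hint, hmin, natDegree_cyclotomic,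
    IsCyclotomicExtension.Rat.finrank N L] at hfin
  by_cases hsq : Squarefree m
  · have hdvd : m.totient ∣ ∏ q ∈ S.filter Nat.Prime, (q - 1) := by
      rw [D1_tot m hsq]
      refine Finset.prod_dvd_prod_of_subset _ _ _ ?_
      intro q hq
      have hqp := Nat.prime_of_mem_primeFactors hq
      rw [Finset.mem_filter]
      exact ⟨hS q hqp ((Nat.dvd_of_mem_primeFactors hq).trans hmN), hqp⟩
    obtain ⟨e, he⟩ := hdvd
    have hcast : (∏ q ∈ S.filter Nat.Prime, ((q : ℚ) - 1)) =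
        ((∏ q ∈ S.filter Nat.Prime, (q - 1) : ℕ) : ℚ) := by
      rw [Nat.cast_prod]
      refine Finset.prod_congr rfl fun q hq => ?_
      rw [Finset.mem_filter] at hq
      rw [Nat.cast_sub hq.2.one_lt.le, Nat.cast_one]
    have hnc : (cyclotomic m ℚ).nextCoeff = ((cyclotomic m ℤ).nextCoeff : ℚ) := by
      rw [← map_cyclotomic_int, nextCoeff_map (RingHom.injective_int (Int.castRingHom ℚ))]
      rfl
    refine ⟨-(e * (cyclotomic m ℤ).nextCoeff), ?_⟩
    rw [hcast, he, htr, hnc, ← hfin]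
    push_cast
    ring
  · refine ⟨0, ?_⟩
    rw [htr, D1_nextCoeff m hm0 hsq]
    simp

/-- DEN1 (piece D1). `Φ(m) Σ`: for a primitive `m`-th root of unity `ζ` with `m ∣ N`, the average of the
conjugates of `ζ` is `μ(m)/φ(m)`, which is `0` unless `m` is squarefree. Statement: for `y` in the ring of
integers of `ℚ(ζ_N)`, all prime factors of `N` in `S`:
`(∏_{q ∈ S, q prime} (q-1)) · Tr(y) ∈ φ(N) ℤ`. Proof: `𝓞 = ℤ[ζ]`, so by additivity `y = ζ^l`, a primitive
`m`-th root of unity with `m ∣ N`; `Tr_{ℚ(ζ_N)/ℚ}(y) = (φ(N)/φ(m)) Tr_{ℚ(ζ_m)/ℚ}(y)`; if `q² ∣ m` for a prime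
`q`, then `cyclotomic m` is a polynomial in `X^q` (`Polynomial.cyclotomic_expand_eq_cyclotomic`) so the trace
is `0`; otherwise `m` is squarefree and `φ(m) = ∏_{q ∣ m} (q-1)` divides the product. -/
theorem trace_den {L : Type*} [Field L] [NumberField L] (N : ℕ) [NeZero N] [IsCyclotomicExtension {N} ℚ L]
    (S : Finset ℕ) (hS : ∀ q : ℕ, q.Prime → q ∣ N → q ∈ S) (y : L) (hy : IsIntegral ℤ y) :
    ∃ t : ℤ, (∏ q ∈ S.filter Nat.Prime, ((q : ℚ) - 1)) * Algebra.trace ℚ L y = t * N.totient := by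
  have hζ := IsCyclotomicExtension.zeta_spec N ℚ L
  have hcl := IsCyclotomicExtension.Rat.isIntegralClosure_adjoin_singleton hζ
  obtain ⟨y', hy'⟩ := hcl.isIntegral_iff.1 hy
  have hmem : y ∈ Algebra.adjoin ℤ {IsCyclotomicExtension.zeta N ℚ L} := by
    rw [← hy']
    exact y'.2
  rw [Algebra.adjoin_singleton_eq_range_aeval] at hmem
  obtain ⟨p, hp⟩ := hmem
  have hsum : y = ∑ i ∈ range (p.natDegree + 1),
      (p.coeff i) • (IsCyclotomicExtension.zeta N ℚ L) ^ i := by
    rw [← hp]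
    exact aeval_eq_sum_range _
  have hroot : ∀ i : ℕ, ∃ t : ℤ, (∏ q ∈ S.filter Nat.Prime, ((q : ℚ) - 1)) *
      Algebra.trace ℚ L ((IsCyclotomicExtension.zeta N ℚ L) ^ i) = t * N.totient := by
    intro i
    refine D1_root N S hS _ ?_
    rw [← pow_mul, mul_comm, pow_mul, hζ.pow_eq_one, one_pow]
  choose t ht using hroot
  refine ⟨∑ i ∈ range (p.natDegree + 1), p.coeff i * t i, ?_⟩
  rw [hsum, map_sum, Finset.mul_sum, Int.cast_sum, Finset.sum_mul]
  refine Finset.sum_congr rfl fun i _ => ?_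
  rw [map_zsmul, zsmul_eq_mul, Int.cast_mul, mul_assoc, ← ht i]
  ring

end MP225
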