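import Pool.Agent.Lib_MP_225a87_nt.Fiber
import Pool.Agent.Lib_MP_225a87_nt.TraceDen

open Polynomial Finset IntermediateField

namespace MP225

/-- DEN (piece D2). `D = [K:ℚ]! · ∏_{q∈S prime}(q-1)`. `L = K ⊔ ℚ⟮ζ⟯ ⊇ Q_N = ℚ⟮ζ⟯`, `e = [L:Q_N] ≤ [K:ℚ]`,
`[L:ℚ] = e φ(N)`. By `fiber` (with `g w = w^j`, `β = z`) and `trace_eq_sum_embeddings`,
`[L:ℚ] ∑_w w^j = n · Tr_{L/ℚ}(z^j) = n · Tr_{Q_N/ℚ}(y)`, `y = Tr_{L/Q_N}(z^j)` integral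
(`Algebra.isIntegral_trace`), and `trace_den`. -/
theorem den (K : IntermediateField ℚ ℂ) [NumberField K] (S : Finset ℕ) : ∃ D : ℕ, 0 < D ∧
    ∀ (N : ℕ), 0 < N → (∀ q : ℕ, q.Prime → q ∣ N → q ∈ S) → ∀ ζ : ℂ, IsPrimitiveRoot ζ N →
    ∀ (p : ℤ[X]), p.Monic → Irreducible p → ∀ z : ℂ, aeval z p = 0 → z ∈ K ⊔ ℚ⟮ζ⟯ →
    ∀ j : ℕ, ∃ t : ℤ, (D : ℂ) * ∑ w ∈ rts p, w ^ j = t * p.natDegree := by
  refine ⟨(Module.finrank ℚ K).factorial * ∏ q ∈ S.filter Nat.Prime, (q - 1), ?_, ?_⟩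
  · refine Nat.mul_pos (Nat.factorial_pos _) (Finset.prod_pos fun q hq => ?_)
    have := (Finset.mem_filter.1 hq).2.two_le
    omega
  intro N hN hS ζ hζ p hp hi z hz hzL j
  have : NeZero N := ⟨hN.ne'⟩
  have hζi : IsIntegral ℚ ζ := (hζ.isIntegral hN).tower_top
  have hcyc : IsCyclotomicExtension {N} ℚ ℚ⟮ζ⟯ := by
    change IsCyclotomicExtension {N} ℚ (ℚ⟮ζ⟯.toSubalgebra)
    rw [IntermediateField.adjoin_simple_toSubalgebra_of_isAlgebraic hζi.isAlgebraic]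
    exact hζ.adjoin_isCyclotomicExtension ℚ
  have hnfQ : NumberField ℚ⟮ζ⟯ := IsCyclotomicExtension.numberField {N} ℚ _
  have hfd : FiniteDimensional ℚ ↥(K ⊔ ℚ⟮ζ⟯) := inferInstance
  have hnfL : NumberField ↥(K ⊔ ℚ⟮ζ⟯) := ⟨⟩
  let alg : Algebra ↥ℚ⟮ζ⟯ ↥(K ⊔ ℚ⟮ζ⟯) :=
    (IntermediateField.inclusion (le_sup_right : ℚ⟮ζ⟯ ≤ K ⊔ ℚ⟮ζ⟯)).toRingHom.toAlgebra
  have tow : IsScalarTower ℚ ↥ℚ⟮ζ⟯ ↥(K ⊔ ℚ⟮ζ⟯) := IsScalarTower.of_algebraMap_eq fun x => by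
    exact ((IntermediateField.inclusion (le_sup_right : ℚ⟮ζ⟯ ≤ K ⊔ ℚ⟮ζ⟯)).commutes x).symm
  have hfdL : FiniteDimensional ↥ℚ⟮ζ⟯ ↥(K ⊔ ℚ⟮ζ⟯) := FiniteDimensional.right ℚ _ _
  set β : ↥(K ⊔ ℚ⟮ζ⟯) := ⟨z, hzL⟩ with hβ
  have hβ0 : aeval β p = 0 := by
    apply Subtype.coe_injective
    have : ((aeval β p : ↥(K ⊔ ℚ⟮ζ⟯)) : ℂ) = aeval z p := by
      have h := Polynomial.aeval_algebraMap_apply ℂ β p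
      exact h.symm
    change ((aeval β p : ↥(K ⊔ ℚ⟮ζ⟯)) : ℂ) = ((0 : ↥(K ⊔ ℚ⟮ζ⟯)) : ℂ)
    rw [this, hz]; rfl
  have hβi : IsIntegral ℤ β := ⟨p, hp, by rwa [← Polynomial.aeval_def]⟩
  have hfib := fiber p hp hi β hβ0 (fun w => w ^ j)
  have hsum : (∑ φ : ↥(K ⊔ ℚ⟮ζ⟯) →+* ℂ, (φ β) ^ j)
      = ((Algebra.trace ℚ ↥(K ⊔ ℚ⟮ζ⟯) (β ^ j) : ℚ) : ℂ) := by
    have h := trace_eq_sum_embeddings ℂ (K := ℚ) (L := ↥(K ⊔ ℚ⟮ζ⟯)) (x := β ^ j)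
    rw [eq_ratCast] at h
    rw [h]
    refine Fintype.sum_equiv (RingHom.equivRatAlgHom _ _) _ _ fun φ => ?_
    simp
  have htr : Algebra.trace ℚ ↥(K ⊔ ℚ⟮ζ⟯) (β ^ j)
      = Algebra.trace ℚ ↥ℚ⟮ζ⟯ (Algebra.trace ↥ℚ⟮ζ⟯ ↥(K ⊔ ℚ⟮ζ⟯) (β ^ j)) :=
    (Algebra.trace_trace (R := ℚ) (S := ↥ℚ⟮ζ⟯) (T := ↥(K ⊔ ℚ⟮ζ⟯)) (β ^ j)).symm
  have hyi : IsIntegral ℤ (Algebra.trace ↥ℚ⟮ζ⟯ ↥(K ⊔ ℚ⟮ζ⟯) (β ^ j)) :=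
    Algebra.isIntegral_trace (hβi.pow j)
  obtain ⟨t, ht⟩ := trace_den N S hS _ hyi
  rw [← htr] at ht
  have hdeg : Module.finrank ℚ ↥ℚ⟮ζ⟯ = N.totient := IsCyclotomicExtension.finrank _
    (Polynomial.cyclotomic.irreducible_rat hN)
  have hmul : Module.finrank ℚ ↥ℚ⟮ζ⟯ * Module.finrank ↥ℚ⟮ζ⟯ ↥(K ⊔ ℚ⟮ζ⟯)
      = Module.finrank ℚ ↥(K ⊔ ℚ⟮ζ⟯) := Module.finrank_mul_finrank _ _ _
  have hle : Module.finrank ℚ ↥(K ⊔ ℚ⟮ζ⟯) ≤ Module.finrank ℚ K * Module.finrank ℚ ↥ℚ⟮ζ⟯ :=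
    IntermediateField.finrank_sup_le _ _
  have htot : 0 < N.totient := Nat.totient_pos.2 hN
  set e := Module.finrank ↥ℚ⟮ζ⟯ ↥(K ⊔ ℚ⟮ζ⟯) with he
  have he0 : 0 < e := Module.finrank_pos
  have heK : e ≤ Module.finrank ℚ K := by
    rw [← hmul, hdeg, mul_comm (Module.finrank ℚ K)] at hle
    exact Nat.le_of_mul_le_mul_left hle htot
  obtain ⟨c, hc⟩ := Nat.dvd_factorial he0 heK
  refine ⟨c * t, ?_⟩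
  rw [hsum, ← hmul, hdeg] at hfib
  have ht' : ((∏ q ∈ S.filter Nat.Prime, (q - 1) : ℕ) : ℂ)
      * ((Algebra.trace ℚ ↥(K ⊔ ℚ⟮ζ⟯) (β ^ j) : ℚ) : ℂ) = t * (N.totient : ℂ) := by
    have h1 : ((∏ q ∈ S.filter Nat.Prime, (q - 1) : ℕ) : ℚ)
        = ∏ q ∈ S.filter Nat.Prime, ((q : ℚ) - 1) := by
      rw [Nat.cast_prod]
      refine Finset.prod_congr rfl fun q hq => ?_
      have := (Finset.mem_filter.1 hq).2.one_lt.le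
      push_cast [Nat.cast_sub this]
      ring
    have h2 : ((((∏ q ∈ S.filter Nat.Prime, (q - 1) : ℕ) : ℚ)
        * Algebra.trace ℚ ↥(K ⊔ ℚ⟮ζ⟯) (β ^ j) : ℚ) : ℂ) = ((t * N.totient : ℚ) : ℂ) := by
      rw [h1, ht]
    rw [Rat.cast_mul, Rat.cast_natCast, Rat.cast_mul, Rat.cast_intCast, Rat.cast_natCast] at h2
    exact h2
  have htot' : (N.totient : ℂ) ≠ 0 := by exact_mod_cast htot.ne'
  push_cast at hfib ⊢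
  rw [hc]
  push_cast
  apply mul_left_cancel₀ htot'
  push_cast at ht'
  calc (N.totient : ℂ) * (e * c * (∏ q ∈ S.filter Nat.Prime, ((q - 1 : ℕ) : ℂ)) * ∑ w ∈ rts p, w ^ j)
      = c * (∏ q ∈ S.filter Nat.Prime, ((q - 1 : ℕ) : ℂ)) * (N.totient * e * ∑ w ∈ rts p, w ^ j) := by
        ring
    _ = c * (∏ q ∈ S.filter Nat.Prime, ((q - 1 : ℕ) : ℂ)) *
        (((Algebra.trace ℚ ↥(K ⊔ ℚ⟮ζ⟯) (β ^ j) : ℚ) : ℂ) * p.natDegree) := by rw [hfib]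
    _ = c * ((∏ q ∈ S.filter Nat.Prime, ((q - 1 : ℕ) : ℂ)) *
        ((Algebra.trace ℚ ↥(K ⊔ ℚ⟮ζ⟯) (β ^ j) : ℚ) : ℂ)) * p.natDegree := by ring
    _ = c * (t * N.totient) * p.natDegree := by rw [ht']
    _ = _ := by ring

end MP225
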