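import Pool.Agent.Lib_MP_225a87_nt.Defs

open Polynomial Finset

namespace MP225

/-- DISC (piece N3). `p` is irreducible over `ℚ`, hence separable, so it has `natDegree` distinct complex
roots. `∏_{w ≠ z} (z - w) = p'(z)` and `∏_z p'(z)` is (up to sign) the resultant / the norm of the
nonzero algebraic integer `p'(β)`, a nonzero integer (e.g. `Algebra.norm` in `ℚ(β)` or `AdjoinRoot`,
or `Algebra.discr_powerBasis_eq_prod''`, `Algebra.discr_isIntegral`, or `Polynomial.resultant`). -/
theorem disc_ge_one (p : ℤ[X]) (hp : p.Monic) (hi : Irreducible p) :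
    (rts p).card = p.natDegree ∧ 1 ≤ ∏ z ∈ rts p, ∏ w ∈ (rts p).erase z, ‖z - w‖ := by
  set P : ℂ[X] := p.map (algebraMap ℤ ℂ) with hP
  have hPm : P.Monic := hp.map _
  have hirrQ : Irreducible (p.map (algebraMap ℤ ℚ)) :=
    (hp.irreducible_iff_irreducible_map_fraction_map (K := ℚ)).1 hi
  have hsepQ : (p.map (algebraMap ℤ ℚ)).Separable := hirrQ.separable
  have hsep : P.Separable := by
    have h := hsepQ.map (f := algebraMap ℚ ℂ)
    rwa [Polynomial.map_map, ← IsScalarTower.algebraMap_eq] at h
  have hnd : P.roots.Nodup := nodup_roots hsep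
  have hspl : P.Splits := IsAlgClosed.splits P
  have hcard : P.roots.card = P.natDegree := splits_iff_card_roots.1 hspl
  have hdeg : P.natDegree = p.natDegree := hp.natDegree_map _
  have hr : (rts p).val = P.roots := by
    unfold rts
    rw [Multiset.toFinset_val]
    exact Multiset.dedup_eq_self.2 hnd
  refine ⟨by rw [Finset.card, hr, hcard, hdeg], ?_⟩
  -- derivative at the roots
  have hprod : (P.roots.map fun a => X - C a).prod = P :=
    (hspl.eq_prod_roots_of_monic hPm).symm
  have hder : ∀ z ∈ rts p, eval z (derivative P) = ∏ w ∈ (rts p).erase z, (z - w) := by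
    intro z hz
    have hz' : z ∈ P.roots := by rw [← hr]; exact hz
    have h := eval_multiset_prod_X_sub_C_derivative hz'
    rw [hprod] at h
    rw [h, Finset.prod, Finset.erase_val, hr]
  have hres : ((resultant p (derivative p) p.natDegree (derivative p).natDegree : ℤ) : ℂ) =
      ∏ z ∈ rts p, ∏ w ∈ (rts p).erase z, (z - w) := by
    have h1 := resultant_eq_prod_eval P (derivative P) (derivative p).natDegree
      (by rw [hP, derivative_map]; exact natDegree_map_le) hspl
    rw [hPm.leadingCoeff, one_pow, one_mul, hdeg] at h1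
    have h2 : resultant P (derivative P) p.natDegree (derivative p).natDegree =
        algebraMap ℤ ℂ (resultant p (derivative p) p.natDegree (derivative p).natDegree) := by
      rw [hP, derivative_map, resultant_map_map]
    rw [h2] at h1
    rw [← Finset.prod_congr rfl hder, Finset.prod, hr, ← h1]
    simp
  have hne : (∏ z ∈ rts p, ∏ w ∈ (rts p).erase z, (z - w)) ≠ 0 := by
    rw [Finset.prod_ne_zero_iff]
    intro z _
    rw [Finset.prod_ne_zero_iff]
    intro w hw
    exact sub_ne_zero.2 (Finset.ne_of_mem_erase hw).symm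
  have hn : ∏ z ∈ rts p, ∏ w ∈ (rts p).erase z, ‖z - w‖ =
      ‖((resultant p (derivative p) p.natDegree (derivative p).natDegree : ℤ) : ℂ)‖ := by
    rw [hres, norm_prod]
    exact Finset.prod_congr rfl fun z _ => (norm_prod _ _).symm
  rw [hn, Complex.norm_intCast]
  have h0 : (resultant p (derivative p) p.natDegree (derivative p).natDegree : ℤ) ≠ 0 := by
    intro h
    rw [h] at hres
    exact hne (by rw [← hres]; simp)
  exact_mod_cast Int.one_le_abs h0

end MP225
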