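import Mathlib

open Polynomial Finset IntermediateField

namespace MP225

private lemma dadj_mem {K E : Type*} [Field K] [NumberField K] [Field E] [NumberField E] [Algebra K E]
    (m : ℕ) (hm : 0 < m) (ζ : NumberField.RingOfIntegers E) (hζ : ζ ^ m = 1)
    (hadj : Algebra.adjoin K {(algebraMap (NumberField.RingOfIntegers E) E ζ)} = ⊤) :
    (m : NumberField.RingOfIntegers E) ∈
      differentIdeal (NumberField.RingOfIntegers K) (NumberField.RingOfIntegers E) := by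
  have hint : IsIntegral (NumberField.RingOfIntegers K) ζ := Algebra.IsIntegral.isIntegral ζ
  have h0 : (aeval ζ) (X ^ m - 1 : (NumberField.RingOfIntegers K)[X]) = 0 := by
    simp [hζ]
  have hdvd := minpoly.isIntegrallyClosed_dvd hint h0
  obtain ⟨q, hq⟩ := hdvd
  have hder := congrArg (fun p => aeval ζ (derivative p)) hq
  simp only [derivative_sub, derivative_X_pow, derivative_one, sub_zero, derivative_mul, map_add,
    map_mul, map_pow, aeval_X, minpoly.aeval, zero_mul, add_zero, map_natCast] at hder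
  have hmem := aeval_derivative_mem_differentIdeal (NumberField.RingOfIntegers K) K E ζ hadj
  have hpow : ζ ^ (m - 1) * ζ = 1 := by
    rw [← pow_succ, Nat.sub_add_cancel hm, hζ]
  have key : (m : NumberField.RingOfIntegers E) =
      (aeval ζ q * ζ) * (aeval ζ) (derivative (minpoly (NumberField.RingOfIntegers K) ζ)) := by
    calc (m : NumberField.RingOfIntegers E) = (m : NumberField.RingOfIntegers E) * (ζ ^ (m - 1) * ζ) := by
          rw [hpow, mul_one]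
      _ = ((m : NumberField.RingOfIntegers E) * ζ ^ (m - 1)) * ζ := by ring
      _ = _ := by rw [hder]; ring
  rw [key]
  exact Ideal.mul_mem_left _ _ hmem

private lemma dadj_main {K E : Type*} [Field K] [NumberField K] [Field E] [NumberField E] [Algebra K E]
    (m : ℕ) (hm : 0 < m) (ζ : NumberField.RingOfIntegers E) (hζ : ζ ^ m = 1)
    (hadj : Algebra.adjoin K {(algebraMap (NumberField.RingOfIntegers E) E ζ)} = ⊤)
    (ℓ : ℕ) (hℓ : ℓ.Prime) (hℓm : ¬ ℓ ∣ m)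
    (hd : ¬ (ℓ : ℤ) ∣ NumberField.discr K) : ¬ (ℓ : ℤ) ∣ NumberField.discr E := by
  intro hdiv
  have hmem := dadj_mem m hm ζ hζ hadj
  have hmain := NumberField.natAbs_discr_eq_absNorm_differentIdeal_mul_natAbs_discr_pow K
    (NumberField.RingOfIntegers K) E (NumberField.RingOfIntegers E)
  have h1 : ℓ ∣ (NumberField.discr E).natAbs := Int.natCast_dvd.mp hdiv
  rw [hmain] at h1
  rcases (Nat.Prime.dvd_mul hℓ).mp h1 with h2 | h2
  · have hle : Ideal.span {(m : NumberField.RingOfIntegers E)} ≤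
        differentIdeal (NumberField.RingOfIntegers K) (NumberField.RingOfIntegers E) := by
      rw [Ideal.span_singleton_le_iff_mem]; exact hmem
    have h3 := Ideal.absNorm_dvd_absNorm_of_le hle
    rw [Ideal.absNorm_span_singleton] at h3
    have h4 : Algebra.norm ℤ (m : NumberField.RingOfIntegers E) =
        (m : ℤ) ^ Module.finrank ℤ (NumberField.RingOfIntegers E) := by
      have := Algebra.norm_algebraMap_of_basis (NumberField.RingOfIntegers.basis E) (m : ℤ)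
      rw [Module.finrank_eq_card_basis (NumberField.RingOfIntegers.basis E)]
      simpa using this
    rw [h4, Int.natAbs_pow, Int.natAbs_natCast] at h3
    exact hℓm (hℓ.dvd_of_dvd_pow (h2.trans h3))
  · exact hd (Int.natCast_dvd.mpr (hℓ.dvd_of_dvd_pow h2))

private lemma dadj_general {L : Type*} [Field L] [CharZero L] [Algebra ℚ L] (F : IntermediateField ℚ L)
    [NumberField F] (m : ℕ)
    (hm : 0 < m) (ζ : L) (hζ : ζ ^ m = 1) (ℓ : ℕ) (hℓ : ℓ.Prime) (hℓm : ¬ ℓ ∣ m)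
    (hd : ¬ (ℓ : ℤ) ∣ NumberField.discr F) (hE : NumberField ↥(F ⊔ ℚ⟮ζ⟯)) :
    ¬ (ℓ : ℤ) ∣ NumberField.discr ↥(F ⊔ ℚ⟮ζ⟯) := by
  have hFE : F ≤ F ⊔ ℚ⟮ζ⟯ := le_sup_left
  let inc : F →+* ↥(F ⊔ ℚ⟮ζ⟯) :=
    { toFun := fun x => ⟨x.1, hFE x.2⟩
      map_one' := rfl
      map_mul' := fun _ _ => rfl
      map_zero' := rfl
      map_add' := fun _ _ => rfl }
  let alg : Algebra F ↥(F ⊔ ℚ⟮ζ⟯) := inc.toAlgebra
  have hζmem : ζ ∈ F ⊔ ℚ⟮ζ⟯ :=
    (le_sup_right (a := F) (b := ℚ⟮ζ⟯)) (IntermediateField.mem_adjoin_simple_self ℚ ζ)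
  set z : ↥(F ⊔ ℚ⟮ζ⟯) := ⟨ζ, hζmem⟩ with hz
  have hzpow : z ^ m = 1 := by
    apply Subtype.ext
    simpa [hz] using hζ
  have hzint : IsIntegral ℤ z := by
    refine ⟨X ^ m - 1, monic_X_pow_sub_C (1 : ℤ) hm.ne' |> (by simpa using ·), ?_⟩
    simp [hzpow]
  set Z : NumberField.RingOfIntegers ↥(F ⊔ ℚ⟮ζ⟯) := ⟨z, hzint⟩ with hZ
  have hZpow : Z ^ m = 1 := by
    apply NumberField.RingOfIntegers.ext
    simpa [hZ] using hzpow
  have hZz : algebraMap (NumberField.RingOfIntegers ↥(F ⊔ ℚ⟮ζ⟯)) ↥(F ⊔ ℚ⟮ζ⟯) Z = z := rfl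
  refine dadj_main (K := F) (E := ↥(F ⊔ ℚ⟮ζ⟯)) m hm Z hZpow ?_ ℓ hℓ hℓm hd
  rw [hZz]
  have halgz : IsAlgebraic F z := Algebra.IsAlgebraic.isAlgebraic z
  rw [← IntermediateField.adjoin_simple_toSubalgebra_of_isAlgebraic halgz]
  have htop : (F⟮z⟯ : IntermediateField F ↥(F ⊔ ℚ⟮ζ⟯)) = ⊤ := by
    let S : Subfield L := (F⟮z⟯ : IntermediateField F ↥(F ⊔ ℚ⟮ζ⟯)).toSubfield.map
      (F ⊔ ℚ⟮ζ⟯).toSubfield.subtype
    have hFS : ∀ x (hx : x ∈ F), x ∈ S := by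
      intro x hx
      refine ⟨algebraMap F ↥(F ⊔ ℚ⟮ζ⟯) ⟨x, hx⟩, ?_, rfl⟩
      exact IntermediateField.algebraMap_mem _ _
    let I : IntermediateField ℚ L := S.toIntermediateField (fun r => hFS _ (F.algebraMap_mem r))
    have hle : F ⊔ ℚ⟮ζ⟯ ≤ I := by
      refine sup_le ?_ ?_
      · intro x hx
        exact hFS x hx
      · rw [IntermediateField.adjoin_simple_le_iff]
        exact ⟨z, IntermediateField.mem_adjoin_simple_self F z, rfl⟩
    rw [eq_top_iff]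
    intro x _
    obtain ⟨y, hy, hyx⟩ := hle x.2
    have : y = x := Subtype.ext hyx
    rw [← this]
    exact hy
  rw [htop]
  exact IntermediateField.top_toSubalgebra

/-- DISCR (piece C3). Let `E = F(ζ)`, `g` the minimal polynomial of `ζ` over `F` (integral coefficients); it
divides `X^m - 1`, so `g'(ζ)` divides `m ζ^(m-1)` in `𝓞 E`, and `g'(ζ) ∈ differentIdeal (𝓞 F) (𝓞 E)`
(`aeval_derivative_mem_differentIdeal`), so `(m : 𝓞 E) ∈ differentIdeal (𝓞 F) (𝓞 E)` and its absolute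
norm divides a power of `m`, not divisible by `ℓ`. By
`NumberField.natAbs_discr_eq_absNorm_differentIdeal_mul_natAbs_discr_pow`,
`|discr E| = absNorm (differentIdeal (𝓞 F) (𝓞 E)) * |discr F|^[E:F]`. -/
theorem discr_adjoin {L : Type*} [Field L] [NumberField L] (F : IntermediateField ℚ L) (m : ℕ)
    (hm : 0 < m) (ζ : L) (hζ : IsPrimitiveRoot ζ m) (ℓ : ℕ) (hℓ : ℓ.Prime) (hℓm : ¬ ℓ ∣ m)
    (hd : ¬ (ℓ : ℤ) ∣ NumberField.discr F) :
    ¬ (ℓ : ℤ) ∣ NumberField.discr ↥(F ⊔ ℚ⟮ζ⟯) :=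
  dadj_general F m hm ζ hζ.pow_eq_one ℓ hℓ hℓm hd inferInstance

/-- DISCR_C (piece C4): `discr_adjoin` for subfields of `ℂ`: apply `discr_adjoin` inside `L = ↥(F ⊔ ℚ⟮ζ⟯)`
(where `F' ⊔ ℚ⟮ζ⟯ = ⊤`) and transport along the isomorphism `⊤ ≃ L`. -/
theorem discr_adjoin_C (F : IntermediateField ℚ ℂ) [NumberField F] (m : ℕ) (hm : 0 < m) (ζ : ℂ)
    (hζ : IsPrimitiveRoot ζ m) (ℓ : ℕ) (hℓ : ℓ.Prime) (hℓm : ¬ ℓ ∣ m)
    (hd : ¬ (ℓ : ℤ) ∣ NumberField.discr F) (hE : NumberField ↥(F ⊔ ℚ⟮ζ⟯)) :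
    ¬ (ℓ : ℤ) ∣ NumberField.discr ↥(F ⊔ ℚ⟮ζ⟯) :=
  dadj_general F m hm ζ hζ.pow_eq_one ℓ hℓ hℓm hd hE

end MP225
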