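import Pool.Agent.Lib_MP_225a87_nt.EnergyOfLog

open Finset

namespace MP225

/-- ENERGY (piece E). Energy inequality for points `2 cos θ_i` with discriminant `≥ 1`.

Proof. Put `n = card ι`, `ρ = 1 - 1/n ∈ [1/2, 1)`, `s_m = ∑ i, 2 cos (m θ_i)`.
(1) For real `ψ`: `‖1 - ρ e^{iψ}‖² = (1-ρ)² + ρ ‖1 - e^{iψ}‖² ≥ ρ ‖1 - e^{iψ}‖²` and
    `|2cos θ_i - 2cos θ_j| = ‖1 - e^{i(θ_i-θ_j)}‖ ‖1 - e^{i(θ_i+θ_j)}‖`, hence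
    `|2cos θ_i - 2cos θ_j| ≤ ρ⁻¹ A i j` with `A i j = ‖1 - ρ e^{i(θ_i-θ_j)}‖ ‖1 - ρ e^{i(θ_i+θ_j)}‖ > 0`.
(2) Diagonal: `A i i ≥ (1-ρ)²`. So `(1-ρ)^(2n) ≤ ρ^(-(n(n-1))) ∏_{i,j} A i j` (all `i,j`), i.e.
    `-2n log(1/(1-ρ)) ≤ n(n-1) log(1/ρ) + ∑_{i,j} log A i j`.
(3) `log ‖1 - ρ e^{iψ}‖ = - ∑_{m≥1} ρ^m cos(mψ)/m` (real part of `Complex.hasSum_taylorSeries_neg_log`), and
    `∑_{i,j} (cos m(θ_i-θ_j) + cos m(θ_i+θ_j)) = 2 (∑ cos mθ_i)² = s_m²/2`, so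
    `∑_{i,j} log A i j = - ∑_m ρ^m s_m²/(2m)` (HasSum, nonnegative terms), hence for every `m ≥ 1`
    `ρ^m s_m²/(2m) ≤ n(n-1) log(1/ρ) + 2n log n ≤ n + 2 n log n` (`log(1/ρ) = log(n/(n-1)) ≤ 1/(n-1)`).
(4) `ρ^m ≥ 2^{-m}`. -/
theorem energy {ι : Type*} [Fintype ι] [DecidableEq ι] (θ : ι → ℝ) (hn : 2 ≤ Fintype.card ι)
    (hd : 1 ≤ ∏ i, ∏ j ∈ univ.erase i, |2 * Real.cos (θ i) - 2 * Real.cos (θ j)|)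
    (m : ℕ) (hm : 1 ≤ m) :
    (∑ i, 2 * Real.cos (m * θ i)) ^ 2 ≤
      2 * m * 2 ^ m * (Fintype.card ι * (1 + 2 * Real.log (Fintype.card ι))) :=
  energy_of_energy_log θ hn hd m hm

end MP225
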