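import Mathlib

open Finset

namespace MP225

/-- auxiliary function of ENERGYLOG: `‖1 - ρ e^{iψ}‖²` -/
noncomputable def elq (ρ ψ : ℝ) : ℝ := (1 - ρ) ^ 2 + ρ * (2 - 2 * Real.cos ψ)

theorem elq_ge {ρ : ℝ} (h0 : 0 ≤ ρ) (ψ : ℝ) : (1 - ρ) ^ 2 ≤ elq ρ ψ := by
  have := Real.cos_le_one ψ
  have h1 : 0 ≤ ρ * (2 - 2 * Real.cos ψ) := mul_nonneg h0 (by linarith)
  unfold elq
  linarith

theorem elq_ge' (ρ ψ : ℝ) : ρ * (2 - 2 * Real.cos ψ) ≤ elq ρ ψ := by
  unfold elq
  nlinarith [sq_nonneg (1 - ρ)]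

theorem elq_hasSum {ρ : ℝ} (h0 : 0 ≤ ρ) (h1 : ρ < 1) (ψ : ℝ) :
    HasSum (fun k : ℕ => ρ ^ k * Real.cos (k * ψ) / k) (-(Real.log (elq ρ ψ) / 2)) := by
  set z : ℂ := ρ * Complex.exp (ψ * Complex.I) with hz
  have hzn : ‖z‖ < 1 := by
    rw [hz, norm_mul, Complex.norm_exp_ofReal_mul_I, Complex.norm_real, mul_one,
      Real.norm_of_nonneg h0]
    exact h1
  have h2 := Complex.hasSum_re (Complex.hasSum_taylorSeries_neg_log hzn)
  have h3 : ∀ k : ℕ, (z ^ k / (k : ℂ)).re = ρ ^ k * Real.cos (k * ψ) / k := by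
    intro k
    have h4 : z ^ k = ((ρ ^ k : ℝ) : ℂ) * Complex.exp (((k * ψ : ℝ) : ℂ) * Complex.I) := by
      rw [hz, mul_pow, ← Complex.exp_nat_mul]
      push_cast
      ring_nf
    rw [h4, ← Complex.ofReal_natCast, Complex.div_ofReal_re, Complex.re_ofReal_mul,
      Complex.exp_ofReal_mul_I_re]
  have h5 : (-Complex.log (1 - z)).re = -(Real.log (elq ρ ψ) / 2) := by
    rw [Complex.neg_re, Complex.log_re]
    have h6 : ‖1 - z‖ ^ 2 = elq ρ ψ := by
      rw [← Complex.normSq_eq_norm_sq, Complex.normSq_apply]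
      have hre : (1 - z).re = 1 - ρ * Real.cos ψ := by
        rw [hz, Complex.sub_re, Complex.one_re, Complex.re_ofReal_mul,
          Complex.exp_ofReal_mul_I_re]
      have him : (1 - z).im = -(ρ * Real.sin ψ) := by
        rw [hz, Complex.sub_im, Complex.one_im, Complex.im_ofReal_mul,
          Complex.exp_ofReal_mul_I_im, zero_sub]
      rw [hre, him]
      unfold elq
      nlinarith [Real.sin_sq_add_cos_sq ψ]
    rw [← h6, Real.log_pow]
    push_cast
    ring
  rw [← h5]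
  have h7 : (fun k : ℕ => ρ ^ k * Real.cos (k * ψ) / k) = fun k : ℕ => (z ^ k / (k : ℂ)).re :=
    funext fun k => (h3 k).symm
  rw [h7]
  exact h2

/-- the pair estimate -/
theorem elq_pair {ρ : ℝ} (h0 : 0 < ρ) (a b : ℝ) (hab : Real.cos a ≠ Real.cos b) :
    2 * Real.log |2 * Real.cos a - 2 * Real.cos b| ≤
      2 * Real.log ρ⁻¹ + (Real.log (elq ρ (a + b)) + Real.log (elq ρ (a - b))) := by
  have hne : 2 * Real.cos a - 2 * Real.cos b ≠ 0 := by
    intro h
    apply hab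
    linarith
  have hprod : (2 * Real.cos a - 2 * Real.cos b) ^ 2 =
      (2 - 2 * Real.cos (a + b)) * (2 - 2 * Real.cos (a - b)) := by
    rw [Real.cos_add, Real.cos_sub]
    have h1 := Real.sin_sq_add_cos_sq a
    have h2 := Real.sin_sq_add_cos_sq b
    have h3 : Real.sin a ^ 2 = 1 - Real.cos a ^ 2 := by linarith
    have h4 : Real.sin b ^ 2 = 1 - Real.cos b ^ 2 := by linarith
    have h5 : (2 - 2 * (Real.cos a * Real.cos b - Real.sin a * Real.sin b)) *
        (2 - 2 * (Real.cos a * Real.cos b + Real.sin a * Real.sin b)) =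
        (2 - 2 * (Real.cos a * Real.cos b)) ^ 2 - 4 * (Real.sin a ^ 2 * Real.sin b ^ 2) := by ring
    rw [h5, h3, h4]
    ring
  have hpos : 0 < (2 * Real.cos a - 2 * Real.cos b) ^ 2 := by positivity
  have hA : 0 ≤ 2 - 2 * Real.cos (a + b) := by linarith [Real.cos_le_one (a + b)]
  have hB : 0 ≤ 2 - 2 * Real.cos (a - b) := by linarith [Real.cos_le_one (a - b)]
  have hA' : 0 < 2 - 2 * Real.cos (a + b) := by
    rcases hA.lt_or_eq with h | h
    · exact h
    · rw [hprod, ← h, zero_mul] at hpos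
      exact absurd hpos (lt_irrefl 0)
  have hB' : 0 < 2 - 2 * Real.cos (a - b) := by
    rcases hB.lt_or_eq with h | h
    · exact h
    · rw [hprod, ← h, mul_zero] at hpos
      exact absurd hpos (lt_irrefl 0)
  have h6 : 2 * Real.log |2 * Real.cos a - 2 * Real.cos b| =
      Real.log (2 - 2 * Real.cos (a + b)) + Real.log (2 - 2 * Real.cos (a - b)) := by
    rw [← Real.log_mul hA'.ne' hB'.ne', ← hprod, Real.log_pow, Real.log_abs]
    push_cast
    ring
  have h7 : ∀ ψ : ℝ, 0 < 2 - 2 * Real.cos ψ →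
      Real.log (2 - 2 * Real.cos ψ) ≤ Real.log ρ⁻¹ + Real.log (elq ρ ψ) := by
    intro ψ hψ
    have h8 : 0 < ρ * (2 - 2 * Real.cos ψ) := mul_pos h0 hψ
    have h9 := Real.log_le_log h8 (elq_ge' ρ ψ)
    rw [Real.log_mul h0.ne' hψ.ne'] at h9
    rw [Real.log_inv]
    linarith
  rw [h6]
  linarith [h7 _ hA', h7 _ hB']

/-- ENERGYLOG. Same proof as `energy` (file Energy.lean, see there: copy and adapt), without the hypothesis that
the discriminant is at least 1: with `n = card ι ≥ 2`, `ρ = 1 - 1/n`, `s_m = ∑ 2cos(mθ_i)`,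
`∑_{i≠j} log|2cosθ_i - 2cosθ_j| ≤ n(n-1) log(1/ρ) + 2n log(1/(1-ρ)) - ∑_m ρ^m s_m²/(2m)`.
For `n = 1` the right side is `2 m 2^m ≥ 4 ≥ s_m²`. -/
theorem energy_log {ι : Type*} [Fintype ι] [DecidableEq ι] (θ : ι → ℝ) (hn : 1 ≤ Fintype.card ι)
    (hne : ∀ i j, i ≠ j → Real.cos (θ i) ≠ Real.cos (θ j)) (m : ℕ) (hm : 1 ≤ m) :
    (∑ i, 2 * Real.cos (m * θ i)) ^ 2 ≤
      2 * m * 2 ^ m * (Fintype.card ι * (1 + 2 * Real.log (Fintype.card ι)) -
        ∑ i, ∑ j ∈ univ.erase i, Real.log |2 * Real.cos (θ i) - 2 * Real.cos (θ j)|) := by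
  have hm1 : (1 : ℝ) ≤ m := by exact_mod_cast hm
  rcases hn.eq_or_lt with hn1 | hn2
  · obtain ⟨i₀, hi₀⟩ := Fintype.card_eq_one_iff.mp hn1.symm
    have huniv : (univ : Finset ι) = {i₀} := by
      ext j
      simp [hi₀ j]
    rw [← hn1, huniv]
    simp only [sum_singleton, Nat.cast_one, Real.log_one, mul_zero, add_zero, mul_one,
      erase_singleton, sum_empty, sub_zero]
    have h1 : (2 * Real.cos (m * θ i₀)) ^ 2 ≤ 4 := by
      nlinarith [Real.cos_sq_le_one (m * θ i₀)]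
    have h2 : (2 : ℝ) ≤ 2 ^ m := by
      calc (2 : ℝ) = 2 ^ 1 := by norm_num
        _ ≤ 2 ^ m := pow_le_pow_right₀ (by norm_num) hm
    nlinarith
  · set n : ℕ := Fintype.card ι with hnn
    have hnR : (2 : ℝ) ≤ n := by exact_mod_cast hn2
    have hn0 : (0 : ℝ) < n := by linarith
    set ρ : ℝ := 1 - 1 / n with hρ
    have hinv : (1 : ℝ) / n ≤ 1 / 2 := one_div_le_one_div_of_le (by norm_num) hnR
    have hinv0 : (0 : ℝ) < 1 / n := by positivity
    have hρ2 : 1 / 2 ≤ ρ := by rw [hρ]; linarith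
    have hρ0 : 0 < ρ := by linarith
    have hρ1 : ρ < 1 := by rw [hρ]; linarith
    have h1ρ : 1 - ρ = 1 / n := by rw [hρ]; ring
    -- the series
    have hser : HasSum (fun k : ℕ => ∑ i, ∑ j, (ρ ^ k * Real.cos (k * (θ i + θ j)) / k +
        ρ ^ k * Real.cos (k * (θ i - θ j)) / k))
        (∑ i, ∑ j, (-(Real.log (elq ρ (θ i + θ j)) / 2) + -(Real.log (elq ρ (θ i - θ j)) / 2))) :=
      hasSum_sum fun i _ => hasSum_sum fun j _ =>
        (elq_hasSum hρ0.le hρ1 _).add (elq_hasSum hρ0.le hρ1 _)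
    have hterm : ∀ k : ℕ, (∑ i, ∑ j, (ρ ^ k * Real.cos (k * (θ i + θ j)) / k +
        ρ ^ k * Real.cos (k * (θ i - θ j)) / k)) =
        ρ ^ k / (2 * k) * (∑ i, 2 * Real.cos (k * θ i)) ^ 2 := by
      intro k
      rw [sq, sum_mul_sum, mul_sum]
      refine sum_congr rfl fun i _ => ?_
      rw [mul_sum]
      refine sum_congr rfl fun j _ => ?_
      rw [mul_add, mul_sub, Real.cos_add, Real.cos_sub]
      rcases Nat.eq_zero_or_pos k with hk | hk
      · subst hk
        simp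
      · have hk' : (k : ℝ) ≠ 0 := by positivity
        field_simp
        ring
    have hnonneg : ∀ k : ℕ, 0 ≤ ρ ^ k / (2 * k) * (∑ i, 2 * Real.cos (k * θ i)) ^ 2 :=
      fun k => by positivity
    have hser2 : HasSum (fun k : ℕ => ρ ^ k / (2 * k) * (∑ i, 2 * Real.cos (k * θ i)) ^ 2)
        (∑ i, ∑ j, (-(Real.log (elq ρ (θ i + θ j)) / 2) +
          -(Real.log (elq ρ (θ i - θ j)) / 2))) := by
      rw [← funext hterm]
      exact hser
    have hone : ρ ^ m / (2 * m) * (∑ i, 2 * Real.cos (m * θ i)) ^ 2 ≤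
        ∑ i, ∑ j, (-(Real.log (elq ρ (θ i + θ j)) / 2) +
          -(Real.log (elq ρ (θ i - θ j)) / 2)) :=
      le_hasSum hser2 m fun k _ => hnonneg k
    -- split off the diagonal
    have hdiag : ∀ i, -(Real.log (elq ρ (θ i + θ i)) / 2) + -(Real.log (elq ρ (θ i - θ i)) / 2) ≤
        2 * Real.log n := by
      intro i
      have h2 : ∀ ψ, -(Real.log (elq ρ ψ) / 2) ≤ Real.log n := by
        intro ψ
        have h3 : (0 : ℝ) < (1 - ρ) ^ 2 := by rw [h1ρ]; positivity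
        have h4 := Real.log_le_log h3 (elq_ge hρ0.le ψ)
        rw [Real.log_pow, h1ρ, one_div, Real.log_inv] at h4
        push_cast at h4
        linarith
      linarith [h2 (θ i + θ i), h2 (θ i - θ i)]
    have hoff : ∀ i j, i ≠ j → -(Real.log (elq ρ (θ i + θ j)) / 2) +
        -(Real.log (elq ρ (θ i - θ j)) / 2) ≤
        Real.log ρ⁻¹ - Real.log |2 * Real.cos (θ i) - 2 * Real.cos (θ j)| := by
      intro i j hij
      have := elq_pair hρ0 (θ i) (θ j) (hne i j hij)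
      linarith
    have hlog : ((n : ℝ) - 1) * Real.log ρ⁻¹ ≤ 1 := by
      have h2 : ρ⁻¹ = 1 + 1 / ((n : ℝ) - 1) := by
        have h3 : (n : ℝ) - 1 ≠ 0 := by linarith
        have h4 : ρ = ((n : ℝ) - 1) / n := by
          rw [hρ]
          field_simp
        rw [h4, inv_div]
        field_simp
        ring
      have h5 : Real.log ρ⁻¹ ≤ 1 / ((n : ℝ) - 1) := by
        have h6 := Real.log_le_sub_one_of_pos (inv_pos.mpr hρ0)
        rw [h2] at h6 ⊢
        linarith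
      calc ((n : ℝ) - 1) * Real.log ρ⁻¹ ≤ ((n : ℝ) - 1) * (1 / ((n : ℝ) - 1)) :=
            mul_le_mul_of_nonneg_left h5 (by linarith)
        _ = 1 := by
            have h3 : (n : ℝ) - 1 ≠ 0 := by linarith
            field_simp
    have hsplit : (∑ i, ∑ j, (-(Real.log (elq ρ (θ i + θ j)) / 2) +
          -(Real.log (elq ρ (θ i - θ j)) / 2))) ≤
        n * (1 + 2 * Real.log n) -
          ∑ i, ∑ j ∈ univ.erase i, Real.log |2 * Real.cos (θ i) - 2 * Real.cos (θ j)| := by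
      have h2 : ∀ i : ι, (∑ j, (-(Real.log (elq ρ (θ i + θ j)) / 2) +
          -(Real.log (elq ρ (θ i - θ j)) / 2))) ≤ (1 + 2 * Real.log n) -
          ∑ j ∈ univ.erase i, Real.log |2 * Real.cos (θ i) - 2 * Real.cos (θ j)| := by
        intro i
        rw [← add_sum_erase univ _ (mem_univ i)]
        have h3 : ∑ j ∈ univ.erase i, (-(Real.log (elq ρ (θ i + θ j)) / 2) +
            -(Real.log (elq ρ (θ i - θ j)) / 2)) ≤
            ∑ j ∈ univ.erase i, (Real.log ρ⁻¹ -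
              Real.log |2 * Real.cos (θ i) - 2 * Real.cos (θ j)|) :=
          sum_le_sum fun j hj => hoff i j (ne_of_mem_erase hj).symm
        rw [sum_sub_distrib, sum_const, card_erase_of_mem (mem_univ i), card_univ, ← hnn,
          nsmul_eq_mul, Nat.cast_sub (by omega), Nat.cast_one] at h3
        linarith [hdiag i]
      calc _ ≤ ∑ i : ι, ((1 + 2 * Real.log n) -
          ∑ j ∈ univ.erase i, Real.log |2 * Real.cos (θ i) - 2 * Real.cos (θ j)|) :=
            sum_le_sum fun i _ => h2 i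
        _ = _ := by
            rw [sum_sub_distrib, sum_const, card_univ, ← hnn, nsmul_eq_mul]
    have hfin := hone.trans hsplit
    set T : ℝ := n * (1 + 2 * Real.log n) -
      ∑ i, ∑ j ∈ univ.erase i, Real.log |2 * Real.cos (θ i) - 2 * Real.cos (θ j)| with hT
    have hpow : (1 / 2 : ℝ) ^ m ≤ ρ ^ m := pow_le_pow_left₀ (by norm_num) hρ2 m
    have hs : 0 ≤ (∑ i, 2 * Real.cos (m * θ i)) ^ 2 := sq_nonneg _
    have h2m : (0 : ℝ) < 2 * m := by linarith
    have h3 : (1 / 2 : ℝ) ^ m / (2 * m) * (∑ i, 2 * Real.cos (m * θ i)) ^ 2 ≤ T :=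
      (mul_le_mul_of_nonneg_right (div_le_div_of_nonneg_right hpow h2m.le) hs).trans hfin
    have h4 : (0 : ℝ) < 2 * m * 2 ^ m := by positivity
    have h5 := mul_le_mul_of_nonneg_left h3 h4.le
    refine le_trans (le_of_eq ?_) h5
    rw [one_div, inv_pow]
    have h6 : (2 : ℝ) ^ m ≠ 0 := by positivity
    field_simp

end MP225
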