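import Pool.Agent.Lib_MP_225a87_nt.EnergyLog

open Finset

namespace MP225

theorem energy_of_energy_log {ι : Type*} [Fintype ι] [DecidableEq ι] (θ : ι → ℝ) (hn : 2 ≤ Fintype.card ι)
    (hd : 1 ≤ ∏ i, ∏ j ∈ univ.erase i, |2 * Real.cos (θ i) - 2 * Real.cos (θ j)|)
    (m : ℕ) (hm : 1 ≤ m) :
    (∑ i, 2 * Real.cos (m * θ i)) ^ 2 ≤
      2 * m * 2 ^ m * (Fintype.card ι * (1 + 2 * Real.log (Fintype.card ι))) := by
  have hprod : (∏ i, ∏ j ∈ univ.erase i, |2 * Real.cos (θ i) - 2 * Real.cos (θ j)|) ≠ 0 := by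
    intro h
    rw [h] at hd
    linarith
  rw [prod_ne_zero_iff] at hprod
  have h1 : ∀ i, ∀ j ∈ univ.erase i, |2 * Real.cos (θ i) - 2 * Real.cos (θ j)| ≠ 0 :=
    fun i => prod_ne_zero_iff.mp (hprod i (mem_univ i))
  have hne : ∀ i j, i ≠ j → Real.cos (θ i) ≠ Real.cos (θ j) := by
    intro i j hij h
    apply h1 i j (mem_erase.mpr ⟨hij.symm, mem_univ j⟩)
    rw [h, sub_self, abs_zero]
  have h2 := energy_log θ (by omega) hne m hm
  have h3 : 0 ≤ ∑ i, ∑ j ∈ univ.erase i,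
      Real.log |2 * Real.cos (θ i) - 2 * Real.cos (θ j)| := by
    have h4 := Real.log_nonneg hd
    rw [Real.log_prod (fun i _ => prod_ne_zero_iff.mpr (h1 i))] at h4
    refine h4.trans (le_of_eq (sum_congr rfl fun i _ => ?_))
    rw [Real.log_prod (h1 i)]
  have h5 : (0 : ℝ) ≤ 2 * m * 2 ^ m := by positivity
  refine h2.trans (mul_le_mul_of_nonneg_left ?_ h5)
  linarith

end MP225
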