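import Pool.Agent.Lib_MP_225a87_nt.Defs

open Polynomial Finset

namespace MP225

/-- FACTOR1. `integralClosure.mem_lifts_of_monic_of_dvd_map` or similar. -/
theorem factor_integral {L : Type*} [Field L] [NumberField L] (p : ℤ[X]) (hp : p.Monic) (g : L[X])
    (hg : g.Monic) (hdvd : g ∣ p.map (Int.castRingHom L)) : ∀ i, IsIntegral ℤ (g.coeff i) := by
  have hmem : g ∈ lifts (algebraMap (integralClosure ℤ L) L) :=
    integralClosure.mem_lifts_of_monic_of_dvd_map L hp hg hdvd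
  rw [lifts_iff_coeff_lifts] at hmem
  intro i
  obtain ⟨y, hy⟩ := hmem i
  rw [← hy]
  exact y.2

/-- FACTOR2. A root of `g.map φ` is a root of `p`. -/
theorem factor_roots {L : Type*} [Field L] [NumberField L] (a : ℝ) (p : ℤ[X]) (hp : ConjIn a p)
    (g : L[X]) (hdvd : g ∣ p.map (Int.castRingHom L)) (φ : L →+* ℂ) (w : ℂ)
    (hw : w ∈ (g.map φ).roots) : w.im = 0 ∧ a ≤ w.re ∧ w.re ≤ a + 4 := by
  have hmap : (p.map (Int.castRingHom L)).map φ = p.map (algebraMap ℤ ℂ) := by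
    rw [Polynomial.map_map]
    congr 1
    exact RingHom.ext_int _ _
  have h1 : g.map φ ∣ p.map (algebraMap ℤ ℂ) := by
    rw [← hmap]
    exact Polynomial.map_dvd φ hdvd
  have h2 : IsRoot (g.map φ) w := isRoot_of_mem_roots hw
  have h3 : IsRoot (p.map (algebraMap ℤ ℂ)) w := h2.dvd h1
  refine hp.2.2 w ?_
  rw [aeval_def, eval₂_eq_eval_map]
  exact h3

/-- FACTOR3. Bounds: all roots of `g.map φ` have absolute value at most `A = |a| + 4`; coefficients are elementary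
symmetric functions of at most `D` roots: `≤ 2^D (A+1)^D`; power sums `≤ D A^j`. -/
theorem factor_bounds (a : ℝ) (D j : ℕ) : ∃ R : ℕ, ∀ (L : Type) [Field L] [NumberField L] (p : ℤ[X]),
    ConjIn a p → ∀ (g : L[X]), g.Monic → g ∣ p.map (Int.castRingHom L) → g.natDegree ≤ D →
    ∀ φ : L →+* ℂ, (∀ i, ‖φ (g.coeff i)‖ ^ 2 ≤ R) ∧
      ‖((g.map φ).roots.map fun w => w ^ j).sum‖ ^ 2 ≤ R := by
  have hA : (0 : ℝ) ≤ |a| + 4 := by positivity
  refine ⟨⌈(max (|a| + 4) 1 ^ D * D.choose (D / 2)) ^ 2⌉₊ + ⌈(D * (|a| + 4) ^ j) ^ 2⌉₊, ?_⟩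
  intro L _ _ p hp g hg hdvd hD φ
  have hroots : ∀ w ∈ (g.map φ).roots, ‖w‖ ≤ |a| + 4 := by
    intro w hw
    obtain ⟨h1, h2, h3⟩ := factor_roots a p hp g hdvd φ w hw
    have e1 : ‖w‖ ^ 2 = w.re ^ 2 := by
      rw [← Complex.normSq_eq_norm_sq, Complex.normSq_apply, h1]
      ring
    have e2 : |w.re| ≤ |a| + 4 := by
      rw [abs_le]
      have h6 := neg_abs_le a
      have h7 := le_abs_self a
      exact ⟨by linarith, by linarith⟩
    have e3 : ‖w‖ ^ 2 ≤ (|a| + 4) ^ 2 := by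
      rw [e1, ← sq_abs w.re]
      exact pow_le_pow_left₀ (abs_nonneg _) e2 2
    exact (sq_le_sq₀ (norm_nonneg _) hA).1 e3
  have hsplits : Splits (g.map φ) := IsAlgClosed.splits _
  constructor
  · intro i
    have h1 := coeff_bdd_of_roots_le φ hg hsplits hD hroots i
    rw [coeff_map] at h1
    calc ‖φ (g.coeff i)‖ ^ 2 ≤ (max (|a| + 4) 1 ^ D * D.choose (D / 2)) ^ 2 :=
          pow_le_pow_left₀ (norm_nonneg _) h1 2
      _ ≤ ⌈(max (|a| + 4) 1 ^ D * D.choose (D / 2)) ^ 2⌉₊ := Nat.le_ceil _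
      _ ≤ _ := by
          rw [Nat.cast_add]
          exact le_add_of_nonneg_right (Nat.cast_nonneg _)
  · have h1 : ‖((g.map φ).roots.map fun w => w ^ j).sum‖ ≤ D * (|a| + 4) ^ j := by
      refine (norm_multiset_sum_le _).trans ?_
      rw [Multiset.map_map]
      refine (Multiset.sum_le_card_nsmul _ ((|a| + 4) ^ j) ?_).trans ?_
      · intro x hx
        rw [Multiset.mem_map] at hx
        obtain ⟨w, hw, rfl⟩ := hx
        rw [Function.comp_apply, norm_pow]
        exact pow_le_pow_left₀ (norm_nonneg _) (hroots w hw) j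
      · rw [Multiset.card_map, nsmul_eq_mul]
        refine mul_le_mul_of_nonneg_right ?_ (pow_nonneg hA j)
        have h2 : (g.map φ).roots.card ≤ D :=
          (card_roots' _).trans ((natDegree_map_le).trans hD)
        exact_mod_cast h2
    calc ‖((g.map φ).roots.map fun w => w ^ j).sum‖ ^ 2 ≤ (D * (|a| + 4) ^ j) ^ 2 :=
          pow_le_pow_left₀ (norm_nonneg _) h1 2
      _ ≤ ⌈(D * (|a| + 4) ^ j) ^ 2⌉₊ := Nat.le_ceil _
      _ ≤ _ := by
          rw [Nat.cast_add]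
          exact le_add_of_nonneg_left (Nat.cast_nonneg _)

end MP225
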