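import Pool.Agent.Lib_MP_225a87_nt.Defs

open Polynomial Finset

namespace MP225

/-- FIBER (piece N2). `φ ↦ φ β` maps the embeddings of `L` onto the roots of `p`, every fibre has
`[L : ℚ(β)]` elements (`algHomEquivSigma`, cf. the proof of `sum_embeddings_eq_finrank_mul`), embeddings
of `ℚ(β)` correspond to the roots of `minpoly ℚ β = p.map` (`IntermediateField.algHomAdjoinIntegralEquiv`;
`p` is irreducible over `ℚ` by Gauss), `[ℚ(β):ℚ] = p.natDegree` and
`finrank ℚ L = [L:ℚ(β)] * p.natDegree`. -/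
theorem fiber {L : Type*} [Field L] [NumberField L] (p : ℤ[X]) (hp : p.Monic) (hi : Irreducible p)
    (β : L) (hβ : aeval β p = 0) (g : ℂ → ℂ) :
    (∑ φ : L →+* ℂ, g (φ β)) * p.natDegree = Module.finrank ℚ L * ∑ z ∈ rts p, g z := by
  classical
  have hβi : IsIntegral ℚ β := Algebra.IsIntegral.isIntegral β
  have hirr : Irreducible (p.map (algebraMap ℤ ℚ)) :=
    (hp.irreducible_iff_irreducible_map_fraction_map).1 hi
  have hmin : minpoly ℚ β = p.map (algebraMap ℤ ℚ) :=
    (minpoly.eq_of_irreducible_of_monic hirr (by rw [aeval_map_algebraMap]; exact hβ)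
      (hp.map _)).symm
  -- the power basis of `ℚ(β)`
  let pb := IntermediateField.adjoin.powerBasis hβi
  have hgen : minpoly ℚ pb.gen = minpoly ℚ β := by
    rw [IntermediateField.adjoin.powerBasis_gen]
    exact IntermediateField.minpoly_gen ℚ β
  have hcoe : (algebraMap (IntermediateField.adjoin ℚ {β}) L) pb.gen = β := by
    rw [IntermediateField.adjoin.powerBasis_gen]
    exact IntermediateField.AdjoinSimple.algebraMap_gen ℚ β
  -- degrees
  have hdeg : Module.finrank ℚ (IntermediateField.adjoin ℚ {β}) = p.natDegree := by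
    rw [IntermediateField.adjoin.finrank hβi, hmin, hp.natDegree_map]
  have hmul : p.natDegree * Module.finrank (IntermediateField.adjoin ℚ {β}) L =
      Module.finrank ℚ L := by
    rw [← hdeg]
    exact Module.finrank_mul_finrank ℚ (IntermediateField.adjoin ℚ {β}) L
  -- ring homomorphisms are algebra homomorphisms
  have h1 : ∑ φ : L →+* ℂ, g (φ β) = ∑ φ : L →ₐ[ℚ] ℂ, g (φ β) :=
    Fintype.sum_equiv (RingHom.equivRatAlgHom L ℂ) _ _ (fun φ => rfl)
  -- the fibres of the restriction to `ℚ(β)`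
  have h2 : ∑ φ : L →ₐ[ℚ] ℂ, g (φ β) =
      Module.finrank (IntermediateField.adjoin ℚ {β}) L •
        ∑ σ : IntermediateField.adjoin ℚ {β} →ₐ[ℚ] ℂ, g (σ pb.gen) := by
    rw [Fintype.sum_equiv algHomEquivSigma (fun σ : L →ₐ[ℚ] ℂ => _)
      (fun σ => g (σ.1 pb.gen)), ← Finset.univ_sigma_univ, Finset.sum_sigma,
      ← Finset.sum_nsmul]
    · refine Finset.sum_congr rfl fun σ _ => ?_
      let : Algebra (IntermediateField.adjoin ℚ {β}) ℂ := σ.toRingHom.toAlgebra
      simp_rw [Finset.sum_const, Finset.card_univ,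
        ← AlgHom.card (IntermediateField.adjoin ℚ {β}) L ℂ]
    · intro σ
      simp only [algHomEquivSigma, Equiv.coe_fn_mk, AlgHom.domRestrict, AlgHom.comp_apply,
        IsScalarTower.coe_toAlgHom']
      rw [hcoe]
  -- the embeddings of `ℚ(β)` are the roots
  have h3 : ∑ σ : IntermediateField.adjoin ℚ {β} →ₐ[ℚ] ℂ, g (σ pb.gen) =
      ∑ z ∈ rts p, g z := by
    have hroots : (minpoly ℚ pb.gen).aroots ℂ = p.aroots ℂ := by
      rw [hgen, hmin, aroots_def, aroots_def, Polynomial.map_map,
        ← IsScalarTower.algebraMap_eq ℤ ℚ ℂ]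
    have hnd : ((minpoly ℚ pb.gen).aroots ℂ).Nodup :=
      nodup_roots ((separable_map _).mpr (by
        rw [hgen]
        exact Algebra.IsSeparable.isSeparable ℚ β))
    refine (Fintype.sum_equiv pb.liftEquiv' _
      (fun x : {y // y ∈ (minpoly ℚ pb.gen).aroots ℂ} => g x.1) (fun σ => by
      rw [PowerBasis.liftEquiv'_apply_coe]; rfl)).trans ?_
    rw [Finset.sum_mem_multiset _ _ (fun z => g z) (fun x => rfl)]
    exact Finset.sum_congr (congrArg Multiset.toFinset hroots) (fun _ _ => rfl)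
  rw [h1, h2, h3, nsmul_eq_mul, ← hmul]
  push_cast
  ring

end MP225
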