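import Pool.Agent.Lib_MP_225a87_nt.Defs

open Polynomial Finset

namespace MP225

/-- integer polynomials of bounded degree with bounded coefficients form a finite set -/
theorem d3_finite (n₀ : ℕ) (C : ℤ) :
    {p : ℤ[X] | p.natDegree < n₀ ∧ ∀ i, |p.coeff i| ≤ C}.Finite := by
  have hpi : (Set.pi Set.univ (fun _ : Fin n₀ => Set.Icc (-C) C)).Finite :=
    Set.Finite.pi fun _ => Set.finite_Icc _ _
  refine Set.Finite.of_finite_image (f := fun (p : ℤ[X]) (i : Fin n₀) => p.coeff i)
    (hpi.subset ?_) ?_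
  · rintro _ ⟨p, hp, rfl⟩ i _
    exact abs_le.1 (hp.2 i)
  · intro p hp q hq h
    ext i
    by_cases hi : i < n₀
    · exact congrFun h ⟨i, hi⟩
    · rw [coeff_eq_zero_of_natDegree_lt (lt_of_lt_of_le hp.1 (not_lt.1 hi)),
        coeff_eq_zero_of_natDegree_lt (lt_of_lt_of_le hq.1 (not_lt.1 hi))]

/-- FIN (piece D3). Bounded degree and bounded roots give bounded coefficients
(`Polynomial.coeff_bdd_of_roots_le`), so only finitely many integer polynomials. -/
theorem fin_deg (a : ℝ) (n₀ : ℕ) : {p : ℤ[X] | ConjIn a p ∧ p.natDegree < n₀}.Finite := by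
  obtain ⟨C, hC⟩ := exists_int_gt (max (|a| + 4) 1 ^ n₀ * (n₀.choose (n₀ / 2) : ℝ))
  refine (d3_finite n₀ C).subset ?_
  rintro p ⟨⟨hm, _, hr⟩, hn⟩
  refine ⟨hn, fun i => ?_⟩
  have h := coeff_bdd_of_roots_le (B := |a| + 4) (d := n₀) (Int.castRingHom ℂ) hm
    (IsAlgClosed.splits _) hn.le ?_ i
  · rw [coeff_map, eq_intCast, Complex.norm_intCast] at h
    have h' : ((|p.coeff i| : ℤ) : ℝ) < (C : ℝ) := by
      rw [Int.cast_abs]
      exact h.trans_lt hC
    exact (Int.cast_lt.1 h').le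
  · intro z hz
    have hz' : aeval z p = 0 := by
      rw [mem_roots (hm.map _).ne_zero, IsRoot.def, eval_map] at hz
      rw [aeval_def]
      exact hz
    obtain ⟨h1, h2, h3⟩ := hr z hz'
    have hz2 : z = (z.re : ℂ) := Complex.ext rfl (by rw [h1, Complex.ofReal_im])
    rw [hz2, Complex.norm_real, Real.norm_eq_abs, abs_le]
    have := neg_abs_le a
    have := le_abs_self a
    constructor <;> linarith

end MP225
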