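import Mathlib

open Polynomial Finset IntermediateField

namespace MP225

theorem gal_adjoin_top {L : Type*} [Field L] [NumberField L] (F : IntermediateField ℚ L) (ζ : L)
    (htop : F ⊔ ℚ⟮ζ⟯ = ⊤) : IntermediateField.adjoin F {ζ} = ⊤ := by
  have h1 : F ⊔ ℚ⟮ζ⟯ ≤ (IntermediateField.adjoin F {ζ}).restrictScalars ℚ := by
    refine sup_le ?_ ?_
    · intro x hx
      rw [IntermediateField.mem_restrictScalars]
      exact IntermediateField.algebraMap_mem _ (⟨x, hx⟩ : F)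
    · rw [IntermediateField.adjoin_simple_le_iff, IntermediateField.mem_restrictScalars]
      exact IntermediateField.mem_adjoin_simple_self F ζ
  rw [htop] at h1
  rw [eq_top_iff]
  intro x _
  have := h1 (IntermediateField.mem_top (F := ℚ) (E := L) (x := x))
  rwa [IntermediateField.mem_restrictScalars] at this

/-- GAL (piece C2). `F` and `ℚ⟮ζ⟯` are linearly disjoint as in RING, so `[L:F] = [ℚ(ζ):ℚ] = φ(ℓ^k)`, hence
the minimal polynomial of `ζ` over `F` (a divisor of `cyclotomic (ℓ^k) F`, of degree `[F(ζ):F] = [L:F]`)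
is `cyclotomic (ℓ^k) F`, which has `ζ^u` as a root (`u` coprime to `ℓ`); so there is an `F`-automorphism of
`L = F(ζ)` with `ζ ↦ ζ^u` (e.g. `IsCyclotomicExtension.autEquivPow` /
`IsCyclotomicExtension.fromZetaAut` with `Irreducible (cyclotomic (ℓ^k) F)`). -/
theorem gal_action {L : Type*} [Field L] [NumberField L] (F : IntermediateField ℚ L) (ℓ k : ℕ)
    (hℓ : ℓ.Prime) (hk : 1 ≤ k) (hd : ¬ (ℓ : ℤ) ∣ NumberField.discr F) (ζ : L)
    (hζ : IsPrimitiveRoot ζ (ℓ ^ k)) (htop : F ⊔ ℚ⟮ζ⟯ = ⊤) (u : ℕ) (hu : u.Coprime ℓ) :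
    ∃ σ : L ≃ₐ[F] L, σ ζ = ζ ^ u := by
  have hn0 : NeZero (ℓ ^ k) := ⟨pow_ne_zero _ hℓ.ne_zero⟩
  have hcyc1 : IsCyclotomicExtension {ℓ ^ k} ℚ ℚ⟮ζ⟯ :=
    hζ.intermediateField_adjoin_isCyclotomicExtension ℚ
  have hgal1 : IsGalois ℚ ℚ⟮ζ⟯ := IsCyclotomicExtension.isGalois {ℓ ^ k} ℚ _
  have hcop : IsCoprime (NumberField.discr ℚ⟮ζ⟯) (NumberField.discr F) := by
    rw [Int.isCoprime_iff_nat_coprime, IsCyclotomicExtension.Rat.natAbs_discr (ℓ ^ k) ℚ⟮ζ⟯]
    refine Nat.Coprime.coprime_div_left ?_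
      (Nat.prod_primeFactors_pow_totient_ediv_dvd (NeZero.pos _))
    refine Nat.Coprime.pow_left _ (Nat.Coprime.pow_left _ ?_)
    rw [Nat.Prime.coprime_iff_not_dvd hℓ]
    rwa [← Int.natCast_dvd]
  have hdisj : ℚ⟮ζ⟯.LinearDisjoint F :=
    NumberField.linearDisjoint_of_isGalois_isCoprime_discr L _ _ hcop
  have hfin : Module.finrank F L = (ℓ ^ k).totient := by
    rw [hdisj.symm.finrank_left_eq_finrank htop]
    exact IsCyclotomicExtension.Rat.finrank (ℓ ^ k) ℚ⟮ζ⟯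
  have hadj := gal_adjoin_top F ζ htop
  have hint : IsIntegral F ζ := Algebra.IsIntegral.isIntegral ζ
  have hcyc : IsCyclotomicExtension {ℓ ^ k} F L := by
    rw [IsCyclotomicExtension.iff_singleton]
    refine ⟨⟨ζ, hζ⟩, fun x => ?_⟩
    have h1 : x ∈ (IntermediateField.adjoin F {ζ}).toSubalgebra := by
      rw [hadj]; trivial
    rw [IntermediateField.adjoin_simple_toSubalgebra_of_isAlgebraic hint.isAlgebraic] at h1
    refine Algebra.adjoin_mono ?_ h1
    intro y hy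
    rw [Set.mem_singleton_iff] at hy
    rw [hy]
    exact hζ.pow_eq_one
  have hdeg : (minpoly F ζ).natDegree = (ℓ ^ k).totient := by
    rw [← IntermediateField.adjoin.finrank hint, hadj, IntermediateField.finrank_top', hfin]
  have hmin : minpoly F ζ = cyclotomic (ℓ ^ k) F := by
    have hdvd : minpoly F ζ ∣ cyclotomic (ℓ ^ k) F := by
      refine minpoly.dvd F ζ ?_
      rw [aeval_def, eval₂_eq_eval_map, map_cyclotomic]
      exact (isRoot_cyclotomic_iff.mpr hζ)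
    refine (eq_of_monic_of_dvd_of_natDegree_le (minpoly.monic hint) (cyclotomic.monic _ _)
      hdvd ?_).symm
    rw [hdeg, natDegree_cyclotomic]
  have hnorm : Normal F L := (IsCyclotomicExtension.isGalois {ℓ ^ k} F L).to_normal
  have hroot : aeval (ζ ^ u) (minpoly F ζ) = 0 := by
    rw [hmin, aeval_def, eval₂_eq_eval_map, map_cyclotomic]
    exact isRoot_cyclotomic_iff.mpr (hζ.pow_of_coprime u (Nat.Coprime.pow_right k hu))
  obtain ⟨σ, hσ⟩ := minpoly.exists_algEquiv_of_root hint.isAlgebraic hroot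
  exact ⟨σ.symm, by rw [AlgEquiv.symm_apply_eq, hσ]⟩

end MP225
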