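import Pool.Agent.Lib_MP_225a87_nt.Moments

open Polynomial Finset

namespace MP225

/-- If a real number is approximated arbitrarily well by integers, it is an integer. -/
theorem M2M3_int_of_approx (x : ℝ) (h : ∀ δ : ℝ, 0 < δ → ∃ t : ℤ, |(t : ℝ) - x| ≤ δ) :
    ∃ t : ℤ, (t : ℝ) = x := by
  refine ⟨round x, ?_⟩
  by_contra hne
  have hpos : 0 < |x - round x| := abs_pos.mpr (sub_ne_zero.mpr (fun h => hne h.symm))
  obtain ⟨t, ht⟩ := h (|x - round x| / 2) (by positivity)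
  have h1 : |x - round x| ≤ |x - t| := round_le x t
  rw [abs_sub_comm] at ht
  linarith

/-- The shifted moments `∑ C(j,i) c^(j-i) e_i`. -/
noncomputable def M2M3_E (e : ℕ → ℤ) (c : ℝ) (j : ℕ) : ℝ :=
  ∑ i ∈ range (j + 1), (j.choose i : ℝ) * c ^ (j - i) * (e i : ℝ)

theorem M2M3_pow_eq (c x : ℝ) (j : ℕ) :
    x ^ j = ∑ i ∈ range (j + 1), (j.choose i : ℝ) * c ^ (j - i) * (x - c) ^ i := by
  have h : x = (x - c) + c := by ring
  conv_lhs => rw [h, add_pow]
  exact sum_congr rfl (fun i _ => by ring)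

theorem M2M3_sum_pow (s : Finset ℂ) (c : ℝ) (j : ℕ) :
    ∑ z ∈ s, z.re ^ j =
      ∑ i ∈ range (j + 1), (j.choose i : ℝ) * c ^ (j - i) * ∑ z ∈ s, (z.re - c) ^ i := by
  have h : ∀ z ∈ s, z.re ^ j =
      ∑ i ∈ range (j + 1), (j.choose i : ℝ) * c ^ (j - i) * (z.re - c) ^ i :=
    fun z _ => M2M3_pow_eq c z.re j
  rw [sum_congr rfl h, sum_comm]
  exact sum_congr rfl (fun i _ => by rw [mul_sum])

theorem M2M3_den (a : ℝ) (D : ℕ)
    (h : ∀ n₀ : ℕ, ∃ p : ℤ[X], ConjIn a p ∧ n₀ ≤ p.natDegree ∧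
      ∀ j : ℕ, ∃ t : ℤ, (D : ℝ) * ∑ z ∈ rts p, z.re ^ j = t * p.natDegree)
    (e : ℕ → ℤ)
    (he : ∀ (j : ℕ) (ε : ℝ), 0 < ε → ∃ n₀ : ℕ,
      ∀ (a : ℝ) (p : ℤ[X]), ConjIn a p → n₀ ≤ p.natDegree →
        |(∑ z ∈ rts p, (z.re - (a + 2)) ^ j) - e j * p.natDegree| ≤ ε * p.natDegree) (j : ℕ) :
    ∃ t : ℤ, (t : ℝ) = D * M2M3_E e (a + 2) j := by
  apply M2M3_int_of_approx
  intro δ hδ
  set c : ℝ := a + 2 with hc
  set K : ℝ := D * ∑ i ∈ range (j + 1), (j.choose i : ℝ) * |c| ^ (j - i) with hK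
  have hK0 : 0 ≤ K := by
    rw [hK]
    exact mul_nonneg (Nat.cast_nonneg _) (sum_nonneg (fun i _ => by positivity))
  have hε : 0 < δ / (K + 1) := by positivity
  choose n₀ hn₀ using fun i => he i (δ / (K + 1)) hε
  obtain ⟨p, hp, hdeg, ht⟩ := h ((∑ i ∈ range (j + 1), n₀ i) + 1)
  obtain ⟨t, ht⟩ := ht j
  have hn : (0 : ℝ) < p.natDegree := by
    have : 0 < p.natDegree := by omega
    exact_mod_cast this
  refine ⟨t, ?_⟩
  have hb : ∀ i ∈ range (j + 1),
      |(∑ z ∈ rts p, (z.re - c) ^ i) - e i * p.natDegree| ≤ δ / (K + 1) * p.natDegree := by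
    intro i hi
    refine hn₀ i a p hp ?_
    have : n₀ i ≤ ∑ i ∈ range (j + 1), n₀ i := single_le_sum (fun _ _ => Nat.zero_le _) hi
    omega
  have key : ((t : ℝ) - D * M2M3_E e c j) * p.natDegree =
      D * ∑ i ∈ range (j + 1), (j.choose i : ℝ) * c ^ (j - i) *
        ((∑ z ∈ rts p, (z.re - c) ^ i) - e i * p.natDegree) := by
    have h1 : ∑ i ∈ range (j + 1), (j.choose i : ℝ) * c ^ (j - i) *
        ((∑ z ∈ rts p, (z.re - c) ^ i) - e i * p.natDegree) =
        (∑ z ∈ rts p, z.re ^ j) - M2M3_E e c j * p.natDegree := by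
      rw [M2M3_sum_pow _ c j, M2M3_E, sum_mul, ← sum_sub_distrib]
      exact sum_congr rfl (fun i _ => by ring)
    rw [h1, mul_sub, ht]
    ring
  have hbound : |((t : ℝ) - D * M2M3_E e c j) * p.natDegree| ≤
      K * (δ / (K + 1) * p.natDegree) := by
    rw [key, abs_mul, abs_of_nonneg (Nat.cast_nonneg D : (0 : ℝ) ≤ D), hK, mul_assoc]
    refine mul_le_mul_of_nonneg_left ?_ (Nat.cast_nonneg D)
    rw [sum_mul]
    refine (abs_sum_le_sum_abs _ _).trans (sum_le_sum (fun i hi => ?_))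
    rw [abs_mul, abs_mul, abs_pow, abs_of_nonneg (Nat.cast_nonneg (j.choose i) : (0 : ℝ) ≤ _)]
    exact mul_le_mul_of_nonneg_left (hb i hi) (by positivity)
  rw [abs_mul, abs_of_pos hn, ← mul_assoc] at hbound
  have h2 := le_of_mul_le_mul_right hbound hn
  refine h2.trans ?_
  rw [mul_div_assoc']
  rw [div_le_iff₀ (by positivity)]
  nlinarith

/-- LIMIT (piece M3). Let `c = a+2`, `n = p.natDegree`, `E j = ∑_{i≤j} C(j,i) c^(j-i) e_i` (`e` from
`moments`). By the binomial theorem and `moments`, `(1/n) ∑ z.re^j → E j` along the given family, and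
`D·(1/n)∑ z.re^j` is an integer, so `D·E j ∈ ℤ` for all `j` (limit of integers). `j = 1`: `e_1 = 0`?
(not needed: `E 1 = c + e_1` with `e_1 ∈ ℤ`), so `c` is rational, `c = u/v` in lowest terms. Then
`v^j E j = ∑ C(j,i) u^(j-i) v^i e_i ≡ u^j (mod v)` is an integer coprime to `v`, and
`D · (v^j E j) = v^j · (D E j)`, so `v^j ∣ D` for all `j`, hence `v = 1`, `c ∈ ℤ`, `a ∈ ℤ`. -/
theorem int_of_den (a : ℝ) (D : ℕ) (hD : 0 < D)
    (h : ∀ n₀ : ℕ, ∃ p : ℤ[X], ConjIn a p ∧ n₀ ≤ p.natDegree ∧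
      ∀ j : ℕ, ∃ t : ℤ, (D : ℝ) * ∑ z ∈ rts p, z.re ^ j = t * p.natDegree) :
    ∃ k : ℤ, (k : ℝ) = a := by
  obtain ⟨e, he0, -, he⟩ := moments
  have hden := M2M3_den a D h e he
  set c : ℝ := a + 2 with hc
  have hD' : (D : ℝ) ≠ 0 := by exact_mod_cast hD.ne'
  -- `c` is rational
  obtain ⟨q, hq⟩ : ∃ q : ℚ, (q : ℝ) = c := by
    obtain ⟨t, ht⟩ := hden 1
    refine ⟨(t : ℚ) / D - e 1, ?_⟩
    have h1 : M2M3_E e c 1 = c + e 1 := by
      simp [M2M3_E, sum_range_succ, he0]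
    rw [h1] at ht
    push_cast
    rw [ht]
    field_simp
    ring
  set u : ℤ := q.num with hu
  set v : ℕ := q.den with hv
  have hv0 : (v : ℝ) ≠ 0 := by exact_mod_cast q.den_nz
  have hcv : c * v = u := by
    rw [← hq, hu, hv]
    exact_mod_cast Rat.mul_den_eq_num q
  -- the integer `v^j E_j`
  let N : ℕ → ℤ := fun j => ∑ i ∈ range (j + 1), (j.choose i : ℤ) * u ^ (j - i) * (v : ℤ) ^ i * e i
  have hN : ∀ j, (N j : ℝ) = (v : ℝ) ^ j * M2M3_E e c j := by
    intro j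
    simp only [N, M2M3_E]
    push_cast
    rw [mul_sum]
    refine sum_congr rfl (fun i hi => ?_)
    have hij : i ≤ j := by
      have := mem_range.mp hi
      omega
    have h3 : (v : ℝ) ^ j = (v : ℝ) ^ (j - i) * (v : ℝ) ^ i := by
      rw [← pow_add, Nat.sub_add_cancel hij]
    rw [h3, ← hcv, mul_pow]
    ring
  have hcop : ∀ j, IsCoprime ((v : ℤ) ^ j) (N j) := by
    intro j
    apply IsCoprime.pow_left
    have h4 : N j = u ^ j + (v : ℤ) * ∑ i ∈ range j,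
        (j.choose (i + 1) : ℤ) * u ^ (j - (i + 1)) * (v : ℤ) ^ i * e (i + 1) := by
      simp only [N]
      rw [sum_range_succ', mul_sum, add_comm]
      congr 1
      · simp [he0]
      · exact sum_congr rfl (fun i _ => by ring)
    rw [h4]
    have h5 : IsCoprime (v : ℤ) (u ^ j) := by
      apply IsCoprime.pow_right
      have := q.isCoprime_num_den
      exact this.symm
    exact (IsCoprime.add_mul_left_right h5 _)
  have hdvd : ∀ j, (v : ℤ) ^ j ∣ D := by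
    intro j
    obtain ⟨t, ht⟩ := hden j
    have h6 : (D : ℤ) * N j = (v : ℤ) ^ j * t := by
      have : ((D : ℤ) * N j : ℝ) = ((v : ℤ) ^ j * t : ℝ) := by
        push_cast
        rw [hN, ht]
        ring
      exact_mod_cast this
    exact (hcop j).dvd_of_dvd_mul_right ⟨t, h6⟩
  have hv1 : v = 1 := by
    by_contra hne
    have hv2 : 2 ≤ v := by
      have : 0 < v := q.den_pos
      omega
    have h7 := hdvd D
    have h8 : v ^ D ∣ D := by exact_mod_cast h7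
    have h9 := Nat.le_of_dvd hD h8
    have h10 : D < 2 ^ D := Nat.lt_two_pow_self
    have h11 : 2 ^ D ≤ v ^ D := Nat.pow_le_pow_left hv2 D
    omega
  refine ⟨u - 2, ?_⟩
  rw [hv1] at hcv
  push_cast
  rw [← hcv, hc]
  push_cast
  ring

end MP225
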