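import Pool.Agent.Lib_MP_225a87_nt.Tpp
import Pool.Agent.Lib_MP_225a87_nt.Limit
import Pool.Agent.Lib_MP_225a87_nt.Den
import Pool.Agent.Lib_MP_225a87_nt.FinDeg

open Polynomial Finset IntermediateField

namespace MP225

/-- split `N` into the part composed of primes dividing `T` and the part coprime to `T` -/
theorem zthm_split (T : ℕ) : ∀ N : ℕ, 0 < N → ∃ A B : ℕ, N = A * B ∧ B.Coprime T ∧ ∀ q : ℕ, q.Prime → q ∣ A → q ∣ T := by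
  intro N
  induction N using Nat.strong_induction_on with
  | _ N ih =>
    intro hN
    by_cases hc : N.Coprime T
    · refine ⟨1, N, (one_mul N).symm, hc, fun q hq h1 => ?_⟩
      exact absurd (Nat.dvd_one.1 h1) hq.one_lt.ne'
    · obtain ⟨q, hq, hqN, hqT⟩ := Nat.Prime.not_coprime_iff_dvd.1 hc
      obtain ⟨M, rfl⟩ := hqN
      have hM : 0 < M := Nat.pos_of_mul_pos_left hN
      have hlt : M < q * M := by
        calc M = 1 * M := (one_mul M).symm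
          _ < q * M := Nat.mul_lt_mul_of_pos_right hq.one_lt hM
      obtain ⟨A, B, h1, h2, h3⟩ := ih M hlt hM
      refine ⟨q * A, B, by rw [h1, mul_assoc], h2, fun r hr hrA => ?_⟩
      rcases hr.dvd_mul.1 hrA with h4 | h4
      · rw [(Nat.prime_dvd_prime_iff_eq hr hq).1 h4]
        exact hqT
      · exact h3 r hr h4

/-- the descent to `K ⊔ ℚ⟮ζ^B⟯` -/
theorem zthm_desc (a : ℝ) (K : IntermediateField ℚ ℂ) [NumberField K] (N₀ n₀ : ℕ) (_hN₀ : 0 < N₀)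
    (htpp : ∀ (p : ℤ[X]), ConjIn a p → n₀ ≤ p.natDegree → ∀ (F : IntermediateField ℚ ℂ) [NumberField F] (N : ℕ),
      0 < N → N.Coprime (NumberField.discr F).natAbs → ∀ z ζ : ℂ, IsPrimitiveRoot ζ N →
      aeval z p = 0 → z ∈ F ⊔ ℚ⟮ζ⟯ → z ∈ F ⊔ ℚ⟮ζ ^ (N / Nat.gcd N N₀)⟯)
    (p : ℤ[X]) (hp : ConjIn a p) (hdeg : n₀ ≤ p.natDegree) (z ζ : ℂ) (N : ℕ) (hN : 0 < N) (hζ : IsPrimitiveRoot ζ N)
    (hz : aeval z p = 0) (hmem : z ∈ K ⊔ ℚ⟮ζ⟯) :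
    ∃ (A : ℕ) (η : ℂ), 0 < A ∧ (∀ q : ℕ, q.Prime → q ∣ A → q ∣ N₀ * (NumberField.discr K).natAbs) ∧
      IsPrimitiveRoot η A ∧ z ∈ K ⊔ ℚ⟮η⟯ := by
  obtain ⟨A, B, hAB, hBT, hA⟩ := zthm_split (N₀ * (NumberField.discr K).natAbs) N hN
  have hApos : 0 < A := Nat.pos_of_ne_zero (by
    rintro rfl
    rw [zero_mul] at hAB
    exact hN.ne' hAB)
  have hBpos : 0 < B := Nat.pos_of_ne_zero (by
    rintro rfl
    rw [mul_zero] at hAB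
    exact hN.ne' hAB)
  have hcopAB : Nat.Coprime A B := by
    by_contra hcon
    obtain ⟨q, hq, hqA, hqB⟩ := Nat.Prime.not_coprime_iff_dvd.1 hcon
    exact Nat.Prime.not_coprime_iff_dvd.2 ⟨q, hq, hqB, hA q hq hqA⟩ hBT
  have hη : IsPrimitiveRoot (ζ ^ B) A := hζ.pow hN (by rw [hAB, mul_comm])
  have hξ : IsPrimitiveRoot (ζ ^ A) B := hζ.pow hN hAB
  refine ⟨A, ζ ^ B, hApos, hA, hη, ?_⟩
  have hnf : NumberField ↥(K ⊔ ℚ⟮ζ ^ B⟯) := tpp_nf K hApos hη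
  have hcop : B.Coprime (NumberField.discr ↥(K ⊔ ℚ⟮ζ ^ B⟯)).natAbs := by
    by_contra hcon
    obtain ⟨q, hq, hqB, hqd⟩ := Nat.Prime.not_coprime_iff_dvd.1 hcon
    have hqT : ¬ q ∣ N₀ * (NumberField.discr K).natAbs := fun h =>
      Nat.Prime.not_coprime_iff_dvd.2 ⟨q, hq, hqB, h⟩ hBT
    have hqA : ¬ q ∣ A := fun h => hqT (hA q hq h)
    have hqK : ¬ (q : ℤ) ∣ NumberField.discr K := fun h =>
      hqT (Dvd.dvd.mul_left (Int.natCast_dvd.1 h) N₀)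
    exact discr_adjoin_C K A hApos (ζ ^ B) hη q hq hqA hqK hnf (Int.natCast_dvd.2 hqd)
  have hmem' : z ∈ (K ⊔ ℚ⟮ζ ^ B⟯) ⊔ ℚ⟮ζ ^ A⟯ := by
    refine (sup_le (le_sup_left.trans le_sup_left) ?_ : K ⊔ ℚ⟮ζ⟯ ≤ (K ⊔ ℚ⟮ζ ^ B⟯) ⊔ ℚ⟮ζ ^ A⟯) hmem
    rw [adjoin_simple_le_iff]
    refine tpp_bezout hcopAB (hζ.ne_zero hN.ne') _ ?_ ?_
    · exact (le_sup_right : ℚ⟮ζ ^ A⟯ ≤ (K ⊔ ℚ⟮ζ ^ B⟯) ⊔ ℚ⟮ζ ^ A⟯) (mem_adjoin_simple_self ℚ _)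
    · exact (le_sup_right.trans le_sup_left : ℚ⟮ζ ^ B⟯ ≤ (K ⊔ ℚ⟮ζ ^ B⟯) ⊔ ℚ⟮ζ ^ A⟯) (mem_adjoin_simple_self ℚ _)
  have h := htpp p hp hdeg (K ⊔ ℚ⟮ζ ^ B⟯) B hBpos hcop z (ζ ^ A) hξ hz hmem'
  have hgcd : Nat.gcd B N₀ = 1 := Nat.Coprime.coprime_mul_right_right hBT
  rw [hgcd, Nat.div_one, hξ.pow_eq_one] at h
  have hbot : (ℚ⟮(1 : ℂ)⟯ : IntermediateField ℚ ℂ) ≤ K ⊔ ℚ⟮ζ ^ B⟯ := by
    rw [adjoin_simple_le_iff]
    exact one_mem _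
  exact (sup_le le_rfl hbot) h

/-- Z (piece Z). Let `N₀, n₀` be as in `tpp`, `S` = primes dividing `N₀ · discr K`, `D` from `den K S`. By
`fin_deg` it suffices to bound the degree; suppose the degrees are unbounded and check the hypothesis of
`int_of_den a D`, which contradicts `ha`. Given `p` of degree `≥ n₀` with a root `z ∈ K ⊔ ℚ⟮ζ⟯`, `ζ` of exact
order `N` (`IsPrimitiveRoot.orderOf`). Write `N = N_S · N'` with `N_S` the `S`-part. `F = K ⊔ ℚ⟮ζ^N'⟯`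
(`ζ^N'` is a primitive `N_S`-th root). For a prime `ℓ ∣ N'`: `ℓ ∉ S`, so `ℓ ∤ discr K`, `ℓ ∤ N_S`, hence
`ℓ ∤ discr F` by `discr_adjoin_C`; so `N'` is coprime to `discr F`, and `tpp` for `F`, `N'`, `ζ^N_S` gives
`z ∈ F ⊔ ℚ⟮(ζ^N_S)^(N'/gcd(N',N₀))⟯ = F` since `gcd(N',N₀) = 1`. Then `den` with `N_S`, `ζ^N'` gives the integers
`t` (all roots are real: `w = w.re`). -/
theorem zthm (a : ℝ) (ha : ∀ n : ℤ, (n : ℝ) ≠ a) (K : IntermediateField ℚ ℂ) [NumberField K] :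
    {p : ℤ[X] | ConjIn a p ∧ ∃ z ζ : ℂ, ∃ N : ℕ, 0 < N ∧ ζ ^ N = 1 ∧ aeval z p = 0 ∧
      z ∈ K ⊔ ℚ⟮ζ⟯}.Finite := by
  obtain ⟨N₀, n₀, hN₀, htpp⟩ := tpp a ha
  have hT : N₀ * (NumberField.discr K).natAbs ≠ 0 :=
    Nat.mul_ne_zero hN₀.ne' (Int.natAbs_ne_zero.2 (NumberField.discr_ne_zero K))
  obtain ⟨D, hD, hden⟩ := den K (N₀ * (NumberField.discr K).natAbs).primeFactors
  by_cases hub : ∀ n₁ : ℕ, ∃ p : ℤ[X], (ConjIn a p ∧ ∃ z ζ : ℂ, ∃ N : ℕ, 0 < N ∧ ζ ^ N = 1 ∧ aeval z p = 0 ∧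
      z ∈ K ⊔ ℚ⟮ζ⟯) ∧ n₁ ≤ p.natDegree
  · exfalso
    obtain ⟨k, hk⟩ := int_of_den a D hD (fun n₁ => by
      obtain ⟨p, ⟨hp, z, ζ, N, hN, hζN, hz, hmem⟩, hdeg⟩ := hub (max n₀ n₁)
      have hfin : 0 < orderOf ζ := orderOf_pos_iff.2 (isOfFinOrder_iff_pow_eq_one.2 ⟨N, hN, hζN⟩)
      obtain ⟨A, η, hA0, hA, hη, hmemη⟩ := zthm_desc a K N₀ n₀ hN₀ htpp p hp ((le_max_left _ _).trans hdeg) z ζ
        (orderOf ζ) hfin (IsPrimitiveRoot.orderOf ζ) hz hmem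
      refine ⟨p, hp, (le_max_right _ _).trans hdeg, fun j => ?_⟩
      obtain ⟨t, ht⟩ := hden A hA0 (fun q hq hqA => Nat.mem_primeFactors.2 ⟨hq, hA q hq hqA, hT⟩) η hη p hp.1 hp.2.1
        z hz hmemη j
      refine ⟨t, ?_⟩
      apply Complex.ofReal_injective
      push_cast
      rw [← ht]
      congr 1
      refine Finset.sum_congr rfl fun w hw => ?_
      have hw' : aeval w p = 0 := by
        rw [rts, Multiset.mem_toFinset] at hw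
        exact (mem_aroots.1 hw).2
      have h1 : w = (w.re : ℂ) := Complex.ext rfl (by rw [(hp.2.2 w hw').1, Complex.ofReal_im])
      rw [← h1])
    exact ha k hk
  · push Not at hub
    obtain ⟨n₁, hn₁⟩ := hub
    exact (fin_deg a n₁).subset fun p hp => ⟨hp.1, hn₁ p hp⟩

end MP225
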