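import Pool.Agent.Lib_MP_225a87_nt.StepD
import Pool.Agent.Lib_MP_225a87_nt.DiscrAdj
import Pool.Agent.Lib_MP_225a87_nt.FinDeg

open Polynomial Finset IntermediateField

namespace MP225

private theorem master_nd {E₁ E₂ : IntermediateField ℚ ℂ} (h : E₁ = E₂) (z : ℂ) :
    (minpoly ↥E₁ z).natDegree = (minpoly ↥E₂ z).natDegree := by
  subst h
  rfl

private theorem master_gcd (ℓ M N₀ : ℕ) (hℓ : ℓ.Prime) (hM : 0 < M) (hN₀ : 0 < N₀)
    (h : N₀.factorization ℓ < (ℓ * M).factorization ℓ) :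
    Nat.gcd (ℓ * M) N₀ = Nat.gcd M N₀ := by
  have hℓ0 : ℓ ≠ 0 := hℓ.ne_zero
  have hfac : (ℓ * M).factorization = ℓ.factorization + M.factorization :=
    Nat.factorization_mul hℓ0 hM.ne'
  apply Nat.dvd_antisymm
  · refine Nat.dvd_gcd ?_ (Nat.gcd_dvd_right _ _)
    have hg : Nat.gcd (ℓ * M) N₀ ≠ 0 := (Nat.gcd_pos_of_pos_right _ hN₀).ne'
    rw [← Nat.factorization_le_iff_dvd hg hM.ne']
    intro q
    rw [Nat.factorization_gcd (Nat.mul_ne_zero hℓ0 hM.ne') hN₀.ne']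
    simp only [Finsupp.inf_apply]
    by_cases hq : q = ℓ
    · subst hq
      rw [hfac] at h ⊢
      simp only [Finsupp.add_apply, hℓ.factorization_self] at h ⊢
      omega
    · rw [hfac]
      have h0 : ℓ.factorization q = 0 := by
        rw [hℓ.factorization, Finsupp.single_apply, if_neg (fun e => hq e.symm)]
      simp only [Finsupp.add_apply, h0]
      omega
  · exact Nat.gcd_dvd_gcd_of_dvd_left _ (Dvd.intro_left _ rfl)

private theorem master_nf (F : IntermediateField ℚ ℂ) [NumberField F] {m : ℕ} (hm : 0 < m) {ζ : ℂ}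
    (hζ : IsPrimitiveRoot ζ m) : NumberField ↥(F ⊔ ℚ⟮ζ⟯) := by
  have hint : IsIntegral ℚ ζ := (hζ.isIntegral hm).tower_top
  have : FiniteDimensional ℚ ℚ⟮ζ⟯ := IntermediateField.adjoin.finiteDimensional hint
  have : FiniteDimensional ℚ F := NumberField.to_finiteDimensional
  have : FiniteDimensional ℚ ↥(F ⊔ ℚ⟮ζ⟯) := IntermediateField.finiteDimensional_sup F ℚ⟮ζ⟯
  exact { to_charZero := inferInstance, to_finiteDimensional := inferInstance }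

private theorem master_bezout {x y : ℕ} (h : Nat.Coprime x y) {ζ : ℂ} (hζ : ζ ≠ 0)
    (E : IntermediateField ℚ ℂ) (h1 : ζ ^ x ∈ E) (h2 : ζ ^ y ∈ E) : ζ ∈ E := by
  have hb : (1 : ℤ) = x * Nat.gcdA x y + y * Nat.gcdB x y := by
    have := Nat.gcd_eq_gcd_ab x y
    rw [Nat.Coprime] at h
    rw [h] at this
    exact_mod_cast this
  have : ζ = (ζ ^ x) ^ (Nat.gcdA x y) * (ζ ^ y) ^ (Nat.gcdB x y) := by
    have h3 : (ζ ^ x) ^ (Nat.gcdA x y) = ζ ^ ((x : ℤ) * Nat.gcdA x y) := by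
      rw [zpow_mul, zpow_natCast]
    have h4 : (ζ ^ y) ^ (Nat.gcdB x y) = ζ ^ ((y : ℤ) * Nat.gcdB x y) := by
      rw [zpow_mul, zpow_natCast]
    rw [h3, h4, ← zpow_add₀ hζ, ← hb, zpow_one]
  rw [this]
  exact mul_mem (zpow_mem h1 _) (zpow_mem h2 _)

/-- the field generated by two powers of coprime exponents -/
private theorem master_field (F : IntermediateField ℚ ℂ) {x y : ℕ} (h : Nat.Coprime x y) {ζ : ℂ} (hζ : ζ ≠ 0) :
    (F ⊔ ℚ⟮ζ ^ x⟯) ⊔ ℚ⟮ζ ^ y⟯ = F ⊔ ℚ⟮ζ⟯ := by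
  have hself : ζ ∈ F ⊔ ℚ⟮ζ⟯ :=
    (le_sup_right : ℚ⟮ζ⟯ ≤ F ⊔ ℚ⟮ζ⟯) (IntermediateField.mem_adjoin_simple_self ℚ _)
  refine le_antisymm (sup_le (sup_le le_sup_left ?_) ?_) (sup_le (le_sup_left.trans le_sup_left) ?_)
  · rw [IntermediateField.adjoin_simple_le_iff]
    exact pow_mem hself _
  · rw [IntermediateField.adjoin_simple_le_iff]
    exact pow_mem hself _
  · rw [IntermediateField.adjoin_simple_le_iff]
    refine master_bezout h hζ _ ?_ ?_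
    · exact (le_sup_right.trans le_sup_left : ℚ⟮ζ ^ x⟯ ≤ (F ⊔ ℚ⟮ζ ^ x⟯) ⊔ ℚ⟮ζ ^ y⟯)
        (IntermediateField.mem_adjoin_simple_self ℚ _)
    · exact (le_sup_right : ℚ⟮ζ ^ y⟯ ≤ (F ⊔ ℚ⟮ζ ^ x⟯) ⊔ ℚ⟮ζ ^ y⟯)
        (IntermediateField.mem_adjoin_simple_self ℚ _)

/-- MASTER. Same induction as `tpp` (Tpp.lean), with `N₀ = (B!)^(K₀+1)`: if `v_ℓ(N) > v_ℓ(N₀)` then either `ℓ < B`, and
`k = v_ℓ(N) > K₀`, or `ℓ ≥ B`; apply `step_D_C` to `F' = F ⊔ ℚ⟮ζ^(ℓ^k)⟯`, `ζ' = ζ^(N/ℓ^k)`, `discr_adjoin_C`. The degree over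
`F ⊔ ℚ⟮ζ⟯ ` equals the degree over `F ⊔ ℚ⟮ζ^ℓ⟯`, then induction hypothesis for `N/ℓ`, `ζ^ℓ`. -/
theorem master (a : ℝ) (ha : ∀ n : ℤ, (n : ℝ) ≠ a) (D : ℕ) : ∃ N₀ : ℕ, 0 < N₀ ∧ ∀ (p : ℤ[X]),
    ConjIn a p → ∀ (F : IntermediateField ℚ ℂ) [NumberField F] (N : ℕ), 0 < N →
      N.Coprime (NumberField.discr F).natAbs → ∀ z ζ : ℂ, IsPrimitiveRoot ζ N →
      aeval z p = 0 → (minpoly ↥(F ⊔ ℚ⟮ζ⟯) z).natDegree ≤ D →
      (minpoly ↥(F ⊔ ℚ⟮ζ ^ (N / Nat.gcd N N₀)⟯) z).natDegree =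
        (minpoly ↥(F ⊔ ℚ⟮ζ⟯) z).natDegree := by
  obtain ⟨B, K₀, hstep⟩ := step_D_C a ha D
  obtain ⟨N₀, hN₀def⟩ : ∃ N₀, N₀ = B.factorial ^ (K₀ + 1) := ⟨_, rfl⟩
  have hN₀ : 0 < N₀ := by
    rw [hN₀def]
    exact pow_pos B.factorial_pos _
  refine ⟨N₀, hN₀, ?_⟩
  intro p hp F _ N
  induction N using Nat.strong_induction_on with
  | _ N ih =>
  intro hN hcop z ζ hζ hz hdegle
  by_cases hdvd : N ∣ N₀
  · exact master_nd (by rw [Nat.gcd_eq_left hdvd, Nat.div_self hN, pow_one]) z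
  · -- a prime with a larger exponent
    have hex : ∃ ℓ, ℓ.Prime ∧ N₀.factorization ℓ < N.factorization ℓ := by
      by_contra hcon
      push Not at hcon
      exact hdvd ((Nat.factorization_prime_le_iff_dvd hN.ne' hN₀.ne').1 hcon)
    obtain ⟨ℓ, hℓ, hlt⟩ := hex
    obtain ⟨k, hk⟩ : ∃ k, k = N.factorization ℓ := ⟨_, rfl⟩
    have hk1 : 1 ≤ k := by omega
    obtain ⟨N', hN'⟩ : ∃ N', N' = N / ℓ ^ k := ⟨_, rfl⟩
    have hpk : ℓ ^ k ∣ N := by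
      rw [hk]
      exact Nat.ordProj_dvd N ℓ
    have hNeq : N = ℓ ^ k * N' := by
      rw [hN']
      exact (Nat.mul_div_cancel' hpk).symm
    have hN'pos : 0 < N' := by
      rcases Nat.eq_zero_or_pos N' with h | h
      · rw [h, mul_zero] at hNeq
        omega
      · exact h
    have hℓN' : ¬ ℓ ∣ N' := by
      rw [hN', hk]
      exact Nat.not_dvd_ordCompl hℓ hN.ne'
    have hcop0 : Nat.Coprime ℓ N' := (Nat.Prime.coprime_iff_not_dvd hℓ).2 hℓN'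
    have hcopk : Nat.Coprime (ℓ ^ k) N' := Nat.Coprime.pow_left k hcop0
    have hcopk1 : Nat.Coprime (ℓ ^ (k - 1)) N' := Nat.Coprime.pow_left (k - 1) hcop0
    have hℓN : ℓ ∣ N := (dvd_pow_self ℓ (by omega)).trans hpk
    -- discriminant
    have hd : ¬ (ℓ : ℤ) ∣ NumberField.discr F := by
      intro h
      have h1 : ℓ ∣ (NumberField.discr F).natAbs := Int.natCast_dvd.1 h
      have h2 : ℓ ∣ 1 := by
        have h3 := Nat.dvd_gcd hℓN h1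
        rwa [Nat.Coprime.gcd_eq_one hcop] at h3
      exact hℓ.one_lt.ne' (Nat.dvd_one.1 h2)
    have hζ0 : ζ ≠ 0 := hζ.ne_zero hN.ne'
    have hζ1 : IsPrimitiveRoot (ζ ^ (ℓ ^ k)) N' := hζ.pow hN hNeq
    have hζ2 : IsPrimitiveRoot (ζ ^ N') (ℓ ^ k) := hζ.pow hN (by rw [hNeq]; ring)
    have hE : NumberField ↥(F ⊔ ℚ⟮ζ ^ (ℓ ^ k)⟯) := master_nf F hN'pos hζ1
    have hd' := discr_adjoin_C F N' hN'pos (ζ ^ (ℓ ^ k)) hζ1 ℓ hℓ hℓN' hd hE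
    have hkB : ℓ < B → K₀ < k := by
      intro hlt'
      have h1 : ℓ ^ (K₀ + 1) ∣ N₀ := by
        rw [hN₀def]
        exact pow_dvd_pow_of_dvd ((Nat.Prime.dvd_factorial hℓ).2 hlt'.le) _
      have h2 : K₀ + 1 ≤ N₀.factorization ℓ :=
        (Nat.Prime.pow_dvd_iff_le_factorization hℓ hN₀.ne').1 h1
      omega
    have heq1 : (F ⊔ ℚ⟮ζ ^ (ℓ ^ k)⟯) ⊔ ℚ⟮ζ ^ N'⟯ = F ⊔ ℚ⟮ζ⟯ := master_field F hcopk hζ0
    have heq2 : (F ⊔ ℚ⟮ζ ^ (ℓ ^ k)⟯) ⊔ ℚ⟮(ζ ^ N') ^ ℓ⟯ = F ⊔ ℚ⟮ζ ^ ℓ⟯ := by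
      have e1 : ζ ^ (ℓ ^ k) = (ζ ^ ℓ) ^ (ℓ ^ (k - 1)) := by
        rw [← pow_mul, ← pow_succ', Nat.sub_add_cancel hk1]
      have e2 : (ζ ^ N') ^ ℓ = (ζ ^ ℓ) ^ N' := by
        rw [← pow_mul, ← pow_mul, mul_comm]
      rw [e1, e2]
      exact master_field F hcopk1 (pow_ne_zero _ hζ0)
    have hd1 := master_nd heq1 z
    have hd2 := master_nd heq2 z
    have hz2 := hstep p hp (F ⊔ ℚ⟮ζ ^ (ℓ ^ k)⟯) ℓ k hℓ hd' hk1 hkB (ζ ^ N') hζ2 z hz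
      (hd1.le.trans hdegle)
    have hd3 : (minpoly ↥(F ⊔ ℚ⟮ζ ^ ℓ⟯) z).natDegree = (minpoly ↥(F ⊔ ℚ⟮ζ⟯) z).natDegree :=
      hd2.symm.trans (hz2.trans hd1)
    obtain ⟨M, hM⟩ : ∃ M, N = ℓ * M := hℓN
    have hMpos : 0 < M := by
      rcases Nat.eq_zero_or_pos M with h | h
      · rw [h, mul_zero] at hM
        omega
      · exact h
    have hMlt : M < N := by
      rw [hM]
      have := hℓ.two_le
      nlinarith
    have hζℓ : IsPrimitiveRoot (ζ ^ ℓ) M := hζ.pow hN hM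
    have hMcop : M.Coprime (NumberField.discr F).natAbs :=
      Nat.Coprime.coprime_dvd_left (Dvd.intro_left _ hM.symm) hcop
    have hfin := ih M hMlt hMpos hMcop z (ζ ^ ℓ) hζℓ hz (hd3.le.trans hdegle)
    have hg : Nat.gcd N N₀ = Nat.gcd M N₀ := by
      rw [hM] at hlt ⊢
      exact master_gcd ℓ M N₀ hℓ hMpos hN₀ hlt
    have hexp : ℓ * (M / Nat.gcd M N₀) = N / Nat.gcd N N₀ := by
      rw [hg, hM, Nat.mul_div_assoc _ (Nat.gcd_dvd_left M N₀)]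
    have hlast : F ⊔ ℚ⟮ζ ^ (N / Nat.gcd N N₀)⟯ = F ⊔ ℚ⟮(ζ ^ ℓ) ^ (M / Nat.gcd M N₀)⟯ := by
      rw [← hexp, pow_mul]
    exact (master_nd hlast z).trans (hfin.trans hd3)

/-- the degree of `p` is the degree of a root over `ℚ` -/
private theorem master_deg {p : ℤ[X]} (hm : p.Monic) (hirr : Irreducible p) {z : ℂ} (hz : aeval z p = 0) :
    p.natDegree = (minpoly ℚ z).natDegree := by
  have h1 : Irreducible (p.map (algebraMap ℤ ℚ)) :=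
    (hm.irreducible_iff_irreducible_map_fraction_map (K := ℚ)).1 hirr
  have h2 : aeval z (p.map (algebraMap ℤ ℚ)) = 0 := by
    rw [aeval_map_algebraMap]
    exact hz
  have h3 := minpoly.eq_of_irreducible_of_monic h1 h2 (hm.map _)
  rw [← h3, hm.natDegree_map]

/-- degrees in towers -/
private theorem master_tower (E : IntermediateField ℚ ℂ) [FiniteDimensional ℚ E] {z : ℂ} (hz : IsIntegral ℚ z) :
    (minpoly ℚ z).natDegree ≤ Module.finrank ℚ E * (minpoly E z).natDegree := by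
  have hzE : IsIntegral E z := hz.tower_top
  have : FiniteDimensional E E⟮z⟯ := IntermediateField.adjoin.finiteDimensional hzE
  have : FiniteDimensional ℚ E⟮z⟯ := FiniteDimensional.trans ℚ E E⟮z⟯
  have h1 : Module.finrank ℚ E * Module.finrank E E⟮z⟯ = Module.finrank ℚ E⟮z⟯ :=
    Module.finrank_mul_finrank ℚ E E⟮z⟯
  rw [← IntermediateField.adjoin.finrank hzE, h1]
  have h2 : minpoly ℚ (⟨z, IntermediateField.mem_adjoin_simple_self E z⟩ : E⟮z⟯) = minpoly ℚ z :=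
    (minpoly.algebraMap_eq (B' := ℂ) (algebraMap E⟮z⟯ ℂ).injective
      (⟨z, IntermediateField.mem_adjoin_simple_self E z⟩ : E⟮z⟯)).symm
  rw [← h2]
  exact minpoly.natDegree_le _

/-- degree of a cyclotomic field -/
private theorem master_cyc {m : ℕ} (hm : 0 < m) {ζ : ℂ} (hζ : IsPrimitiveRoot ζ m) :
    Module.finrank ℚ ℚ⟮ζ⟯ ≤ m := by
  have hint : IsIntegral ℚ ζ := (hζ.isIntegral hm).tower_top
  rw [IntermediateField.adjoin.finrank hint]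
  have h0 : (X ^ m - 1 : ℚ[X]) ≠ 0 := by
    have := Polynomial.X_pow_sub_C_ne_zero hm (1 : ℚ)
    simpa using this
  have h1 : aeval ζ (X ^ m - 1 : ℚ[X]) = 0 := by
    simp [hζ.pow_eq_one]
  have h2 := natDegree_le_of_dvd (minpoly.dvd ℚ ζ h1) h0
  have h3 : (X ^ m - 1 : ℚ[X]).natDegree = m := by
    have := natDegree_X_pow_sub_C (n := m) (r := (1 : ℚ))
    simpa using this
  rw [h3] at h2
  exact h2

/-- BD. `master` with `F = ⊥` (discriminant 1): with `ζ' = ζ^(N/gcd(N,N₀))`, a primitive root of unity of order dividing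
`N₀`, the degree of `z` over `ℚ⟮ζ'⟯` is `≤ D`, so `p.natDegree = [ℚ(z):ℚ] ≤ [ℚ(ζ',z):ℚ] ≤ N₀·D`; `fin_deg`. (Replace `N` by the exact
order of `ζ`.) -/
theorem bd (a : ℝ) (ha : ∀ n : ℤ, (n : ℝ) ≠ a) (D : ℕ) :
    {p : ℤ[X] | ConjIn a p ∧ ∃ z ζ : ℂ, ∃ N : ℕ, 0 < N ∧ ζ ^ N = 1 ∧ aeval z p = 0 ∧
      (minpoly ↥(ℚ⟮ζ⟯) z).natDegree ≤ D}.Finite := by
  obtain ⟨N₀, hN₀, hm⟩ := master a ha D
  refine (fin_deg a (N₀ * D + 1)).subset ?_
  rintro p ⟨hp, z, ζ, N, hN, hζN, hz, hdeg⟩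
  refine ⟨hp, Nat.lt_succ_of_le ?_⟩
  have hfin : 0 < orderOf ζ := orderOf_pos_iff.2 (isOfFinOrder_iff_pow_eq_one.2 ⟨N, hN, hζN⟩)
  obtain ⟨M, hM⟩ : ∃ M, M = orderOf ζ := ⟨_, rfl⟩
  rw [← hM] at hfin
  have hζ : IsPrimitiveRoot ζ M := by
    rw [hM]
    exact IsPrimitiveRoot.orderOf ζ
  have hbf : FiniteDimensional ℚ ↥(⊥ : IntermediateField ℚ ℂ) := inferInstance
  have hnf : NumberField ↥(⊥ : IntermediateField ℚ ℂ) :=
    { to_charZero := inferInstance, to_finiteDimensional := inferInstance }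
  have hdis : NumberField.discr ↥(⊥ : IntermediateField ℚ ℂ) = 1 := by
    rw [NumberField.discr_eq_discr_of_algEquiv _ (IntermediateField.botEquiv ℚ ℂ)]
    exact NumberField.discr_rat
  have hcop : M.Coprime (NumberField.discr ↥(⊥ : IntermediateField ℚ ℂ)).natAbs := by
    rw [hdis]
    exact Nat.coprime_one_right M
  have e1 : (minpoly ↥((⊥ : IntermediateField ℚ ℂ) ⊔ ℚ⟮ζ⟯) z).natDegree = (minpoly ↥(ℚ⟮ζ⟯) z).natDegree :=
    master_nd (bot_sup_eq _) z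
  have h := hm p hp ⊥ M hfin hcop z ζ hζ hz (e1.le.trans hdeg)
  have hgpos : 0 < Nat.gcd M N₀ := Nat.gcd_pos_of_pos_right _ hN₀
  have hζ' : IsPrimitiveRoot (ζ ^ (M / Nat.gcd M N₀)) (Nat.gcd M N₀) :=
    hζ.pow hfin (Nat.div_mul_cancel (Nat.gcd_dvd_left M N₀)).symm
  have e2 : (minpoly ↥((⊥ : IntermediateField ℚ ℂ) ⊔ ℚ⟮ζ ^ (M / Nat.gcd M N₀)⟯) z).natDegree =
      (minpoly ↥(ℚ⟮ζ ^ (M / Nat.gcd M N₀)⟯) z).natDegree := master_nd (bot_sup_eq _) z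
  have hd : (minpoly ↥(ℚ⟮ζ ^ (M / Nat.gcd M N₀)⟯) z).natDegree ≤ D := by
    rw [← e2, h, e1]
    exact hdeg
  have hint : IsIntegral ℚ (ζ ^ (M / Nat.gcd M N₀)) := (hζ'.isIntegral hgpos).tower_top
  have : FiniteDimensional ℚ ℚ⟮ζ ^ (M / Nat.gcd M N₀)⟯ := IntermediateField.adjoin.finiteDimensional hint
  have hzint : IsIntegral ℚ z := by
    have h1 : IsIntegral ℤ z := ⟨p, hp.1, by rw [← aeval_def]; exact hz⟩
    exact h1.tower_top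
  calc p.natDegree = (minpoly ℚ z).natDegree := master_deg hp.1 hp.2.1 hz
    _ ≤ Module.finrank ℚ ℚ⟮ζ ^ (M / Nat.gcd M N₀)⟯ * (minpoly ↥(ℚ⟮ζ ^ (M / Nat.gcd M N₀)⟯) z).natDegree :=
        master_tower _ hzint
    _ ≤ N₀ * D := Nat.mul_le_mul ((master_cyc hgpos hζ').trans (Nat.le_of_dvd hN₀ (Nat.gcd_dvd_right M N₀))) hd

end MP225
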