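import Pool.Agent.Lib_MP_225a87_nt.Moments
import Pool.Agent.Lib_MP_225a87_nt.Fiber

open Polynomial Finset

namespace MP225

theorem M2M3_norm_sq (z : ℂ) (c : ℝ) (hz : z.im = 0) : ‖z - (c : ℂ)‖ ^ 2 = (z.re - c) ^ 2 := by
  rw [← Complex.normSq_eq_norm_sq, Complex.normSq_apply]
  simp only [Complex.sub_re, Complex.sub_im, Complex.ofReal_re, Complex.ofReal_im, hz]
  ring

/-- MEANSQ (piece M2). `fiber` with `g z = ‖z - c‖²` (all roots are real, so it is `(z.re - c)²`) and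
`moments` with `j = 2`. -/
theorem mean_sq (ε : ℝ) (hε : 0 < ε) : ∃ n₀ : ℕ, ∀ (a : ℝ) (p : ℤ[X]), ConjIn a p →
    n₀ ≤ p.natDegree → ∀ (L : Type) [Field L] [NumberField L] (β : L), aeval β p = 0 →
      ∑ φ : L →+* ℂ, ‖φ β - ((a + 2 : ℝ) : ℂ)‖ ^ 2 ≤ (2 + ε) * Module.finrank ℚ L := by
  obtain ⟨e, -, he2, he⟩ := moments
  obtain ⟨n₀, hn₀⟩ := he 2 ε hε
  refine ⟨n₀ + 1, fun a p hp hdeg L _ _ β hβ => ?_⟩
  have hn : (0 : ℝ) < p.natDegree := by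
    have : 0 < p.natDegree := by omega
    exact_mod_cast this
  have h1 := hn₀ a p hp (by omega)
  rw [he2] at h1
  have h2 : ∑ z ∈ rts p, (z.re - (a + 2)) ^ 2 ≤ (2 + ε) * p.natDegree := by
    have := (abs_le.mp h1).2
    push_cast at this
    linarith
  have hf := fiber p hp.1 hp.2.1 β hβ (fun z => ((‖z - ((a + 2 : ℝ) : ℂ)‖ ^ 2 : ℝ) : ℂ))
  have h3 : (∑ φ : L →+* ℂ, ‖φ β - ((a + 2 : ℝ) : ℂ)‖ ^ 2) * p.natDegree =
      Module.finrank ℚ L * ∑ z ∈ rts p, ‖z - ((a + 2 : ℝ) : ℂ)‖ ^ 2 := by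
    exact_mod_cast hf
  have h4 : ∑ z ∈ rts p, ‖z - ((a + 2 : ℝ) : ℂ)‖ ^ 2 = ∑ z ∈ rts p, (z.re - (a + 2)) ^ 2 := by
    refine sum_congr rfl (fun z hz => M2M3_norm_sq z (a + 2) ?_)
    have hz' : aeval z p = 0 := by
      have := (Multiset.mem_toFinset.mp hz)
      exact (mem_aroots.mp this).2
    exact (hp.2.2 z hz').1
  rw [h4] at h3
  refine le_of_mul_le_mul_right ?_ hn
  rw [h3]
  have h5 : (0 : ℝ) ≤ Module.finrank ℚ L := Nat.cast_nonneg _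
  calc (Module.finrank ℚ L : ℝ) * ∑ z ∈ rts p, (z.re - (a + 2)) ^ 2
      ≤ Module.finrank ℚ L * ((2 + ε) * p.natDegree) := mul_le_mul_of_nonneg_left h2 h5
    _ = (2 + ε) * Module.finrank ℚ L * p.natDegree := by ring

end MP225
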