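import Pool.Agent.Lib_MP_225a87_nt.Energy
import Pool.Agent.Lib_MP_225a87_nt.Disc

open Polynomial Finset

namespace MP225

/-- the limits of the mixed moments -/
def M1_E : ℕ → ℕ → ℤ
  | 0, 0 => 2
  | 0, _ + 1 => 0
  | i + 1, 0 => 2 * M1_E i 1
  | i + 1, m + 1 => M1_E i (m + 2) + M1_E i m

/-- the angle of a root -/
noncomputable def M1_th (a : ℝ) (z : ℂ) : ℝ := Real.arccos ((z.re - (a + 2)) / 2)

theorem M1_mem {a : ℝ} {p : ℤ[X]} (h : ConjIn a p) {z : ℂ} (hz : z ∈ rts p) :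
    z.im = 0 ∧ a ≤ z.re ∧ z.re ≤ a + 4 := by
  refine h.2.2 z ?_
  unfold rts at hz
  rw [Multiset.mem_toFinset, mem_aroots] at hz
  exact hz.2

theorem M1_cos {a : ℝ} {p : ℤ[X]} (h : ConjIn a p) {z : ℂ} (hz : z ∈ rts p) :
    2 * Real.cos (M1_th a z) = z.re - (a + 2) := by
  obtain ⟨_, h1, h2⟩ := M1_mem h hz
  unfold M1_th
  rw [Real.cos_arccos (by linarith) (by linarith)]
  ring

theorem M1_base (m : ℕ) (hm : 1 ≤ m) {a : ℝ} {p : ℤ[X]} (h : ConjIn a p) (hn : 2 ≤ p.natDegree) :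
    (∑ z ∈ rts p, 2 * Real.cos (m * M1_th a z)) ^ 2 ≤
      2 * m * 2 ^ m * (p.natDegree * (1 + 2 * Real.log p.natDegree)) := by
  obtain ⟨hc, hd⟩ := disc_ge_one p h.1 h.2.1
  have hcard : Fintype.card {z // z ∈ rts p} = p.natDegree := by
    rw [Fintype.card_coe, hc]
  have h1 := energy (ι := {z // z ∈ rts p}) (fun z => M1_th a z.1) (by rw [hcard]; exact hn) (by
    have h2 : ∏ i : {z // z ∈ rts p}, ∏ j ∈ univ.erase i,
        |2 * Real.cos (M1_th a i.1) - 2 * Real.cos (M1_th a j.1)| =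
        ∏ z ∈ rts p, ∏ w ∈ (rts p).erase z, ‖z - w‖ := by
      rw [← Finset.prod_coe_sort (rts p)]
      refine Finset.prod_congr rfl fun i _ => ?_
      refine Finset.prod_bij (fun j _ => j.1) ?_ ?_ ?_ ?_
      · intro j hj
        have hji : j ≠ i := Finset.ne_of_mem_erase hj
        exact Finset.mem_erase.2 ⟨fun h' => hji (Subtype.ext h'), j.2⟩
      · intro j _ k _ hjk
        exact Subtype.ext hjk
      · intro w hw
        obtain ⟨hw1, hw2⟩ := Finset.mem_erase.1 hw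
        refine ⟨⟨w, hw2⟩, Finset.mem_erase.2 ⟨fun h' => hw1 ?_, Finset.mem_univ _⟩, rfl⟩
        rw [← h']
      · intro j _
        rw [M1_cos h i.2, M1_cos h j.2]
        have h3 : i.1 - j.1 = ((i.1.re - j.1.re : ℝ) : ℂ) := by
          apply Complex.ext
          · simp
          · simp [(M1_mem h i.2).1, (M1_mem h j.2).1]
        rw [h3, Complex.norm_real, Real.norm_eq_abs]
        congr 1
        ring
    rw [h2]
    exact hd) m hm
  rw [hcard] at h1
  have h4 : ∑ z ∈ rts p, 2 * Real.cos (m * M1_th a z) =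
      ∑ i : {z // z ∈ rts p}, 2 * Real.cos (m * M1_th a i.1) :=
    (Finset.sum_coe_sort (rts p) fun z => 2 * Real.cos (m * M1_th a z)).symm
  rw [h4]
  exact h1

theorem M1_log (C ε : ℝ) (hC : 0 < C) (hε : 0 < ε) : ∃ n₀ : ℕ, ∀ n : ℕ, n₀ ≤ n →
    C * (1 + 2 * Real.log n) ≤ ε * n := by
  have h1 := (Real.isLittleO_log_id_atTop.comp_tendsto tendsto_natCast_atTop_atTop).def
    (show 0 < ε / (4 * C) by positivity)
  obtain ⟨n₁, hn₁⟩ := Filter.eventually_atTop.1 h1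
  obtain ⟨n₂, hn₂⟩ := exists_nat_gt (2 * C / ε)
  refine ⟨max n₁ n₂, fun n hn => ?_⟩
  have h2 := hn₁ n ((le_max_left _ _).trans hn)
  simp only [Function.comp, id] at h2
  have h3 : Real.log n ≤ ε / (4 * C) * n := by
    refine (le_abs_self _).trans ?_
    simpa using h2
  have h4 : 2 * C / ε ≤ n := hn₂.le.trans (by exact_mod_cast (le_max_right _ _).trans hn)
  have h5 : 2 * C ≤ n * ε := (div_le_iff₀ hε).1 h4
  have h6 : C * (2 * Real.log n) ≤ ε * n / 2 := by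
    calc C * (2 * Real.log n) ≤ C * (2 * (ε / (4 * C) * n)) := by gcongr
      _ = ε * n / 2 := by field_simp; ring
  nlinarith

theorem M1_aux (i : ℕ) : ∀ (m : ℕ) (ε : ℝ), 0 < ε → ∃ n₀ : ℕ,
    ∀ (a : ℝ) (p : ℤ[X]), ConjIn a p → n₀ ≤ p.natDegree →
      |(∑ z ∈ rts p, (z.re - (a + 2)) ^ i * (2 * Real.cos (m * M1_th a z))) -
        M1_E i m * p.natDegree| ≤ ε * p.natDegree := by
  induction i with
  | zero =>
    intro m ε hε
    rcases m with _ | m
    · refine ⟨0, fun a p h _ => ?_⟩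
      obtain ⟨hc, _⟩ := disc_ge_one p h.1 h.2.1
      have h1 : (∑ z ∈ rts p, (z.re - (a + 2)) ^ 0 * (2 * Real.cos (((0 : ℕ) : ℝ) * M1_th a z))) -
        (M1_E 0 0 : ℝ) * (p.natDegree : ℝ) = 0 := by
        simp only [pow_zero, Nat.cast_zero, zero_mul, Real.cos_zero, M1_E, Finset.sum_const,
          nsmul_eq_mul, hc]
        push_cast
        ring
      rw [h1, abs_zero]
      positivity
    · obtain ⟨n₀, hn₀⟩ := M1_log (2 * ((m + 1 : ℕ) : ℝ) * 2 ^ (m + 1)) (ε ^ 2) (by positivity) (by positivity)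
      refine ⟨max n₀ 2, fun a p h hn => ?_⟩
      have h1 := M1_base (m + 1) (by omega) h ((le_max_right _ _).trans hn)
      have h2 := hn₀ p.natDegree ((le_max_left _ _).trans hn)
      have h3 : (∑ z ∈ rts p, 2 * Real.cos ((m + 1 : ℕ) * M1_th a z)) ^ 2 ≤
          (ε * p.natDegree) ^ 2 := by
        calc (∑ z ∈ rts p, 2 * Real.cos ((m + 1 : ℕ) * M1_th a z)) ^ 2 ≤ _ := h1
          _ = p.natDegree * (2 * ((m + 1 : ℕ) : ℝ) * 2 ^ (m + 1) * (1 + 2 * Real.log p.natDegree)) := by ring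
          _ ≤ p.natDegree * (ε ^ 2 * p.natDegree) := by gcongr
          _ = (ε * p.natDegree) ^ 2 := by ring
      have h4 : (∑ z ∈ rts p, (z.re - (a + 2)) ^ 0 * (2 * Real.cos ((m + 1 : ℕ) * M1_th a z))) -
        M1_E 0 (m + 1) * p.natDegree = ∑ z ∈ rts p, 2 * Real.cos ((m + 1 : ℕ) * M1_th a z) := by
        simp [M1_E]
      rw [h4]
      exact abs_le_of_sq_le_sq h3 (by positivity)
  | succ i ih =>
    intro m ε hε
    rcases m with _ | m
    · obtain ⟨n₀, hn₀⟩ := ih 1 (ε / 2) (by positivity)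
      refine ⟨n₀, fun a p h hn => ?_⟩
      have h1 := hn₀ a p h hn
      have h2 : (∑ z ∈ rts p, (z.re - (a + 2)) ^ (i + 1) * (2 * Real.cos ((0 : ℕ) * M1_th a z))) -
        M1_E (i + 1) 0 * p.natDegree =
        2 * ((∑ z ∈ rts p, (z.re - (a + 2)) ^ i * (2 * Real.cos ((1 : ℕ) * M1_th a z))) -
        M1_E i 1 * p.natDegree) := by
        have h3 : ∑ z ∈ rts p, (z.re - (a + 2)) ^ (i + 1) * (2 * Real.cos ((0 : ℕ) * M1_th a z)) =
            2 * ∑ z ∈ rts p, (z.re - (a + 2)) ^ i * (2 * Real.cos ((1 : ℕ) * M1_th a z)) := by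
          rw [Finset.mul_sum]
          refine Finset.sum_congr rfl fun z hz => ?_
          rw [Nat.cast_one, one_mul, M1_cos h hz]
          simp
          ring
        rw [h3, M1_E]
        push_cast
        ring
      rw [h2, abs_mul, abs_two]
      calc _ ≤ 2 * (ε / 2 * p.natDegree) := mul_le_mul_of_nonneg_left h1 (by norm_num)
        _ = ε * p.natDegree := by ring
    · obtain ⟨n₁, hn₁⟩ := ih (m + 2) (ε / 2) (by positivity)
      obtain ⟨n₂, hn₂⟩ := ih m (ε / 2) (by positivity)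
      refine ⟨max n₁ n₂, fun a p h hn => ?_⟩
      have h1 := hn₁ a p h ((le_max_left _ _).trans hn)
      have h1' := hn₂ a p h ((le_max_right _ _).trans hn)
      have h2 : (∑ z ∈ rts p, (z.re - (a + 2)) ^ (i + 1) * (2 * Real.cos ((m + 1 : ℕ) * M1_th a z))) -
        M1_E (i + 1) (m + 1) * p.natDegree =
        ((∑ z ∈ rts p, (z.re - (a + 2)) ^ i * (2 * Real.cos ((m + 2 : ℕ) * M1_th a z))) -
        M1_E i (m + 2) * p.natDegree) +
        ((∑ z ∈ rts p, (z.re - (a + 2)) ^ i * (2 * Real.cos ((m : ℕ) * M1_th a z))) -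
        M1_E i m * p.natDegree) := by
        have h3 : ∑ z ∈ rts p, (z.re - (a + 2)) ^ (i + 1) * (2 * Real.cos ((m + 1 : ℕ) * M1_th a z)) =
            (∑ z ∈ rts p, (z.re - (a + 2)) ^ i * (2 * Real.cos ((m + 2 : ℕ) * M1_th a z))) +
            ∑ z ∈ rts p, (z.re - (a + 2)) ^ i * (2 * Real.cos ((m : ℕ) * M1_th a z)) := by
          rw [← Finset.sum_add_distrib]
          refine Finset.sum_congr rfl fun z hz => ?_
          rw [pow_succ, ← M1_cos h hz]
          have e1 : ((m + 2 : ℕ) : ℝ) * M1_th a z = (m + 1 : ℕ) * M1_th a z + M1_th a z := by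
            push_cast; ring
          have e2 : ((m : ℕ) : ℝ) * M1_th a z = (m + 1 : ℕ) * M1_th a z - M1_th a z := by
            push_cast; ring
          rw [e1, e2, Real.cos_add, Real.cos_sub]
          ring
        rw [h3, M1_E]
        push_cast
        ring
      rw [h2]
      refine (abs_add_le _ _).trans ?_
      linarith

/-- MOMENTS (piece M1). `e j = (1/2π)∫ (2cos θ)^j dθ` (an integer). Write `z.re - (a+2) = 2 cos θ_z` with
`θ_z = arccos(..)` for the roots `z` of `p` (all real, in `[a,a+4]`). By `disc_ge_one` (translation does not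
change differences; `‖z-w‖ = |z.re - w.re|`) and `energy` (ι = the subtype of `rts p`),
`(∑_z 2cos(mθ_z))² ≤ C_m n(1+2 log n)` for all `m ≥ 1`, so `|∑_z 2cos(mθ_z)| ≤ ε n` for `n ≥ n₀(m,ε)`.
Then show by induction on `i`: for all `m` there is an integer `E i m` with
`(1/n) ∑ (2cosθ)^i · 2cos(mθ) → E i m`, using
`(2cosθ)·2cos(mθ) = 2cos((m+1)θ) + 2cos((m-1)θ)` (m ≥ 1) and `2cosθ·2 = 2·2cosθ` (m = 0), starting from
`i = 0`: `E 0 0 = 2`, `E 0 m = 0` for `m ≥ 1`; and `e (j+1) = E j 1`, `e 0 = 1`; `e 2 = 2` from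
`(2cosθ)² = 2cos 2θ + 2`. -/
theorem moments : ∃ e : ℕ → ℤ, e 0 = 1 ∧ e 2 = 2 ∧ ∀ (j : ℕ) (ε : ℝ), 0 < ε → ∃ n₀ : ℕ,
    ∀ (a : ℝ) (p : ℤ[X]), ConjIn a p → n₀ ≤ p.natDegree →
      |(∑ z ∈ rts p, (z.re - (a + 2)) ^ j) - e j * p.natDegree| ≤ ε * p.natDegree := by
  refine ⟨fun j => match j with | 0 => 1 | j + 1 => M1_E j 1, rfl, by simp [M1_E], ?_⟩
  intro j ε hε
  rcases j with _ | j
  · refine ⟨0, fun a p h _ => ?_⟩
    obtain ⟨hc, _⟩ := disc_ge_one p h.1 h.2.1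
    have h1 : (∑ z ∈ rts p, (z.re - (a + 2)) ^ 0) - ((1 : ℤ) : ℝ) * p.natDegree = 0 := by
      simp [hc]
    simp only []
    rw [h1, abs_zero]
    positivity
  · obtain ⟨n₀, hn₀⟩ := M1_aux j 1 ε hε
    refine ⟨n₀, fun a p h hn => ?_⟩
    have h1 := hn₀ a p h hn
    have h2 : ∑ z ∈ rts p, (z.re - (a + 2)) ^ (j + 1) =
        ∑ z ∈ rts p, (z.re - (a + 2)) ^ j * (2 * Real.cos ((1 : ℕ) * M1_th a z)) := by
      refine Finset.sum_congr rfl fun z hz => ?_
      rw [Nat.cast_one, one_mul, M1_cos h hz, pow_succ]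
    simp only []
    rw [h2]
    exact h1

end MP225
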