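import Mathlib

open Finset

namespace MP225

/-- MU. Suppose `d·μ_j ∈ ℤ` for all `j`, `μ_j = ∑_{i≤j} C(j,i) c^(j-i) e_i`. `j = 1`: `d(c + e_1) ∈ ℤ`, so
`c = u/v` in lowest terms, `v ≥ 1`. `v^j μ_j = ∑ C(j,i) u^(j-i) v^i e_i` is an integer `≡ u^j (mod v)`, so coprime
to `v`; `d (v^j μ_j) = v^j (d μ_j)` gives `v^j ∣ d` for all `j`, so `v = 1`, contradiction with `hc`.
(The same argument is inside `int_of_den` in Limit.lean.) -/
theorem mu_not_int (e : ℕ → ℤ) (he : e 0 = 1) (c : ℝ) (hc : ∀ k : ℤ, (k : ℝ) ≠ c) (d : ℕ)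
    (hd : 0 < d) : ∃ j : ℕ, ∀ k : ℤ, (k : ℝ) ≠
      d * ∑ i ∈ range (j + 1), (j.choose i : ℝ) * c ^ (j - i) * e i := by
  by_contra hno
  push Not at hno
  have hden : ∀ j : ℕ, ∃ t : ℤ, (t : ℝ) =
      d * ∑ i ∈ range (j + 1), (j.choose i : ℝ) * c ^ (j - i) * e i := hno
  have hd' : (d : ℝ) ≠ 0 := by exact_mod_cast hd.ne'
  -- `c` is rational
  obtain ⟨q, hq⟩ : ∃ q : ℚ, (q : ℝ) = c := by
    obtain ⟨t, ht⟩ := hden 1
    refine ⟨(t : ℚ) / d - e 1, ?_⟩
    have h1 : ∑ i ∈ range (1 + 1), ((1 : ℕ).choose i : ℝ) * c ^ (1 - i) * e i = c + e 1 := by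
      simp [sum_range_succ, he]
    rw [h1] at ht
    push_cast
    rw [ht]
    field_simp
    ring
  obtain ⟨u, hu⟩ : ∃ u : ℤ, u = q.num := ⟨_, rfl⟩
  obtain ⟨v, hv⟩ : ∃ v : ℕ, v = q.den := ⟨_, rfl⟩
  have hcv : c * v = u := by
    rw [← hq, hu, hv]
    exact_mod_cast Rat.mul_den_eq_num q
  -- the integer `v^j E_j`
  obtain ⟨N, hNdef⟩ : ∃ N : ℕ → ℤ, ∀ j, N j =
      ∑ i ∈ range (j + 1), (j.choose i : ℤ) * u ^ (j - i) * (v : ℤ) ^ i * e i := ⟨_, fun _ => rfl⟩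
  have hN : ∀ j, (N j : ℝ) =
      (v : ℝ) ^ j * ∑ i ∈ range (j + 1), (j.choose i : ℝ) * c ^ (j - i) * e i := by
    intro j
    rw [hNdef]
    push_cast
    rw [mul_sum]
    refine sum_congr rfl (fun i hi => ?_)
    have hij : i ≤ j := by
      have := mem_range.mp hi
      omega
    have h3 : (v : ℝ) ^ j = (v : ℝ) ^ (j - i) * (v : ℝ) ^ i := by
      rw [← pow_add, Nat.sub_add_cancel hij]
    rw [h3, ← hcv, mul_pow]
    ring
  have hcop : ∀ j, IsCoprime ((v : ℤ) ^ j) (N j) := by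
    intro j
    apply IsCoprime.pow_left
    have h4 : N j = u ^ j + (v : ℤ) * ∑ i ∈ range j,
        (j.choose (i + 1) : ℤ) * u ^ (j - (i + 1)) * (v : ℤ) ^ i * e (i + 1) := by
      rw [hNdef, sum_range_succ', mul_sum, add_comm]
      congr 1
      · simp [he]
      · exact sum_congr rfl (fun i _ => by ring)
    rw [h4]
    have h5 : IsCoprime (v : ℤ) (u ^ j) := by
      apply IsCoprime.pow_right
      have := q.isCoprime_num_den
      rw [← hu, ← hv] at this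
      exact this.symm
    exact (IsCoprime.add_mul_left_right h5 _)
  have hdvd : ∀ j, (v : ℤ) ^ j ∣ d := by
    intro j
    obtain ⟨t, ht⟩ := hden j
    have h6 : (d : ℤ) * N j = (v : ℤ) ^ j * t := by
      have : ((d : ℤ) * N j : ℝ) = ((v : ℤ) ^ j * t : ℝ) := by
        push_cast
        rw [hN, ht]
        ring
      exact_mod_cast this
    exact (hcop j).dvd_of_dvd_mul_right ⟨t, h6⟩
  have hv1 : v = 1 := by
    by_contra hne
    have hv2 : 2 ≤ v := by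
      have : 0 < v := by rw [hv]; exact q.den_pos
      omega
    have h7 := hdvd d
    have h8 : v ^ d ∣ d := by exact_mod_cast h7
    have h9 := Nat.le_of_dvd hd h8
    have h10 : d < 2 ^ d := Nat.lt_two_pow_self
    have h11 : 2 ^ d ≤ v ^ d := Nat.pow_le_pow_left hv2 d
    omega
  refine hc u ?_
  rw [hv1] at hcv
  rw [← hcv]
  push_cast
  ring

end MP225
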