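import Mathlib

open Finset

namespace MP225

theorem W1T1_geom (P : ℕ) (u : ℂ) (hu : IsPrimitiveRoot u P) (i j : ℕ) (hi : i < P) (hj : j < P) :
    ∑ t ∈ range P, u ^ (t * i) * (u⁻¹) ^ (t * j) = if i = j then (P : ℂ) else 0 := by
  have hP : 0 < P := lt_of_le_of_lt (Nat.zero_le _) hi
  have hu0 : u ≠ 0 := hu.ne_zero hP.ne'
  have h1 : ∀ t, u ^ (t * i) * (u⁻¹) ^ (t * j) = (u ^ i * (u⁻¹) ^ j) ^ t := by
    intro t
    rw [mul_comm t i, mul_comm t j, pow_mul, pow_mul, mul_pow]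
  simp only [h1]
  split_ifs with h
  · subst h
    rw [← mul_pow, mul_inv_cancel₀ hu0, one_pow]
    simp
  · have h2 : (u ^ i * (u⁻¹) ^ j) ^ P = 1 := by
      rw [mul_pow, ← pow_mul, ← pow_mul, mul_comm i P, mul_comm j P, pow_mul, pow_mul, inv_pow, hu.pow_eq_one]
      simp
    have h3 : u ^ i * (u⁻¹) ^ j ≠ 1 := by
      intro h4
      apply h
      have h5 : u ^ i = u ^ j := by
        have : u ^ i * (u⁻¹) ^ j * u ^ j = 1 * u ^ j := by rw [h4]
        rwa [mul_assoc, ← mul_pow, inv_mul_cancel₀ hu0, one_pow, mul_one, one_mul] at this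
      exact hu.pow_inj hi hj h5
    have h6 := geom_sum_mul (u ^ i * (u⁻¹) ^ j) P
    rw [h2, sub_self] at h6
    rcases mul_eq_zero.1 h6 with h7 | h7
    · exact h7
    · exact absurd (sub_eq_zero.1 h7) h3

/-- WILD1 (piece W1). Parseval on `ℤ/P`. -/
theorem parseval (P : ℕ) (hP : 0 < P) (u : ℂ) (hu : IsPrimitiveRoot u P) (y : ℕ → ℂ) :
    ∑ t ∈ range P, ‖∑ i ∈ range P, u ^ (t * i) * y i‖ ^ 2 = P * ∑ i ∈ range P, ‖y i‖ ^ 2 := by
  have hn : ‖u‖ = 1 := hu.norm'_eq_one hP.ne'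
  have hc : (starRingEnd ℂ) u = u⁻¹ := by
    rw [Complex.inv_def, Complex.normSq_eq_norm_sq, hn]
    simp
  have key : ∑ t ∈ range P, ((‖∑ i ∈ range P, u ^ (t * i) * y i‖ ^ 2 : ℝ) : ℂ) =
      (P : ℂ) * ∑ i ∈ range P, ((‖y i‖ ^ 2 : ℝ) : ℂ) := by
    have h1 : ∀ t, ((‖∑ i ∈ range P, u ^ (t * i) * y i‖ ^ 2 : ℝ) : ℂ) =
        ∑ i ∈ range P, ∑ j ∈ range P, (u ^ (t * i) * (u⁻¹) ^ (t * j)) * (y i * (starRingEnd ℂ) (y j)) := by
      intro t
      rw [← Complex.normSq_eq_norm_sq, ← Complex.mul_conj, map_sum, Finset.sum_mul_sum]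
      refine Finset.sum_congr rfl fun i _ => Finset.sum_congr rfl fun j _ => ?_
      rw [map_mul, map_pow, hc]
      ring
    simp only [h1]
    rw [Finset.sum_comm]
    have h2 : ∀ i ∈ range P, ∑ t ∈ range P, ∑ j ∈ range P,
        (u ^ (t * i) * (u⁻¹) ^ (t * j)) * (y i * (starRingEnd ℂ) (y j)) = (P : ℂ) * ((‖y i‖ ^ 2 : ℝ) : ℂ) := by
      intro i hi
      rw [Finset.sum_comm]
      have h3 : ∀ j ∈ range P, ∑ t ∈ range P,
          (u ^ (t * i) * (u⁻¹) ^ (t * j)) * (y i * (starRingEnd ℂ) (y j)) =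
          if i = j then (P : ℂ) * ((‖y i‖ ^ 2 : ℝ) : ℂ) else 0 := by
        intro j hj
        rw [← Finset.sum_mul, W1T1_geom P u hu i j (Finset.mem_range.1 hi) (Finset.mem_range.1 hj)]
        split_ifs with h
        · subst h
          rw [Complex.mul_conj, Complex.normSq_eq_norm_sq]
        · simp
      rw [Finset.sum_congr rfl h3, Finset.sum_ite_eq, if_pos hi]
    rw [Finset.sum_congr rfl h2, ← Finset.mul_sum]
  exact_mod_cast key

end MP225
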