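import Mathlib

open Polynomial Finset

namespace MP225

/-- POWERSUM. `y` = `j`-th power sum of the roots of `g`, e.g. the trace of the `j`-th power of the multiplication
by the root on `AdjoinRoot g` (monic, power basis `AdjoinRoot.powerBasis'`), or Newton's identities, or the value at
the coefficients of the polynomial expressing `psum` by `esymm`. Integrality: `y` is an integer polynomial in the
coefficients of `g` (or: `φ y` is a sum of products of roots of `g.map φ`, all algebraic integers). -/
theorem power_sum_int {L : Type*} [Field L] [NumberField L] (g : L[X]) (hg : g.Monic)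
    (hint : ∀ i, IsIntegral ℤ (g.coeff i)) (j : ℕ) :
    ∃ y : L, IsIntegral ℤ y ∧ ∀ φ : L →+* ℂ, φ y = ((g.map φ).roots.map fun w => w ^ j).sum := by
  classical
  set n := g.natDegree with hn
  let P : MvPolynomial.symmetricSubalgebra (Fin n) ℤ :=
    ⟨MvPolynomial.psum (Fin n) ℤ j, MvPolynomial.psum_isSymmetric _ _ j⟩
  obtain ⟨Q, hQ⟩ := MvPolynomial.esymmAlgHom_surjective (σ := Fin n) (R := ℤ) (n := n)
    (by simp) P
  have hQ' : MvPolynomial.aeval (fun i : Fin n => MvPolynomial.esymm (Fin n) ℤ (i + 1)) Q =
      MvPolynomial.psum (Fin n) ℤ j := by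
    have := congrArg Subtype.val hQ
    rw [MvPolynomial.esymmAlgHom_apply] at this
    exact this
  let v : Fin n → L := fun i => (-1) ^ ((i : ℕ) + 1) * g.coeff (n - ((i : ℕ) + 1))
  refine ⟨MvPolynomial.aeval v Q, ?_, ?_⟩
  · have hv : ∀ i, v i ∈ integralClosure ℤ L := by
      intro i
      exact Subalgebra.mul_mem _ (Subalgebra.pow_mem _ (Subalgebra.neg_mem _ (Subalgebra.one_mem _)) _)
        (hint _)
    let v' : Fin n → integralClosure ℤ L := fun i => ⟨v i, hv i⟩
    have h1 : MvPolynomial.aeval v Q = (integralClosure ℤ L).val (MvPolynomial.aeval v' Q) := by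
      rw [← AlgHom.comp_apply, MvPolynomial.comp_aeval]
      rfl
    rw [h1]
    exact (MvPolynomial.aeval v' Q).2
  · intro φ
    set P' : ℂ[X] := g.map φ with hP'
    have hspl : P'.Splits := IsAlgClosed.splits P'
    have hcard : P'.roots.card = P'.natDegree := splits_iff_card_roots.1 hspl
    have hdeg : P'.natDegree = n := hg.natDegree_map _
    have hPm : P'.Monic := hg.map _
    have hl : P'.roots.toList.length = n := by rw [Multiset.length_toList, hcard, hdeg]
    let f : Fin n → ℂ := fun i => P'.roots.toList.get (Fin.cast hl.symm i)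
    have hf : (univ : Finset (Fin n)).val.map f = P'.roots := by
      rw [Fin.univ_val_map]
      have : List.ofFn f = P'.roots.toList := by
        apply List.ext_get
        · simp [hl]
        · intro i h1 h2
          simp [f]
      rw [this, Multiset.coe_toList]
    have h2 : φ (MvPolynomial.aeval v Q) = MvPolynomial.aeval (fun i => φ (v i)) Q := by
      have : φ (MvPolynomial.aeval v Q) = (φ.toIntAlgHom.comp (MvPolynomial.aeval v)) Q := rfl
      rw [this, MvPolynomial.comp_aeval]
      rfl
    have h3 : ∀ i : Fin n, φ (v i) = MvPolynomial.aeval f (MvPolynomial.esymm (Fin n) ℤ (i + 1)) := by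
      intro i
      rw [MvPolynomial.aeval_esymm_eq_multiset_esymm, hf]
      have hi : n - ((i : ℕ) + 1) ≤ P'.natDegree := by omega
      have h4 := coeff_eq_esymm_roots_of_card hcard hi
      have h5 : P'.natDegree - (n - ((i : ℕ) + 1)) = (i : ℕ) + 1 := by
        have := i.2
        omega
      rw [h5, hPm.leadingCoeff, one_mul] at h4
      have h6 : P'.coeff (n - ((i : ℕ) + 1)) = φ (g.coeff (n - ((i : ℕ) + 1))) := by
        rw [hP', coeff_map]
      rw [h6] at h4
      simp only [v, map_mul, map_pow, map_neg, map_one, h4]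
      rw [← mul_assoc, ← mul_pow]
      simp
    rw [h2]
    have h7 : (fun i => φ (v i)) = fun i : Fin n =>
        MvPolynomial.aeval f (MvPolynomial.esymm (Fin n) ℤ (i + 1)) := funext h3
    rw [h7]
    have h8 : MvPolynomial.aeval (fun i : Fin n =>
        MvPolynomial.aeval f (MvPolynomial.esymm (Fin n) ℤ (i + 1))) Q =
        MvPolynomial.aeval f (MvPolynomial.aeval
          (fun i : Fin n => MvPolynomial.esymm (Fin n) ℤ (i + 1)) Q) := by
      rw [← AlgHom.comp_apply, MvPolynomial.comp_aeval]
    rw [h8, hQ', MvPolynomial.psum, map_sum]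
    simp only [map_pow, MvPolynomial.aeval_X]
    conv_rhs => rw [← hf]
    rw [Multiset.map_map]
    rfl

end MP225
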