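import Pool.Agent.Lib_MP_225a87_nt.RelPower

open Polynomial Finset

namespace MP225

private lemma rmorb_map_comp {L : Type} [Field L] (g : L[X]) (σ τ : RingAut L) :
    g.map (((σ * τ : RingAut L) : L ≃+* L) : L →+* L) =
      (g.map ((τ : L ≃+* L) : L →+* L)).map ((σ : L ≃+* L) : L →+* L) := by
  rw [Polynomial.map_map]
  rfl

private lemma rmorb_fiber {L : Type} [Field L] {H : Type} [Group H] [Fintype H]
    (ρ : H →* RingAut L) (g : L[X]) (h₀ : H)
    [DecidablePred fun h : H => g.map ((ρ h : L ≃+* L) : L →+* L) =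
      g.map ((ρ h₀ : L ≃+* L) : L →+* L)] :
    (univ.filter fun h : H => g.map ((ρ h : L ≃+* L) : L →+* L) =
      g.map ((ρ h₀ : L ≃+* L) : L →+* L)).card =
      Nat.card {h : H // g.map ((ρ h : L ≃+* L) : L →+* L) = g} := by
  classical
  have hid : ∀ p : L[X], p.map (((1 : RingAut L) : L ≃+* L) : L →+* L) = p := by
    intro p
    have : (((1 : RingAut L) : L ≃+* L) : L →+* L) = RingHom.id L := rfl
    rw [this, Polynomial.map_id]
  rw [Nat.card_eq_fintype_card, Fintype.card_subtype]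
  refine Finset.card_nbij' (fun h => h₀⁻¹ * h) (fun h => h₀ * h) ?_ ?_ ?_ ?_
  · intro h hh
    simp only [Finset.coe_filter, Finset.mem_univ, true_and, Set.mem_ofPred_eq] at hh ⊢
    rw [map_mul, rmorb_map_comp, hh, ← rmorb_map_comp, ← map_mul, inv_mul_cancel, map_one, hid]
  · intro h hh
    simp only [Finset.coe_filter, Finset.mem_univ, true_and, Set.mem_ofPred_eq] at hh ⊢
    rw [map_mul, rmorb_map_comp, hh]
  · intro h _
    simp
  · intro h _
    simp

private lemma rmorb_irr {L : Type} [Field L] (g : L[X]) (hg : Irreducible g) (σ : L ≃+* L) :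
    Irreducible (g.map (σ : L →+* L)) := by
  have := (MulEquiv.irreducible_iff (Polynomial.mapEquiv σ) (x := g)).mpr hg
  simpa [Polynomial.mapEquiv_apply] using this

private lemma rmorb_coprime {L : Type} [Field L] (p q : L[X]) (hp : p.Monic) (hq : q.Monic)
    (hpi : Irreducible p) (hqi : Irreducible q) (h : p ≠ q) : IsCoprime p q := by
  rcases EuclideanDomain.dvd_or_coprime p q hpi with h1 | h1
  · exact absurd (Polynomial.eq_of_monic_of_associated hp hq (hpi.associated_of_dvd hqi h1)) h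
  · exact h1

/-- RELORBIT. `μ`, `r₁` from `rm_power`. Let `O = {g.map (ρ h) : h ∈ H}` (finite set of monic irreducible polynomials),
`G = ∏_{g' ∈ O} g'`: monic, integral coefficients, separable (pairwise distinct monic irreducibles in
characteristic 0), `natDegree = d·|O|`, and `|O|·|Stab| = |H|` (orbit-stabiliser; every `g' ∈ O` is hit by exactly
`|Stab|` elements `h`), so `r₁ ≤ |O| ≤ natDegree G`. Roots of `(g.map (ρ h)).map φ = g.map (φ ∘ ρ h)` are fine by the
hypothesis for the embedding `φ ∘ ρ h`. `φ(ρ h y) = ∑` of `w^j` over the roots of `(g.map (ρ h)).map φ`, so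
`φ(∑_h ρ h y) = |Stab| · ∑_{roots of G.map φ} w^j` and `φ(∑_h ρ h y)/(d|H|) = (∑_{roots of G.map φ} w^j)/natDegree G`. -/
theorem rm_orb (a : ℝ) : ∃ μ : ℕ → ℝ,
    ((∀ n : ℤ, (n : ℝ) ≠ a) → ∀ d : ℕ, 0 < d → ∃ j, ∀ k : ℤ, (k : ℝ) ≠ d * μ j) ∧
    ∀ (j : ℕ) (δ : ℝ), 0 < δ → ∃ r₁ : ℕ, ∀ (L : Type) [Field L] [NumberField L] (H : Type)
      [Group H] [Fintype H] (ρ : H →* RingAut L) (g : L[X]) (y : L),
      g.Monic → Irreducible g → (∀ i, IsIntegral ℤ (g.coeff i)) →
      (∀ φ : L →+* ℂ, ∀ w ∈ (g.map φ).roots, w.im = 0 ∧ a ≤ w.re ∧ w.re ≤ a + 4) →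
      (∀ φ : L →+* ℂ, φ y = ((g.map φ).roots.map fun w => w ^ j).sum) →
      r₁ * Nat.card {h : H // g.map ((ρ h : L ≃+* L) : L →+* L) = g} ≤ Fintype.card H →
      ∑ φ : L →+* ℂ, ‖φ (∑ h : H, (ρ h : L ≃+* L) y) / ((g.natDegree : ℂ) * (Fintype.card H : ℂ))
        - (μ j : ℂ)‖ ^ 2 ≤ δ * Module.finrank ℚ L := by
  classical
  obtain ⟨μ, hμ, hp⟩ := rm_power a
  refine ⟨μ, hμ, fun j δ hδ => ?_⟩
  obtain ⟨r₁, hr⟩ := hp j δ hδ
  refine ⟨r₁, ?_⟩
  intro L _ _ H _ _ ρ g y hgm hgi hgint hroots hy hcard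
  set s : ℕ := Nat.card {h : H // g.map ((ρ h : L ≃+* L) : L →+* L) = g} with hs
  set F : H → L[X] := fun h => g.map ((ρ h : L ≃+* L) : L →+* L) with hF
  set O : Finset L[X] := univ.image F with hO
  set G : L[X] := ∏ g' ∈ O, g' with hG
  have hOmem : ∀ g' ∈ O, ∃ h : H, g' = F h := by
    intro g' hg'
    rw [hO, Finset.mem_image] at hg'
    obtain ⟨h, _, rfl⟩ := hg'
    exact ⟨h, rfl⟩
  have hmon : ∀ g' ∈ O, g'.Monic := by
    intro g' hg'
    obtain ⟨h, rfl⟩ := hOmem g' hg'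
    exact hgm.map _
  have hirr : ∀ g' ∈ O, Irreducible g' := by
    intro g' hg'
    obtain ⟨h, rfl⟩ := hOmem g' hg'
    exact rmorb_irr g hgi _
  have hdeg : ∀ g' ∈ O, g'.natDegree = g.natDegree := by
    intro g' hg'
    obtain ⟨h, rfl⟩ := hOmem g' hg'
    exact hgm.natDegree_map _
  have hfib : ∀ g' ∈ O, (univ.filter fun h : H => F h = g').card = s := by
    intro g' hg'
    obtain ⟨h, rfl⟩ := hOmem g' hg'
    exact rmorb_fiber ρ g h
  have hGm : G.Monic := monic_prod_of_monic _ _ hmon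
  have hGd : G.natDegree = O.card * g.natDegree := by
    rw [hG, natDegree_prod_of_monic _ _ hmon, Finset.sum_congr rfl hdeg, Finset.sum_const,
      smul_eq_mul]
  have hsep : G.Separable := by
    refine Polynomial.separable_prod' ?_ ?_
    · intro p hpO q hqO hpq
      exact rmorb_coprime p q (hmon p hpO) (hmon q hqO) (hirr p hpO) (hirr q hqO) hpq
    · intro p hpO
      exact (hirr p hpO).separable
  have hint : ∀ i, IsIntegral ℤ (G.coeff i) := by
    have hmem : G ∈ Polynomial.lifts (algebraMap (integralClosure ℤ L) L) := by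
      refine Subsemiring.prod_mem _ ?_
      intro g' hg'
      obtain ⟨h, rfl⟩ := hOmem g' hg'
      rw [Polynomial.lifts_iff_coeff_lifts]
      intro n
      refine ⟨⟨(F h).coeff n, ?_⟩, rfl⟩
      rw [mem_integralClosure_iff, hF]
      simp only [Polynomial.coeff_map]
      have h1 := hgint n
      exact h1.map ((ρ h : L ≃+* L) : L →+* L).toIntAlgHom
    intro i
    rw [Polynomial.lifts_iff_coeff_lifts] at hmem
    obtain ⟨x, hx⟩ := hmem i
    rw [← hx]
    exact x.2
  have hd1 : 1 ≤ g.natDegree := hgi.natDegree_pos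
  have hO1 : 1 ≤ O.card := by
    rw [Nat.one_le_iff_ne_zero, Finset.card_ne_zero]
    exact ⟨F 1, Finset.mem_image_of_mem _ (Finset.mem_univ _)⟩
  have hHcard : Fintype.card H = O.card * s := by
    rw [← Finset.card_univ, Finset.card_eq_sum_card_image F univ, Finset.sum_congr rfl hfib,
      Finset.sum_const, smul_eq_mul]
  have hs1 : 1 ≤ s := by
    rw [Nat.one_le_iff_ne_zero]
    intro h0
    rw [h0, mul_zero] at hHcard
    exact Fintype.card_ne_zero hHcard
  have hr1 : r₁ ≤ G.natDegree := by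
    have h1 : r₁ * s ≤ O.card * s := by rw [← hHcard]; exact hcard
    have h2 : r₁ ≤ O.card := Nat.le_of_mul_le_mul_right h1 hs1
    rw [hGd]
    exact h2.trans (Nat.le_mul_of_pos_right _ hd1)
  have hG1 : 1 ≤ G.natDegree := by
    rw [hGd]
    exact Nat.mul_pos hO1 hd1
  have hrootsG : ∀ φ : L →+* ℂ, (G.map φ).roots = O.val.bind fun g' => (g'.map φ).roots := by
    intro φ
    rw [hG, Polynomial.map_prod]
    refine Polynomial.roots_prod _ _ ?_
    rw [← Polynomial.map_prod]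
    exact (hGm.map φ).ne_zero
  have hcomp : ∀ (φ : L →+* ℂ) (h : H), (F h).map φ =
      g.map (φ.comp ((ρ h : L ≃+* L) : L →+* L)) := by
    intro φ h
    rw [hF]
    exact Polynomial.map_map _ _ _
  have hGroots : ∀ φ : L →+* ℂ, ∀ w ∈ (G.map φ).roots, w.im = 0 ∧ a ≤ w.re ∧ w.re ≤ a + 4 := by
    intro φ w hw
    rw [hrootsG, Multiset.mem_bind] at hw
    obtain ⟨g', hg', hw⟩ := hw
    obtain ⟨h, rfl⟩ := hOmem g' hg'
    rw [hcomp] at hw
    exact hroots _ w hw
  have hmain := hr L G hGm hint hsep hG1 hr1 hGroots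
  have hkey : ∀ φ : L →+* ℂ,
      φ (∑ h : H, (ρ h : L ≃+* L) y) / ((g.natDegree : ℂ) * (Fintype.card H : ℂ)) =
      ((G.map φ).roots.map fun w => w ^ j).sum / (G.natDegree : ℂ) := by
    intro φ
    have h1 : φ (∑ h : H, (ρ h : L ≃+* L) y) =
        ∑ h : H, (((F h).map φ).roots.map fun w => w ^ j).sum := by
      rw [map_sum]
      refine Finset.sum_congr rfl fun h _ => ?_
      rw [hcomp]
      exact hy (φ.comp ((ρ h : L ≃+* L) : L →+* L))
    have h2 : ∑ h : H, (((F h).map φ).roots.map fun w => w ^ j).sum =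
        ∑ g' ∈ O, (s : ℂ) * ((g'.map φ).roots.map fun w => w ^ j).sum := by
      rw [Finset.sum_comp (fun g' : L[X] => ((g'.map φ).roots.map fun w => w ^ j).sum) F]
      refine Finset.sum_congr rfl fun g' hg' => ?_
      rw [hfib g' hg', nsmul_eq_mul]
    have h3 : ((G.map φ).roots.map fun w => w ^ j).sum =
        ∑ g' ∈ O, ((g'.map φ).roots.map fun w => w ^ j).sum := by
      rw [hrootsG, Multiset.map_bind, Multiset.sum_bind]
      rfl
    rw [h1, h2, ← Finset.mul_sum, ← h3, hHcard, hGd]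
    have e1 : (s : ℂ) ≠ 0 := by exact_mod_cast (by omega : s ≠ 0)
    have e2 : (g.natDegree : ℂ) ≠ 0 := by exact_mod_cast (by omega : g.natDegree ≠ 0)
    have e3 : (O.card : ℂ) ≠ 0 := by exact_mod_cast (by omega : O.card ≠ 0)
    push_cast
    field_simp
  calc ∑ φ : L →+* ℂ, ‖φ (∑ h : H, (ρ h : L ≃+* L) y) /
        ((g.natDegree : ℂ) * (Fintype.card H : ℂ)) - (μ j : ℂ)‖ ^ 2
      = ∑ φ : L →+* ℂ, ‖((G.map φ).roots.map fun w => w ^ j).sum / (G.natDegree : ℂ)
        - (μ j : ℂ)‖ ^ 2 := Finset.sum_congr rfl fun φ _ => by rw [hkey φ]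
    _ ≤ _ := hmain

end MP225
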