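import Pool.Agent.Lib_MP_225a87_nt.CosExp
import Pool.Agent.Lib_MP_225a87_nt.EnergyLog
import Pool.Agent.Lib_MP_225a87_nt.DiscLog

open Polynomial Finset

namespace MP225

/-- The angle of a real number in `[c-2, c+2]`. -/
private noncomputable def relTheta (c : ℝ) (w : ℂ) : ℝ := Real.arccos ((w.re - c) / 2)

private lemma relTheta_cos (c : ℝ) (w : ℂ) (hw : |w.re - c| ≤ 2) :
    2 * Real.cos (relTheta c w) = w.re - c := by
  have h := abs_le.1 hw
  rw [relTheta, Real.cos_arccos (by linarith) (by linarith)]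
  ring

/-- `energy_log` for a finite set of real numbers in `[c-2,c+2]`. -/
private lemma relpoly_energy (c : ℝ) (S : Finset ℂ) (hS : 1 ≤ S.card)
    (hw : ∀ w ∈ S, w.im = 0 ∧ |w.re - c| ≤ 2) (m : ℕ) (hm : 1 ≤ m) :
    (∑ w ∈ S, 2 * Real.cos (m * relTheta c w)) ^ 2 ≤
      2 * m * 2 ^ m * (S.card * (1 + 2 * Real.log S.card) -
        ∑ z ∈ S, ∑ w ∈ S.erase z, Real.log ‖z - w‖) := by
  classical
  have hcos : ∀ w ∈ S, 2 * Real.cos (relTheta c w) = w.re - c := fun w h =>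
    relTheta_cos c w (hw w h).2
  have hdist : ∀ z ∈ S, ∀ w ∈ S, ‖z - w‖ =
      |2 * Real.cos (relTheta c z) - 2 * Real.cos (relTheta c w)| := by
    intro z hz w hw'
    rw [hcos z hz, hcos w hw']
    have h1 : z - w = (((z.re - c) - (w.re - c) : ℝ) : ℂ) := by
      apply Complex.ext
      · simp
      · simp [(hw z hz).1, (hw w hw').1]
    rw [h1, Complex.norm_real, Real.norm_eq_abs]
  have h := energy_log (ι := S) (fun w => relTheta c (w : ℂ)) (by simpa using hS) (by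
    intro z w hzw hEq
    apply hzw
    apply Subtype.ext
    have h1 := hcos z z.2
    have h2 := hcos w w.2
    apply Complex.ext
    · have : (z : ℂ).re - c = (w : ℂ).re - c := by rw [← h1, ← h2, hEq]
      linarith
    · rw [(hw z z.2).1, (hw w w.2).1]) m hm
  have hcard : Fintype.card S = S.card := by simp
  rw [hcard] at h
  have e1 : ∑ i : S, 2 * Real.cos (m * relTheta c (i : ℂ)) =
      ∑ w ∈ S, 2 * Real.cos (m * relTheta c w) :=
    Finset.sum_coe_sort S fun w => 2 * Real.cos (m * relTheta c w)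
  have e2 : ∑ i : S, ∑ j ∈ univ.erase i, Real.log
      |2 * Real.cos (relTheta c (i : ℂ)) - 2 * Real.cos (relTheta c (j : ℂ))| =
      ∑ z ∈ S, ∑ w ∈ S.erase z, Real.log ‖z - w‖ := by
    rw [← Finset.sum_coe_sort S fun z => ∑ w ∈ S.erase z, Real.log ‖z - w‖]
    apply Finset.sum_congr rfl
    intro i _
    rw [Finset.sum_erase _ (by simp), Finset.sum_erase _ (by simp),
      ← Finset.sum_coe_sort S fun w => Real.log ‖(i : ℂ) - w‖]
    apply Finset.sum_congr rfl
    intro j _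
    rw [hdist i i.2 j j.2]
  rw [e1, e2] at h
  exact h

/-- RELPOLY. `e` from `cos_expansion`. Fix `φ`; the roots of `G.map φ` are `r = natDegree` distinct (separable) real
numbers `w = c + 2cosθ_w`, `θ_w = arccos((w.re-c)/2)`. `energy_log` for each `m ≥ 1` summed over `φ`, with `disc_log`
(`‖z-w‖ = |2cosθ_z - 2cosθ_w|`): `∑_φ (∑_w 2cos(mθ_w))² ≤ 2m2^m r(1+2log r)·finrank`. By `cos_expansion`
`(1/r)∑_w (w.re-c)^j - e_j = ∑_{m≤j} c_m (1/r) ∑_w 2cos(mθ_w)`, Cauchy-Schwarz over `m`; and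
`1 + 2 log r ≤ 2(1+log r)`. `C` depends only on `j`. -/
theorem rm_poly : ∃ e : ℕ → ℤ, e 0 = 1 ∧ ∀ j : ℕ, ∃ C : ℝ, 0 < C ∧ ∀ (c : ℝ) (L : Type) [Field L]
    [NumberField L] (G : L[X]), G.Monic → (∀ i, IsIntegral ℤ (G.coeff i)) → G.Separable →
    1 ≤ G.natDegree →
    (∀ φ : L →+* ℂ, ∀ w ∈ (G.map φ).roots, w.im = 0 ∧ |w.re - c| ≤ 2) →
    ∑ φ : L →+* ℂ, (((G.map φ).roots.toFinset.sum fun w => (w.re - c) ^ j) / G.natDegree
        - e j) ^ 2 ≤
      C * (1 + Real.log G.natDegree) / G.natDegree * Module.finrank ℚ L := by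
  classical
  obtain ⟨e, he0, hexp⟩ := cos_expansion
  refine ⟨e, he0, fun j => ?_⟩
  obtain ⟨cc, hcc⟩ := hexp j
  set K : ℝ := ∑ m ∈ Icc 1 j, (cc m : ℝ) ^ 2 with hK
  have hK0 : 0 ≤ K := Finset.sum_nonneg fun m _ => sq_nonneg _
  set T : ℝ := ∑ m ∈ Icc 1 j, 2 * (2 * (m : ℝ) * 2 ^ m) with hT
  have hT0 : 0 ≤ T := Finset.sum_nonneg fun m _ => by positivity
  refine ⟨K * T + 1, by positivity, ?_⟩
  intro c L _ _ G hG hint hsep hdeg hroots
  set r : ℕ := G.natDegree with hr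
  have hr0 : (0 : ℝ) < r := by exact_mod_cast hdeg
  have hr1 : (1 : ℝ) ≤ r := by exact_mod_cast hdeg
  have hlog : 0 ≤ Real.log r := Real.log_nonneg hr1
  set N : ℝ := (Module.finrank ℚ L : ℝ) with hN
  have hN0 : 0 ≤ N := by rw [hN]; positivity
  have hcardφ : (Finset.univ : Finset (L →+* ℂ)).card = Module.finrank ℚ L := by
    rw [Finset.card_univ, NumberField.Embeddings.card]
  -- roots
  have hcard : ∀ φ : L →+* ℂ, ((G.map φ).roots.toFinset).card = r := by
    intro φ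
    have hnd : (G.map φ).roots.Nodup := nodup_roots hsep.map
    rw [Multiset.toFinset_card_of_nodup hnd,
      splits_iff_card_roots.1 (IsAlgClosed.splits (G.map φ)), hG.natDegree_map]
  have hmem : ∀ φ : L →+* ℂ, ∀ w ∈ (G.map φ).roots.toFinset, w.im = 0 ∧ |w.re - c| ≤ 2 :=
    fun φ w hw => hroots φ w (Multiset.mem_toFinset.1 hw)
  have hdisc := disc_log G hG hint hsep
  -- the sums over all embeddings
  have hsum : ∀ m ∈ Icc 1 j, ∑ φ : L →+* ℂ,
      ((∑ w ∈ (G.map φ).roots.toFinset, 2 * Real.cos (m * relTheta c w)) / r) ^ 2 ≤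
      2 * (2 * (m : ℝ) * 2 ^ m) * ((1 + Real.log r) / r * N) := by
    intro m hm
    have hm1 : 1 ≤ m := (mem_Icc.1 hm).1
    have h1 : ∑ φ : L →+* ℂ,
        (∑ w ∈ (G.map φ).roots.toFinset, 2 * Real.cos (m * relTheta c w)) ^ 2 ≤
        ∑ φ : L →+* ℂ, 2 * (m : ℝ) * 2 ^ m * (r * (1 + 2 * Real.log r) -
          ∑ z ∈ (G.map φ).roots.toFinset, ∑ w ∈ ((G.map φ).roots.toFinset).erase z,
            Real.log ‖z - w‖) := by
      apply Finset.sum_le_sum
      intro φ _
      have := relpoly_energy c (G.map φ).roots.toFinset (by rw [hcard φ]; exact hdeg)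
        (hmem φ) m hm1
      rwa [hcard φ] at this
    rw [← Finset.mul_sum, Finset.sum_sub_distrib, Finset.sum_const, hcardφ, nsmul_eq_mul] at h1
    have h2 : ∑ φ : L →+* ℂ,
        (∑ w ∈ (G.map φ).roots.toFinset, 2 * Real.cos (m * relTheta c w)) ^ 2 ≤
        2 * (m : ℝ) * 2 ^ m * (N * (r * (1 + 2 * Real.log r))) := by
      refine h1.trans ?_
      apply mul_le_mul_of_nonneg_left _ (by positivity)
      linarith
    have h3 : ∑ φ : L →+* ℂ,
        ((∑ w ∈ (G.map φ).roots.toFinset, 2 * Real.cos (m * relTheta c w)) / r) ^ 2 =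
        (∑ φ : L →+* ℂ,
        (∑ w ∈ (G.map φ).roots.toFinset, 2 * Real.cos (m * relTheta c w)) ^ 2) / r ^ 2 := by
      rw [Finset.sum_div]
      apply Finset.sum_congr rfl
      intro φ _
      rw [div_pow]
    rw [h3, div_le_iff₀ (by positivity)]
    refine h2.trans ?_
    have h4 : 2 * (2 * (m : ℝ) * 2 ^ m) * ((1 + Real.log r) / r * N) * (r : ℝ) ^ 2 =
        2 * (m : ℝ) * 2 ^ m * (N * (r * (2 * (1 + Real.log r)))) := by
      field_simp
    rw [h4]
    apply mul_le_mul_of_nonneg_left _ (by positivity)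
    apply mul_le_mul_of_nonneg_left _ hN0
    apply mul_le_mul_of_nonneg_left _ hr0.le
    linarith
  -- expansion
  have hmain : ∀ φ : L →+* ℂ,
      (((G.map φ).roots.toFinset.sum fun w => (w.re - c) ^ j) / r - e j) ^ 2 ≤
      K * ∑ m ∈ Icc 1 j,
        ((∑ w ∈ (G.map φ).roots.toFinset, 2 * Real.cos (m * relTheta c w)) / r) ^ 2 := by
    intro φ
    have h1 : ((G.map φ).roots.toFinset.sum fun w => (w.re - c) ^ j) / r - e j =
        ∑ m ∈ Icc 1 j, (cc m : ℝ) *
          ((∑ w ∈ (G.map φ).roots.toFinset, 2 * Real.cos (m * relTheta c w)) / r) := by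
      have h2 : ((G.map φ).roots.toFinset.sum fun w => (w.re - c) ^ j) =
          r * e j + ∑ m ∈ Icc 1 j, (cc m : ℝ) *
            ∑ w ∈ (G.map φ).roots.toFinset, 2 * Real.cos (m * relTheta c w) := by
        have h3 : ∀ w ∈ (G.map φ).roots.toFinset, (w.re - c) ^ j =
            e j + ∑ m ∈ Icc 1 j, (cc m : ℝ) * (2 * Real.cos (m * relTheta c w)) := by
          intro w hw
          rw [← hcc, relTheta_cos c w (hmem φ w hw).2]
        rw [Finset.sum_congr rfl h3, Finset.sum_add_distrib, Finset.sum_const, hcard φ,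
          nsmul_eq_mul, Finset.sum_comm]
        congr 1
        apply Finset.sum_congr rfl
        intro m _
        rw [Finset.mul_sum]
      rw [h2, add_div, mul_div_cancel_left₀ _ hr0.ne', add_sub_cancel_left, Finset.sum_div]
      apply Finset.sum_congr rfl
      intro m _
      rw [mul_div_assoc]
    rw [h1]
    exact Finset.sum_mul_sq_le_sq_mul_sq _ _ _
  calc ∑ φ : L →+* ℂ, (((G.map φ).roots.toFinset.sum fun w => (w.re - c) ^ j) / r - e j) ^ 2
      ≤ ∑ φ : L →+* ℂ, K * ∑ m ∈ Icc 1 j,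
        ((∑ w ∈ (G.map φ).roots.toFinset, 2 * Real.cos (m * relTheta c w)) / r) ^ 2 :=
        Finset.sum_le_sum fun φ _ => hmain φ
    _ = K * ∑ m ∈ Icc 1 j, ∑ φ : L →+* ℂ,
        ((∑ w ∈ (G.map φ).roots.toFinset, 2 * Real.cos (m * relTheta c w)) / r) ^ 2 := by
        rw [← Finset.mul_sum, Finset.sum_comm]
    _ ≤ K * ∑ m ∈ Icc 1 j, 2 * (2 * (m : ℝ) * 2 ^ m) * ((1 + Real.log r) / r * N) :=
        mul_le_mul_of_nonneg_left (Finset.sum_le_sum hsum) hK0
    _ = K * T * ((1 + Real.log r) / r * N) := by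
        rw [← Finset.sum_mul, hT]; ring
    _ ≤ (K * T + 1) * ((1 + Real.log r) / r * N) := by
        apply mul_le_mul_of_nonneg_right (by linarith)
        positivity
    _ = (K * T + 1) * (1 + Real.log r) / r * N := by ring

end MP225
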