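import Pool.Agent.Lib_MP_225a87_nt.RelPoly
import Pool.Agent.Lib_MP_225a87_nt.Mu

open Polynomial Finset

namespace MP225

theorem relPower_log (K δ : ℝ) (hδ : 0 < δ) :
    ∃ r₁ : ℕ, ∀ r : ℕ, 1 ≤ r → r₁ ≤ r → K * ((1 + Real.log r) / r) ≤ δ := by
  have h1 : Filter.Tendsto (fun x : ℝ => Real.log x / x) Filter.atTop (nhds 0) := by
    have := Real.isLittleO_log_id_atTop.tendsto_div_nhds_zero
    exact this
  have h2 : Filter.Tendsto (fun x : ℝ => 1 / x) Filter.atTop (nhds 0) :=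
    tendsto_const_nhds.div_atTop Filter.tendsto_id
  have h3 : Filter.Tendsto (fun x : ℝ => K * ((1 / x) + Real.log x / x)) Filter.atTop
      (nhds (K * (0 + 0))) := (h2.add h1).const_mul K
  rw [add_zero, mul_zero] at h3
  have h4 : Filter.Tendsto (fun n : ℕ => K * ((1 / (n : ℝ)) + Real.log n / n)) Filter.atTop
      (nhds 0) := h3.comp tendsto_natCast_atTop_atTop
  obtain ⟨r₁, hr⟩ := Filter.eventually_atTop.mp (h4.eventually (gt_mem_nhds hδ))
  refine ⟨r₁, fun r _ hr1 => ?_⟩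
  have := hr r hr1
  rw [add_div]
  exact this.le

theorem relPower_sum (w : Multiset ℂ) (hn : w.Nodup) (hw : ∀ z ∈ w, z.im = 0) (j : ℕ) :
    (w.map fun z => z ^ j).sum = ((w.toFinset.sum fun z => z.re ^ j : ℝ) : ℂ) := by
  have h1 : (w.map fun z => z ^ j).sum = w.toFinset.sum fun z => z ^ j := by
    rw [Finset.sum_eq_multiset_sum, Multiset.toFinset_val, Multiset.dedup_eq_self.mpr hn]
  rw [h1, Complex.ofReal_sum]
  refine sum_congr rfl fun z hz => ?_
  rw [Multiset.mem_toFinset] at hz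
  have : z = (z.re : ℂ) := Complex.ext (by simp) (by simp [hw z hz])
  rw [Complex.ofReal_pow, ← this]

theorem relPower_pow (c x : ℝ) (j : ℕ) :
    x ^ j = ∑ i ∈ range (j + 1), (j.choose i : ℝ) * c ^ (j - i) * (x - c) ^ i := by
  have h : x = (x - c) + c := by ring
  conv_lhs => rw [h, add_pow]
  exact sum_congr rfl (fun i _ => by ring)

theorem relPower_sum_pow (s : Finset ℂ) (c : ℝ) (j : ℕ) :
    ∑ z ∈ s, z.re ^ j =
      ∑ i ∈ range (j + 1), (j.choose i : ℝ) * c ^ (j - i) * ∑ z ∈ s, (z.re - c) ^ i := by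
  have h : ∀ z ∈ s, z.re ^ j =
      ∑ i ∈ range (j + 1), (j.choose i : ℝ) * c ^ (j - i) * (z.re - c) ^ i :=
    fun z _ => relPower_pow c z.re j
  rw [sum_congr rfl h, sum_comm]
  exact sum_congr rfl (fun i _ => by rw [mul_sum])

/-- RELPOWER. `c = a + 2`, `μ j = ∑_{i≤j} C(j,i) c^(j-i) e_i`. First part: `mu_not_int`. Second part: binomial theorem
`w^j = ∑ C(j,i) c^(j-i) (w-c)^i` (all roots real, no multiplicities since `G` separable, so the multiset sum is the
sum over `toFinset`), `rm_poly` for each `i ≤ j`, Cauchy-Schwarz, and `C(1+log r)/r → 0`. -/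
theorem rm_power (a : ℝ) : ∃ μ : ℕ → ℝ,
    ((∀ n : ℤ, (n : ℝ) ≠ a) → ∀ d : ℕ, 0 < d → ∃ j, ∀ k : ℤ, (k : ℝ) ≠ d * μ j) ∧
    ∀ (j : ℕ) (δ : ℝ), 0 < δ → ∃ r₁ : ℕ, ∀ (L : Type) [Field L] [NumberField L] (G : L[X]),
      G.Monic → (∀ i, IsIntegral ℤ (G.coeff i)) → G.Separable → 1 ≤ G.natDegree →
      r₁ ≤ G.natDegree →
      (∀ φ : L →+* ℂ, ∀ w ∈ (G.map φ).roots, w.im = 0 ∧ a ≤ w.re ∧ w.re ≤ a + 4) →
      ∑ φ : L →+* ℂ, ‖((G.map φ).roots.map fun w => w ^ j).sum / (G.natDegree : ℂ)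
        - (μ j : ℂ)‖ ^ 2 ≤ δ * Module.finrank ℚ L := by
  obtain ⟨e, he0, hP⟩ := rm_poly
  choose C hC0 hC using hP
  refine ⟨fun j => ∑ i ∈ range (j + 1), (j.choose i : ℝ) * (a + 2) ^ (j - i) * e i, ?_, ?_⟩
  · intro hn d hd
    refine mu_not_int e he0 (a + 2) (fun k hk => hn (k - 2) ?_) d hd
    push_cast
    linarith
  · intro j δ hδ
    set c : ℝ := a + 2 with hc
    set b : ℕ → ℝ := fun i => (j.choose i : ℝ) * c ^ (j - i) with hb
    set B : ℝ := ∑ i ∈ range (j + 1), (b i) ^ 2 with hB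
    have hB0 : 0 ≤ B := sum_nonneg fun i _ => sq_nonneg _
    set K : ℝ := B * ∑ i ∈ range (j + 1), C i with hK
    obtain ⟨r₁, hr₁⟩ := relPower_log K δ hδ
    refine ⟨r₁, ?_⟩
    intro L _ _ G hG hint hsep hdeg hr hroots
    have hroots' : ∀ φ : L →+* ℂ, ∀ w ∈ (G.map φ).roots, w.im = 0 ∧ |w.re - c| ≤ 2 := by
      intro φ w hw
      obtain ⟨h1, h2, h3⟩ := hroots φ w hw
      refine ⟨h1, ?_⟩
      rw [abs_le, hc]
      constructor <;> linarith
    set r : ℝ := (G.natDegree : ℝ) with hrdef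
    have hr0 : (0 : ℝ) < r := by
      rw [hrdef]
      exact_mod_cast hdeg
    have hstep : ∀ φ : L →+* ℂ,
        ‖((G.map φ).roots.map fun w => w ^ j).sum / (G.natDegree : ℂ)
          - ((∑ i ∈ range (j + 1), b i * e i : ℝ) : ℂ)‖ ^ 2 ≤
        B * ∑ i ∈ range (j + 1), (((G.map φ).roots.toFinset.sum fun w => (w.re - c) ^ i) / r
          - e i) ^ 2 := by
      intro φ
      have hnod : (G.map φ).roots.Nodup := Polynomial.nodup_roots (hsep.map)
      rw [relPower_sum _ hnod (fun z hz => (hroots φ z hz).1) j, relPower_sum_pow _ c j]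
      have h1 : (((∑ i ∈ range (j + 1), (j.choose i : ℝ) * c ^ (j - i) *
          ∑ z ∈ (G.map φ).roots.toFinset, (z.re - c) ^ i : ℝ) : ℂ) / (G.natDegree : ℂ)
          - ((∑ i ∈ range (j + 1), b i * e i : ℝ) : ℂ)) =
          ((∑ i ∈ range (j + 1), b i *
            (((G.map φ).roots.toFinset.sum fun w => (w.re - c) ^ i) / r - e i) : ℝ) : ℂ) := by
        have h2 : (∑ i ∈ range (j + 1), b i *
            (((G.map φ).roots.toFinset.sum fun w => (w.re - c) ^ i) / r - e i) : ℝ) =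
            (∑ i ∈ range (j + 1), (j.choose i : ℝ) * c ^ (j - i) *
              ∑ z ∈ (G.map φ).roots.toFinset, (z.re - c) ^ i) / r -
            ∑ i ∈ range (j + 1), b i * e i := by
          rw [sum_div, ← sum_sub_distrib]
          refine sum_congr rfl fun i _ => ?_
          rw [hb]
          ring
        rw [h2, Complex.ofReal_sub, Complex.ofReal_div, hrdef, Complex.ofReal_natCast]
      rw [h1, Complex.norm_real, Real.norm_eq_abs, sq_abs]
      exact sum_mul_sq_le_sq_mul_sq _ _ _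
    calc ∑ φ : L →+* ℂ, ‖((G.map φ).roots.map fun w => w ^ j).sum / (G.natDegree : ℂ)
          - ((∑ i ∈ range (j + 1), b i * e i : ℝ) : ℂ)‖ ^ 2
        ≤ ∑ φ : L →+* ℂ, B * ∑ i ∈ range (j + 1),
          (((G.map φ).roots.toFinset.sum fun w => (w.re - c) ^ i) / r - e i) ^ 2 :=
          sum_le_sum fun φ _ => hstep φ
      _ = B * ∑ i ∈ range (j + 1), ∑ φ : L →+* ℂ,
          (((G.map φ).roots.toFinset.sum fun w => (w.re - c) ^ i) / r - e i) ^ 2 := by
          rw [← mul_sum, sum_comm]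
      _ ≤ B * ∑ i ∈ range (j + 1), C i * (1 + Real.log r) / r * Module.finrank ℚ L := by
          refine mul_le_mul_of_nonneg_left (sum_le_sum fun i _ => ?_) hB0
          exact hC i c L G hG hint hsep hdeg hroots'
      _ = K * ((1 + Real.log r) / r) * Module.finrank ℚ L := by
          rw [hK, mul_sum, mul_sum, sum_mul, sum_mul]
          exact sum_congr rfl fun i _ => by ring
      _ ≤ δ * Module.finrank ℚ L := by
          refine mul_le_mul_of_nonneg_right ?_ (Nat.cast_nonneg _)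
          exact hr₁ G.natDegree hdeg hr

end MP225
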