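import Mathlib

open Polynomial Finset IntermediateField

namespace MP225

/-- RING (piece C1). Let `F₁ = ℚ⟮ζ⟯` (cyclotomic, Galois, discriminant a power of `ℓ` up to sign), so
`discr F₁` and `discr F` are coprime, `F₁` and `F` are linearly disjoint
(`NumberField.linearDisjoint_of_isGalois_isCoprime_discr`) and
`𝓞 L` is generated by `𝓞 F` and `𝓞 F₁`
(`IsDedekindDomain.range_sup_range_eq_top_of_isCoprime_differentIdeal` or
`adjoin_union_eq_top_of_isCoprime_differentialIdeal`, `NumberField.isCoprime_differentIdeal_of_isCoprime_discr`; see the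
proof of `adjoin_singleton_eq_top_aux` in Mathlib/NumberTheory/NumberField/Cyclotomic/Basic.lean), and
`𝓞 F₁ = ℤ[ζ]` (`IsCyclotomicExtension.Rat.isIntegralClosure_adjoin_singleton`). So `x` is a polynomial in
`ζ` with coefficients in `𝓞 F`; reduce exponents mod `ℓ^k` (`ζ^(ℓ^k) = 1`). -/
theorem ring_decomp {L : Type*} [Field L] [NumberField L] (F : IntermediateField ℚ L) (ℓ k : ℕ)
    (hℓ : ℓ.Prime) (hk : 1 ≤ k) (hd : ¬ (ℓ : ℤ) ∣ NumberField.discr F) (ζ : L)
    (hζ : IsPrimitiveRoot ζ (ℓ ^ k)) (htop : F ⊔ ℚ⟮ζ⟯ = ⊤) (x : L) (hx : IsIntegral ℤ x) :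
    ∃ c : ℕ → L, (∀ j, c j ∈ F ∧ IsIntegral ℤ (c j)) ∧
      x = ∑ j ∈ range (ℓ ^ k), ζ ^ j * c j := by
  have hp : Fact ℓ.Prime := ⟨hℓ⟩
  have hn0 : ℓ ^ k ≠ 0 := pow_ne_zero _ hℓ.ne_zero
  have : NeZero (ℓ ^ k) := ⟨hn0⟩
  have hC : IsCyclotomicExtension {ℓ ^ k} ℚ ℚ⟮ζ⟯ :=
    hζ.intermediateField_adjoin_isCyclotomicExtension ℚ
  have hμ : IsPrimitiveRoot (AdjoinSimple.gen ℚ ζ) (ℓ ^ k) :=
    IsPrimitiveRoot.coe_submonoidClass_iff.mp hζ
  have hnf : NumberField ℚ⟮ζ⟯ := NumberField.of_intermediateField _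
  have hgal : IsGalois ℚ ℚ⟮ζ⟯ := IsCyclotomicExtension.isGalois {ℓ ^ k} ℚ _
  have hcop : IsCoprime (NumberField.discr ℚ⟮ζ⟯) (NumberField.discr F) := by
    have h1 := IsCyclotomicExtension.Rat.discr_prime_pow ℓ k ℚ⟮ζ⟯
    rw [h1, isCoprime_mul_unit_left_left (isUnit_neg_one.pow _)]
    refine IsCoprime.pow_left ?_
    rw [Prime.coprime_iff_not_dvd (Nat.prime_iff_prime_int.1 hℓ)]
    exact hd
  have hdisj : (ℚ⟮ζ⟯).LinearDisjoint F :=
    NumberField.linearDisjoint_of_isGalois_isCoprime_discr _ _ _ hcop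
  have h1 : Algebra.adjoin ℤ {hμ.toInteger} = ⊤ :=
    IsCyclotomicExtension.Rat.adjoin_singleton_eq_top hμ
  have hunion := IsDedekindDomain.adjoin_union_eq_top_of_isCoprime_differentialIdeal ℤ
    (NumberField.RingOfIntegers L) (NumberField.RingOfIntegers ℚ⟮ζ⟯)
    (NumberField.RingOfIntegers F) (F₁ := ℚ⟮ζ⟯) (F₂ := F) hdisj
    (by
      rw [← sup_toSubalgebra_of_left, sup_comm, htop]
      rfl)
    (NumberField.isCoprime_differentIdeal_of_isCoprime_discr _ hcop)
    (s := {hμ.toInteger}) (t := Set.univ) h1 (by rw [Algebra.adjoin_univ])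
  set z : NumberField.RingOfIntegers L :=
    algebraMap (NumberField.RingOfIntegers ℚ⟮ζ⟯) (NumberField.RingOfIntegers L) hμ.toInteger
    with hz
  have hzL : algebraMap (NumberField.RingOfIntegers L) L z = ζ := rfl
  have hzn : z ^ (ℓ ^ k) = 1 := by
    apply FaithfulSMul.algebraMap_injective (NumberField.RingOfIntegers L) L
    rw [map_pow, hzL, map_one]
    exact hζ.pow_eq_one
  have hall : ∀ y : NumberField.RingOfIntegers L,
      y ∈ Algebra.adjoin (NumberField.RingOfIntegers F) {z} := by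
    intro y
    have hy : y ∈ Algebra.adjoin ℤ
        (algebraMap (NumberField.RingOfIntegers ℚ⟮ζ⟯) (NumberField.RingOfIntegers L) ''
          {hμ.toInteger} ∪
        algebraMap (NumberField.RingOfIntegers F) (NumberField.RingOfIntegers L) '' Set.univ) := by
      rw [hunion]
      exact Algebra.mem_top
    have hle : Algebra.adjoin ℤ
        (algebraMap (NumberField.RingOfIntegers ℚ⟮ζ⟯) (NumberField.RingOfIntegers L) ''
          {hμ.toInteger} ∪
        algebraMap (NumberField.RingOfIntegers F) (NumberField.RingOfIntegers L) '' Set.univ) ≤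
        (Algebra.adjoin (NumberField.RingOfIntegers F) {z}).restrictScalars ℤ := by
      apply Algebra.adjoin_le
      rintro w (hw | hw)
      · rw [Set.image_singleton, Set.mem_singleton_iff] at hw
        rw [hw]
        exact Algebra.subset_adjoin (Set.mem_singleton _)
      · obtain ⟨v, -, rfl⟩ := hw
        exact Subalgebra.algebraMap_mem _ v
    exact hle hy
  have hx' := hall ⟨x, hx⟩
  rw [Algebra.adjoin_singleton_eq_range_aeval] at hx'
  obtain ⟨p, hpx⟩ := hx'
  have hmon : (X ^ (ℓ ^ k) - 1 : (NumberField.RingOfIntegers F)[X]).Monic := by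
    have := monic_X_pow_sub_C (1 : NumberField.RingOfIntegers F) hn0
    rwa [map_one] at this
  have hdeg : (X ^ (ℓ ^ k) - 1 : (NumberField.RingOfIntegers F)[X]).natDegree = ℓ ^ k := by
    have := natDegree_X_pow_sub_C (n := ℓ ^ k) (r := (1 : NumberField.RingOfIntegers F))
    rwa [map_one] at this
  have hne1 : (X ^ (ℓ ^ k) - 1 : (NumberField.RingOfIntegers F)[X]) ≠ 1 := by
    intro h
    rw [h, natDegree_one] at hdeg
    exact hn0 hdeg.symm
  have hlt := natDegree_modByMonic_lt p hmon hne1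
  rw [hdeg] at hlt
  have hmod : aeval z (p %ₘ (X ^ (ℓ ^ k) - 1)) = aeval z p := by
    have h2 := modByMonic_add_div p (X ^ (ℓ ^ k) - 1 : (NumberField.RingOfIntegers F)[X])
    conv_rhs => rw [← h2]
    rw [map_add, map_mul, map_sub, map_pow, aeval_X, map_one, hzn, sub_self, zero_mul, add_zero]
  have hsum := aeval_eq_sum_range' hlt z
  refine ⟨fun j => ((((p %ₘ (X ^ (ℓ ^ k) - 1)).coeff j : NumberField.RingOfIntegers F) : F) : L),
    ?_, ?_⟩
  · intro j
    refine ⟨SetLike.coe_mem _, ?_⟩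
    have h3 := NumberField.RingOfIntegers.isIntegral_coe
      ((p %ₘ (X ^ (ℓ ^ k) - 1)).coeff j : NumberField.RingOfIntegers F)
    exact h3.algebraMap
  · have h4 : (⟨x, hx⟩ : NumberField.RingOfIntegers L) =
        ∑ i ∈ range (ℓ ^ k), (p %ₘ (X ^ (ℓ ^ k) - 1)).coeff i • z ^ i := by
      rw [← hsum, hmod]
      exact hpx.symm
    have h5 := congrArg (algebraMap (NumberField.RingOfIntegers L) L) h4
    rw [map_sum] at h5
    have h6 : algebraMap (NumberField.RingOfIntegers L) L ⟨x, hx⟩ = x := rfl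
    rw [h6] at h5
    rw [h5]
    refine Finset.sum_congr rfl ?_
    intro i _
    rw [Algebra.smul_def, map_mul, map_pow, hzL, mul_comm]
    rfl

end MP225
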