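import Pool.Agent.Lib_MP_225a87_nt.Tame
import Pool.Agent.Lib_MP_225a87_nt.Ring
import Pool.Agent.Lib_MP_225a87_nt.GalAct

open Polynomial Finset IntermediateField

namespace MP225

/-- STEP_T (piece S2). Case `k = 1`, `ℓ` large. `ring_decomp` (with `k = 1`) gives `β = ∑_{i<ℓ} ζ^i c_i`,
`c_i ∈ F` integral, fixed by `σ_t : ζ ↦ ζ^t` (`gal_action`). Apply `tame` with `c = a+2`. First alternative:
`β ∈ F`. Second: with `x = c_0 - c_j`, `S = ∑‖φ x - c‖²`,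
`(ℓ-1-2R)(S + 2n) ≤ (ℓ-1)(2+δ/2) n`, so `S ≤ δ n` by `hℓB` , and `finish` contradicts `hδ`. -/
theorem step_tame (a δ : ℝ) (hδ0 : 0 < δ) (hδ4 : δ < 1 / 4)
    (hδ : ∀ k : ℤ, δ < ((k : ℝ) - (a + 2)) ^ 2) (R : ℕ)
    (L : Type) [Field L] [NumberField L] (F : IntermediateField ℚ L)
    (ℓ : ℕ) (hℓ : ℓ.Prime) (hd : ¬ (ℓ : ℤ) ∣ NumberField.discr F) (hℓR : 4 * R + 5 ≤ ℓ)
    (hℓB : ((ℓ : ℝ) - 1) * (2 + δ / 2) ≤ ((ℓ : ℝ) - 1 - 2 * R) * (2 + δ))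
    (ζ : L) (hζ : IsPrimitiveRoot ζ ℓ) (htop : F ⊔ ℚ⟮ζ⟯ = ⊤)
    (β : L) (hβ : IsIntegral ℤ β) (hreal : ∀ φ : L →+* ℂ, (φ β).im = 0)
    (hR : ∀ φ : L →+* ℂ, ‖φ β‖ ^ 2 ≤ R)
    (hM : ∑ φ : L →+* ℂ, ‖φ β - ((a + 2 : ℝ) : ℂ)‖ ^ 2 ≤ (2 + δ / 2) * Module.finrank ℚ L) :
    β ∈ F := by
  have hζ' : IsPrimitiveRoot ζ (ℓ ^ 1) := by rw [pow_one]; exact hζ
  obtain ⟨α, hα, hsum⟩ := ring_decomp F ℓ 1 hℓ le_rfl hd ζ hζ' htop β hβ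
  rw [pow_one] at hsum
  have hgal : ∀ t : ℕ, ∃ σ : L ≃ₐ[F] L, 0 < t → t < ℓ → σ ζ = ζ ^ t := by
    intro t
    by_cases ht : 0 < t ∧ t < ℓ
    · obtain ⟨σ, hσ⟩ := gal_action F ℓ 1 hℓ le_rfl hd ζ hζ' htop t
        (Nat.coprime_of_lt_prime ht.1.ne' ht.2 hℓ).symm
      exact ⟨σ, fun _ _ => hσ⟩
    · exact ⟨AlgEquiv.refl, fun h1 h2 => absurd ⟨h1, h2⟩ ht⟩
  choose σ hσ using hgal
  have hfix : ∀ t, ∀ i < ℓ, (σ t).toRingEquiv (α i) = α i := by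
    intro t i _
    exact (σ t).commutes ⟨α i, (hα i).1⟩
  have hn : (0 : ℝ) < Module.finrank ℚ L := by exact_mod_cast Module.finrank_pos
  have hRl : (0 : ℝ) < (ℓ : ℝ) - 1 - 2 * R := by
    have h1 : ((4 * R + 5 : ℕ) : ℝ) ≤ ℓ := by exact_mod_cast hℓR
    push_cast at h1
    have h0 : (0 : ℝ) ≤ R := Nat.cast_nonneg R
    linarith
  have hl1 : (0 : ℝ) ≤ (ℓ : ℝ) - 1 := by
    have h0 : (0 : ℝ) ≤ R := Nat.cast_nonneg R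
    linarith
  rcases tame ℓ hℓ ζ hζ (fun t => (σ t).toRingEquiv) (fun t h1 h2 => hσ t h1 h2) α
    (fun i _ => (hα i).2) hfix β hsum hreal R hR hℓR (a + 2) with ⟨j, _, hj⟩ | ⟨j, _, hj⟩
  · rw [hj]
    exact sub_mem (hα 0).1 (hα j).1
  · exfalso
    have h1 : ((ℓ : ℝ) - 1) * ∑ φ : L →+* ℂ, ‖φ β - ((a + 2 : ℝ) : ℂ)‖ ^ 2 ≤
        ((ℓ : ℝ) - 1) * ((2 + δ / 2) * Module.finrank ℚ L) :=
      mul_le_mul_of_nonneg_left hM hl1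
    have h2 : ((ℓ : ℝ) - 1) * ((2 + δ / 2) * Module.finrank ℚ L) ≤
        ((ℓ : ℝ) - 1 - 2 * R) * ((2 + δ) * Module.finrank ℚ L) := by
      have := mul_le_mul_of_nonneg_right hℓB hn.le
      linarith
    have h3 := le_of_mul_le_mul_left ((hj.trans h1).trans h2) hRl
    obtain ⟨n, hn'⟩ := finish (α 0 - α j) ((hα 0).2.sub (hα j).2) (a + 2) δ hδ4 (by linarith)
    exact absurd (hδ n) (not_lt.2 hn')

end MP225
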