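import Pool.Agent.Lib_MP_225a87_nt.Wild
import Pool.Agent.Lib_MP_225a87_nt.Ring
import Pool.Agent.Lib_MP_225a87_nt.GalAct

open Polynomial Finset IntermediateField

namespace MP225

/-- regrouping of the exponents modulo `P` -/
private theorem stepWild_sum {L : Type*} [AddCommMonoid L] (P Q : ℕ) (hP : 0 < P) (f : ℕ → L) :
    ∑ j ∈ range (P * Q), f j = ∑ i ∈ range P, ∑ m ∈ range Q, f (i + P * m) := by
  rw [← Finset.sum_product']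
  symm
  refine Finset.sum_nbij' (fun x : ℕ × ℕ => x.1 + P * x.2) (fun j => (j % P, j / P)) ?_ ?_ ?_ ?_ ?_
  · rintro ⟨i, m⟩ h
    rw [Finset.mem_product, mem_range, mem_range] at h
    rw [mem_range]
    calc i + P * m < P + P * m := Nat.add_lt_add_right h.1 _
      _ = P * (m + 1) := by ring
      _ ≤ P * Q := Nat.mul_le_mul_left _ h.2
  · intro j h
    rw [mem_range] at h
    rw [Finset.mem_product, mem_range, mem_range]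
    exact ⟨Nat.mod_lt _ hP, Nat.div_lt_of_lt_mul h⟩
  · rintro ⟨i, m⟩ h
    rw [Finset.mem_product, mem_range, mem_range] at h
    refine Prod.ext ?_ ?_
    · show (i + P * m) % P = i
      rw [Nat.add_mul_mod_self_left, Nat.mod_eq_of_lt h.1]
    · show (i + P * m) / P = m
      rw [Nat.add_mul_div_left _ _ hP, Nat.div_eq_of_lt h.1, zero_add]
  · intro j _
    exact Nat.mod_add_div j P
  · intro x _
    rfl

/-- the argument for a general modulus `P` -/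
private theorem stepWild_gen (a δ : ℝ) (hδ4 : δ < 1 / 4) (hδ : ∀ k : ℤ, δ < ((k : ℝ) - (a + 2)) ^ 2)
    {L : Type} [Field L] [NumberField L] (F : IntermediateField ℚ L)
    (ℓ k P Q : ℕ) (hℓ : ℓ.Prime) (hd : ¬ (ℓ : ℤ) ∣ NumberField.discr F) (hk : 1 ≤ k)
    (hPQ : ℓ ^ k = P * Q) (hP3 : 3 ≤ P) (hℓP : ℓ ∣ P) (hℓQ : ℓ ∣ Q)
    (hcop : ∀ i : ℕ, i.Coprime ℓ → i.Coprime P)
    (ζ : L) (hζ : IsPrimitiveRoot ζ (ℓ ^ k)) (htop : F ⊔ ℚ⟮ζ⟯ = ⊤)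
    (β : L) (hβ : IsIntegral ℤ β) (hreal : ∀ φ : L →+* ℂ, (φ β).im = 0)
    (hM : ∑ φ : L →+* ℂ, ‖φ β - ((a + 2 : ℝ) : ℂ)‖ ^ 2 ≤ (2 + δ) * Module.finrank ℚ L) :
    β ∈ F ⊔ ℚ⟮ζ ^ ℓ⟯ := by
  have hP0 : 0 < P := by omega
  have hpos : 0 < ℓ ^ k := pow_pos hℓ.pos k
  obtain ⟨c, hc, hsum⟩ := ring_decomp F ℓ k hℓ hk hd ζ hζ htop β hβ
  have hζ1 : ζ ^ (P * Q) = 1 := by rw [← hPQ]; exact hζ.pow_eq_one
  have hζint : IsIntegral ℤ ζ := hζ.isIntegral hpos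
  obtain ⟨b, hbdef⟩ : ∃ b : ℕ → L, ∀ i, b i = ∑ m ∈ range Q, ζ ^ (P * m) * c (i + P * m) :=
    ⟨_, fun _ => rfl⟩
  have hβb : β = ∑ i ∈ range P, ζ ^ i * b i := by
    rw [hsum, hPQ, stepWild_sum P Q hP0]
    refine Finset.sum_congr rfl fun i _ => ?_
    rw [hbdef, Finset.mul_sum]
    refine Finset.sum_congr rfl fun m _ => ?_
    rw [pow_add, mul_assoc]
  have hbint : ∀ i < P, IsIntegral ℤ (b i) := by
    intro i _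
    rw [hbdef]
    exact IsIntegral.sum _ fun m _ => (hζint.pow _).mul (hc _).2
  have hζmem : ∀ m, ℓ ∣ m → ζ ^ m ∈ F ⊔ ℚ⟮ζ ^ ℓ⟯ := by
    rintro m ⟨m', rfl⟩
    rw [pow_mul]
    exact pow_mem ((le_sup_right : ℚ⟮ζ ^ ℓ⟯ ≤ F ⊔ ℚ⟮ζ ^ ℓ⟯) (mem_adjoin_simple_self ℚ _)) m'
  have hbmem : ∀ i, b i ∈ F ⊔ ℚ⟮ζ ^ ℓ⟯ := by
    intro i
    rw [hbdef]
    refine sum_mem fun m _ => mul_mem (hζmem _ (hℓP.mul_right m)) ?_
    exact (le_sup_left : F ≤ F ⊔ ℚ⟮ζ ^ ℓ⟯) (hc _).1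
  by_contra hnot
  have hex : ∃ i₀ < P, i₀.Coprime P ∧ b i₀ ≠ 0 := by
    by_contra hno
    refine hnot ?_
    rw [hβb]
    refine sum_mem fun i hi => ?_
    rw [mem_range] at hi
    by_cases hi0 : b i = 0
    · rw [hi0, mul_zero]
      exact zero_mem _
    · have h1 : ¬ i.Coprime ℓ := fun h => hno ⟨i, hi, hcop i h, hi0⟩
      have h2 : ℓ ∣ i := by
        by_contra h3
        exact h1 ((Nat.Prime.coprime_iff_not_dvd hℓ).2 h3).symm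
      exact mul_mem (hζmem i h2) (hbmem i)
  obtain ⟨i₀, hi₀, hcop₀, hne⟩ := hex
  have hgal : ∀ t : ℕ, ∃ σ : L ≃ₐ[F] L, σ ζ = ζ ^ (1 + Q * t) := by
    intro t
    refine gal_action F ℓ k hℓ hk hd ζ hζ htop (1 + Q * t) ?_
    obtain ⟨Q', rfl⟩ := hℓQ
    rw [mul_assoc]
    exact (Nat.coprime_add_mul_left_left 1 ℓ (Q' * t)).2 (Nat.coprime_one_left ℓ)
  choose σ hσ using hgal
  have hη : IsPrimitiveRoot (ζ ^ Q) P := hζ.pow hpos (by rw [hPQ, mul_comm])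
  have hσζ : ∀ t, (σ t).toRingEquiv ζ = ζ * (ζ ^ Q) ^ t := by
    intro t
    show σ t ζ = _
    rw [hσ, pow_add, pow_one, pow_mul]
  have hσb : ∀ t, ∀ i < P, (σ t).toRingEquiv (b i) = b i := by
    intro t i _
    show σ t (b i) = b i
    rw [hbdef, map_sum]
    refine Finset.sum_congr rfl fun m _ => ?_
    have h1 : σ t (c (i + P * m)) = c (i + P * m) := (σ t).commutes ⟨_, (hc (i + P * m)).1⟩
    have h2 : (1 + Q * t) * (P * m) = P * m + (P * Q) * (t * m) := by ring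
    rw [map_mul, map_pow, h1, hσ, ← pow_mul, h2, pow_add, pow_mul ζ (P * Q), hζ1, one_pow, mul_one]
  have hw := wild P hP3 ζ (ζ ^ Q) ⟨ℓ ^ k, hpos, hζ.pow_eq_one⟩ hη (fun t => (σ t).toRingEquiv) hσζ b
    hbint hσb β hβb hreal (a + 2) i₀ hi₀ hcop₀ hne
  obtain ⟨n, hn⟩ := finish (b 0) (hbint 0 hP0) (a + 2) δ hδ4 (by linarith)
  exact absurd (hδ n) (not_lt.2 hn)

/-- STEP_W (piece S1). Prime powers `ℓ^k` with `ℓ` odd, `k ≥ 2` or `ℓ = 2`, `k ≥ 3`. `P = ℓ` resp. `4`.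
Suppose `β ∉ F ⊔ ℚ⟮ζ^ℓ⟯`. By `ring_decomp`, `β = ∑_{j<ℓ^k} ζ^j c_j`, `c_j ∈ F` integral; group `j = i + P m`:
`β = ∑_{i<P} ζ^i b_i`, `b_i = ∑_m ζ^(P m) c_{i+Pm}` integral. `η = ζ^(ℓ^k/P)`, `σ_t ∈ Gal(L/F)` with
`ζ ↦ ζ^(1 + (ℓ^k/P) t) = ζ η^t` (`gal_action`; `ℓ ∣ ℓ^k/P`), fixes `ζ^P`, so fixes the `b_i`. If `b_i = 0` for all
`i` coprime to `P` then `β = b_0` (P = ℓ) or `b_0 + ζ² b_2` (P = 4) lies in `F ⊔ ℚ⟮ζ^ℓ⟯`; so some such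
`b_{i₀} ≠ 0` and `wild` with `c = a+2` gives `∑ ‖φ b_0 - c‖² ≤ ∑ ‖φ β - c‖² - 2n ≤ δ n` by the hypothesis
`hM`; then `finish` contradicts `hδ`. -/
theorem step_wild (a δ : ℝ) (hδ4 : δ < 1 / 4) (hδ : ∀ k : ℤ, δ < ((k : ℝ) - (a + 2)) ^ 2)
    (L : Type) [Field L] [NumberField L] (F : IntermediateField ℚ L)
    (ℓ k : ℕ) (hℓ : ℓ.Prime) (hd : ¬ (ℓ : ℤ) ∣ NumberField.discr F) (hk : 2 ≤ k)
    (h2 : ℓ = 2 → 3 ≤ k) (ζ : L) (hζ : IsPrimitiveRoot ζ (ℓ ^ k)) (htop : F ⊔ ℚ⟮ζ⟯ = ⊤)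
    (β : L) (hβ : IsIntegral ℤ β) (hreal : ∀ φ : L →+* ℂ, (φ β).im = 0)
    (hM : ∑ φ : L →+* ℂ, ‖φ β - ((a + 2 : ℝ) : ℂ)‖ ^ 2 ≤ (2 + δ) * Module.finrank ℚ L) :
    β ∈ F ⊔ ℚ⟮ζ ^ ℓ⟯ := by
  by_cases h : ℓ = 2
  · obtain ⟨m, rfl⟩ : ∃ m, k = m + 3 := ⟨k - 3, by have := h2 h; omega⟩
    subst h
    refine stepWild_gen a δ hδ4 hδ F 2 (m + 3) 4 (2 ^ (m + 1)) hℓ hd (by omega) (by ring)
      (by norm_num) (by norm_num) (dvd_pow_self 2 (by omega)) ?_ ζ hζ htop β hβ hreal hM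
    intro i hi
    exact hi.mul_right hi
  · obtain ⟨m, rfl⟩ : ∃ m, k = m + 2 := ⟨k - 2, by omega⟩
    have h3 : 3 ≤ ℓ := by
      have := hℓ.two_le
      omega
    exact stepWild_gen a δ hδ4 hδ F ℓ (m + 2) ℓ (ℓ ^ (m + 1)) hℓ hd (by omega) (by ring)
      h3 (dvd_refl ℓ) (dvd_pow_self ℓ (by omega)) (fun i hi => hi) ζ hζ htop β hβ hreal hM

end MP225
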