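import Pool.Agent.Lib_MP_225a87_nt.MeanSq
import Pool.Agent.Lib_MP_225a87_nt.StepWild
import Pool.Agent.Lib_MP_225a87_nt.StepTame

open Polynomial Finset IntermediateField

namespace MP225

/-- a non-integer has a positive distance from the integers -/
private theorem step_delta (c : ℝ) (hc : ∀ n : ℤ, (n : ℝ) ≠ c) :
    ∃ δ : ℝ, 0 < δ ∧ δ < 1 / 4 ∧ ∀ k : ℤ, δ < ((k : ℝ) - c) ^ 2 := by
  have hf0 : 0 < Int.fract c := lt_of_le_of_ne (Int.fract_nonneg c) (fun h => by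
    apply hc ⌊c⌋
    have := Int.floor_add_fract c
    rw [← h, add_zero] at this
    exact this)
  have hf1 : Int.fract c < 1 := Int.fract_lt_one c
  have hfl := Int.floor_add_fract c
  set f := Int.fract c with hf
  have key : ∀ k : ℤ, (f * (1 - f)) ^ 2 ≤ ((k : ℝ) - c) ^ 2 := by
    intro k
    have h1 : f * (1 - f) ≤ |(k : ℝ) - c| := by
      rcases le_or_gt k ⌊c⌋ with h | h
      · have h2 : (k : ℝ) ≤ ⌊c⌋ := by exact_mod_cast h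
        rw [abs_of_nonpos (by linarith)]
        nlinarith
      · have h2 : (⌊c⌋ : ℝ) + 1 ≤ k := by exact_mod_cast h
        rw [abs_of_nonneg (by linarith)]
        nlinarith
    have h0 : 0 ≤ f * (1 - f) := by nlinarith
    calc (f * (1 - f)) ^ 2 ≤ |(k : ℝ) - c| ^ 2 := pow_le_pow_left₀ h0 h1 2
      _ = ((k : ℝ) - c) ^ 2 := sq_abs _
  have hp : 0 < f * (1 - f) := mul_pos hf0 (by linarith)
  have hq : f * (1 - f) ≤ 1 / 4 := by nlinarith [sq_nonneg (f - 1 / 2)]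
  refine ⟨(f * (1 - f)) ^ 2 / 2, by positivity, by nlinarith, fun k => ?_⟩
  have := key k
  have h3 : 0 < (f * (1 - f)) ^ 2 := by positivity
  linarith

private theorem step_root {L : Type} [Field L] (p : ℤ[X]) (β : L)
    (hβ : aeval β p = 0) (φ : L →+* ℂ) : aeval (φ β) p = 0 := by
  have h := Polynomial.aeval_algHom_apply φ.toIntAlgHom β p
  rw [hβ, map_zero] at h
  exact h

/-- STEP (piece S3). Choose `δ ∈ (0, 1/4)` with `δ < (k - (a+2))²` for all integers `k` (`a ∉ ℤ`),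
`R ≥ (|a|+4)²`, `B` with `hℓR`, `hℓB` for all `ℓ ≥ B`, `n₀` from `mean_sq (δ/2)`; all `φ β` are roots of `p`,
hence real in `[a,a+4]`. -/
theorem step (a : ℝ) (ha : ∀ n : ℤ, (n : ℝ) ≠ a) : ∃ B n₀ : ℕ, ∀ (p : ℤ[X]), ConjIn a p →
    n₀ ≤ p.natDegree → ∀ (L : Type) [Field L] [NumberField L] (F : IntermediateField ℚ L)
      (ℓ k : ℕ), ℓ.Prime → ¬ (ℓ : ℤ) ∣ NumberField.discr F → 1 ≤ k → (k = 1 → B ≤ ℓ) →
      (ℓ = 2 → 3 ≤ k) → ∀ ζ : L, IsPrimitiveRoot ζ (ℓ ^ k) → F ⊔ ℚ⟮ζ⟯ = ⊤ →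
      ∀ β : L, aeval β p = 0 → β ∈ F ⊔ ℚ⟮ζ ^ ℓ⟯ := by
  obtain ⟨δ, hδ0, hδ4, hδ⟩ := step_delta (a + 2) (fun n hn => ha (n - 2) (by
    push_cast
    linarith))
  obtain ⟨n₀, hn₀⟩ := mean_sq (δ / 2) (by linarith)
  set R : ℕ := ⌈(|a| + 4) ^ 2⌉₊ with hR
  refine ⟨max (4 * R + 5) (⌈4 * R * (2 + δ) / δ⌉₊ + 1), n₀, ?_⟩
  intro p hp hdeg L _ _ F ℓ k hℓ hd hk hB h2 ζ hζ htop β hβ
  have hroot : ∀ φ : L →+* ℂ, (φ β).im = 0 ∧ a ≤ (φ β).re ∧ (φ β).re ≤ a + 4 :=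
    fun φ => hp.2.2 _ (step_root p β hβ φ)
  have hint : IsIntegral ℤ β := ⟨p, hp.1, hβ⟩
  have hM := hn₀ a p hp hdeg L β hβ
  rcases Nat.lt_or_ge k 2 with hk2 | hk2
  · have hk1 : k = 1 := by omega
    subst hk1
    have hBl := hB rfl
    have hl1 : 4 * R + 5 ≤ ℓ := le_trans (le_max_left _ _) hBl
    have hl2 : ⌈4 * R * (2 + δ) / δ⌉₊ + 1 ≤ ℓ := le_trans (le_max_right _ _) hBl
    rw [pow_one] at hζ
    have hnorm : ∀ φ : L →+* ℂ, ‖φ β‖ ^ 2 ≤ R := by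
      intro φ
      obtain ⟨h1, h3, h4⟩ := hroot φ
      have e1 : ‖φ β‖ ^ 2 = (φ β).re ^ 2 := by
        rw [← Complex.normSq_eq_norm_sq, Complex.normSq_apply, h1]
        ring
      have h5 : |(φ β).re| ≤ |a| + 4 := by
        rw [abs_le]
        have h6 := neg_abs_le a
        have h7 := le_abs_self a
        exact ⟨by linarith, by linarith⟩
      have h8 : (φ β).re ^ 2 ≤ (|a| + 4) ^ 2 := by
        rw [← sq_abs (φ β).re]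
        exact pow_le_pow_left₀ (abs_nonneg _) h5 2
      rw [e1]
      exact h8.trans (Nat.le_ceil _)
    have hlB : ((ℓ : ℝ) - 1) * (2 + δ / 2) ≤ ((ℓ : ℝ) - 1 - 2 * R) * (2 + δ) := by
      have h5 : 4 * R * (2 + δ) / δ ≤ (ℓ : ℝ) - 1 := by
        have h6 : (⌈4 * R * (2 + δ) / δ⌉₊ : ℝ) + 1 ≤ ℓ := by exact_mod_cast hl2
        have h7 := Nat.le_ceil (4 * (R : ℝ) * (2 + δ) / δ)
        linarith
      rw [div_le_iff₀ hδ0] at h5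
      nlinarith
    have h := step_tame a δ hδ0 hδ4 hδ R L F ℓ hℓ hd hl1 hlB ζ hζ htop β hint
      (fun φ => (hroot φ).1) hnorm hM
    exact (le_sup_left : F ≤ F ⊔ ℚ⟮ζ ^ ℓ⟯) h
  · refine step_wild a δ hδ4 hδ L F ℓ k hℓ hd hk2 h2 ζ hζ htop β hint
      (fun φ => (hroot φ).1) (hM.trans ?_)
    have h5 : (0 : ℝ) ≤ Module.finrank ℚ L := Nat.cast_nonneg _
    nlinarith

/-- STEP_C (piece S4): `step` for subfields of `ℂ`. Apply `step` with `L = ↥(F ⊔ ℚ⟮ζ⟯)` and `F` viewed inside `L`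
(`IntermediateField.restrict`; isomorphic fields have the same discriminant). -/
theorem step_C (a : ℝ) (ha : ∀ n : ℤ, (n : ℝ) ≠ a) : ∃ B n₀ : ℕ, ∀ (p : ℤ[X]), ConjIn a p →
    n₀ ≤ p.natDegree → ∀ (F : IntermediateField ℚ ℂ) [NumberField F]
      (ℓ k : ℕ), ℓ.Prime → ¬ (ℓ : ℤ) ∣ NumberField.discr F → 1 ≤ k → (k = 1 → B ≤ ℓ) →
      (ℓ = 2 → 3 ≤ k) → ∀ ζ : ℂ, IsPrimitiveRoot ζ (ℓ ^ k) →
      ∀ z : ℂ, aeval z p = 0 → z ∈ F ⊔ ℚ⟮ζ⟯ → z ∈ F ⊔ ℚ⟮ζ ^ ℓ⟯ := by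
  obtain ⟨B, n₀, h⟩ := step a ha
  refine ⟨B, n₀, ?_⟩
  intro p hp hdeg F _ ℓ k hℓ hd hk hB h2 ζ hζ z hz hzmem
  have hpos : 0 < ℓ ^ k := pow_pos hℓ.pos k
  have hζi : IsIntegral ℚ ζ := (hζ.isIntegral hpos).tower_top
  have : FiniteDimensional ℚ ℚ⟮ζ⟯ := IntermediateField.adjoin.finiteDimensional hζi
  have : FiniteDimensional ℚ ↥F := NumberField.to_finiteDimensional
  have : FiniteDimensional ℚ ↥(F ⊔ ℚ⟮ζ⟯) := IntermediateField.finiteDimensional_sup F ℚ⟮ζ⟯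
  have hNF : NumberField ↥(F ⊔ ℚ⟮ζ⟯) := { to_charZero := inferInstance, to_finiteDimensional := this }
  have hFE : F ≤ F ⊔ ℚ⟮ζ⟯ := le_sup_left
  have hζmem : ζ ∈ F ⊔ ℚ⟮ζ⟯ :=
    (le_sup_right : ℚ⟮ζ⟯ ≤ F ⊔ ℚ⟮ζ⟯) (IntermediateField.mem_adjoin_simple_self ℚ ζ)
  have hlr : lift (restrict hFE) = F := lift_restrict hFE
  have hζ' : IsPrimitiveRoot (⟨ζ, hζmem⟩ : ↥(F ⊔ ℚ⟮ζ⟯)) (ℓ ^ k) :=
    hζ.of_map_of_injective (f := algebraMap ↥(F ⊔ ℚ⟮ζ⟯) ℂ) (algebraMap ↥(F ⊔ ℚ⟮ζ⟯) ℂ).injective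
  have hls : ∀ (A B : IntermediateField ℚ ↥(F ⊔ ℚ⟮ζ⟯)), lift (A ⊔ B) = lift A ⊔ lift B :=
    fun A B => IntermediateField.map_sup A B (F ⊔ ℚ⟮ζ⟯).val
  have htop : restrict hFE ⊔ ℚ⟮(⟨ζ, hζmem⟩ : ↥(F ⊔ ℚ⟮ζ⟯))⟯ = ⊤ := by
    apply lift_injective
    have e2 : lift ℚ⟮(⟨ζ, hζmem⟩ : ↥(F ⊔ ℚ⟮ζ⟯))⟯ = ℚ⟮ζ⟯ := lift_adjoin_simple ℚ _ _
    exact (hls _ _).trans ((congrArg₂ (· ⊔ ·) hlr e2).trans (lift_top ℚ (F ⊔ ℚ⟮ζ⟯)).symm)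
  have hdF : ¬ (ℓ : ℤ) ∣ NumberField.discr (restrict hFE) := by
    rw [← NumberField.discr_eq_discr_of_algEquiv _ (restrictAlgEquiv hFE)]
    exact hd
  have hβ : aeval (⟨z, hzmem⟩ : ↥(F ⊔ ℚ⟮ζ⟯)) p = 0 := by
    apply (algebraMap ↥(F ⊔ ℚ⟮ζ⟯) ℂ).injective
    rw [map_zero, ← Polynomial.aeval_algebraMap_apply]
    exact hz
  have hmem := h p hp hdeg ↥(F ⊔ ℚ⟮ζ⟯) (restrict hFE) ℓ k hℓ hdF hk hB h2
    ⟨ζ, hζmem⟩ hζ' htop ⟨z, hzmem⟩ hβ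
  have hmem2 := (mem_lift (⟨z, hzmem⟩ : ↥(F ⊔ ℚ⟮ζ⟯))).2 hmem
  have e3 : lift ℚ⟮(⟨ζ, hζmem⟩ : ↥(F ⊔ ℚ⟮ζ⟯)) ^ ℓ⟯ = ℚ⟮ζ ^ ℓ⟯ := lift_adjoin_simple ℚ _ _
  have e4 : lift (restrict hFE ⊔ ℚ⟮(⟨ζ, hζmem⟩ : ↥(F ⊔ ℚ⟮ζ⟯)) ^ ℓ⟯) = F ⊔ ℚ⟮ζ ^ ℓ⟯ :=
    (hls _ _).trans (congrArg₂ (· ⊔ ·) hlr e3)
  exact e4 ▸ hmem2

end MP225
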