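import Pool.Agent.Lib_MP_225a87_nt.GalAct

/-!
# The Galois group of `F(ζ)/F`, `ζ` a primitive `ℓ`-th root of unity, `ℓ` unramified in `F`
(helper file for TameMean and TameStab)
-/

open Polynomial Finset IntermediateField

namespace MP225

theorem tg_algAdjoin {L : Type} [Field L] [NumberField L] (F : IntermediateField ℚ L) (ζ : L)
    (htop : F ⊔ ℚ⟮ζ⟯ = ⊤) : Algebra.adjoin F {ζ} = ⊤ := by
  have hint : IsIntegral F ζ := Algebra.IsIntegral.isIntegral ζ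
  rw [← IntermediateField.adjoin_simple_toSubalgebra_of_isAlgebraic hint.isAlgebraic,
    gal_adjoin_top F ζ htop]
  rfl

theorem tg_ext {L : Type} [Field L] [NumberField L] (F : IntermediateField ℚ L) (ζ : L)
    (htop : F ⊔ ℚ⟮ζ⟯ = ⊤) (σ τ : L ≃ₐ[F] L) (h : σ ζ = τ ζ) : σ = τ := by
  have h1 : (σ : L →ₐ[F] L) = (τ : L →ₐ[F] L) := by
    refine AlgHom.ext_of_adjoin_eq_top (tg_algAdjoin F ζ htop) ?_
    intro x hx
    rw [Set.mem_singleton_iff] at hx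
    rw [hx]
    exact h
  ext x
  exact DFunLike.congr_fun h1 x

theorem tg_cyc {L : Type} [Field L] [NumberField L] (F : IntermediateField ℚ L) (ℓ : ℕ)
    (hℓ : ℓ.Prime) (ζ : L) (hζ : IsPrimitiveRoot ζ ℓ)
    (htop : F ⊔ ℚ⟮ζ⟯ = ⊤) : IsCyclotomicExtension {ℓ} F L := by
  have hn0 : NeZero ℓ := ⟨hℓ.ne_zero⟩
  rw [IsCyclotomicExtension.iff_singleton]
  refine ⟨⟨ζ, hζ⟩, fun x => ?_⟩
  have h1 : x ∈ Algebra.adjoin F {ζ} := by
    rw [tg_algAdjoin F ζ htop]; trivial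
  refine Algebra.adjoin_mono ?_ h1
  intro y hy
  rw [Set.mem_singleton_iff] at hy
  rw [hy]
  exact hζ.pow_eq_one

theorem tg_galois {L : Type} [Field L] [NumberField L] (F : IntermediateField ℚ L) (ℓ : ℕ)
    (hℓ : ℓ.Prime) (ζ : L) (hζ : IsPrimitiveRoot ζ ℓ)
    (htop : F ⊔ ℚ⟮ζ⟯ = ⊤) : IsGalois F L := by
  have hn0 : NeZero ℓ := ⟨hℓ.ne_zero⟩
  have := tg_cyc F ℓ hℓ ζ hζ htop
  exact IsCyclotomicExtension.isGalois {ℓ} F L

theorem tg_finrank {L : Type} [Field L] [NumberField L] (F : IntermediateField ℚ L) (ℓ : ℕ)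
    (hℓ : ℓ.Prime) (hd : ¬ (ℓ : ℤ) ∣ NumberField.discr F) (ζ : L) (hζ : IsPrimitiveRoot ζ ℓ)
    (htop : F ⊔ ℚ⟮ζ⟯ = ⊤) : Module.finrank F L = ℓ - 1 := by
  have hn0 : NeZero ℓ := ⟨hℓ.ne_zero⟩
  have hcyc1 : IsCyclotomicExtension {ℓ} ℚ ℚ⟮ζ⟯ :=
    hζ.intermediateField_adjoin_isCyclotomicExtension ℚ
  have hgal1 : IsGalois ℚ ℚ⟮ζ⟯ := IsCyclotomicExtension.isGalois {ℓ} ℚ _
  have hcop : IsCoprime (NumberField.discr ℚ⟮ζ⟯) (NumberField.discr F) := by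
    rw [Int.isCoprime_iff_nat_coprime, IsCyclotomicExtension.Rat.natAbs_discr ℓ ℚ⟮ζ⟯]
    refine Nat.Coprime.coprime_div_left ?_
      (Nat.prod_primeFactors_pow_totient_ediv_dvd (NeZero.pos _))
    refine Nat.Coprime.pow_left _ ?_
    rw [Nat.Prime.coprime_iff_not_dvd hℓ]
    rwa [← Int.natCast_dvd]
  have hdisj : ℚ⟮ζ⟯.LinearDisjoint F :=
    NumberField.linearDisjoint_of_isGalois_isCoprime_discr L _ _ hcop
  rw [hdisj.symm.finrank_left_eq_finrank htop, IsCyclotomicExtension.Rat.finrank ℓ ℚ⟮ζ⟯,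
    Nat.totient_prime hℓ]

theorem tg_card {L : Type} [Field L] [NumberField L] (F : IntermediateField ℚ L) (ℓ : ℕ)
    (hℓ : ℓ.Prime) (hd : ¬ (ℓ : ℤ) ∣ NumberField.discr F) (ζ : L) (hζ : IsPrimitiveRoot ζ ℓ)
    (htop : F ⊔ ℚ⟮ζ⟯ = ⊤) : Fintype.card (L ≃ₐ[F] L) = ℓ - 1 := by
  have := tg_galois F ℓ hℓ ζ hζ htop
  rw [← Nat.card_eq_fintype_card, IsGalois.card_aut_eq_finrank, tg_finrank F ℓ hℓ hd ζ hζ htop]

theorem tg_exp {L : Type} [Field L] [NumberField L] (F : IntermediateField ℚ L) (ℓ : ℕ)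
    (hℓ : ℓ.Prime) (ζ : L) (hζ : IsPrimitiveRoot ζ ℓ) (σ : L ≃ₐ[F] L) :
    ∃ t, 0 < t ∧ t < ℓ ∧ σ ζ = ζ ^ t := by
  have hn0 : NeZero ℓ := ⟨hℓ.ne_zero⟩
  have h1 : (σ ζ) ^ ℓ = 1 := by rw [← map_pow, hζ.pow_eq_one, map_one]
  obtain ⟨t, ht, h2⟩ := hζ.eq_pow_of_pow_eq_one h1
  refine ⟨t, Nat.pos_of_ne_zero ?_, ht, h2.symm⟩
  rintro rfl
  rw [pow_zero] at h2
  have h3 : ζ = 1 := by
    apply σ.injective
    rw [← h2, map_one]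
  exact hζ.ne_one hℓ.one_lt h3

/-- the sum of the conjugates of `1` -/
theorem tg_T0 {L : Type} [Field L] [NumberField L] (F : IntermediateField ℚ L) (ℓ : ℕ)
    (hℓ : ℓ.Prime) (hd : ¬ (ℓ : ℤ) ∣ NumberField.discr F) (ζ : L) (hζ : IsPrimitiveRoot ζ ℓ)
    (htop : F ⊔ ℚ⟮ζ⟯ = ⊤) (m : ℕ) (hm : ℓ ∣ m) :
    ∑ σ : L ≃ₐ[F] L, σ (ζ ^ m) = (ℓ : L) - 1 := by
  have h1 : ζ ^ m = 1 := (hζ.pow_eq_one_iff_dvd m).2 hm
  rw [h1]
  have h2 : ∀ σ : L ≃ₐ[F] L, σ 1 = 1 := fun σ => map_one σ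
  rw [Finset.sum_congr rfl fun σ _ => h2 σ, Finset.sum_const, Finset.card_univ,
    tg_card F ℓ hℓ hd ζ hζ htop, nsmul_eq_mul, mul_one, Nat.cast_sub hℓ.one_lt.le, Nat.cast_one]

/-- the sum of the conjugates of `ζ ^ m` -/
theorem tg_T {L : Type} [Field L] [NumberField L] (F : IntermediateField ℚ L) (ℓ : ℕ)
    (hℓ : ℓ.Prime) (hd : ¬ (ℓ : ℤ) ∣ NumberField.discr F) (ζ : L) (hζ : IsPrimitiveRoot ζ ℓ)
    (htop : F ⊔ ℚ⟮ζ⟯ = ⊤) (m : ℕ) (hm : ¬ ℓ ∣ m) :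
    ∑ σ : L ≃ₐ[F] L, σ (ζ ^ m) = -1 := by
  have hζ1 : IsPrimitiveRoot ζ (ℓ ^ 1) := by rw [pow_one]; exact hζ
  have hred : ∀ m : ℕ, ¬ ℓ ∣ m → ∑ σ : L ≃ₐ[F] L, σ (ζ ^ m) = ∑ σ : L ≃ₐ[F] L, σ ζ := by
    intro m hm
    obtain ⟨τ, hτ⟩ := gal_action F ℓ 1 hℓ le_rfl hd ζ hζ1 htop m
      ((Nat.Prime.coprime_iff_not_dvd hℓ).2 hm).symm
    rw [← hτ]
    have h1 : ∀ σ : L ≃ₐ[F] L, σ (τ ζ) = (σ * τ) ζ := fun σ => rfl
    rw [Finset.sum_congr rfl fun σ _ => h1 σ]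
    exact Equiv.sum_comp (Equiv.mulRight τ) (fun σ : L ≃ₐ[F] L => σ ζ)
  have hgeom : ∑ i ∈ range ℓ, ζ ^ i = 0 := hζ.geom_sum_eq_zero hℓ.one_lt
  have h2 : ∑ σ : L ≃ₐ[F] L, σ (∑ i ∈ range ℓ, ζ ^ i) = 0 := by
    rw [hgeom]
    exact Finset.sum_eq_zero fun σ _ => map_zero σ
  have h3 : ∑ σ : L ≃ₐ[F] L, σ (∑ i ∈ range ℓ, ζ ^ i) =
      ∑ i ∈ range ℓ, ∑ σ : L ≃ₐ[F] L, σ (ζ ^ i) := by
    rw [Finset.sum_comm]
    exact Finset.sum_congr rfl fun σ _ => map_sum σ _ _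
  rw [h3, Finset.range_eq_Ico, Finset.sum_eq_sum_Ico_succ_bot hℓ.pos,
    tg_T0 F ℓ hℓ hd ζ hζ htop 0 (dvd_zero _)] at h2
  have h4 : ∑ i ∈ Ico (0 + 1) ℓ, ∑ σ : L ≃ₐ[F] L, σ (ζ ^ i) =
      ∑ i ∈ Ico (0 + 1) ℓ, ∑ σ : L ≃ₐ[F] L, σ ζ := by
    refine Finset.sum_congr rfl fun i hi => hred i ?_
    rw [Finset.mem_Ico] at hi
    intro h
    have := Nat.le_of_dvd (by omega) h
    omega
  rw [h4, Finset.sum_const, Nat.card_Ico, nsmul_eq_mul, Nat.cast_sub (by have := hℓ.pos; omega)] at h2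
  rw [hred m hm]
  have h5 : ((ℓ : L) - 1) * (1 + ∑ σ : L ≃ₐ[F] L, σ ζ) = 0 := by
    rw [← h2]
    push_cast
    ring
  have h6 : (ℓ : L) - 1 ≠ 0 := by
    rw [sub_ne_zero]
    exact_mod_cast hℓ.one_lt.ne'
  rcases mul_eq_zero.1 h5 with h | h
  · exact absurd h h6
  · exact (neg_eq_of_add_eq_zero_right h).symm

/-- the only relation between `1, ζ, …, ζ^(ℓ-1)` over `F` -/
theorem tg_indep {L : Type} [Field L] [NumberField L] (F : IntermediateField ℚ L) (ℓ : ℕ)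
    (hℓ : ℓ.Prime) (hd : ¬ (ℓ : ℤ) ∣ NumberField.discr F) (ζ : L) (hζ : IsPrimitiveRoot ζ ℓ)
    (htop : F ⊔ ℚ⟮ζ⟯ = ⊤) (c : ℕ → L) (hc : ∀ i, c i ∈ F)
    (h : ∑ i ∈ range ℓ, ζ ^ i * c i = 0) : ∀ i < ℓ, c i = c 0 := by
  have key : ∀ j < ℓ, (ℓ : L) * c j = ∑ i ∈ range ℓ, c i := by
    intro j hj
    have h1 : ∑ σ : L ≃ₐ[F] L, σ (ζ ^ (ℓ - j) * ∑ i ∈ range ℓ, ζ ^ i * c i) = 0 := by
      rw [h, mul_zero]
      exact Finset.sum_eq_zero fun σ _ => map_zero σ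
    have h2 : ∑ σ : L ≃ₐ[F] L, σ (ζ ^ (ℓ - j) * ∑ i ∈ range ℓ, ζ ^ i * c i) =
        ∑ i ∈ range ℓ, (∑ σ : L ≃ₐ[F] L, σ (ζ ^ (ℓ - j + i))) * c i := by
      simp only [Finset.sum_mul]
      rw [Finset.sum_comm]
      refine Finset.sum_congr rfl fun σ _ => ?_
      rw [Finset.mul_sum, map_sum]
      refine Finset.sum_congr rfl fun i _ => ?_
      rw [← mul_assoc, ← pow_add, map_mul]
      congr 1
      exact σ.commutes ⟨c i, hc i⟩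
    have h3 : ∀ i ∈ range ℓ, (∑ σ : L ≃ₐ[F] L, σ (ζ ^ (ℓ - j + i))) * c i =
        (if i = j then (ℓ : L) * c i else 0) - c i := by
      intro i hi
      rw [mem_range] at hi
      by_cases hij : i = j
      · rw [if_pos hij, tg_T0 F ℓ hℓ hd ζ hζ htop _ (by
          rw [hij, Nat.sub_add_cancel hj.le])]
        ring
      · rw [if_neg hij, tg_T F ℓ hℓ hd ζ hζ htop _ (by
          rintro ⟨q, hq⟩
          have hq0 : 0 < q := by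
            rcases Nat.eq_zero_or_pos q with h0 | h0
            · rw [h0, mul_zero] at hq
              omega
            · exact h0
          have hq1 : q < 2 := by
            by_contra h5
            have : ℓ * 2 ≤ ℓ * q := Nat.mul_le_mul_left _ (by omega)
            omega
          have hq2 : q = 1 := by omega
          rw [hq2, mul_one] at hq
          omega)]
        ring
    rw [h2, Finset.sum_congr rfl h3, Finset.sum_sub_distrib, Finset.sum_ite_eq' (range ℓ) j,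
      if_pos (mem_range.2 hj), sub_eq_zero] at h1
    exact h1
  intro i hi
  have h1 := (key i hi).trans (key 0 hℓ.pos).symm
  have hl : (ℓ : L) ≠ 0 := by exact_mod_cast hℓ.ne_zero
  exact mul_left_cancel₀ hl h1

end MP225
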