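import Pool.Agent.Lib_MP_225a87_nt.TameRep
import Pool.Agent.Lib_MP_225a87_nt.TameGal

open Polynomial Finset IntermediateField

namespace MP225

/-- TAMECARD. `Gal(L/F)` has `ℓ - 1` elements: `σ ↦ t`, `σ ζ = ζ^t`, is injective (`L = F(ζ)`) and surjective onto
`0 < t < ℓ` (`gal_action`). Also the fixed elements are those of `F` (or: `L/F` Galois). -/
theorem tame_card {L : Type} [Field L] [NumberField L] (F : IntermediateField ℚ L) (ℓ : ℕ)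
    (hℓ : ℓ.Prime) (hd : ¬ (ℓ : ℤ) ∣ NumberField.discr F) (ζ : L) (hζ : IsPrimitiveRoot ζ ℓ)
    (htop : F ⊔ ℚ⟮ζ⟯ = ⊤) : Fintype.card (L ≃ₐ[F] L) = ℓ - 1 := by
  exact tg_card F ℓ hℓ hd ζ hζ htop

/-- TAMEMEAN. `α`, `j₀` from `tame_rep` for `y`, `a_i = α_i - α_{j₀}`, `x = a_0` (integral). `y = ∑ ζ^i a_i`,
`∑_σ σ y = ∑_i a_i ∑_{0<t<ℓ} ζ^(ti) = (ℓ-1) a_0 - ∑_{0<i<ℓ} a_i`, so
`x - (∑_σ σ y)/(ℓ-1) = (∑_{0<i<ℓ} a_i)/(ℓ-1)`; at most `2R` nonzero terms, so by Cauchy-Schwarz and `tame_rep` the sum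
over `φ` of the squares is at most `2R · 2R·n/(ℓ-1)²`. -/
theorem tame_mean {L : Type} [Field L] [NumberField L] (F : IntermediateField ℚ L) (ℓ : ℕ)
    (hℓ : ℓ.Prime) (hd : ¬ (ℓ : ℤ) ∣ NumberField.discr F) (ζ : L) (hζ : IsPrimitiveRoot ζ ℓ)
    (htop : F ⊔ ℚ⟮ζ⟯ = ⊤) (y : L) (hy : IsIntegral ℤ y) (R : ℕ)
    (hR : ∀ φ : L →+* ℂ, ‖φ y‖ ^ 2 ≤ R) (hℓR : 4 * R + 5 ≤ ℓ) :
    ∃ x : L, IsIntegral ℤ x ∧
      ∑ φ : L →+* ℂ, ‖φ x - φ (∑ σ : L ≃ₐ[F] L, σ y) / ((ℓ : ℂ) - 1)‖ ^ 2 ≤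
        4 * (R : ℝ) ^ 2 / ((ℓ : ℝ) - 1) ^ 2 * Module.finrank ℚ L := by
  classical
  obtain ⟨α, hα, hyα, j₀, hj₀, hcard, hsum⟩ := tame_rep F ℓ hℓ hd ζ hζ htop y hy R hR hℓR
  have hn : (0 : ℝ) < Module.finrank ℚ L := by exact_mod_cast Module.finrank_pos
  obtain ⟨b, hb⟩ : ∃ b : ℕ → L, ∀ i, b i = α i - α j₀ := ⟨_, fun _ => rfl⟩
  have hbF : ∀ i, b i ∈ F := fun i => by rw [hb]; exact sub_mem (hα i).1 (hα j₀).1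
  have hyb : y = ∑ i ∈ range ℓ, ζ ^ i * b i := by
    have hgeom : ∑ i ∈ range ℓ, ζ ^ i = 0 := hζ.geom_sum_eq_zero hℓ.one_lt
    have h1 : ∑ i ∈ range ℓ, ζ ^ i * b i =
        ∑ i ∈ range ℓ, ζ ^ i * α i - (∑ i ∈ range ℓ, ζ ^ i) * α j₀ := by
      rw [Finset.sum_mul, ← Finset.sum_sub_distrib]
      refine Finset.sum_congr rfl fun i _ => ?_
      rw [hb, mul_sub]
    rw [h1, hgeom, zero_mul, sub_zero, hyα]
  -- the sum of the conjugates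
  have hconj : ∑ σ : L ≃ₐ[F] L, σ y = ((ℓ : L) - 1) * b 0 - ∑ i ∈ Ico 1 ℓ, b i := by
    have h1 : ∑ σ : L ≃ₐ[F] L, σ y = ∑ i ∈ range ℓ, (∑ σ : L ≃ₐ[F] L, σ (ζ ^ i)) * b i := by
      simp only [Finset.sum_mul]
      rw [Finset.sum_comm]
      refine Finset.sum_congr rfl fun σ _ => ?_
      rw [hyb, map_sum]
      refine Finset.sum_congr rfl fun i _ => ?_
      rw [map_mul]
      congr 1
      exact σ.commutes ⟨b i, hbF i⟩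
    have h2 : ∑ i ∈ Ico 1 ℓ, (∑ σ : L ≃ₐ[F] L, σ (ζ ^ i)) * b i = - ∑ i ∈ Ico 1 ℓ, b i := by
      rw [← Finset.sum_neg_distrib]
      refine Finset.sum_congr rfl fun i hi => ?_
      rw [Finset.mem_Ico] at hi
      rw [tg_T F ℓ hℓ hd ζ hζ htop i (fun h => by
        have := Nat.le_of_dvd (by omega) h
        omega)]
      ring
    rw [h1, Finset.range_eq_Ico, Finset.sum_eq_sum_Ico_succ_bot hℓ.pos,
      tg_T0 F ℓ hℓ hd ζ hζ htop 0 (dvd_zero _), zero_add, h2]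
    ring
  have hl1 : (0 : ℝ) < (ℓ : ℝ) - 1 := by
    have h1 : (1 : ℝ) < ℓ := by exact_mod_cast hℓ.one_lt
    linarith
  have hl1C : ((ℓ : ℂ) - 1) ≠ 0 := by
    rw [sub_ne_zero]
    exact_mod_cast hℓ.one_lt.ne'
  have hnormC : ‖((ℓ : ℂ) - 1)‖ = (ℓ : ℝ) - 1 := by
    have h1 : ((ℓ : ℂ) - 1) = (((ℓ : ℝ) - 1 : ℝ) : ℂ) := by push_cast; rfl
    rw [h1, Complex.norm_real, Real.norm_eq_abs, abs_of_pos hl1]
  -- nonzero terms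
  obtain ⟨S, hS⟩ : ∃ S : Finset ℕ, S = (Ico 1 ℓ).filter (fun i => b i ≠ 0) := ⟨_, rfl⟩
  have hSR : S.card ≤ 2 * R := by
    have h1 : S ⊆ (range ℓ).filter (fun i => ¬ α i = α j₀) := by
      intro i hi
      rw [hS, Finset.mem_filter, Finset.mem_Ico, hb, sub_ne_zero] at hi
      rw [Finset.mem_filter, mem_range]
      exact ⟨hi.1.2, hi.2⟩
    have h2 := Finset.card_le_card h1
    have h3 := Finset.card_filter_add_card_filter_not (s := range ℓ) (fun i => α i = α j₀)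
    rw [card_range] at h3
    omega
  have hSsum : ∀ φ : L →+* ℂ, ∑ i ∈ Ico 1 ℓ, φ (b i) = ∑ i ∈ S, φ (b i) := by
    intro φ
    rw [hS, Finset.sum_filter]
    refine Finset.sum_congr rfl fun i _ => ?_
    by_cases h : b i = 0
    · rw [if_neg (not_not.2 h), h, map_zero]
    · rw [if_pos h]
  have hCS : ∀ φ : L →+* ℂ, ‖∑ i ∈ Ico 1 ℓ, φ (b i)‖ ^ 2 ≤
      2 * R * ∑ i ∈ range ℓ, ‖φ (α i - α j₀)‖ ^ 2 := by
    intro φ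
    rw [hSsum φ]
    have h1 : ‖∑ i ∈ S, φ (b i)‖ ^ 2 ≤ (∑ i ∈ S, ‖φ (b i)‖) ^ 2 :=
      pow_le_pow_left₀ (norm_nonneg _) (norm_sum_le _ _) 2
    have h2 : (∑ i ∈ S, ‖φ (b i)‖) ^ 2 ≤ S.card * ∑ i ∈ S, ‖φ (b i)‖ ^ 2 :=
      sq_sum_le_card_mul_sum_sq
    have h3 : ∑ i ∈ S, ‖φ (b i)‖ ^ 2 ≤ ∑ i ∈ range ℓ, ‖φ (α i - α j₀)‖ ^ 2 := by
      have h4 : ∑ i ∈ range ℓ, ‖φ (α i - α j₀)‖ ^ 2 = ∑ i ∈ range ℓ, ‖φ (b i)‖ ^ 2 :=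
        Finset.sum_congr rfl fun i _ => by rw [hb]
      rw [h4]
      refine Finset.sum_le_sum_of_subset_of_nonneg ?_ fun _ _ _ => sq_nonneg _
      intro i hi
      rw [hS, Finset.mem_filter, Finset.mem_Ico] at hi
      rw [mem_range]
      exact hi.1.2
    have h5 : (S.card : ℝ) ≤ 2 * R := by exact_mod_cast hSR
    calc ‖∑ i ∈ S, φ (b i)‖ ^ 2 ≤ S.card * ∑ i ∈ S, ‖φ (b i)‖ ^ 2 := h1.trans h2
      _ ≤ 2 * R * ∑ i ∈ range ℓ, ‖φ (α i - α j₀)‖ ^ 2 :=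
        mul_le_mul h5 h3 (Finset.sum_nonneg fun _ _ => sq_nonneg _) (by positivity)
  refine ⟨b 0, by rw [hb]; exact (hα 0).2.sub (hα j₀).2, ?_⟩
  have hterm : ∀ φ : L →+* ℂ, ‖φ (b 0) - φ (∑ σ : L ≃ₐ[F] L, σ y) / ((ℓ : ℂ) - 1)‖ ^ 2 =
      ‖∑ i ∈ Ico 1 ℓ, φ (b i)‖ ^ 2 / ((ℓ : ℝ) - 1) ^ 2 := by
    intro φ
    have h1 : φ (b 0) - φ (∑ σ : L ≃ₐ[F] L, σ y) / ((ℓ : ℂ) - 1) =
        (∑ i ∈ Ico 1 ℓ, φ (b i)) / ((ℓ : ℂ) - 1) := by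
      rw [hconj, map_sub, map_mul, map_sub, map_natCast, map_one, map_sum]
      field_simp
      ring
    rw [h1, norm_div, hnormC, div_pow]
  rw [Finset.sum_congr rfl fun φ _ => hterm φ, ← Finset.sum_div, div_mul_eq_mul_div]
  refine div_le_div_of_nonneg_right ?_ (sq_nonneg _)
  calc ∑ φ : L →+* ℂ, ‖∑ i ∈ Ico 1 ℓ, φ (b i)‖ ^ 2
      ≤ ∑ φ : L →+* ℂ, 2 * R * ∑ i ∈ range ℓ, ‖φ (α i - α j₀)‖ ^ 2 :=
        Finset.sum_le_sum fun φ _ => hCS φ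
    _ = 2 * R * ∑ φ : L →+* ℂ, ∑ i ∈ range ℓ, ‖φ (α i - α j₀)‖ ^ 2 := by rw [Finset.mul_sum]
    _ ≤ 2 * R * (2 * R * Module.finrank ℚ L) := by
        refine mul_le_mul_of_nonneg_left ?_ (by positivity)
        exact hsum
    _ = 4 * (R : ℝ) ^ 2 * Module.finrank ℚ L := by ring

end MP225
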