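import Pool.Agent.Lib_MP_225a87_nt.TameRep
import Pool.Agent.Lib_MP_225a87_nt.TameGal

open Polynomial Finset IntermediateField

namespace MP225

/-- an automorphism fixing `s` permutes the coefficients -/
private theorem stab_coeff {L : Type} [Field L] [NumberField L] (F : IntermediateField ℚ L) (ℓ : ℕ)
    (hℓ : ℓ.Prime) (hd : ¬ (ℓ : ℤ) ∣ NumberField.discr F) (ζ : L) (hζ : IsPrimitiveRoot ζ ℓ)
    (htop : F ⊔ ℚ⟮ζ⟯ = ⊤) (b : ℕ → L) (hbF : ∀ i, b i ∈ F) (σ : L ≃ₐ[F] L)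
    (hσ : σ (∑ i ∈ range ℓ, ζ ^ i * b i) = ∑ i ∈ range ℓ, ζ ^ i * b i)
    (t : ℕ) (ht0 : 0 < t) (htl : t < ℓ) (htσ : σ ζ = ζ ^ t) (i : ℕ) (hi : i < ℓ) :
    b (t * i % ℓ) = b i := by
  have hcop : t.Coprime ℓ := (Nat.coprime_of_lt_prime ht0.ne' htl hℓ).symm
  obtain ⟨u, -, hu⟩ := Nat.exists_mul_mod_eq_one_of_coprime hcop hℓ.one_lt
  have hu' : t * u ≡ 1 [MOD ℓ] := by
    rw [Nat.ModEq, hu, Nat.mod_eq_of_lt hℓ.one_lt]
  have hut : ∀ k, k < ℓ → u * (t * k % ℓ) % ℓ = k := by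
    intro k hk
    have h1 : u * (t * k % ℓ) ≡ k [MOD ℓ] := by
      calc u * (t * k % ℓ) ≡ u * (t * k) [MOD ℓ] := (Nat.mod_modEq _ _).mul_left u
        _ = (t * u) * k := by ring
        _ ≡ 1 * k [MOD ℓ] := hu'.mul_right k
        _ = k := one_mul k
    rw [h1, Nat.mod_eq_of_lt hk]
  have htu : ∀ k, k < ℓ → t * (u * k % ℓ) % ℓ = k := by
    intro k hk
    have h1 : t * (u * k % ℓ) ≡ k [MOD ℓ] := by
      calc t * (u * k % ℓ) ≡ t * (u * k) [MOD ℓ] := (Nat.mod_modEq _ _).mul_left t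
        _ = (t * u) * k := by ring
        _ ≡ 1 * k [MOD ℓ] := hu'.mul_right k
        _ = k := one_mul k
    rw [h1, Nat.mod_eq_of_lt hk]
  have hmod : ∀ k, ζ ^ (k % ℓ) = ζ ^ k := by
    intro k
    conv_rhs => rw [← Nat.mod_add_div k ℓ, pow_add, pow_mul, hζ.pow_eq_one, one_pow, mul_one]
  have h1 : σ (∑ i ∈ range ℓ, ζ ^ i * b i) = ∑ j ∈ range ℓ, ζ ^ j * b (u * j % ℓ) := by
    rw [map_sum]
    refine Finset.sum_nbij' (fun k => t * k % ℓ) (fun k => u * k % ℓ) ?_ ?_ ?_ ?_ ?_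
    · intro k _
      exact mem_range.2 (Nat.mod_lt _ hℓ.pos)
    · intro k _
      exact mem_range.2 (Nat.mod_lt _ hℓ.pos)
    · intro k hk
      exact hut k (mem_range.1 hk)
    · intro k hk
      exact htu k (mem_range.1 hk)
    · intro k hk
      rw [hut k (mem_range.1 hk), hmod, map_mul, map_pow, htσ, ← pow_mul]
      congr 1
      exact σ.commutes ⟨b k, hbF k⟩
  have h2 : ∑ j ∈ range ℓ, ζ ^ j * (b j - b (u * j % ℓ)) = 0 := by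
    have h3 : ∀ j ∈ range ℓ, ζ ^ j * (b j - b (u * j % ℓ)) =
        ζ ^ j * b j - ζ ^ j * b (u * j % ℓ) := fun j _ => mul_sub _ _ _
    rw [Finset.sum_congr rfl h3, Finset.sum_sub_distrib, ← h1, hσ, sub_self]
  have h4 := tg_indep F ℓ hℓ hd ζ hζ htop (fun j => b j - b (u * j % ℓ))
    (fun j => sub_mem (hbF _) (hbF _)) h2 (t * i % ℓ) (Nat.mod_lt _ hℓ.pos)
  have h5 : b (t * i % ℓ) - b (u * (t * i % ℓ) % ℓ) = b 0 - b (u * 0 % ℓ) := h4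
  rw [hut i hi, mul_zero, Nat.zero_mod, sub_self, sub_eq_zero] at h5
  exact h5

/-- TAMESTAB. `α`, `j₀` from `tame_rep`, `a_i = α_i - α_{j₀}` (so `s = ∑ ζ^i a_i`), `S = {0<i<ℓ : a_i ≠ 0}`, `|S| ≤ 2R`.
`S ≠ ∅`, otherwise `s = a_0 ∈ F`. Let `σ ∈ Gal(L/F)`, `σ ζ = ζ^t` (`0 < t < ℓ`), `σ s = s`. Then
`∑_i d_i ζ^i = 0`, `d_i = a_i - a_{t⁻¹ i}` (indices mod `ℓ`), `d_i ∈ F`; applying all `ζ ↦ ζ^u` (`gal_action`) and Fourier
inversion on `ℤ/ℓ`, all `d_i` are equal, and `d_0 = 0`; so `S` is stable under `i ↦ t⁻¹ i`. The group of such `t` acts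
freely on the nonempty set `S`, so it has at most `|S| ≤ 2R` elements, and `σ ↦ t` is injective. -/
theorem tame_stab {L : Type} [Field L] [NumberField L] (F : IntermediateField ℚ L) (ℓ : ℕ)
    (hℓ : ℓ.Prime) (hd : ¬ (ℓ : ℤ) ∣ NumberField.discr F) (ζ : L) (hζ : IsPrimitiveRoot ζ ℓ)
    (htop : F ⊔ ℚ⟮ζ⟯ = ⊤) (s : L) (hs : IsIntegral ℤ s) (R : ℕ)
    (hR : ∀ φ : L →+* ℂ, ‖φ s‖ ^ 2 ≤ R) (hℓR : 4 * R + 5 ≤ ℓ) (hsF : s ∉ F) :
    Nat.card {σ : L ≃ₐ[F] L // σ s = s} ≤ 2 * R := by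
  classical
  obtain ⟨α, hα, hsα, j₀, hj₀, hcard, -⟩ := tame_rep F ℓ hℓ hd ζ hζ htop s hs R hR hℓR
  obtain ⟨b, hb⟩ : ∃ b : ℕ → L, ∀ i, b i = α i - α j₀ := ⟨_, fun _ => rfl⟩
  have hbF : ∀ i, b i ∈ F := fun i => by rw [hb]; exact sub_mem (hα i).1 (hα j₀).1
  have hsb : s = ∑ i ∈ range ℓ, ζ ^ i * b i := by
    have hgeom : ∑ i ∈ range ℓ, ζ ^ i = 0 := hζ.geom_sum_eq_zero hℓ.one_lt
    have h1 : ∑ i ∈ range ℓ, ζ ^ i * b i =
        ∑ i ∈ range ℓ, ζ ^ i * α i - (∑ i ∈ range ℓ, ζ ^ i) * α j₀ := by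
      rw [Finset.sum_mul, ← Finset.sum_sub_distrib]
      refine Finset.sum_congr rfl fun i _ => ?_
      rw [hb, mul_sub]
    rw [h1, hgeom, zero_mul, sub_zero, hsα]
  obtain ⟨S, hS⟩ : ∃ S : Finset ℕ, S = (Ico 1 ℓ).filter (fun i => b i ≠ 0) := ⟨_, rfl⟩
  have hSR : S.card ≤ 2 * R := by
    have h1 : S ⊆ (range ℓ).filter (fun i => ¬ α i = α j₀) := by
      intro i hi
      rw [hS, Finset.mem_filter, Finset.mem_Ico, hb, sub_ne_zero] at hi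
      rw [Finset.mem_filter, mem_range]
      exact ⟨hi.1.2, hi.2⟩
    have h2 := Finset.card_le_card h1
    have h3 := Finset.card_filter_add_card_filter_not (s := range ℓ) (fun i => α i = α j₀)
    rw [card_range] at h3
    omega
  have hSne : S.Nonempty := by
    by_contra hne
    rw [Finset.not_nonempty_iff_eq_empty] at hne
    refine hsF ?_
    have h1 : ∀ i ∈ Ico 1 ℓ, ζ ^ i * b i = 0 := by
      intro i hi
      have h2 : b i = 0 := by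
        by_contra h
        have h3 : i ∈ S := by
          rw [hS, Finset.mem_filter]
          exact ⟨hi, h⟩
        rw [hne] at h3
        exact absurd h3 (Finset.notMem_empty _)
      rw [h2, mul_zero]
    rw [hsb, Finset.range_eq_Ico, Finset.sum_eq_sum_Ico_succ_bot hℓ.pos, pow_zero, one_mul,
      Finset.sum_eq_zero h1, add_zero]
    exact hbF 0
  obtain ⟨i₀, hi₀⟩ := hSne
  rw [hS, Finset.mem_filter, Finset.mem_Ico] at hi₀
  obtain ⟨⟨hi₀1, hi₀l⟩, hi₀b⟩ := hi₀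
  choose t ht0 htl htσ using (fun σ : L ≃ₐ[F] L => tg_exp F ℓ hℓ ζ hζ σ)
  have hmem : ∀ σ : {σ : L ≃ₐ[F] L // σ s = s}, t σ.1 * i₀ % ℓ ∈ S := by
    intro σ
    have hfix : σ.1 (∑ i ∈ range ℓ, ζ ^ i * b i) = ∑ i ∈ range ℓ, ζ ^ i * b i := by
      rw [← hsb]
      exact σ.2
    have h1 := stab_coeff F ℓ hℓ hd ζ hζ htop b hbF σ.1 hfix (t σ.1) (ht0 _) (htl _) (htσ _) i₀
      hi₀l
    rw [hS, Finset.mem_filter, Finset.mem_Ico, h1]
    refine ⟨⟨?_, Nat.mod_lt _ hℓ.pos⟩, hi₀b⟩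
    rw [Nat.one_le_iff_ne_zero]
    intro h2
    rcases (Nat.Prime.dvd_mul hℓ).1 (Nat.dvd_of_mod_eq_zero h2) with h3 | h3
    · exact absurd (Nat.le_of_dvd (ht0 _) h3) (not_le.2 (htl _))
    · exact absurd (Nat.le_of_dvd hi₀1 h3) (not_le.2 hi₀l)
  have hinj : Function.Injective
      (fun σ : {σ : L ≃ₐ[F] L // σ s = s} => (⟨t σ.1 * i₀ % ℓ, hmem σ⟩ : S)) := by
    intro σ τ h
    have h1 : t σ.1 * i₀ % ℓ = t τ.1 * i₀ % ℓ := congrArg Subtype.val h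
    have h2 : t σ.1 * i₀ ≡ t τ.1 * i₀ [MOD ℓ] := h1
    have h3 : t σ.1 ≡ t τ.1 [MOD ℓ] := Nat.ModEq.cancel_right_of_coprime
      (Nat.coprime_of_lt_prime (by omega) hi₀l hℓ) h2
    have h4 : t σ.1 = t τ.1 := by
      have h5 : t σ.1 % ℓ = t τ.1 % ℓ := h3
      rwa [Nat.mod_eq_of_lt (htl _), Nat.mod_eq_of_lt (htl _)] at h5
    refine Subtype.ext (tg_ext F ζ htop _ _ ?_)
    rw [htσ, htσ, h4]
  have hcd := Nat.card_le_card_of_injective _ hinj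
  have hSc : Nat.card S = S.card := by simp
  omega

end MP225
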