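import Pool.Agent.Lib_MP_225a87_nt.RelOrbit
import Pool.Agent.Lib_MP_225a87_nt.PowerSum
import Pool.Agent.Lib_MP_225a87_nt.Factor
import Pool.Agent.Lib_MP_225a87_nt.TameMean
import Pool.Agent.Lib_MP_225a87_nt.TameStab

open Polynomial Finset IntermediateField

namespace MP225

/-- the automorphisms over `F` as ring automorphisms -/
private def tdRho {L : Type} [Field L] [NumberField L] (F : IntermediateField ℚ L) :
    (L ≃ₐ[F] L) →* RingAut L where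
  toFun σ := σ.toRingEquiv
  map_one' := rfl
  map_mul' _ _ := rfl

private theorem td_delta (c : ℝ) (hc : ∀ k : ℤ, (k : ℝ) ≠ c) :
    ∃ δ : ℝ, 0 < δ ∧ δ < 1 / 4 ∧ ∀ k : ℤ, δ < ((k : ℝ) - c) ^ 2 := by
  have h0 : c - round c ≠ 0 := fun h => hc (round c) (by linarith)
  have h1 : 0 < (c - round c) ^ 2 := by positivity
  refine ⟨min (1 / 8) ((c - round c) ^ 2 / 2), by positivity, ?_, fun k => ?_⟩
  · exact lt_of_le_of_lt (min_le_left _ _) (by norm_num)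
  · have h2 := round_le c k
    have h3 : (c - round c) ^ 2 ≤ (c - k) ^ 2 := by
      rw [← sq_abs (c - round c), ← sq_abs (c - k)]
      exact pow_le_pow_left₀ (abs_nonneg _) h2 2
    have h4 : ((k : ℝ) - c) ^ 2 = (c - k) ^ 2 := by ring
    rw [h4]
    have h5 : min (1 / 8) ((c - round c) ^ 2 / 2) ≤ (c - round c) ^ 2 / 2 := min_le_right _ _
    linarith

private theorem td_one (a : ℝ) (ha : ∀ n : ℤ, (n : ℝ) ≠ a) (D d : ℕ) (hd1 : 1 ≤ d) (hdD : d ≤ D) :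
    ∃ B : ℕ, ∀ (p : ℤ[X]), ConjIn a p →
    ∀ (L : Type) [Field L] [NumberField L] (F : IntermediateField ℚ L) (ℓ : ℕ), ℓ.Prime → B ≤ ℓ →
      ¬ (ℓ : ℤ) ∣ NumberField.discr F → ∀ ζ : L, IsPrimitiveRoot ζ ℓ → F ⊔ ℚ⟮ζ⟯ = ⊤ →
      ∀ g : L[X], g.Monic → Irreducible g → g ∣ p.map (Int.castRingHom L) → g.natDegree = d →
      ∀ i, g.coeff i ∈ F := by
  obtain ⟨μ, hμ1, hμ2⟩ := rm_orb a
  obtain ⟨j, hj⟩ := hμ1 ha d (by omega)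
  obtain ⟨δ, hδ0, hδ4, hδk⟩ := td_delta (d * μ j) hj
  have hd0 : (0 : ℝ) < d := by exact_mod_cast hd1
  obtain ⟨r₁, hr₁⟩ := hμ2 j (δ / (4 * (d : ℝ) ^ 2)) (by positivity)
  obtain ⟨R, hR⟩ := factor_bounds a D j
  refine ⟨4 * R + 5 + r₁ * (2 * R) + 2 + ⌈16 * (R : ℝ) ^ 2 / δ⌉₊, ?_⟩
  intro p hp L _ _ F ℓ hℓ hB hdisc ζ hζ htop g hgm hgi hdvd hgd i
  by_contra hsF
  have hℓR : 4 * R + 5 ≤ ℓ := by omega
  have hint := factor_integral p hp.1 g hgm hdvd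
  obtain ⟨y, hyint, hyφ⟩ := power_sum_int g hgm hint j
  have hbd := hR L p hp g hgm hdvd (hgd.le.trans hdD)
  have hstab := tame_stab F ℓ hℓ hdisc ζ hζ htop (g.coeff i) (hint i) R
    (fun φ => (hbd φ).1 i) hℓR hsF
  have hcard := tame_card F ℓ hℓ hdisc ζ hζ htop
  have hst : Nat.card {h : L ≃ₐ[F] L // g.map ((tdRho F h : L ≃+* L) : L →+* L) = g} ≤ 2 * R := by
    refine le_trans ?_ hstab
    refine Nat.card_le_card_of_injective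
      (fun h => (⟨h.1, ?_⟩ : {σ : L ≃ₐ[F] L // σ (g.coeff i) = g.coeff i})) ?_
    · have h1 := congrArg (fun q : L[X] => q.coeff i) h.2
      simp only [coeff_map] at h1
      exact h1
    · intro h1 h2 h12
      have h13 := Subtype.mk.inj h12
      exact Subtype.ext h13
  have hℓ2 := hℓ.two_le
  have hr : r₁ * Nat.card {h : L ≃ₐ[F] L // g.map ((tdRho F h : L ≃+* L) : L →+* L) = g} ≤
      Fintype.card (L ≃ₐ[F] L) := by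
    rw [hcard]
    have := Nat.mul_le_mul_left r₁ hst
    omega
  have hmain := hr₁ L (L ≃ₐ[F] L) (tdRho F) g y hgm hgi hint
    (fun φ w hw => factor_roots a p hp g hdvd φ w hw) hyφ hr
  obtain ⟨x, hxint, hx⟩ := tame_mean F ℓ hℓ hdisc ζ hζ htop y hyint R
    (fun φ => by rw [hyφ φ]; exact (hbd φ).2) hℓR
  have hn : (0 : ℝ) < Module.finrank ℚ L := by exact_mod_cast Module.finrank_pos
  have hℓ1 : (0 : ℝ) < (ℓ : ℝ) - 1 := by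
    have : (2 : ℝ) ≤ ℓ := by exact_mod_cast hℓ2
    linarith
  have hcardC : ((Fintype.card (L ≃ₐ[F] L) : ℕ) : ℂ) = (ℓ : ℂ) - 1 := by
    rw [hcard, Nat.cast_sub (by omega)]
    simp
  have hC1 : ((ℓ : ℂ) - 1) ≠ 0 := by
    intro h0
    have h1 : ((ℓ : ℝ) : ℂ) - 1 = 0 := by exact_mod_cast h0
    have h2 : (((ℓ : ℝ) - 1 : ℝ) : ℂ) = 0 := by
      push_cast
      exact_mod_cast h1
    exact hℓ1.ne' (by exact_mod_cast h2)
  have hdC : (d : ℂ) ≠ 0 := by exact_mod_cast (by omega : d ≠ 0)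
  have hsum : ∑ φ : L →+* ℂ, ‖φ x - ((d * μ j : ℝ) : ℂ)‖ ^ 2 ≤ δ * Module.finrank ℚ L := by
    have hterm : ∀ φ : L →+* ℂ, ‖φ x - ((d * μ j : ℝ) : ℂ)‖ ^ 2 ≤
        2 * ‖φ x - φ (∑ σ : L ≃ₐ[F] L, σ y) / ((ℓ : ℂ) - 1)‖ ^ 2 +
        2 * (d : ℝ) ^ 2 * ‖φ (∑ h : L ≃ₐ[F] L, (tdRho F h : L ≃+* L) y) /
          ((g.natDegree : ℂ) * (Fintype.card (L ≃ₐ[F] L) : ℂ)) - (μ j : ℂ)‖ ^ 2 := by
      intro φ
      have e0 : (∑ h : L ≃ₐ[F] L, (tdRho F h : L ≃+* L) y) = ∑ σ : L ≃ₐ[F] L, σ y := rfl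
      rw [e0, hgd, hcardC]
      set T := φ (∑ σ : L ≃ₐ[F] L, σ y) with hT
      set A := φ x - T / ((ℓ : ℂ) - 1) with hA
      set Bq := T / ((d : ℂ) * ((ℓ : ℂ) - 1)) - (μ j : ℂ) with hBq
      have e1 : φ x - ((d * μ j : ℝ) : ℂ) = A + (d : ℂ) * Bq := by
        rw [hA, hBq]
        push_cast
        field_simp
        ring
      have e2 : ‖φ x - ((d * μ j : ℝ) : ℂ)‖ ≤ ‖A‖ + d * ‖Bq‖ := by
        rw [e1]
        refine (norm_add_le _ _).trans ?_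
        rw [norm_mul, Complex.norm_natCast]
      have e3 : ‖φ x - ((d * μ j : ℝ) : ℂ)‖ ^ 2 ≤ (‖A‖ + d * ‖Bq‖) ^ 2 :=
        pow_le_pow_left₀ (norm_nonneg _) e2 2
      nlinarith [sq_nonneg (‖A‖ - d * ‖Bq‖)]
    refine (Finset.sum_le_sum fun φ _ => hterm φ).trans ?_
    rw [Finset.sum_add_distrib, ← Finset.mul_sum, ← Finset.mul_sum]
    have h1 : 2 * (d : ℝ) ^ 2 * ∑ φ : L →+* ℂ, ‖φ (∑ h : L ≃ₐ[F] L, (tdRho F h : L ≃+* L) y) /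
          ((g.natDegree : ℂ) * (Fintype.card (L ≃ₐ[F] L) : ℂ)) - (μ j : ℂ)‖ ^ 2 ≤
        δ / 2 * Module.finrank ℚ L := by
      calc 2 * (d : ℝ) ^ 2 * ∑ φ : L →+* ℂ, ‖φ (∑ h : L ≃ₐ[F] L, (tdRho F h : L ≃+* L) y) /
          ((g.natDegree : ℂ) * (Fintype.card (L ≃ₐ[F] L) : ℂ)) - (μ j : ℂ)‖ ^ 2
          ≤ 2 * (d : ℝ) ^ 2 * (δ / (4 * (d : ℝ) ^ 2) * Module.finrank ℚ L) :=
            mul_le_mul_of_nonneg_left hmain (by positivity)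
        _ = δ / 2 * Module.finrank ℚ L := by
            field_simp
            ring
    have h2 : 8 * (R : ℝ) ^ 2 / ((ℓ : ℝ) - 1) ^ 2 ≤ δ / 2 := by
      have h3 : 16 * (R : ℝ) ^ 2 / δ ≤ (ℓ : ℝ) - 1 := by
        have h4 : 16 * (R : ℝ) ^ 2 / δ ≤ (⌈16 * (R : ℝ) ^ 2 / δ⌉₊ : ℝ) := Nat.le_ceil _
        have h5 : ((⌈16 * (R : ℝ) ^ 2 / δ⌉₊ + 1 : ℕ) : ℝ) ≤ (ℓ : ℝ) := by
          exact_mod_cast (by omega : ⌈16 * (R : ℝ) ^ 2 / δ⌉₊ + 1 ≤ ℓ)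
        push_cast at h5
        linarith
      have h6 : (1 : ℝ) ≤ (ℓ : ℝ) - 1 := by
        have : (2 : ℝ) ≤ ℓ := by exact_mod_cast hℓ2
        linarith
      have h7 : 16 * (R : ℝ) ^ 2 ≤ ((ℓ : ℝ) - 1) * δ := by
        rwa [div_le_iff₀ hδ0] at h3
      rw [div_le_iff₀ (by positivity)]
      nlinarith
    calc 2 * ∑ φ : L →+* ℂ, ‖φ x - φ (∑ σ : L ≃ₐ[F] L, σ y) / ((ℓ : ℂ) - 1)‖ ^ 2 +
          2 * (d : ℝ) ^ 2 * ∑ φ : L →+* ℂ, ‖φ (∑ h : L ≃ₐ[F] L, (tdRho F h : L ≃+* L) y) /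
          ((g.natDegree : ℂ) * (Fintype.card (L ≃ₐ[F] L) : ℂ)) - (μ j : ℂ)‖ ^ 2
        ≤ 2 * (4 * (R : ℝ) ^ 2 / ((ℓ : ℝ) - 1) ^ 2 * Module.finrank ℚ L) +
          δ / 2 * Module.finrank ℚ L := by
          have := mul_le_mul_of_nonneg_left hx (by norm_num : (0 : ℝ) ≤ 2)
          linarith
      _ = (8 * (R : ℝ) ^ 2 / ((ℓ : ℝ) - 1) ^ 2) * Module.finrank ℚ L +
          δ / 2 * Module.finrank ℚ L := by ring
      _ ≤ δ / 2 * Module.finrank ℚ L + δ / 2 * Module.finrank ℚ L := by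
          have := mul_le_mul_of_nonneg_right h2 hn.le
          linarith
      _ = δ * Module.finrank ℚ L := by ring
  obtain ⟨k, hk⟩ := finish x hxint (d * μ j) δ hδ4 hsum
  exact absurd (hδk k) (not_lt.2 hk)

/-- TAMED. `μ` from `rm_orb a`; for each `1 ≤ d ≤ D` choose `j`, `δ` as in `wild_D` (`0 < δ < 1/4`,
`δ < (k - d μ_j)²` for all integers `k`), `r₁` from `rm_orb` for `(j, δ/(4d²))`, `R` from `factor_bounds a D j`. Let `ℓ`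
be so large that `4R+5 ≤ ℓ`, `r₁·2R ≤ ℓ-1`, `16 R²/(ℓ-1)² ≤ δ`. Suppose `s = g.coeff i ∉ F`. `H = L ≃ₐ[F] L` acts
(`ρ` the obvious hom to `RingAut L`), `|H| = ℓ-1` (`tame_card`), the stabiliser of `g` is contained in that of `s`, so has at most
`2R` elements (`tame_stab`). `rm_orb`: `∑_φ ‖φ(∑_σ σ y)/(d(ℓ-1)) - μ_j‖² ≤ δ/(4d²)·n`, `y` from `power_sum_int`. With `x`
from `tame_mean`: `∑_φ ‖φ x - d μ_j‖² ≤ 2·(δ/4)·n + 2·4R²/(ℓ-1)²·n ≤ δ n`, and `finish` gives a contradiction. -/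
theorem tame_D (a : ℝ) (ha : ∀ n : ℤ, (n : ℝ) ≠ a) (D : ℕ) : ∃ B : ℕ, ∀ (p : ℤ[X]), ConjIn a p →
    ∀ (L : Type) [Field L] [NumberField L] (F : IntermediateField ℚ L) (ℓ : ℕ), ℓ.Prime → B ≤ ℓ →
      ¬ (ℓ : ℤ) ∣ NumberField.discr F → ∀ ζ : L, IsPrimitiveRoot ζ ℓ → F ⊔ ℚ⟮ζ⟯ = ⊤ →
      ∀ g : L[X], g.Monic → Irreducible g → g ∣ p.map (Int.castRingHom L) → g.natDegree ≤ D →
      ∀ i, g.coeff i ∈ F := by
  have h1 : ∀ d : ℕ, ∃ B : ℕ, 1 ≤ d → d ≤ D → ∀ (p : ℤ[X]), ConjIn a p →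
    ∀ (L : Type) [Field L] [NumberField L] (F : IntermediateField ℚ L) (ℓ : ℕ), ℓ.Prime → B ≤ ℓ →
      ¬ (ℓ : ℤ) ∣ NumberField.discr F → ∀ ζ : L, IsPrimitiveRoot ζ ℓ → F ⊔ ℚ⟮ζ⟯ = ⊤ →
      ∀ g : L[X], g.Monic → Irreducible g → g ∣ p.map (Int.castRingHom L) → g.natDegree = d →
      ∀ i, g.coeff i ∈ F := by
    intro d
    by_cases hd : 1 ≤ d ∧ d ≤ D
    · obtain ⟨B, hB⟩ := td_one a ha D d hd.1 hd.2
      exact ⟨B, fun _ _ => hB⟩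
    · exact ⟨0, fun h2 h3 => absurd ⟨h2, h3⟩ hd⟩
  choose B hB using h1
  refine ⟨∑ d ∈ range (D + 1), B d, ?_⟩
  intro p hp L _ _ F ℓ hℓ hBℓ hdisc ζ hζ htop g hgm hgi hdvd hgD i
  have h2 : B g.natDegree ≤ ∑ d ∈ range (D + 1), B d :=
    Finset.single_le_sum (f := B) (fun _ _ => Nat.zero_le _) (mem_range.2 (by omega))
  exact hB g.natDegree hgi.natDegree_pos hgD p hp L F ℓ hℓ (h2.trans hBℓ) hdisc ζ hζ htop g hgm hgi
    hdvd rfl i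

end MP225
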