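import Pool.Agent.Lib_MP_225a87_nt.WildD
import Pool.Agent.Lib_MP_225a87_nt.TameD

open Polynomial Finset IntermediateField

namespace MP225

/-- STEPD1. Combination of `wild_D` and `tame_D` inside a number field `L`. `B = max 3 (max P₀ B_tame)`, `K₀` with
`K₀ ≥ 3` and `2^(K₀-1) ≥ P₀`. If `ℓ < B` then `k > K₀`: `wild_D` with `m = k - 2`. If `ℓ ≥ B` (so `ℓ ≠ 2`): `k ≥ 2`:
`wild_D` with `m = 1`; `k = 1`: `tame_D` (`ζ^ℓ = 1`, `ℚ⟮1⟯ = ⊥`). -/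
theorem step_D (a : ℝ) (ha : ∀ n : ℤ, (n : ℝ) ≠ a) (D : ℕ) : ∃ B K₀ : ℕ, ∀ (p : ℤ[X]),
    ConjIn a p → ∀ (L : Type) [Field L] [NumberField L] (F : IntermediateField ℚ L) (ℓ k : ℕ),
      ℓ.Prime → ¬ (ℓ : ℤ) ∣ NumberField.discr F → 1 ≤ k → (ℓ < B → K₀ < k) →
      ∀ ζ : L, IsPrimitiveRoot ζ (ℓ ^ k) → F ⊔ ℚ⟮ζ⟯ = ⊤ →
      ∀ g : L[X], g.Monic → Irreducible g → g ∣ p.map (Int.castRingHom L) → g.natDegree ≤ D →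
      ∀ i, g.coeff i ∈ F ⊔ ℚ⟮ζ ^ ℓ⟯ := by
  obtain ⟨P₀, hw⟩ := wild_D a ha D
  obtain ⟨Bt, ht⟩ := tame_D a ha D
  refine ⟨max 3 (max P₀ Bt), P₀ + 3, ?_⟩
  intro p hp L _ _ F ℓ k hℓ hd hk hB ζ hζ htop g hgm hgi hgd hgD i
  rcases lt_or_ge ℓ (max 3 (max P₀ Bt)) with hlt | hge
  · have hk2 := hB hlt
    refine hw p hp L F ℓ k (k - 2) hℓ hd (by omega) (by omega) (fun _ => by omega) ?_ ζ hζ htop g hgm hgi hgd hgD i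
    calc P₀ ≤ 2 ^ P₀ := Nat.lt_two_pow_self.le
      _ ≤ 2 ^ (k - 2) := Nat.pow_le_pow_right (by norm_num) (by omega)
      _ ≤ ℓ ^ (k - 2) := Nat.pow_le_pow_left hℓ.two_le _
  · have h3 : 3 ≤ ℓ := (le_max_left _ _).trans hge
    have hP : P₀ ≤ ℓ := ((le_max_left _ _).trans (le_max_right _ _)).trans hge
    have hBt : Bt ≤ ℓ := ((le_max_right _ _).trans (le_max_right _ _)).trans hge
    rcases Nat.lt_or_ge k 2 with hk2 | hk2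
    · have hk1 : k = 1 := by omega
      subst hk1
      rw [pow_one] at hζ
      exact (le_sup_left : F ≤ F ⊔ ℚ⟮ζ ^ ℓ⟯) (ht p hp L F ℓ hℓ hBt hd ζ hζ htop g hgm hgi hgd hgD i)
    · exact hw p hp L F ℓ k 1 hℓ hd le_rfl (by omega) (fun h => by omega) (by rwa [pow_one]) ζ hζ htop g hgm hgi hgd hgD i

/-- a monic polynomial over `A` with root `z` and coefficients in `B` -/
theorem dd1_le (A B : IntermediateField ℚ ℂ) (z : ℂ) (q : A[X]) (hq : q.Monic) (hz : aeval z q = 0)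
    (h : ∀ i, (q.coeff i : ℂ) ∈ B) : (minpoly B z).natDegree ≤ q.natDegree := by
  have hl : q.map (algebraMap A ℂ) ∈ Polynomial.lifts (algebraMap B ℂ) := by
    rw [Polynomial.lifts_iff_coeff_lifts]
    intro n
    rw [coeff_map]
    exact ⟨⟨(q.coeff n : ℂ), h n⟩, rfl⟩
  obtain ⟨r, hr1, hr2, hr3⟩ := Polynomial.lifts_and_natDegree_eq_and_monic hl (hq.map _)
  have hr0 : aeval z r = 0 := by
    rw [aeval_def, ← eval_map, hr1, eval_map, ← aeval_def]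
    exact hz
  have h1 : (minpoly B z).natDegree ≤ r.natDegree := Polynomial.natDegree_le_natDegree (minpoly.min B z hr3 hr0)
  rw [hr2, hq.natDegree_map] at h1
  exact h1

/-- STEPD2. If `E ≤ L` are subfields of `ℂ` and the minimal polynomial of `z` over `L` has all its coefficients in `E`,
then it is also the minimal polynomial over `E`. -/
theorem natDegree_minpoly_eq_of_coeff_mem (E L : IntermediateField ℚ ℂ) (hEL : E ≤ L) (z : ℂ)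
    (hz : IsIntegral ℚ z) (h : ∀ i, ((minpoly L z).coeff i : ℂ) ∈ E) :
    (minpoly E z).natDegree = (minpoly L z).natDegree := by
  apply le_antisymm
  · exact dd1_le L E z (minpoly L z) (minpoly.monic hz.tower_top) (minpoly.aeval L z) h
  · exact dd1_le E L z (minpoly E z) (minpoly.monic hz.tower_top) (minpoly.aeval E z)
      (fun i => hEL ((minpoly E z).coeff i).2)

/-- STEPD3. `step_D` for subfields of `ℂ`: apply it with `L = ↥(F ⊔ ℚ⟮ζ⟯)`, `F` viewed inside `L`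
(`IntermediateField.restrict`, as in `step_C`), `g = minpoly L z`, which divides `p` over `L`; then STEPD2. -/
theorem step_D_C (a : ℝ) (ha : ∀ n : ℤ, (n : ℝ) ≠ a) (D : ℕ) : ∃ B K₀ : ℕ, ∀ (p : ℤ[X]),
    ConjIn a p → ∀ (F : IntermediateField ℚ ℂ) [NumberField F] (ℓ k : ℕ),
      ℓ.Prime → ¬ (ℓ : ℤ) ∣ NumberField.discr F → 1 ≤ k → (ℓ < B → K₀ < k) →
      ∀ ζ : ℂ, IsPrimitiveRoot ζ (ℓ ^ k) → ∀ z : ℂ, aeval z p = 0 →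
      (minpoly ↥(F ⊔ ℚ⟮ζ⟯) z).natDegree ≤ D →
      (minpoly ↥(F ⊔ ℚ⟮ζ ^ ℓ⟯) z).natDegree = (minpoly ↥(F ⊔ ℚ⟮ζ⟯) z).natDegree := by
  obtain ⟨B, K₀, h⟩ := step_D a ha D
  refine ⟨B, K₀, ?_⟩
  intro p hp F _ ℓ k hℓ hd hk hB ζ hζ z hz hdeg
  have hpos : 0 < ℓ ^ k := pow_pos hℓ.pos k
  have hζi : IsIntegral ℚ ζ := (hζ.isIntegral hpos).tower_top
  have : FiniteDimensional ℚ ℚ⟮ζ⟯ := IntermediateField.adjoin.finiteDimensional hζi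
  have : FiniteDimensional ℚ ↥F := NumberField.to_finiteDimensional
  have : FiniteDimensional ℚ ↥(F ⊔ ℚ⟮ζ⟯) := IntermediateField.finiteDimensional_sup F ℚ⟮ζ⟯
  have hNF : NumberField ↥(F ⊔ ℚ⟮ζ⟯) := { to_charZero := inferInstance, to_finiteDimensional := this }
  have hFE : F ≤ F ⊔ ℚ⟮ζ⟯ := le_sup_left
  have hζmem : ζ ∈ F ⊔ ℚ⟮ζ⟯ :=
    (le_sup_right : ℚ⟮ζ⟯ ≤ F ⊔ ℚ⟮ζ⟯) (IntermediateField.mem_adjoin_simple_self ℚ ζ)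
  have hlr : lift (restrict hFE) = F := lift_restrict hFE
  have hζ' : IsPrimitiveRoot (⟨ζ, hζmem⟩ : ↥(F ⊔ ℚ⟮ζ⟯)) (ℓ ^ k) :=
    hζ.of_map_of_injective (f := algebraMap ↥(F ⊔ ℚ⟮ζ⟯) ℂ) (algebraMap ↥(F ⊔ ℚ⟮ζ⟯) ℂ).injective
  have hls : ∀ (A B : IntermediateField ℚ ↥(F ⊔ ℚ⟮ζ⟯)), lift (A ⊔ B) = lift A ⊔ lift B :=
    fun A B => IntermediateField.map_sup A B (F ⊔ ℚ⟮ζ⟯).val
  have htop : restrict hFE ⊔ ℚ⟮(⟨ζ, hζmem⟩ : ↥(F ⊔ ℚ⟮ζ⟯))⟯ = ⊤ := by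
    apply lift_injective
    have e2 : lift ℚ⟮(⟨ζ, hζmem⟩ : ↥(F ⊔ ℚ⟮ζ⟯))⟯ = ℚ⟮ζ⟯ := lift_adjoin_simple ℚ _ _
    exact (hls _ _).trans ((congrArg₂ (· ⊔ ·) hlr e2).trans (lift_top ℚ (F ⊔ ℚ⟮ζ⟯)).symm)
  have hdF : ¬ (ℓ : ℤ) ∣ NumberField.discr (restrict hFE) := by
    rw [← NumberField.discr_eq_discr_of_algEquiv _ (restrictAlgEquiv hFE)]
    exact hd
  have hzint : IsIntegral ℤ z := ⟨p, hp.1, hz⟩
  have hzQ : IsIntegral ℚ z := hzint.tower_top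
  have hzL : IsIntegral ↥(F ⊔ ℚ⟮ζ⟯) z := hzQ.tower_top
  have hdvd : minpoly ↥(F ⊔ ℚ⟮ζ⟯) z ∣ p.map (Int.castRingHom ↥(F ⊔ ℚ⟮ζ⟯)) := by
    apply minpoly.dvd
    rw [aeval_def, eval₂_map]
    have e : (algebraMap ↥(F ⊔ ℚ⟮ζ⟯) ℂ).comp (Int.castRingHom ↥(F ⊔ ℚ⟮ζ⟯)) = algebraMap ℤ ℂ :=
      RingHom.ext_int _ _
    rw [e, ← aeval_def]
    exact hz
  have hE4 : lift (restrict hFE ⊔ ℚ⟮(⟨ζ, hζmem⟩ : ↥(F ⊔ ℚ⟮ζ⟯)) ^ ℓ⟯) = F ⊔ ℚ⟮ζ ^ ℓ⟯ := by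
    have e3 : lift ℚ⟮(⟨ζ, hζmem⟩ : ↥(F ⊔ ℚ⟮ζ⟯)) ^ ℓ⟯ = ℚ⟮ζ ^ ℓ⟯ := lift_adjoin_simple ℚ _ _
    exact (hls _ _).trans (congrArg₂ (· ⊔ ·) hlr e3)
  have hEL : F ⊔ ℚ⟮ζ ^ ℓ⟯ ≤ F ⊔ ℚ⟮ζ⟯ := by
    refine sup_le hFE ?_
    rw [adjoin_simple_le_iff]
    exact pow_mem hζmem ℓ
  refine natDegree_minpoly_eq_of_coeff_mem (F ⊔ ℚ⟮ζ ^ ℓ⟯) (F ⊔ ℚ⟮ζ⟯) hEL z hzQ fun i => ?_
  have hmem := h p hp ↥(F ⊔ ℚ⟮ζ⟯) (restrict hFE) ℓ k hℓ hdF hk hB ⟨ζ, hζmem⟩ hζ' htop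
    (minpoly ↥(F ⊔ ℚ⟮ζ⟯) z) (minpoly.monic hzL) (minpoly.irreducible hzL) hdvd hdeg i
  have hmem2 := (mem_lift ((minpoly ↥(F ⊔ ℚ⟮ζ⟯) z).coeff i)).2 hmem
  exact hE4 ▸ hmem2

end MP225
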