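import Pool.Agent.Lib_MP_225a87_nt.Parseval

open Polynomial Finset

namespace MP225

theorem W1T1_diff (p : ℕ) (y : ℕ → ℂ) :
    ∑ i ∈ range p, ∑ j ∈ range p, ‖y i - y j‖ ^ 2 =
      2 * (p * ∑ i ∈ range p, ‖y i‖ ^ 2 - ‖∑ i ∈ range p, y i‖ ^ 2) := by
  have key : ∑ i ∈ range p, ∑ j ∈ range p, ((‖y i - y j‖ ^ 2 : ℝ) : ℂ) =
      2 * ((p : ℂ) * ∑ i ∈ range p, ((‖y i‖ ^ 2 : ℝ) : ℂ) - ((‖∑ i ∈ range p, y i‖ ^ 2 : ℝ) : ℂ)) := by
    have e : ∀ z : ℂ, ((‖z‖ ^ 2 : ℝ) : ℂ) = z * (starRingEnd ℂ) z := by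
      intro z
      rw [← Complex.normSq_eq_norm_sq, ← Complex.mul_conj]
    simp only [e]
    have h1 : ∀ i j, (y i - y j) * (starRingEnd ℂ) (y i - y j) =
        y i * (starRingEnd ℂ) (y i) + y j * (starRingEnd ℂ) (y j) -
          (y i * (starRingEnd ℂ) (y j) + y j * (starRingEnd ℂ) (y i)) := by
      intro i j
      rw [map_sub]
      ring
    simp only [h1, Finset.sum_sub_distrib, Finset.sum_add_distrib]
    have h2 : ∑ i ∈ range p, ∑ j ∈ range p, y i * (starRingEnd ℂ) (y j) =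
        (∑ i ∈ range p, y i) * (starRingEnd ℂ) (∑ i ∈ range p, y i) := by
      rw [map_sum, Finset.sum_mul_sum]
    have h3 : ∑ i ∈ range p, ∑ j ∈ range p, y j * (starRingEnd ℂ) (y i) =
        (∑ i ∈ range p, y i) * (starRingEnd ℂ) (∑ i ∈ range p, y i) := by
      rw [Finset.sum_comm, ← h2]
    rw [h2, h3]
    simp only [Finset.sum_const, Finset.card_range, nsmul_eq_mul]
    rw [← Finset.mul_sum]
    ring
  exact_mod_cast key

/-- TAME1 (piece T1). `∑_{0<t<p} |∑_i u^{ti} y_i|² = p ∑|y_i|² - |∑ y_i|² = (1/2) ∑_{i,j} |y_i - y_j|²`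
(Parseval on `ℤ/p` minus the `t = 0` term). -/
theorem parseval_tame (p : ℕ) (hp : p.Prime) (u : ℂ) (hu : IsPrimitiveRoot u p) (y : ℕ → ℂ) :
    2 * ∑ t ∈ Ico 1 p, ‖∑ i ∈ range p, u ^ (t * i) * y i‖ ^ 2 =
      ∑ i ∈ range p, ∑ j ∈ range p, ‖y i - y j‖ ^ 2 := by
  have h1 := parseval p hp.pos u hu y
  rw [Finset.range_eq_Ico, Finset.sum_eq_sum_Ico_succ_bot hp.pos] at h1
  rw [W1T1_diff, ← Finset.range_eq_Ico] at *
  simp only [zero_mul, pow_zero, one_mul, zero_add] at h1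
  linarith

/-- TAME2 (piece T2). Reindexing the embeddings by `φ ↦ φ ∘ σ t` (`0 < t < p`) and `parseval_tame` with
`u = φ ω`, `y_0 = φ(α_0) - c`, `y_i = φ(α_i)`. -/
theorem tame_sum {L : Type*} [Field L] [NumberField L] (p : ℕ) (hp : p.Prime) (ω : L)
    (hω : IsPrimitiveRoot ω p) (σ : ℕ → L ≃+* L) (hσω : ∀ t, 0 < t → t < p → σ t ω = ω ^ t)
    (α : ℕ → L) (hσα : ∀ t, ∀ i < p, σ t (α i) = α i)
    (β : L) (hβ : β = ∑ i ∈ range p, ω ^ i * α i) (c : ℂ) :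
    2 * (((p : ℝ) - 1) * ∑ φ : L →+* ℂ, ‖φ β - c‖ ^ 2) =
      ∑ φ : L →+* ℂ, ∑ i ∈ range p, ∑ j ∈ range p,
        ‖(φ (α i) - if i = 0 then c else 0) - (φ (α j) - if j = 0 then c else 0)‖ ^ 2 := by
  have h1 : ∀ t ∈ Ico 1 p, ∑ φ : L →+* ℂ, ‖φ β - c‖ ^ 2 =
      ∑ φ : L →+* ℂ, ‖∑ i ∈ range p, (φ ω) ^ (t * i) * (φ (α i) - if i = 0 then c else 0)‖ ^ 2 := by
    intro t ht
    obtain ⟨ht1, ht2⟩ := Finset.mem_Ico.1 ht
    let e : (L →+* ℂ) ≃ (L →+* ℂ) :=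
      { toFun := fun φ => φ.comp (σ t).toRingHom
        invFun := fun φ => φ.comp (σ t).symm.toRingHom
        left_inv := by
          intro φ
          ext x
          simp
        right_inv := by
          intro φ
          ext x
          simp }
    rw [← Equiv.sum_comp e]
    refine Finset.sum_congr rfl fun φ _ => ?_
    have h2 : (e φ) β = φ (σ t β) := rfl
    rw [h2, hβ, map_sum, map_sum]
    have h3 : ∑ i ∈ range p, (φ ω) ^ (t * i) * (φ (α i) - if i = 0 then c else 0) =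
        ∑ i ∈ range p, φ (σ t (ω ^ i * α i)) - c := by
      have h4 : ∀ i ∈ range p, (φ ω) ^ (t * i) * (φ (α i) - if i = 0 then c else 0) =
          φ (σ t (ω ^ i * α i)) - (if i = 0 then c else 0) := by
        intro i hi
        rw [map_mul, map_pow, hσω t ht1 ht2, hσα t i (Finset.mem_range.1 hi), ← pow_mul, map_mul, map_pow,
          mul_sub]
        congr 1
        split_ifs with h
        · subst h
          simp
        · simp
      rw [Finset.sum_congr rfl h4, Finset.sum_sub_distrib, Finset.sum_ite_eq', if_pos]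
      exact Finset.mem_range.2 hp.pos
    rw [h3]
  have h5 : ((p : ℝ) - 1) * ∑ φ : L →+* ℂ, ‖φ β - c‖ ^ 2 =
      ∑ t ∈ Ico 1 p, ∑ φ : L →+* ℂ, ‖∑ i ∈ range p, (φ ω) ^ (t * i) * (φ (α i) - if i = 0 then c else 0)‖ ^ 2 := by
    rw [← Finset.sum_congr rfl h1, Finset.sum_const, Nat.card_Ico, nsmul_eq_mul,
      Nat.cast_sub hp.one_lt.le, Nat.cast_one]
  rw [h5, Finset.sum_comm, Finset.mul_sum]
  refine Finset.sum_congr rfl fun φ _ => ?_
  exact parseval_tame p hp (φ ω) (hω.map_of_injective φ.injective) _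

end MP225
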