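import Mathlib

open Polynomial Finset

namespace MP225

/-- TAME3 (piece T3). Purely combinatorial: among `p` values `α 0, …, α (p-1)` with at most `2(p-1)R`
ordered unequal pairs, some value `α j` is taken at least `p - 2R` times
(if `q` is the largest multiplicity, every `i` has at least `p-q` indices with a different value, so
`p(p-q) ≤ 2(p-1)R`). -/
theorem mode_exists {A : Type*} [DecidableEq A] (p : ℕ) (hp : 0 < p) (R : ℕ) (α : ℕ → A)
    (h : ((range p ×ˢ range p).filter (fun x => α x.1 ≠ α x.2)).card ≤ 2 * (p - 1) * R) :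
    ∃ j < p, p ≤ ((range p).filter (fun i => α i = α j)).card + 2 * R := by
  classical
  obtain ⟨j, hj, hmax⟩ := Finset.exists_max_image (range p)
    (fun j => ((range p).filter (fun i => α i = α j)).card) ⟨0, mem_range.2 hp⟩
  refine ⟨j, mem_range.1 hj, ?_⟩
  by_contra hcon
  push Not at hcon
  have hfib : ((range p ×ˢ range p).filter (fun x => α x.1 ≠ α x.2)).card =
      ∑ i ∈ range p, ((range p).filter (fun i' => α i ≠ α i')).card := by
    rw [Finset.card_filter, Finset.sum_product]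
    refine Finset.sum_congr rfl (fun i _ => ?_)
    rw [Finset.card_filter]
  have hlow : ∀ i ∈ range p, 2 * R + 1 ≤ ((range p).filter (fun i' => α i ≠ α i')).card := by
    intro i hi
    have h1 : ((range p).filter (fun i' => α i' = α i)).card +
        ((range p).filter (fun i' => ¬ α i' = α i)).card = (range p).card :=
      Finset.card_filter_add_card_filter_not (s := range p) (p := fun i' => α i' = α i)
    have h2 : ((range p).filter (fun i' => α i ≠ α i')) =
        ((range p).filter (fun i' => ¬ α i' = α i)) := by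
      refine Finset.filter_congr (fun i' _ => ?_)
      exact ⟨fun hne h0 => hne h0.symm, fun hne h0 => hne h0.symm⟩
    have h3 := hmax i hi
    rw [h2]
    rw [card_range] at h1
    omega
  have hsum : p * (2 * R + 1) ≤ ∑ i ∈ range p, ((range p).filter (fun i' => α i ≠ α i')).card := by
    calc p * (2 * R + 1) = ∑ _i ∈ range p, (2 * R + 1) := by
          rw [Finset.sum_const, card_range, smul_eq_mul]
      _ ≤ _ := Finset.sum_le_sum hlow
  rw [← hfib] at hsum
  have h4 := hsum.trans h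
  obtain ⟨k, rfl⟩ : ∃ k, p = k + 1 := ⟨p - 1, by omega⟩
  have h5 : k + 1 - 1 = k := by omega
  rw [h5] at h4
  nlinarith [Nat.zero_le R, Nat.zero_le k, Nat.zero_le (k * R)]

/-- TAME4 (piece T4). If all `α i` (`0 < i < p`) but at most one equal `μ = α j`, then `β = α 0 - μ`:
`β = ∑ ω^i (α_i - μ)` since `∑_{i<p} ω^i = 0`; if exactly one `i₀ ≠ 0` has `α i₀ ≠ μ` then
`φ(σ t β) = φ(α_0-μ) + u^t w`, `u = φ(ω)^{i₀}`, `w = φ(α_{i₀} - μ) ≠ 0` is real for `t = 1,2,3` (`p ≥ 5`):
`w(u²-u)`, `w(u³-u)` real, quotient `u + 1` real, `u = ±1`, contradiction. -/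
theorem tame_two {L : Type*} [Field L] [NumberField L] (p : ℕ) (hp : p.Prime) (hp5 : 5 ≤ p) (ω : L)
    (hω : IsPrimitiveRoot ω p) (σ : ℕ → L ≃+* L) (hσω : ∀ t, 0 < t → t < p → σ t ω = ω ^ t)
    (α : ℕ → L) (hσα : ∀ t, ∀ i < p, σ t (α i) = α i)
    (β : L) (hβ : β = ∑ i ∈ range p, ω ^ i * α i)
    (hreal : ∀ φ : L →+* ℂ, (φ β).im = 0) (j : ℕ) (hj : j < p)
    (hcard : ∀ i i', 0 < i → i < p → 0 < i' → i' < p → α i ≠ α j → α i' ≠ α j → i = i') :
    β = α 0 - α j := by
  classical
  have hp0 : 0 < p := hp.pos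
  have hgeom : ∑ i ∈ range p, ω ^ i = 0 := hω.geom_sum_eq_zero hp.one_lt
  have h1 : β = ∑ i ∈ range p, ω ^ i * (α i - α j) := by
    have e : ∑ i ∈ range p, ω ^ i * (α i - α j) =
        ∑ i ∈ range p, ω ^ i * α i - (∑ i ∈ range p, ω ^ i) * α j := by
      rw [Finset.sum_mul, ← Finset.sum_sub_distrib]
      exact Finset.sum_congr rfl (fun i _ => by ring)
    rw [e, hgeom, zero_mul, sub_zero, hβ]
  have h2 : β = (α 0 - α j) + ∑ i ∈ (range p).erase 0, ω ^ i * (α i - α j) := by
    rw [h1, ← Finset.add_sum_erase (range p) (fun i => ω ^ i * (α i - α j)) (mem_range.2 hp0)]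
    simp
  by_cases hex : ∃ i, 0 < i ∧ i < p ∧ α i ≠ α j
  swap
  · push Not at hex
    rw [h2, Finset.sum_eq_zero, add_zero]
    intro i hi
    rw [Finset.mem_erase, mem_range] at hi
    rw [hex i (Nat.pos_of_ne_zero hi.1) hi.2, sub_self, mul_zero]
  exfalso
  obtain ⟨i₀, hi0, hip, hne⟩ := hex
  have h3 : β = (α 0 - α j) + ω ^ i₀ * (α i₀ - α j) := by
    rw [h2, Finset.sum_eq_single_of_mem i₀]
    · rw [Finset.mem_erase, mem_range]
      exact ⟨hi0.ne', hip⟩
    · intro i hi hii
      rw [Finset.mem_erase, mem_range] at hi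
      have : α i = α j := by
        by_contra hc
        exact hii (hcard i i₀ (Nat.pos_of_ne_zero hi.1) hi.2 hi0 hip hc hne)
      rw [this, sub_self, mul_zero]
  obtain ⟨φ⟩ : Nonempty (L →+* ℂ) := inferInstance
  have hval : ∀ t, 0 < t → t < p →
      (φ (α 0 - α j) + (φ ω ^ i₀) ^ t * φ (α i₀ - α j)).im = 0 := by
    intro t ht htp
    have h4 := hreal (φ.comp (σ t : L →+* L))
    have h5 : (φ.comp (σ t : L →+* L)) β =
        φ (α 0 - α j) + (φ ω ^ i₀) ^ t * φ (α i₀ - α j) := by
      rw [h3]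
      simp only [RingHom.comp_apply, RingHom.coe_coe, map_add, map_mul, map_sub, map_pow,
        hσω t ht htp, hσα t 0 hp0, hσα t j hj, hσα t i₀ hip]
      ring
    rw [h5] at h4
    exact h4
  set u : ℂ := φ ω ^ i₀ with hu
  set w : ℂ := φ (α i₀ - α j) with hw
  set c : ℂ := φ (α 0 - α j) with hc
  have hw0 : w ≠ 0 := by
    rw [hw]
    exact (map_ne_zero φ).2 (sub_ne_zero.2 hne)
  have hω1 : ω ^ i₀ ≠ 1 := hω.pow_ne_one_of_pos_of_lt hi0.ne' hip
  have hu1 : u ≠ 1 := by
    intro h0
    apply hω1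
    apply φ.injective
    rw [map_pow, map_one]
    exact h0
  have hup : u ^ p = 1 := by
    rw [hu, ← map_pow, ← map_pow, ← pow_mul, mul_comm, pow_mul, hω.pow_eq_one, one_pow, map_one]
  have hu0 : u ≠ 0 := by
    intro h0
    rw [h0, zero_pow hp.ne_zero] at hup
    exact zero_ne_one hup
  have e1 := hval 1 (by omega) (by omega)
  have e2 := hval 2 (by omega) (by omega)
  have e3 := hval 3 (by omega) (by omega)
  have hd : w * (u ^ 2 - u) ≠ 0 := by
    have : u ^ 2 - u = u * (u - 1) := by ring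
    rw [this]
    exact mul_ne_zero hw0 (mul_ne_zero hu0 (sub_ne_zero.2 hu1))
  have d1 : (w * (u ^ 2 - u)).im = 0 := by
    have : w * (u ^ 2 - u) = (c + u ^ 2 * w) - (c + u ^ 1 * w) := by ring
    rw [this, Complex.sub_im, e1, e2, sub_zero]
  have d2 : (w * (u ^ 2 - u) * (u + 1)).im = 0 := by
    have : w * (u ^ 2 - u) * (u + 1) = (c + u ^ 3 * w) - (c + u ^ 1 * w) := by ring
    rw [this, Complex.sub_im, e1, e3, sub_zero]
  have dre : (w * (u ^ 2 - u)).re ≠ 0 := by
    intro h0
    exact hd (Complex.ext h0 d1)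
  have huim : u.im = 0 := by
    rw [Complex.mul_im, d1, zero_mul, add_zero] at d2
    have h6 := (mul_eq_zero.1 d2).resolve_left dre
    simpa using h6
  have hur : u = (u.re : ℂ) := Complex.ext rfl (by rw [huim, Complex.ofReal_im])
  have hrp : u.re ^ p = 1 := by
    have h7 : ((u.re ^ p : ℝ) : ℂ) = 1 := by
      rw [Complex.ofReal_pow, ← hur]
      exact hup
    exact_mod_cast h7
  have hodd : Odd p := hp.odd_of_ne_two (by omega)
  have h8 : u.re = 1 := by
    apply hodd.strictMono_pow.injective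
    show u.re ^ p = 1 ^ p
    rw [hrp, one_pow]
  apply hu1
  rw [hur, h8, Complex.ofReal_one]

end MP225
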