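import Pool.Agent.Lib_MP_225a87_nt.AMGM
import Pool.Agent.Lib_MP_225a87_nt.TameSum
import Pool.Agent.Lib_MP_225a87_nt.TameTwo

open Polynomial Finset

namespace MP225

/-- the number of embeddings -/
private theorem tame_card {L : Type*} [Field L] [NumberField L] :
    ((Finset.univ : Finset (L →+* ℂ)).card : ℝ) = Module.finrank ℚ L := by
  rw [Finset.card_univ, NumberField.Embeddings.card]

/-- the count of unequal pairs -/
private theorem tame_pairs {L : Type*} [Field L] [NumberField L] [DecidableEq L] (p : ℕ) (hp : p.Prime)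
    (ω : L)
    (hω : IsPrimitiveRoot ω p) (σ : ℕ → L ≃+* L) (hσω : ∀ t, 0 < t → t < p → σ t ω = ω ^ t)
    (α : ℕ → L) (hα : ∀ i < p, IsIntegral ℤ (α i)) (hσα : ∀ t, ∀ i < p, σ t (α i) = α i)
    (β : L) (hβ : β = ∑ i ∈ range p, ω ^ i * α i)
    (R : ℕ) (hR : ∀ φ : L →+* ℂ, ‖φ β‖ ^ 2 ≤ R) :
    ((range p ×ˢ range p).filter (fun x => α x.1 ≠ α x.2)).card ≤ 2 * (p - 1) * R := by
  have hn : (0 : ℝ) < Module.finrank ℚ L := by exact_mod_cast Module.finrank_pos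
  have h1 := tame_sum p hp ω hω σ hσω α hσα β hβ 0
  have h2 : ∑ φ : L →+* ℂ, ‖φ β - 0‖ ^ 2 ≤ (Module.finrank ℚ L : ℝ) * R := by
    calc ∑ φ : L →+* ℂ, ‖φ β - 0‖ ^ 2 ≤ ∑ _φ : L →+* ℂ, (R : ℝ) :=
          Finset.sum_le_sum fun φ _ => by rw [sub_zero]; exact hR φ
      _ = (Module.finrank ℚ L : ℝ) * R := by
          rw [Finset.sum_const, nsmul_eq_mul, tame_card]
  have h3 : ∑ φ : L →+* ℂ, ∑ i ∈ range p, ∑ j ∈ range p,
        ‖(φ (α i) - if i = 0 then (0 : ℂ) else 0) - (φ (α j) - if j = 0 then (0 : ℂ) else 0)‖ ^ 2 =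
      ∑ x ∈ range p ×ˢ range p, ∑ φ : L →+* ℂ, ‖φ (α x.1 - α x.2)‖ ^ 2 := by
    symm
    rw [Finset.sum_comm]
    refine Finset.sum_congr rfl fun φ _ => ?_
    rw [Finset.sum_product]
    refine Finset.sum_congr rfl fun i _ => Finset.sum_congr rfl fun j _ => ?_
    rw [ite_self, ite_self, sub_zero, sub_zero, map_sub]
  have h4 : (((range p ×ˢ range p).filter (fun x => α x.1 ≠ α x.2)).card : ℝ) *
      Module.finrank ℚ L ≤ ∑ x ∈ range p ×ˢ range p, ∑ φ : L →+* ℂ, ‖φ (α x.1 - α x.2)‖ ^ 2 := by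
    calc (((range p ×ˢ range p).filter (fun x => α x.1 ≠ α x.2)).card : ℝ) * Module.finrank ℚ L
        = ∑ _x ∈ (range p ×ˢ range p).filter (fun x => α x.1 ≠ α x.2),
            (Module.finrank ℚ L : ℝ) := by rw [Finset.sum_const, nsmul_eq_mul]
      _ ≤ ∑ x ∈ (range p ×ˢ range p).filter (fun x => α x.1 ≠ α x.2),
            ∑ φ : L →+* ℂ, ‖φ (α x.1 - α x.2)‖ ^ 2 := by
          refine Finset.sum_le_sum fun x hx => ?_
          rw [Finset.mem_filter, Finset.mem_product, mem_range, mem_range] at hx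
          exact amgm _ ((hα _ hx.1.1).sub (hα _ hx.1.2)) (sub_ne_zero.mpr hx.2)
      _ ≤ ∑ x ∈ range p ×ˢ range p, ∑ φ : L →+* ℂ, ‖φ (α x.1 - α x.2)‖ ^ 2 :=
          Finset.sum_le_sum_of_subset_of_nonneg (Finset.filter_subset _ _)
            fun _ _ _ => Finset.sum_nonneg fun _ _ => sq_nonneg _
  have hp1 : (1 : ℝ) ≤ p := by exact_mod_cast hp.one_lt.le
  have h5 : (((range p ×ˢ range p).filter (fun x => α x.1 ≠ α x.2)).card : ℝ) *
      Module.finrank ℚ L ≤ (2 * ((p : ℝ) - 1) * R) * Module.finrank ℚ L := by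
    have h6 : ((p : ℝ) - 1) * ∑ φ : L →+* ℂ, ‖φ β - 0‖ ^ 2 ≤
        ((p : ℝ) - 1) * ((Module.finrank ℚ L : ℝ) * R) :=
      mul_le_mul_of_nonneg_left h2 (by linarith)
    rw [h3] at h1
    nlinarith
  have h7 := le_of_mul_le_mul_right h5 hn
  have h8 : ((2 * (p - 1) * R : ℕ) : ℝ) = 2 * ((p : ℝ) - 1) * R := by
    rw [Nat.cast_mul, Nat.cast_mul, Nat.cast_sub hp.one_lt.le]
    norm_num
  rw [← h8] at h7
  exact_mod_cast h7

/-- TAME (piece T5). With `c = 0` in `tame_sum` and `amgm`: `2(p-1) R n ≥ 2(p-1)∑‖φβ‖² ≥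
n · #{ordered (i,j), i,j<p : α_i ≠ α_j}`, so `mode_exists` gives `j` with multiplicity `q ≥ p-2R`,
`μ = α j`. If at most one `i ∈ (0,p)` has `α_i ≠ μ`: first alternative by `tame_two`. Otherwise at least
two; in `tame_sum` with `c` keep only the ordered pairs `(i,i')`, `(i',i)` with `i' ≠ 0`, `α_{i'} = μ` (at
least `q - 1 ≥ p-1-2R` such `i'`) and `i = 0` or (`i ≠ 0` and `α_i ≠ μ`): for each such `i'` the sum over `i`
and `φ` is at least `∑_φ ‖φ(α_0-μ) - c‖² + 2n` (by `amgm`). -/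
theorem tame {L : Type*} [Field L] [NumberField L] (p : ℕ) (hp : p.Prime) (ω : L)
    (hω : IsPrimitiveRoot ω p) (σ : ℕ → L ≃+* L) (hσω : ∀ t, 0 < t → t < p → σ t ω = ω ^ t)
    (α : ℕ → L) (hα : ∀ i < p, IsIntegral ℤ (α i)) (hσα : ∀ t, ∀ i < p, σ t (α i) = α i)
    (β : L) (hβ : β = ∑ i ∈ range p, ω ^ i * α i)
    (hreal : ∀ φ : L →+* ℂ, (φ β).im = 0) (R : ℕ) (hR : ∀ φ : L →+* ℂ, ‖φ β‖ ^ 2 ≤ R)
    (hpR : 4 * R + 5 ≤ p) (c : ℝ) :
    (∃ j < p, β = α 0 - α j) ∨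
    ∃ j < p, ((p : ℝ) - 1 - 2 * R) *
        ((∑ φ : L →+* ℂ, ‖φ (α 0 - α j) - c‖ ^ 2) + 2 * Module.finrank ℚ L) ≤
      (p - 1) * ∑ φ : L →+* ℂ, ‖φ β - c‖ ^ 2 := by
  classical
  have hn : (0 : ℝ) < Module.finrank ℚ L := by exact_mod_cast Module.finrank_pos
  have hpairs := tame_pairs p hp ω hω σ hσω α hα hσα β hβ R hR
  obtain ⟨j, hj, hq⟩ := mode_exists p hp.pos R α hpairs
  by_cases htwo : ∀ i i', 0 < i → i < p → 0 < i' → i' < p → α i ≠ α j → α i' ≠ α j → i = i'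
  · left
    exact ⟨j, hj, tame_two p hp (by omega) ω hω σ hσω α hσα β hβ hreal j hj htwo⟩
  · right
    refine ⟨j, hj, ?_⟩
    push Not at htwo
    obtain ⟨i₁, i₂, hi₁0, hi₁, hi₂0, hi₂, hne₁, hne₂, hne⟩ := htwo
    have h1 := tame_sum p hp ω hω σ hσω α hσα β hβ (c : ℂ)
    obtain ⟨G, hG⟩ : ∃ G : Finset ℕ, G = (range p).filter (fun i => α i = α j ∧ i ≠ 0) := ⟨_, rfl⟩
    obtain ⟨F, hF⟩ : ∃ F : (L →+* ℂ) → ℕ → ℕ → ℝ, ∀ φ i i', F φ i i' =
      ‖(φ (α i) - if i = 0 then (c : ℂ) else 0) - (φ (α i') - if i' = 0 then (c : ℂ) else 0)‖ ^ 2 :=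
      ⟨_, fun _ _ _ => rfl⟩
    have hF0 : ∀ φ i i', 0 ≤ F φ i i' := fun φ i i' => by rw [hF]; exact sq_nonneg _
    have hFs : ∀ φ i i', F φ i i' = F φ i' i := fun φ i i' => by rw [hF, hF, norm_sub_rev]
    -- the three special indices
    have hGcard : ((p : ℝ) - 1 - 2 * R) ≤ G.card := by
      have h2 : (range p).filter (fun i => α i = α j) ⊆ insert 0 G := by
        intro i hi
        rw [Finset.mem_filter] at hi
        rw [Finset.mem_insert, hG, Finset.mem_filter]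
        by_cases h : i = 0
        · exact Or.inl h
        · exact Or.inr ⟨hi.1, hi.2, h⟩
      have h3 := (Finset.card_le_card h2).trans (Finset.card_insert_le _ _)
      have h4 : p ≤ G.card + 1 + 2 * R := by omega
      have h5 : (p : ℝ) ≤ G.card + 1 + 2 * R := by exact_mod_cast h4
      linarith
    have hpR' : (0 : ℝ) ≤ (p : ℝ) - 1 - 2 * R := by
      have : ((4 * R + 5 : ℕ) : ℝ) ≤ p := by exact_mod_cast hpR
      push_cast at this
      have h0 : (0 : ℝ) ≤ R := Nat.cast_nonneg R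
      linarith
    obtain ⟨T, hT⟩ : ∃ T : Finset ℕ, T = {0, i₁, i₂} := ⟨_, rfl⟩
    have hTG : Disjoint T G := by
      rw [Finset.disjoint_left]
      intro i hi hi'
      rw [hG, Finset.mem_filter] at hi'
      rw [hT, Finset.mem_insert, Finset.mem_insert, Finset.mem_singleton] at hi
      rcases hi with rfl | rfl | rfl
      · exact hi'.2.2 rfl
      · exact hne₁ hi'.2.1
      · exact hne₂ hi'.2.1
    have hTp : T ⊆ range p := by
      intro i hi
      rw [hT, Finset.mem_insert, Finset.mem_insert, Finset.mem_singleton] at hi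
      rw [mem_range]
      rcases hi with rfl | rfl | rfl
      · exact hp.pos
      · exact hi₁
      · exact hi₂
    have hGp : G ⊆ range p := by rw [hG]; exact Finset.filter_subset _ _
    have hdouble : ∀ φ : L →+* ℂ, 2 * ∑ i' ∈ G, ∑ i ∈ T, F φ i i' ≤
        ∑ i ∈ range p, ∑ i' ∈ range p, F φ i i' := by
      intro φ
      have h2 : ∑ i' ∈ G, ∑ i ∈ T, F φ i i' + ∑ i ∈ T, ∑ i' ∈ G, F φ i i' =
          2 * ∑ i' ∈ G, ∑ i ∈ T, F φ i i' := by
        rw [Finset.sum_comm (s := T) (t := G)]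
        ring
      rw [← h2]
      have h3 : ∑ i' ∈ G, ∑ i ∈ T, F φ i i' ≤ ∑ i' ∈ G, ∑ i ∈ range p, F φ i' i := by
        refine Finset.sum_le_sum fun i' _ => ?_
        calc ∑ i ∈ T, F φ i i' = ∑ i ∈ T, F φ i' i := Finset.sum_congr rfl fun i _ => hFs _ _ _
          _ ≤ _ := Finset.sum_le_sum_of_subset_of_nonneg hTp fun _ _ _ => hF0 _ _ _
      have h4 : ∑ i ∈ T, ∑ i' ∈ G, F φ i i' ≤ ∑ i ∈ T, ∑ i' ∈ range p, F φ i i' :=
        Finset.sum_le_sum fun i _ =>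
          Finset.sum_le_sum_of_subset_of_nonneg hGp fun _ _ _ => hF0 _ _ _
      have h5 : ∑ i ∈ T, ∑ i' ∈ range p, F φ i i' + ∑ i ∈ G, ∑ i' ∈ range p, F φ i i' ≤
          ∑ i ∈ range p, ∑ i' ∈ range p, F φ i i' := by
        rw [← Finset.sum_union hTG]
        exact Finset.sum_le_sum_of_subset_of_nonneg (Finset.union_subset hTp hGp)
          fun _ _ _ => Finset.sum_nonneg fun _ _ => hF0 _ _ _
      linarith
    have hone : ∀ i' ∈ G, (∑ φ : L →+* ℂ, ‖φ (α 0 - α j) - c‖ ^ 2) + 2 * Module.finrank ℚ L ≤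
        ∑ φ : L →+* ℂ, ∑ i ∈ T, F φ i i' := by
      intro i' hi'
      rw [hG, Finset.mem_filter] at hi'
      have hTsum : ∀ φ : L →+* ℂ, ∑ i ∈ T, F φ i i' =
          ‖φ (α 0 - α j) - c‖ ^ 2 + (‖φ (α i₁ - α j)‖ ^ 2 + ‖φ (α i₂ - α j)‖ ^ 2) := by
        intro φ
        rw [hT, Finset.sum_insert (by
            rw [Finset.mem_insert, Finset.mem_singleton]
            rintro (h | h)
            · exact hi₁0.ne h
            · exact hi₂0.ne h),
          Finset.sum_insert (by rw [Finset.mem_singleton]; exact hne), Finset.sum_singleton,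
          hF, hF, hF, if_pos rfl, if_neg hi₁0.ne', if_neg hi₂0.ne', if_neg hi'.2.2, hi'.2.1,
          sub_zero, sub_zero, sub_zero, ← map_sub, ← map_sub, map_sub φ (α 0) (α j)]
        rw [sub_right_comm]
      rw [Finset.sum_congr rfl fun φ _ => hTsum φ, Finset.sum_add_distrib, Finset.sum_add_distrib]
      have h2 := amgm _ ((hα _ hi₁).sub (hα _ hj)) (sub_ne_zero.mpr hne₁)
      have h3 := amgm _ ((hα _ hi₂).sub (hα _ hj)) (sub_ne_zero.mpr hne₂)
      linarith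
    have hS0 : 0 ≤ (∑ φ : L →+* ℂ, ‖φ (α 0 - α j) - c‖ ^ 2) + 2 * Module.finrank ℚ L :=
      add_nonneg (Finset.sum_nonneg fun _ _ => sq_nonneg _) (by linarith)
    have hfin : 2 * ((G.card : ℝ) *
        ((∑ φ : L →+* ℂ, ‖φ (α 0 - α j) - c‖ ^ 2) + 2 * Module.finrank ℚ L)) ≤
        2 * (((p : ℝ) - 1) * ∑ φ : L →+* ℂ, ‖φ β - c‖ ^ 2) := by
      rw [h1]
      calc 2 * ((G.card : ℝ) *
            ((∑ φ : L →+* ℂ, ‖φ (α 0 - α j) - c‖ ^ 2) + 2 * Module.finrank ℚ L))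
          = 2 * ∑ _i' ∈ G, ((∑ φ : L →+* ℂ, ‖φ (α 0 - α j) - c‖ ^ 2) +
              2 * Module.finrank ℚ L) := by rw [Finset.sum_const, nsmul_eq_mul]
        _ ≤ 2 * ∑ i' ∈ G, ∑ φ : L →+* ℂ, ∑ i ∈ T, F φ i i' :=
            mul_le_mul_of_nonneg_left (Finset.sum_le_sum hone) (by norm_num)
        _ = ∑ φ : L →+* ℂ, 2 * ∑ i' ∈ G, ∑ i ∈ T, F φ i i' := by
            rw [Finset.sum_comm, Finset.mul_sum]
        _ ≤ ∑ φ : L →+* ℂ, ∑ i ∈ range p, ∑ i' ∈ range p, F φ i i' :=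
            Finset.sum_le_sum fun φ _ => hdouble φ
        _ = _ := by
            refine Finset.sum_congr rfl fun φ _ => Finset.sum_congr rfl fun i _ =>
              Finset.sum_congr rfl fun i' _ => ?_
            rw [hF]
    have hlast := mul_le_mul_of_nonneg_right hGcard hS0
    linarith

end MP225
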