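import Pool.Agent.Lib_MP_225a87_nt.AMGM
import Pool.Agent.Lib_MP_225a87_nt.TameSum
import Pool.Agent.Lib_MP_225a87_nt.TameTwo
import Pool.Agent.Lib_MP_225a87_nt.Ring
import Pool.Agent.Lib_MP_225a87_nt.GalAct

open Polynomial Finset IntermediateField

namespace MP225

open Classical in
/-- TAMEREP. `ring_decomp` with `k = 1` gives `s = ∑_{i<ℓ} ζ^i α_i`, `α_i ∈ F` integral. By `tame_sum` with `c = 0`
(`σ_t` from `gal_action`), `∑_φ ∑_{i,j} ‖φ(α_i - α_j)‖² = 2(ℓ-1) ∑_φ ‖φ s‖² ≤ 2(ℓ-1) R n`, and by `amgm` every ordered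
pair with `α_i ≠ α_j` contributes at least `n`, so `mode_exists` gives `j₀` with multiplicity `≥ ℓ - 2R`. Finally
`∑_φ ∑_i ‖φ(α_i - α_{j₀})‖² · 2(ℓ - 2R) ≤ 2(ℓ-1) R n` (ordered pairs with one index in the mode set), and
`2(ℓ-2R) ≥ ℓ - 1`. -/
theorem tame_rep {L : Type} [Field L] [NumberField L] (F : IntermediateField ℚ L) (ℓ : ℕ)
    (hℓ : ℓ.Prime) (hd : ¬ (ℓ : ℤ) ∣ NumberField.discr F) (ζ : L) (hζ : IsPrimitiveRoot ζ ℓ)
    (htop : F ⊔ ℚ⟮ζ⟯ = ⊤) (s : L) (hs : IsIntegral ℤ s) (R : ℕ)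
    (hR : ∀ φ : L →+* ℂ, ‖φ s‖ ^ 2 ≤ R) (hℓR : 4 * R + 5 ≤ ℓ) :
    ∃ α : ℕ → L, (∀ i, α i ∈ F ∧ IsIntegral ℤ (α i)) ∧ s = ∑ i ∈ range ℓ, ζ ^ i * α i ∧
      ∃ j₀ < ℓ, ℓ ≤ ((range ℓ).filter (fun i => α i = α j₀)).card + 2 * R ∧
        ∑ φ : L →+* ℂ, ∑ i ∈ range ℓ, ‖φ (α i - α j₀)‖ ^ 2 ≤ 2 * R * Module.finrank ℚ L := by
  have hζ1 : IsPrimitiveRoot ζ (ℓ ^ 1) := by rw [pow_one]; exact hζ
  obtain ⟨α, hα, hsα⟩ := ring_decomp F ℓ 1 hℓ le_rfl hd ζ hζ1 htop s hs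
  rw [pow_one] at hsα
  -- the automorphisms
  have hσ : ∀ t : ℕ, ∃ σ : L ≃+* L, (∀ x ∈ F, σ x = x) ∧ (0 < t → t < ℓ → σ ζ = ζ ^ t) := by
    intro t
    by_cases ht : 0 < t ∧ t < ℓ
    · have hcop : t.Coprime ℓ := by
        rw [Nat.coprime_comm, Nat.Prime.coprime_iff_not_dvd hℓ]
        intro h
        have := Nat.le_of_dvd ht.1 h
        omega
      obtain ⟨σ, hσ⟩ := gal_action F ℓ 1 hℓ le_rfl hd ζ hζ1 htop t hcop
      refine ⟨σ.toRingEquiv, ?_, fun _ _ => hσ⟩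
      intro x hx
      exact σ.commutes (⟨x, hx⟩ : F)
    · exact ⟨RingEquiv.refl L, fun x _ => rfl, fun h1 h2 => absurd ⟨h1, h2⟩ ht⟩
  choose σ hσF hσζ using hσ
  have hn : (0 : ℝ) < Module.finrank ℚ L := by exact_mod_cast Module.finrank_pos
  have h1 := tame_sum ℓ hℓ ζ hζ σ hσζ α (fun t i _ => hσF t _ (hα i).1) s hsα 0
  have h2 : ∑ φ : L →+* ℂ, ‖φ s - 0‖ ^ 2 ≤ (Module.finrank ℚ L : ℝ) * R := by
    calc ∑ φ : L →+* ℂ, ‖φ s - 0‖ ^ 2 ≤ ∑ _φ : L →+* ℂ, (R : ℝ) :=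
          Finset.sum_le_sum fun φ _ => by rw [sub_zero]; exact hR φ
      _ = (Module.finrank ℚ L : ℝ) * R := by
          rw [Finset.sum_const, nsmul_eq_mul, Finset.card_univ, NumberField.Embeddings.card]
  obtain ⟨D, hD⟩ : ∃ D : ℕ → ℕ → ℝ, ∀ i j, D i j = ∑ φ : L →+* ℂ, ‖φ (α i - α j)‖ ^ 2 :=
    ⟨_, fun _ _ => rfl⟩
  have hD0 : ∀ i j, 0 ≤ D i j := fun i j => by
    rw [hD]; exact Finset.sum_nonneg fun _ _ => sq_nonneg _
  have hDs : ∀ i j, D i j = D j i := fun i j => by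
    rw [hD, hD]
    refine Finset.sum_congr rfl fun φ _ => ?_
    rw [map_sub, map_sub, norm_sub_rev]
  have h3 : ∑ φ : L →+* ℂ, ∑ i ∈ range ℓ, ∑ j ∈ range ℓ,
        ‖(φ (α i) - if i = 0 then (0 : ℂ) else 0) - (φ (α j) - if j = 0 then (0 : ℂ) else 0)‖ ^ 2 =
      ∑ i ∈ range ℓ, ∑ j ∈ range ℓ, D i j := by
    rw [Finset.sum_comm]
    refine Finset.sum_congr rfl fun i _ => ?_
    rw [Finset.sum_comm]
    refine Finset.sum_congr rfl fun j _ => ?_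
    rw [hD]
    refine Finset.sum_congr rfl fun φ _ => ?_
    rw [ite_self, ite_self, sub_zero, sub_zero, map_sub]
  have hp1 : (1 : ℝ) ≤ ℓ := by exact_mod_cast hℓ.one_lt.le
  have hT : ∑ i ∈ range ℓ, ∑ j ∈ range ℓ, D i j ≤
      (2 * ((ℓ : ℝ) - 1) * R) * Module.finrank ℚ L := by
    have h6 : ((ℓ : ℝ) - 1) * ∑ φ : L →+* ℂ, ‖φ s - 0‖ ^ 2 ≤
        ((ℓ : ℝ) - 1) * ((Module.finrank ℚ L : ℝ) * R) :=
      mul_le_mul_of_nonneg_left h2 (by linarith)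
    rw [h3] at h1
    nlinarith
  -- unequal pairs
  have hpairs : ((range ℓ ×ˢ range ℓ).filter (fun x => α x.1 ≠ α x.2)).card ≤
      2 * (ℓ - 1) * R := by
    have h4 : (((range ℓ ×ˢ range ℓ).filter (fun x => α x.1 ≠ α x.2)).card : ℝ) *
        Module.finrank ℚ L ≤ ∑ i ∈ range ℓ, ∑ j ∈ range ℓ, D i j := by
      rw [← Finset.sum_product (f := fun x : ℕ × ℕ => D x.1 x.2)]
      calc (((range ℓ ×ˢ range ℓ).filter (fun x => α x.1 ≠ α x.2)).card : ℝ) *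
            Module.finrank ℚ L
          = ∑ _x ∈ (range ℓ ×ˢ range ℓ).filter (fun x => α x.1 ≠ α x.2),
              (Module.finrank ℚ L : ℝ) := by rw [Finset.sum_const, nsmul_eq_mul]
        _ ≤ ∑ x ∈ (range ℓ ×ˢ range ℓ).filter (fun x => α x.1 ≠ α x.2), D x.1 x.2 := by
            refine Finset.sum_le_sum fun x hx => ?_
            rw [Finset.mem_filter] at hx
            rw [hD]
            exact amgm _ ((hα _).2.sub (hα _).2) (sub_ne_zero.mpr hx.2)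
        _ ≤ ∑ x ∈ range ℓ ×ˢ range ℓ, D x.1 x.2 :=
            Finset.sum_le_sum_of_subset_of_nonneg (Finset.filter_subset _ _)
              fun _ _ _ => hD0 _ _
    have h7 := le_of_mul_le_mul_right (h4.trans hT) hn
    have h8 : ((2 * (ℓ - 1) * R : ℕ) : ℝ) = 2 * ((ℓ : ℝ) - 1) * R := by
      rw [Nat.cast_mul, Nat.cast_mul, Nat.cast_sub hℓ.one_lt.le]
      norm_num
    rw [← h8] at h7
    exact_mod_cast h7
  obtain ⟨j₀, hj₀, hq⟩ := mode_exists ℓ hℓ.pos R α hpairs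
  refine ⟨α, hα, hsα, j₀, hj₀, hq, ?_⟩
  have hS : ∑ φ : L →+* ℂ, ∑ i ∈ range ℓ, ‖φ (α i - α j₀)‖ ^ 2 =
      ∑ i ∈ range ℓ, D i j₀ := by
    rw [Finset.sum_comm]
    exact Finset.sum_congr rfl fun i _ => (hD i j₀).symm
  rw [hS]
  obtain ⟨q, hqd⟩ : ∃ q, q = ((range ℓ).filter (fun i => α i = α j₀)).card := ⟨_, rfl⟩
  have hDeq : ∀ i j j', α j = α j' → D i j = D i j' := by
    intro i j j' h
    rw [hD, hD, h]
  have hself : ∀ i, α i = α j₀ → D i j₀ = 0 := by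
    intro i h
    rw [hD, h, sub_self]
    refine Finset.sum_eq_zero fun φ _ => ?_
    rw [map_zero, norm_zero]
    norm_num
  have hsplit := Finset.sum_filter_add_sum_filter_not (range ℓ) (fun i => α i = α j₀)
    (fun i => ∑ j ∈ range ℓ, D i j)
  have hG : ∑ i ∈ (range ℓ).filter (fun i => α i = α j₀), ∑ j ∈ range ℓ, D i j =
      q * ∑ i ∈ range ℓ, D i j₀ := by
    rw [hqd, ← nsmul_eq_mul, ← Finset.sum_const]
    refine Finset.sum_congr rfl fun i hi => Finset.sum_congr rfl fun j _ => ?_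
    rw [Finset.mem_filter] at hi
    rw [hDs i j]
    exact hDeq j i j₀ hi.2
  have hGc : (q : ℝ) * ∑ i ∈ range ℓ, D i j₀ ≤
      ∑ i ∈ (range ℓ).filter (fun i => ¬ α i = α j₀), ∑ j ∈ range ℓ, D i j := by
    have hs2 := Finset.sum_filter_add_sum_filter_not (range ℓ) (fun i => α i = α j₀)
      (fun i => D i j₀)
    have hz : ∑ i ∈ (range ℓ).filter (fun i => α i = α j₀), D i j₀ = 0 :=
      Finset.sum_eq_zero fun i hi => hself i (Finset.mem_filter.1 hi).2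
    rw [hz, zero_add] at hs2
    rw [← hs2, Finset.mul_sum]
    refine Finset.sum_le_sum fun i _ => ?_
    calc (q : ℝ) * D i j₀ = ∑ j ∈ (range ℓ).filter (fun j => α j = α j₀), D i j := by
          rw [hqd, ← nsmul_eq_mul, ← Finset.sum_const]
          refine Finset.sum_congr rfl fun j hj => ?_
          exact (hDeq i j j₀ (Finset.mem_filter.1 hj).2).symm
      _ ≤ ∑ j ∈ range ℓ, D i j :=
          Finset.sum_le_sum_of_subset_of_nonneg (Finset.filter_subset _ _) fun _ _ _ => hD0 _ _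
  have hmain : 2 * ((q : ℝ) * ∑ i ∈ range ℓ, D i j₀) ≤
      (2 * ((ℓ : ℝ) - 1) * R) * Module.finrank ℚ L := by
    rw [hG] at hsplit
    linarith
  have hq2 : (ℓ : ℝ) ≤ q + 2 * R := by
    rw [← hqd] at hq
    exact_mod_cast hq
  have hℓR' : 4 * (R : ℝ) + 5 ≤ ℓ := by exact_mod_cast hℓR
  have hR0 : (0 : ℝ) ≤ R := Nat.cast_nonneg R
  have hS0 : 0 ≤ ∑ i ∈ range ℓ, D i j₀ := Finset.sum_nonneg fun _ _ => hD0 _ _
  have hq3 : (ℓ : ℝ) - 1 ≤ 2 * q := by linarith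
  have hℓ1 : (0 : ℝ) < (ℓ : ℝ) - 1 := by linarith
  have h9 : ((ℓ : ℝ) - 1) * ∑ i ∈ range ℓ, D i j₀ ≤ ((ℓ : ℝ) - 1) *
      (2 * R * Module.finrank ℚ L) := by
    have h10 := mul_le_mul_of_nonneg_right hq3 hS0
    calc ((ℓ : ℝ) - 1) * ∑ i ∈ range ℓ, D i j₀ ≤ 2 * q * ∑ i ∈ range ℓ, D i j₀ := h10
      _ = 2 * ((q : ℝ) * ∑ i ∈ range ℓ, D i j₀) := by ring
      _ ≤ (2 * ((ℓ : ℝ) - 1) * R) * Module.finrank ℚ L := hmain
      _ = _ := by ring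
  exact le_of_mul_le_mul_left h9 hℓ1

end MP225
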