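import Pool.Agent.Lib_MP_225a87_nt.Step
import Pool.Agent.Lib_MP_225a87_nt.DiscrAdj

open Polynomial Finset IntermediateField

namespace MP225

theorem tpp_gcd (ℓ M N₀ : ℕ) (hℓ : ℓ.Prime) (hM : 0 < M) (hN₀ : 0 < N₀)
    (h : N₀.factorization ℓ < (ℓ * M).factorization ℓ) :
    Nat.gcd (ℓ * M) N₀ = Nat.gcd M N₀ := by
  have hℓ0 : ℓ ≠ 0 := hℓ.ne_zero
  have hfac : (ℓ * M).factorization = ℓ.factorization + M.factorization :=
    Nat.factorization_mul hℓ0 hM.ne'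
  apply Nat.dvd_antisymm
  · refine Nat.dvd_gcd ?_ (Nat.gcd_dvd_right _ _)
    have hg : Nat.gcd (ℓ * M) N₀ ≠ 0 := (Nat.gcd_pos_of_pos_right _ hN₀).ne'
    rw [← Nat.factorization_le_iff_dvd hg hM.ne']
    intro q
    rw [Nat.factorization_gcd (Nat.mul_ne_zero hℓ0 hM.ne') hN₀.ne']
    simp only [Finsupp.inf_apply]
    by_cases hq : q = ℓ
    · subst hq
      rw [hfac] at h ⊢
      simp only [Finsupp.add_apply, hℓ.factorization_self] at h ⊢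
      omega
    · rw [hfac]
      have h0 : ℓ.factorization q = 0 := by
        rw [hℓ.factorization, Finsupp.single_apply, if_neg (fun e => hq e.symm)]
      simp only [Finsupp.add_apply, h0]
      omega
  · exact Nat.gcd_dvd_gcd_of_dvd_left _ (Dvd.intro_left _ rfl)

theorem tpp_nf (F : IntermediateField ℚ ℂ) [NumberField F] {m : ℕ} (hm : 0 < m) {ζ : ℂ}
    (hζ : IsPrimitiveRoot ζ m) : NumberField ↥(F ⊔ ℚ⟮ζ⟯) := by
  have hint : IsIntegral ℚ ζ := (hζ.isIntegral hm).tower_top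
  haveI : FiniteDimensional ℚ ℚ⟮ζ⟯ := IntermediateField.adjoin.finiteDimensional hint
  haveI : FiniteDimensional ℚ F := NumberField.to_finiteDimensional
  haveI : FiniteDimensional ℚ ↥(F ⊔ ℚ⟮ζ⟯) := IntermediateField.finiteDimensional_sup F ℚ⟮ζ⟯
  exact { to_charZero := inferInstance, to_finiteDimensional := inferInstance }

theorem tpp_bezout {x y : ℕ} (h : Nat.Coprime x y) {ζ : ℂ} (hζ : ζ ≠ 0)
    (E : IntermediateField ℚ ℂ) (h1 : ζ ^ x ∈ E) (h2 : ζ ^ y ∈ E) : ζ ∈ E := by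
  have hb : (1 : ℤ) = x * Nat.gcdA x y + y * Nat.gcdB x y := by
    have := Nat.gcd_eq_gcd_ab x y
    rw [Nat.Coprime] at h
    rw [h] at this
    exact_mod_cast this
  have : ζ = (ζ ^ x) ^ (Nat.gcdA x y) * (ζ ^ y) ^ (Nat.gcdB x y) := by
    have h3 : (ζ ^ x) ^ (Nat.gcdA x y) = ζ ^ ((x : ℤ) * Nat.gcdA x y) := by
      rw [zpow_mul, zpow_natCast]
    have h4 : (ζ ^ y) ^ (Nat.gcdB x y) = ζ ^ ((y : ℤ) * Nat.gcdB x y) := by
      rw [zpow_mul, zpow_natCast]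
    rw [h3, h4, ← zpow_add₀ hζ, ← hb, zpow_one]
  rw [this]
  exact mul_mem (zpow_mem h1 _) (zpow_mem h2 _)

/-- TPP (piece TP). `N₀ = 4 B!`. Strong induction on `N`. If `N ∣ N₀` then
`gcd = N` and nothing to prove. Otherwise some prime `ℓ` has `v_ℓ(N) > v_ℓ(N₀)`; `k = v_ℓ(N) ≥ 1`,
`N = ℓ^k N'`. If `k = 1` then `v_ℓ(N₀) = 0`, so `ℓ ≥ B`; if `ℓ = 2` then `k ≥ 3`. Apply `step_C` with
`F' = F ⊔ ℚ⟮ζ^(ℓ^k)⟯` (`ζ^(ℓ^k)` primitive `N'`-th root; `ℓ ∤ discr F'` by `discr_adjoin_C`) and `ζ' = ζ^N'`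
(primitive `ℓ^k`-th root): `F' ⊔ ℚ⟮ζ'⟯ = F ⊔ ℚ⟮ζ⟯`, `F' ⊔ ℚ⟮ζ'^ℓ⟯ = F ⊔ ℚ⟮ζ^ℓ⟯` (both are generated by roots of
unity of the coprime orders). So `z ∈ F ⊔ ℚ⟮ζ^ℓ⟯`, `ζ^ℓ` is a primitive `N/ℓ`-th root, and
`gcd(N/ℓ, N₀) = gcd(N, N₀)`; induction hypothesis. -/
theorem tpp (a : ℝ) (ha : ∀ n : ℤ, (n : ℝ) ≠ a) : ∃ N₀ n₀ : ℕ, 0 < N₀ ∧ ∀ (p : ℤ[X]),
    ConjIn a p → n₀ ≤ p.natDegree → ∀ (F : IntermediateField ℚ ℂ) [NumberField F] (N : ℕ),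
      0 < N → N.Coprime (NumberField.discr F).natAbs → ∀ z ζ : ℂ, IsPrimitiveRoot ζ N →
      aeval z p = 0 → z ∈ F ⊔ ℚ⟮ζ⟯ → z ∈ F ⊔ ℚ⟮ζ ^ (N / Nat.gcd N N₀)⟯ := by
  obtain ⟨B, n₀, hstep⟩ := step_C a ha
  refine ⟨4 * B.factorial, n₀, Nat.mul_pos (by norm_num) B.factorial_pos, ?_⟩
  set N₀ : ℕ := 4 * B.factorial with hN₀def
  have hN₀ : 0 < N₀ := Nat.mul_pos (by norm_num) B.factorial_pos
  intro p hp hdeg F _ N
  induction N using Nat.strong_induction_on with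
  | _ N ih =>
  intro hN hcop z ζ hζ hz hzmem
  by_cases hdvd : N ∣ N₀
  · rw [Nat.gcd_eq_left hdvd, Nat.div_self hN, pow_one]
    exact hzmem
  · -- a prime with a larger exponent
    have hex : ∃ ℓ, ℓ.Prime ∧ N₀.factorization ℓ < N.factorization ℓ := by
      by_contra hcon
      push Not at hcon
      exact hdvd ((Nat.factorization_prime_le_iff_dvd hN.ne' hN₀.ne').1 hcon)
    obtain ⟨ℓ, hℓ, hlt⟩ := hex
    obtain ⟨k, hk⟩ : ∃ k, k = N.factorization ℓ := ⟨_, rfl⟩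
    have hk1 : 1 ≤ k := by omega
    obtain ⟨N', hN'⟩ : ∃ N', N' = N / ℓ ^ k := ⟨_, rfl⟩
    have hpk : ℓ ^ k ∣ N := by rw [hk]; exact Nat.ordProj_dvd N ℓ
    have hNeq : N = ℓ ^ k * N' := by rw [hN']; exact (Nat.mul_div_cancel' hpk).symm
    have hN'pos : 0 < N' := by
      rcases Nat.eq_zero_or_pos N' with h | h
      · rw [h, mul_zero] at hNeq; omega
      · exact h
    have hℓN' : ¬ ℓ ∣ N' := by
      rw [hN', hk]
      exact Nat.not_dvd_ordCompl hℓ hN.ne'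
    have hcopk : Nat.Coprime (ℓ ^ k) N' :=
      Nat.Coprime.pow_left k ((Nat.Prime.coprime_iff_not_dvd hℓ).2 hℓN')
    have hℓN : ℓ ∣ N := (dvd_pow_self ℓ (by omega)).trans hpk
    -- discriminant
    have hd : ¬ (ℓ : ℤ) ∣ NumberField.discr F := by
      intro h
      have h1 : ℓ ∣ (NumberField.discr F).natAbs := Int.natCast_dvd.1 h
      have h2 : ℓ ∣ 1 := by
        have h3 := Nat.dvd_gcd hℓN h1
        rwa [Nat.Coprime.gcd_eq_one hcop] at h3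
      exact hℓ.one_lt.ne' (Nat.dvd_one.1 h2)
    have hζ0 : ζ ≠ 0 := hζ.ne_zero hN.ne'
    have hζ1 : IsPrimitiveRoot (ζ ^ (ℓ ^ k)) N' := hζ.pow hN hNeq
    have hζ2 : IsPrimitiveRoot (ζ ^ N') (ℓ ^ k) := hζ.pow hN (by rw [hNeq]; ring)
    haveI hE : NumberField ↥(F ⊔ ℚ⟮ζ ^ (ℓ ^ k)⟯) := tpp_nf F hN'pos hζ1
    have hd' := discr_adjoin_C F N' hN'pos (ζ ^ (ℓ ^ k)) hζ1 ℓ hℓ hℓN' hd hE
    have hkB : k = 1 → B ≤ ℓ := by
      intro hk'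
      by_contra hcon
      push Not at hcon
      have h1 : ℓ ∣ N₀ := by
        rw [hN₀def]
        exact Dvd.dvd.mul_left ((Nat.Prime.dvd_factorial hℓ).2 hcon.le) 4
      have h2 : 0 < N₀.factorization ℓ := hℓ.factorization_pos_of_dvd hN₀.ne' h1
      omega
    have hk2 : ℓ = 2 → 3 ≤ k := by
      intro h2
      subst h2
      have h1 : 2 ^ 2 ∣ N₀ := by rw [hN₀def]; exact Dvd.intro _ rfl
      have h3 : 2 ≤ N₀.factorization 2 :=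
        (Nat.Prime.pow_dvd_iff_le_factorization Nat.prime_two hN₀.ne').1 h1
      omega
    have hzmem' : z ∈ (F ⊔ ℚ⟮ζ ^ (ℓ ^ k)⟯) ⊔ ℚ⟮ζ ^ N'⟯ := by
      have hle : F ⊔ ℚ⟮ζ⟯ ≤ (F ⊔ ℚ⟮ζ ^ (ℓ ^ k)⟯) ⊔ ℚ⟮ζ ^ N'⟯ := by
        refine sup_le (le_sup_left.trans le_sup_left) ?_
        rw [IntermediateField.adjoin_simple_le_iff]
        refine tpp_bezout hcopk hζ0 _ ?_ ?_
        · exact (le_sup_right.trans le_sup_left :
            ℚ⟮ζ ^ (ℓ ^ k)⟯ ≤ (F ⊔ ℚ⟮ζ ^ (ℓ ^ k)⟯) ⊔ ℚ⟮ζ ^ N'⟯)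
            (IntermediateField.mem_adjoin_simple_self ℚ _)
        · exact (le_sup_right : ℚ⟮ζ ^ N'⟯ ≤ (F ⊔ ℚ⟮ζ ^ (ℓ ^ k)⟯) ⊔ ℚ⟮ζ ^ N'⟯)
            (IntermediateField.mem_adjoin_simple_self ℚ _)
      exact hle hzmem
    have hz2 := hstep p hp hdeg (F ⊔ ℚ⟮ζ ^ (ℓ ^ k)⟯) ℓ k hℓ hd' hk1 hkB hk2 (ζ ^ N') hζ2 z hz
      hzmem'
    obtain ⟨M, hM⟩ : ∃ M, N = ℓ * M := hℓN
    have hMpos : 0 < M := by
      rcases Nat.eq_zero_or_pos M with h | h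
      · rw [h, mul_zero] at hM; omega
      · exact h
    have hzM : z ∈ F ⊔ ℚ⟮ζ ^ ℓ⟯ := by
      have hself : ζ ^ ℓ ∈ F ⊔ ℚ⟮ζ ^ ℓ⟯ :=
        (le_sup_right : ℚ⟮ζ ^ ℓ⟯ ≤ F ⊔ ℚ⟮ζ ^ ℓ⟯) (IntermediateField.mem_adjoin_simple_self ℚ _)
      have hle : (F ⊔ ℚ⟮ζ ^ (ℓ ^ k)⟯) ⊔ ℚ⟮(ζ ^ N') ^ ℓ⟯ ≤ F ⊔ ℚ⟮ζ ^ ℓ⟯ := by
        refine sup_le (sup_le le_sup_left ?_) ?_
        · rw [IntermediateField.adjoin_simple_le_iff]
          have : ζ ^ (ℓ ^ k) = (ζ ^ ℓ) ^ (ℓ ^ (k - 1)) := by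
            rw [← pow_mul, ← pow_succ', Nat.sub_add_cancel hk1]
          rw [this]
          exact pow_mem hself _
        · rw [IntermediateField.adjoin_simple_le_iff]
          have : (ζ ^ N') ^ ℓ = (ζ ^ ℓ) ^ N' := by
            rw [← pow_mul, ← pow_mul, mul_comm]
          rw [this]
          exact pow_mem hself _
      exact hle hz2
    have hMlt : M < N := by
      rw [hM]
      have := hℓ.two_le
      nlinarith
    have hζℓ : IsPrimitiveRoot (ζ ^ ℓ) M := hζ.pow hN hM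
    have hMcop : M.Coprime (NumberField.discr F).natAbs :=
      Nat.Coprime.coprime_dvd_left (Dvd.intro_left _ hM.symm) hcop
    have hfin := ih M hMlt hMpos hMcop z (ζ ^ ℓ) hζℓ hz hzM
    have hg : Nat.gcd N N₀ = Nat.gcd M N₀ := by
      rw [hM] at hlt ⊢
      exact tpp_gcd ℓ M N₀ hℓ hMpos hN₀ hlt
    have hexp : ℓ * (M / Nat.gcd M N₀) = N / Nat.gcd N N₀ := by
      rw [hg, hM, Nat.mul_div_assoc _ (Nat.gcd_dvd_left M N₀)]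
    rw [← hexp, pow_mul]
    exact hfin

end MP225
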