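import Pool.Agent.Lib_MP_225a87_nt.AMGM
import Pool.Agent.Lib_MP_225a87_nt.Parseval

open Polynomial Finset

namespace MP225

/-- the action of an automorphism on the embeddings -/
noncomputable def W2_equiv {L : Type*} [Field L] (s : L ≃+* L) : (L →+* ℂ) ≃ (L →+* ℂ) where
  toFun φ := φ.comp (s : L →+* L)
  invFun φ := φ.comp (s.symm : L →+* L)
  left_inv φ := by
    ext x
    simp
  right_inv φ := by
    ext x
    simp

theorem W2_equiv_apply {L : Type*} [Field L] (s : L ≃+* L) (φ : L →+* ℂ) (x : L) :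
    W2_equiv s φ x = φ (s x) := rfl

theorem W2_reindex {L : Type*} [Field L] [NumberField L] (s : L ≃+* L) (β : L) (c : ℝ) :
    ∑ φ : L →+* ℂ, ‖φ (s β) - c‖ ^ 2 = ∑ φ : L →+* ℂ, ‖φ β - c‖ ^ 2 := by
  have := Equiv.sum_comp (W2_equiv s) (fun φ : L →+* ℂ => ‖φ β - c‖ ^ 2)
  simpa only [W2_equiv_apply] using this

/-- a complex number with `u` primitive of order `P ≥ 3` is not real -/
theorem W2_not_real {P : ℕ} (hP : 3 ≤ P) {u : ℂ} (hu : IsPrimitiveRoot u P) : u.im ≠ 0 := by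
  intro h
  have h1 : ‖u‖ = 1 := Complex.norm_eq_one_of_pow_eq_one hu.pow_eq_one (by omega)
  have h2 : u = (u.re : ℂ) := by
    apply Complex.ext
    · simp
    · simp [h]
  have h3 : u ^ 2 = 1 := by
    have h4 : |u.re| = 1 := by
      rw [h2, Complex.norm_real, Real.norm_eq_abs] at h1
      exact h1
    have h5 : u.re ^ 2 = 1 := by
      rw [← sq_abs, h4]
      norm_num
    rw [h2, ← Complex.ofReal_pow, h5]
    simp
  have h6 := hu.dvd_of_pow_eq_one 2 h3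
  have := Nat.le_of_dvd (by norm_num) h6
  omega

/-- WILD (piece W2). For each `t`, reindexing the embeddings by `φ ↦ φ ∘ σ t`,
`∑_φ ‖φ β - c‖² = ∑_φ ‖φ (σ t β) - c‖²`, and `φ (σ t β) - c = ∑_i φ(η)^(t i) y_i` with
`y_i = φ(ζ)^i φ(b_i)` for `i ≠ 0`, `y_0 = φ(b_0) - c` (`‖φ ζ‖ = 1`). Sum over `t < P` and use `parseval`
(`φ η` is a primitive `P`-th root of unity):
`∑_φ ‖φ β - c‖² = ∑_φ (‖φ b_0 - c‖² + ∑_{0<i<P} ‖φ b_i‖²)`. By `amgm` every nonzero `b_i` (`i ≠ 0`)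
contributes at least `n = finrank ℚ L`, so it suffices to show that at least two `b_i`, `0 < i < P` are
nonzero. `b i₀ ≠ 0`, `i₀ ≠ 0` since `P ≥ 3`. If all other `b_i` (`i ≠ 0, i₀`) vanish, take any `φ`:
`φ(σ t β) = φ(b_0) + u^t w` with `u = φ(η)^i₀` a primitive `P`-th root of unity (coprimality) and
`w = φ(ζ^i₀ b_{i₀}) ≠ 0`; all are real (`hreal` for `φ ∘ σ t`), so `w(u-1)` and `w(u²-1)` are real,
`u ≠ 1`, the quotient `u+1` is real, so `u = ±1`, `u² = 1`, contradiction to `P ≥ 3`. -/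
theorem wild {L : Type*} [Field L] [NumberField L] (P : ℕ) (hP : 3 ≤ P) (ζ η : L)
    (hζ : ∃ n : ℕ, 0 < n ∧ ζ ^ n = 1) (hη : IsPrimitiveRoot η P)
    (σ : ℕ → L ≃+* L) (hσζ : ∀ t, σ t ζ = ζ * η ^ t)
    (b : ℕ → L) (hb : ∀ i < P, IsIntegral ℤ (b i)) (hσb : ∀ t, ∀ i < P, σ t (b i) = b i)
    (β : L) (hβ : β = ∑ i ∈ range P, ζ ^ i * b i)
    (hreal : ∀ φ : L →+* ℂ, (φ β).im = 0) (c : ℝ)
    (i₀ : ℕ) (hi₀ : i₀ < P) (hcop : i₀.Coprime P) (hne : b i₀ ≠ 0) :
    (∑ φ : L →+* ℂ, ‖φ (b 0) - c‖ ^ 2) + 2 * Module.finrank ℚ L ≤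
      ∑ φ : L →+* ℂ, ‖φ β - c‖ ^ 2 := by
  have hP0 : 0 < P := by omega
  have hP0' : (0 : ℝ) < P := by exact_mod_cast hP0
  -- `i₀ ≠ 0`
  have hi0 : i₀ ≠ 0 := by
    rintro rfl
    rw [Nat.coprime_zero_left] at hcop
    omega
  -- the formula for `φ (σ t β)`
  have hform : ∀ (φ : L →+* ℂ) (t : ℕ),
      φ (σ t β) = ∑ i ∈ range P, φ ζ ^ i * φ η ^ (t * i) * φ (b i) := by
    intro φ t
    rw [hβ, map_sum, map_sum]
    refine Finset.sum_congr rfl fun i hi => ?_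
    rw [map_mul, map_pow, hσζ, hσb t i (mem_range.1 hi), map_mul, map_pow, map_mul, mul_pow,
      map_pow, ← pow_mul]
  have hnorm : ∀ φ : L →+* ℂ, ‖φ ζ‖ = 1 := by
    intro φ
    obtain ⟨n, hn, h⟩ := hζ
    refine Complex.norm_eq_one_of_pow_eq_one (n := n) ?_ hn.ne'
    rw [← map_pow, h, map_one]
  have hprim : ∀ φ : L →+* ℂ, IsPrimitiveRoot (φ η) P := fun φ =>
    hη.map_of_injective φ.injective
  -- Parseval for each embedding
  have hpars : ∀ φ : L →+* ℂ, ∑ t ∈ range P, ‖φ (σ t β) - c‖ ^ 2 =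
      P * (‖φ (b 0) - c‖ ^ 2 + ∑ i ∈ (range P).erase 0, ‖φ (b i)‖ ^ 2) := by
    intro φ
    have h0 : 0 ∈ range P := mem_range.2 hP0
    have h1 := parseval P hP0 (φ η) (hprim φ)
      (fun i => if i = 0 then φ (b 0) - c else φ ζ ^ i * φ (b i))
    have h2 : ∑ t ∈ range P, ‖φ (σ t β) - c‖ ^ 2 = ∑ t ∈ range P, ‖∑ i ∈ range P, φ η ^ (t * i) *
        (if i = 0 then φ (b 0) - c else φ ζ ^ i * φ (b i))‖ ^ 2 := by
      refine Finset.sum_congr rfl fun t _ => ?_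
      congr 2
      rw [hform, ← Finset.add_sum_erase _ _ h0, ← Finset.add_sum_erase _ _ h0]
      have h3 : ∑ i ∈ (range P).erase 0, φ ζ ^ i * φ η ^ (t * i) * φ (b i) =
          ∑ i ∈ (range P).erase 0, φ η ^ (t * i) *
            (if i = 0 then φ (b 0) - c else φ ζ ^ i * φ (b i)) := by
        refine Finset.sum_congr rfl fun i hi => ?_
        rw [if_neg (Finset.ne_of_mem_erase hi)]
        ring
      rw [h3]
      simp only [pow_zero, mul_zero, one_mul, if_true]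
      ring
    rw [h2, h1, ← Finset.add_sum_erase _ _ h0]
    congr 1
    rw [if_pos rfl]
    congr 1
    refine Finset.sum_congr rfl fun i hi => ?_
    rw [if_neg (Finset.ne_of_mem_erase hi), norm_mul, norm_pow, hnorm, one_pow, one_mul]
  -- the sum over all embeddings
  have htot : ∑ φ : L →+* ℂ, ‖φ β - c‖ ^ 2 = ∑ φ : L →+* ℂ, ‖φ (b 0) - c‖ ^ 2 +
      ∑ i ∈ (range P).erase 0, ∑ φ : L →+* ℂ, ‖φ (b i)‖ ^ 2 := by
    have h1 : ∑ t ∈ range P, ∑ φ : L →+* ℂ, ‖φ (σ t β) - c‖ ^ 2 =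
        P * ∑ φ : L →+* ℂ, ‖φ β - c‖ ^ 2 := by
      rw [Finset.sum_congr rfl fun t _ => W2_reindex (σ t) β c]
      simp
    have h2 : ∑ t ∈ range P, ∑ φ : L →+* ℂ, ‖φ (σ t β) - c‖ ^ 2 =
        P * (∑ φ : L →+* ℂ, ‖φ (b 0) - c‖ ^ 2 +
          ∑ i ∈ (range P).erase 0, ∑ φ : L →+* ℂ, ‖φ (b i)‖ ^ 2) := by
      rw [Finset.sum_comm, Finset.sum_congr rfl fun φ _ => hpars φ, ← Finset.mul_sum,
        Finset.sum_add_distrib, Finset.sum_comm (s := (range P).erase 0)]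
    have h3 := h1.symm.trans h2
    exact mul_left_cancel₀ hP0'.ne' h3
  -- a second nonzero coefficient
  have hsecond : ∃ i₁ ∈ (range P).erase 0, i₁ ≠ i₀ ∧ b i₁ ≠ 0 := by
    by_contra hcon
    push Not at hcon
    obtain ⟨φ⟩ : Nonempty (L →+* ℂ) := inferInstance
    have hu : IsPrimitiveRoot (φ η ^ i₀) P := (hprim φ).pow_of_coprime i₀ hcop
    have hw : φ ζ ^ i₀ * φ (b i₀) ≠ 0 := by
      refine mul_ne_zero (pow_ne_zero _ ?_) ?_
      · intro h
        have := hnorm φ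
        rw [h, norm_zero] at this
        norm_num at this
      · exact fun h => hne (φ.injective (by rw [h, map_zero]))
    have hval : ∀ t, φ (σ t β) = φ (b 0) + (φ η ^ i₀) ^ t * (φ ζ ^ i₀ * φ (b i₀)) := by
      intro t
      rw [hform, ← Finset.add_sum_erase _ _ (mem_range.2 hP0),
        ← Finset.add_sum_erase ((range P).erase 0) _
          (Finset.mem_erase.2 ⟨hi0, mem_range.2 hi₀⟩)]
      have h0 : ∑ i ∈ ((range P).erase 0).erase i₀, φ ζ ^ i * φ η ^ (t * i) * φ (b i) = 0 := by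
        refine Finset.sum_eq_zero fun i hi => ?_
        rw [hcon i (Finset.mem_of_mem_erase hi) (Finset.ne_of_mem_erase hi), map_zero, mul_zero]
      rw [h0]
      simp only [pow_zero, mul_zero, one_mul, add_zero]
      rw [← pow_mul, mul_comm i₀ t]
      ring
    have him : ∀ t, (φ (b 0) + (φ η ^ i₀) ^ t * (φ ζ ^ i₀ * φ (b i₀))).im = 0 := by
      intro t
      rw [← hval]
      exact hreal (φ.comp (σ t : L →+* L))
    set u := φ η ^ i₀ with hu_def
    set w := φ ζ ^ i₀ * φ (b i₀) with hw_def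
    have e0 := him 0
    have e1 := him 1
    have e2 := him 2
    have hu1 : u ≠ 1 := by
      intro h
      have := hu.dvd_of_pow_eq_one 1 (by rw [h, one_pow])
      have := Nat.le_of_dvd (by norm_num) this
      omega
    have hd1 : (w * (u - 1)).im = 0 := by
      have : w * (u - 1) = (φ (b 0) + u ^ 1 * w) - (φ (b 0) + u ^ 0 * w) := by ring
      rw [this, Complex.sub_im, e0, e1, sub_zero]
    have hd2 : (w * (u - 1) * (u + 1)).im = 0 := by
      have : w * (u - 1) * (u + 1) = (φ (b 0) + u ^ 2 * w) - (φ (b 0) + u ^ 0 * w) := by ring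
      rw [this, Complex.sub_im, e0, e2, sub_zero]
    have hne' : w * (u - 1) ≠ 0 := mul_ne_zero hw (sub_ne_zero.2 hu1)
    have hre : (w * (u - 1)).re ≠ 0 := by
      intro h
      exact hne' (Complex.ext h hd1)
    rw [Complex.mul_im, hd1, zero_mul, add_zero] at hd2
    have hui : (u + 1).im = 0 := by
      rcases mul_eq_zero.1 hd2 with h | h
      · exact absurd h hre
      · exact h
    rw [Complex.add_im, Complex.one_im, add_zero] at hui
    exact W2_not_real hP hu hui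
  obtain ⟨i₁, hi₁, hne₁, hb₁⟩ := hsecond
  have hmem0 : i₀ ∈ (range P).erase 0 := Finset.mem_erase.2 ⟨hi0, mem_range.2 hi₀⟩
  have hsum : ∑ φ : L →+* ℂ, ‖φ (b i₀)‖ ^ 2 + ∑ φ : L →+* ℂ, ‖φ (b i₁)‖ ^ 2 ≤
      ∑ i ∈ (range P).erase 0, ∑ φ : L →+* ℂ, ‖φ (b i)‖ ^ 2 := by
    rw [← Finset.sum_pair (f := fun i => ∑ φ : L →+* ℂ, ‖φ (b i)‖ ^ 2) (Ne.symm hne₁)]
    refine Finset.sum_le_sum_of_subset_of_nonneg ?_ fun i _ _ => by positivity
    intro i hi
    rcases Finset.mem_insert.1 hi with rfl | hi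
    · exact hmem0
    · rw [Finset.mem_singleton] at hi
      exact hi ▸ hi₁
  have ha0 := amgm (b i₀) (hb i₀ hi₀) hne
  have ha1 := amgm (b i₁) (hb i₁ (mem_range.1 (Finset.mem_of_mem_erase hi₁))) hb₁
  rw [htot]
  linarith

end MP225
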