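import Pool.Agent.Lib_MP_225a87_nt.Ring

open Polynomial Finset IntermediateField

namespace MP225

/-- WILDAVG. `ring_decomp`: `y = ∑_{j<ℓ^k} ζ^j c_j`, `c_j ∈ F` integral; `∑_h ρ h (ζ^j c_j) = 0` if `ℓ^m ∤ j` (write
`j = i + ℓ^m q`, `ζ^(ℓ^m q)` and `c_j` are fixed) and `= ℓ^m ζ^j c_j` if `ℓ^m ∣ j`. -/
theorem wild_avg {L : Type} [Field L] [NumberField L] (F : IntermediateField ℚ L) (ℓ k m : ℕ)
    (hℓ : ℓ.Prime) (hm : 1 ≤ m) (hk : m + 1 ≤ k)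
    (hd : ¬ (ℓ : ℤ) ∣ NumberField.discr F) (ζ : L) (hζ : IsPrimitiveRoot ζ (ℓ ^ k))
    (htop : F ⊔ ℚ⟮ζ⟯ = ⊤) (H : Type) [Group H] [Fintype H] (ρ : H →* RingAut L)
    (hcard : Fintype.card H = ℓ ^ m) (hF : ∀ h : H, ∀ x ∈ F, (ρ h : L ≃+* L) x = x)
    (hfix : ∀ h : H, (ρ h : L ≃+* L) (ζ ^ (ℓ ^ m)) = ζ ^ (ℓ ^ m))
    (hsum : ∀ i, 0 < i → i < ℓ ^ m → ∑ h : H, (ρ h : L ≃+* L) (ζ ^ i) = 0)
    (y : L) (hy : IsIntegral ℤ y) :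
    ∃ b : L, IsIntegral ℤ b ∧ ∑ h : H, (ρ h : L ≃+* L) y = (ℓ : L) ^ m * b := by
  obtain ⟨c, hc, hy'⟩ := ring_decomp F ℓ k hℓ (by omega) hd ζ hζ htop y hy
  have hζi : IsIntegral ℤ ζ := hζ.isIntegral (pow_pos hℓ.pos k)
  have hpos : 0 < ℓ ^ m := pow_pos hℓ.pos m
  refine ⟨∑ j ∈ range (ℓ ^ k), if ℓ ^ m ∣ j then ζ ^ j * c j else 0, ?_, ?_⟩
  · apply IsIntegral.sum
    intro j _
    split_ifs
    · exact (hζi.pow j).mul (hc j).2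
    · exact isIntegral_zero
  · have h1 : ∀ j, ∑ h : H, (ρ h : L ≃+* L) (ζ ^ j * c j) =
        (ℓ : L) ^ m * (if ℓ ^ m ∣ j then ζ ^ j * c j else 0) := by
      intro j
      have h2 : ∀ h : H, (ρ h : L ≃+* L) (ζ ^ j * c j) =
          ((ζ ^ (ℓ ^ m)) ^ (j / ℓ ^ m) * c j) * (ρ h : L ≃+* L) (ζ ^ (j % ℓ ^ m)) := by
        intro h
        have h3 : ζ ^ j = (ζ ^ (ℓ ^ m)) ^ (j / ℓ ^ m) * ζ ^ (j % ℓ ^ m) := by
          rw [← pow_mul, ← pow_add, Nat.div_add_mod]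
        rw [h3, map_mul, map_mul, map_pow (ρ h : L ≃+* L) (ζ ^ (ℓ ^ m)), hfix h, hF h _ (hc j).1]
        ring
      rw [sum_congr rfl fun h _ => h2 h, ← mul_sum]
      split_ifs with hdvd
      · have h4 : j % ℓ ^ m = 0 := Nat.mod_eq_zero_of_dvd hdvd
        rw [h4]
        simp only [pow_zero, map_one, sum_const, card_univ, hcard, nsmul_eq_mul, mul_one]
        rw [← pow_mul, Nat.mul_div_cancel' hdvd]
        push_cast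
        ring
      · rw [hsum _ (Nat.pos_of_ne_zero fun h0 => hdvd (Nat.dvd_of_mod_eq_zero h0))
          (Nat.mod_lt _ hpos)]
        ring
    rw [mul_sum, ← sum_congr rfl fun j _ => h1 j, sum_comm]
    apply sum_congr rfl
    intro h _
    rw [hy', map_sum]

end MP225
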