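import Pool.Agent.Lib_MP_225a87_nt.Ring
import Pool.Agent.Lib_MP_225a87_nt.GalAct

open Polynomial Finset IntermediateField

namespace MP225

theorem B1_lte {ℓ : ℕ} (hℓ : ℓ.Prime) {j : ℕ} (hj : 1 ≤ j) (h2 : ℓ = 2 → 2 ≤ j) {c : ℕ}
    (hc : ¬ ℓ ∣ c) (s : ℕ) : ∃ c', ¬ ℓ ∣ c' ∧ (1 + ℓ ^ j * c) ^ ℓ ^ s = 1 + ℓ ^ (j + s) * c' := by
  have hp : Fact ℓ.Prime := ⟨hℓ⟩
  have hpi : Prime (ℓ : ℤ) := Nat.prime_iff_prime_int.1 hℓ
  have hx : ¬ (ℓ : ℤ) ∣ ((1 + ℓ ^ j * c : ℕ) : ℤ) := by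
    rw [Int.natCast_dvd_natCast]
    intro h
    have h1 : ℓ ∣ ℓ ^ j * c := Dvd.dvd.mul_right (dvd_pow_self ℓ (by omega)) c
    have h3 : ℓ ∣ 1 := (Nat.dvd_add_left h1).1 h
    exact hℓ.one_lt.ne' (Nat.dvd_one.1 h3)
  have hsub : ((1 + ℓ ^ j * c : ℕ) : ℤ) - 1 = (ℓ : ℤ) ^ j * c := by
    push_cast
    ring
  have hcz : emultiplicity (ℓ : ℤ) (c : ℤ) = 0 := by
    rw [emultiplicity_eq_zero, Int.natCast_dvd_natCast]
    exact hc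
  have hbase : emultiplicity (ℓ : ℤ) (((1 + ℓ ^ j * c : ℕ) : ℤ) - 1) = j := by
    rw [hsub, emultiplicity_mul hpi, emultiplicity_pow_self_of_prime hpi, hcz, add_zero]
  have hls : emultiplicity (ℓ : ℤ) (((ℓ ^ s : ℕ) : ℤ)) = s := by
    push_cast
    exact emultiplicity_pow_self_of_prime hpi s
  have hmain : emultiplicity (ℓ : ℤ) (((1 + ℓ ^ j * c : ℕ) : ℤ) ^ ℓ ^ s - 1) = (j + s : ℕ) := by
    rcases hℓ.eq_two_or_odd' with h | h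
    · subst h
      have h4 : (4 : ℤ) ∣ ((1 + 2 ^ j * c : ℕ) : ℤ) - 1 := by
        rw [hsub]
        apply Dvd.dvd.mul_right
        have : (4 : ℤ) = 2 ^ 2 := by norm_num
        rw [this]
        exact pow_dvd_pow _ (h2 rfl)
      have h5 := Int.two_pow_sub_pow' (2 ^ s) h4 hx
      rw [one_pow] at h5
      rw [Nat.cast_ofNat] at hbase hls
      rw [Nat.cast_ofNat, h5, hbase, hls]
      push_cast
      rfl
    · have h4 : (ℓ : ℤ) ∣ ((1 + ℓ ^ j * c : ℕ) : ℤ) - 1 := by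
        rw [hsub]
        exact Dvd.dvd.mul_right (dvd_pow_self _ (by omega)) _
      have h5 := Int.emultiplicity_pow_sub_pow hℓ h h4 hx (ℓ ^ s)
      rw [one_pow, ← Int.natCast_emultiplicity] at h5
      rw [h5, hbase, hls]
      push_cast
      rfl
  rw [emultiplicity_eq_coe] at hmain
  obtain ⟨h6, h7⟩ := hmain
  have hge : 1 ≤ (1 + ℓ ^ j * c) ^ ℓ ^ s := Nat.one_le_pow _ _ (by omega)
  have hcast : ((1 + ℓ ^ j * c : ℕ) : ℤ) ^ ℓ ^ s - 1 = (((1 + ℓ ^ j * c) ^ ℓ ^ s - 1 : ℕ) : ℤ) := by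
    rw [Nat.cast_sub hge]
    push_cast
    ring
  rw [hcast] at h6 h7
  rw [← Nat.cast_pow, Int.natCast_dvd_natCast] at h6 h7
  obtain ⟨c', hc'⟩ := h6
  refine ⟨c', ?_, by omega⟩
  intro hd
  apply h7
  rw [hc', pow_succ]
  exact Nat.mul_dvd_mul_left _ hd

theorem B1_pow_mod {ℓ k : ℕ} (hk : 2 ≤ k) (c r : ℕ) :
    (1 + ℓ ^ (k - 1) * c) ^ r ≡ 1 + ℓ ^ (k - 1) * (c * r) [MOD ℓ ^ k] := by
  induction r with
  | zero => simp only [pow_zero, mul_zero, add_zero]; rfl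
  | succ r ih =>
    rw [pow_succ]
    refine (ih.mul_right _).trans ?_
    have e : (1 + ℓ ^ (k - 1) * (c * r)) * (1 + ℓ ^ (k - 1) * c) =
        (1 + ℓ ^ (k - 1) * (c * (r + 1))) + ℓ ^ k * (ℓ ^ (k - 2) * (c * r * c)) := by
      have e1 : ℓ ^ k * ℓ ^ (k - 2) = ℓ ^ (k - 1) * ℓ ^ (k - 1) := by
        rw [← pow_add, ← pow_add]
        congr 1
        omega
      rw [← mul_assoc (ℓ ^ k), e1]
      ring
    rw [e]
    exact (Nat.modEq_iff_dvd' (Nat.le_add_right _ _)).2 (by rw [Nat.add_sub_cancel_left]; exact dvd_mul_right _ _) |>.symm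

theorem B1_gen {ℓ k m : ℕ} (hℓ : ℓ.Prime) (hm : 1 ≤ m) (hk : m + 1 ≤ k) (h2 : ℓ = 2 → m + 2 ≤ k)
    {t : ℕ} (ht : 0 < t) (htm : t < ℓ ^ m) (c : ℕ) :
    ∃ n, (1 + ℓ ^ (k - m) * t) ^ n ≡ 1 + ℓ ^ (k - 1) * c [MOD ℓ ^ k] := by
  obtain ⟨i, c0, hc0, rfl⟩ := Nat.exists_eq_pow_mul_and_not_dvd ht.ne' ℓ hℓ.ne_one
  have hc0' : 1 ≤ c0 := by
    rcases Nat.eq_zero_or_pos c0 with h | h
    · rw [h] at hc0
      exact absurd (dvd_zero ℓ) hc0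
    · exact h
  have him : i < m := by
    by_contra h
    rw [not_lt] at h
    have h3 : ℓ ^ m ≤ ℓ ^ i := Nat.pow_le_pow_right hℓ.pos h
    have h4 : ℓ ^ i * 1 ≤ ℓ ^ i * c0 := Nat.mul_le_mul_left _ hc0'
    omega
  obtain ⟨c', hc', h5⟩ := B1_lte hℓ (j := k - m + i) (by omega) (by intro h; have := h2 h; omega)
    hc0 (k - 1 - (k - m + i))
  have e1 : k - m + i + (k - 1 - (k - m + i)) = k - 1 := by omega
  rw [e1] at h5
  have hco : Nat.Coprime c' ℓ := ((Nat.Prime.coprime_iff_not_dvd hℓ).2 hc').symm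
  obtain ⟨r, hr⟩ : ∃ r, c' * r ≡ c [MOD ℓ] := by
    obtain ⟨y, -, hy⟩ := Nat.exists_mul_mod_eq_one_of_coprime hco hℓ.one_lt
    refine ⟨y * c, ?_⟩
    have h6 : c' * y ≡ 1 [MOD ℓ] := by
      rw [Nat.ModEq, hy, Nat.mod_eq_of_lt hℓ.one_lt]
    have := h6.mul_right c
    rwa [one_mul, mul_assoc] at this
  refine ⟨ℓ ^ (k - 1 - (k - m + i)) * r, ?_⟩
  rw [pow_mul, ← mul_assoc, ← pow_add, h5]
  refine (B1_pow_mod (by omega) c' r).trans ?_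
  apply Nat.ModEq.add_left
  have e2 : ℓ ^ k = ℓ ^ (k - 1) * ℓ := by
    rw [← pow_succ]
    congr 1
    omega
  rw [e2]
  exact hr.mul_left' _

/-- `L` is the cyclotomic extension of `F` -/
theorem B1_cyc {L : Type*} [Field L] [NumberField L] (F : IntermediateField ℚ L) (ℓ k : ℕ)
    (hℓ : ℓ.Prime) (ζ : L) (hζ : IsPrimitiveRoot ζ (ℓ ^ k)) (htop : F ⊔ ℚ⟮ζ⟯ = ⊤) :
    IsCyclotomicExtension {ℓ ^ k} F L := by
  have hn0 : NeZero (ℓ ^ k) := ⟨pow_ne_zero _ hℓ.ne_zero⟩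
  have hadj := gal_adjoin_top F ζ htop
  have hint : IsIntegral F ζ := Algebra.IsIntegral.isIntegral ζ
  rw [IsCyclotomicExtension.iff_singleton]
  refine ⟨⟨ζ, hζ⟩, fun x => ?_⟩
  have h1 : x ∈ (IntermediateField.adjoin F {ζ}).toSubalgebra := by
    rw [hadj]; trivial
  rw [IntermediateField.adjoin_simple_toSubalgebra_of_isAlgebraic hint.isAlgebraic] at h1
  refine Algebra.adjoin_mono ?_ h1
  intro y hy
  rw [Set.mem_singleton_iff] at hy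
  rw [hy]
  exact hζ.pow_eq_one

/-- the automorphisms fixing `ζ ^ (ℓ ^ m)` -/
def B1_sub {L : Type*} [Field L] [NumberField L] (F : IntermediateField ℚ L) (z : L) :
    Subgroup (L ≃ₐ[F] L) where
  carrier := {σ | σ z = z}
  mul_mem' := by
    intro a b ha hb
    rw [Set.mem_ofPred_eq] at ha hb ⊢
    rw [AlgEquiv.mul_apply, hb, ha]
  one_mem' := rfl
  inv_mem' := by
    intro a ha
    rw [Set.mem_ofPred_eq] at ha ⊢
    have h : a⁻¹ (a z) = z := by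
      rw [← AlgEquiv.mul_apply, inv_mul_cancel]
      rfl
    rwa [ha] at h

theorem B1_mem {L : Type*} [Field L] [NumberField L] (F : IntermediateField ℚ L) (z : L)
    (σ : L ≃ₐ[F] L) : σ ∈ B1_sub F z ↔ σ z = z := Iff.rfl

theorem B1_ext {L : Type*} [Field L] [NumberField L] (F : IntermediateField ℚ L) (ℓ k : ℕ)
    (hℓ : ℓ.Prime) (ζ : L) (hζ : IsPrimitiveRoot ζ (ℓ ^ k)) (htop : F ⊔ ℚ⟮ζ⟯ = ⊤)
    {σ τ : L ≃ₐ[F] L} (h : σ ζ = τ ζ) : σ = τ := by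
  have hcyc := B1_cyc F ℓ k hℓ ζ hζ htop
  have hn0 : NeZero (ℓ ^ k) := ⟨pow_ne_zero _ hℓ.ne_zero⟩
  have hadj : Algebra.adjoin F {ζ} = ⊤ := IsCyclotomicExtension.adjoin_primitive_root_eq_top hζ
  have h1 : (σ : L →ₐ[F] L) = (τ : L →ₐ[F] L) := by
    apply AlgHom.ext_of_adjoin_eq_top hadj
    intro x hx
    rw [Set.mem_singleton_iff] at hx
    rw [hx]
    exact h
  ext x
  exact congrArg (fun f : L →ₐ[F] L => f x) h1

/-- an automorphism fixing `ζ ^ (ℓ ^ m)` is `ζ ↦ ζ ^ (1 + ℓ ^ (k - m) * t)` -/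
theorem B1_exp {L : Type*} [Field L] [NumberField L] (F : IntermediateField ℚ L) (ℓ k m : ℕ)
    (hℓ : ℓ.Prime) (hk : m + 1 ≤ k) (ζ : L) (hζ : IsPrimitiveRoot ζ (ℓ ^ k))
    {σ : L ≃ₐ[F] L} (h : σ (ζ ^ ℓ ^ m) = ζ ^ ℓ ^ m) :
    ∃ t, t < ℓ ^ m ∧ σ ζ = ζ ^ (1 + ℓ ^ (k - m) * t) := by
  have hn0 : NeZero (ℓ ^ k) := ⟨pow_ne_zero _ hℓ.ne_zero⟩
  have h1 : (σ ζ) ^ (ℓ ^ k) = 1 := by rw [← map_pow, hζ.pow_eq_one, map_one]
  obtain ⟨a, ha, hae⟩ := hζ.eq_pow_of_pow_eq_one h1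
  rw [map_pow, ← hae, ← pow_mul] at h
  have hlm : ℓ ^ m < ℓ ^ k := Nat.pow_lt_pow_right hℓ.one_lt (by omega)
  have ha1 : 1 ≤ a := by
    by_contra hcon
    have ha0 : a = 0 := by omega
    rw [ha0, zero_mul, pow_zero] at h
    have h2 := Nat.le_of_dvd (pow_pos hℓ.pos m) (hζ.dvd_of_pow_eq_one _ h.symm)
    omega
  have h3 : ζ ^ ((a - 1) * ℓ ^ m) = 1 := by
    have hz : ζ ^ ℓ ^ m ≠ 0 := pow_ne_zero _ (hζ.ne_zero hn0.ne)
    apply mul_right_cancel₀ hz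
    rw [one_mul, ← pow_add]
    have e : (a - 1) * ℓ ^ m + ℓ ^ m = a * ℓ ^ m := by
      obtain ⟨b, rfl⟩ := Nat.exists_eq_add_of_le ha1
      rw [Nat.add_sub_cancel_left]
      ring
    rw [e]
    exact h
  have h4 := hζ.dvd_of_pow_eq_one _ h3
  have e2 : ℓ ^ k = ℓ ^ (k - m) * ℓ ^ m := by
    rw [← pow_add]
    congr 1
    omega
  rw [e2] at h4
  obtain ⟨t, ht⟩ := Nat.dvd_of_mul_dvd_mul_right (pow_pos hℓ.pos m) h4
  refine ⟨t, ?_, ?_⟩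
  · have h5 : ℓ ^ (k - m) * t < ℓ ^ (k - m) * ℓ ^ m := by
      rw [← ht, ← e2]
      omega
    exact Nat.lt_of_mul_lt_mul_left h5
  · rw [← hae, ← ht]
    congr 1
    omega

theorem B1_pow {L : Type*} [Field L] [NumberField L] (F : IntermediateField ℚ L) {ζ : L} {u : ℕ}
    {σ : L ≃ₐ[F] L} (h : σ ζ = ζ ^ u) (n : ℕ) : (σ ^ n) ζ = ζ ^ (u ^ n) := by
  induction n with
  | zero => simp
  | succ n ih =>
    rw [pow_succ', AlgEquiv.mul_apply, ih, map_pow, h, ← pow_mul, pow_succ']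

/-- WILDGROUP. Let `E = F(ζ^(ℓ^m))`, `H = Gal(L/E)`. Every `h ∈ H` has `h(ζ) = ζ η^t` with `η = ζ^(ℓ^(k-m))`,
`t` mod `ℓ^m` (since `h(ζ)^(ℓ^m) = ζ^(ℓ^m)`), `h ↦ t` is injective (`L = F(ζ)`) and surjective (`gal_action` with
`u = 1 + ℓ^(k-m) t`, prime to `ℓ` since `k - m ≥ 1`; it fixes `F` and `ζ^(ℓ^m)`). So `|H| = ℓ^m` and, for
`0 < i < ℓ^m`, `∑_h h(ζ^i) = ζ^i ∑_t η^(ti) = 0`. Last claim: `h ≠ 1` is `ζ ↦ ζ^u`, `u = 1 + ℓ^(k-m) t`, `ℓ^m ∤ t`.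
By lifting the exponent (`v_ℓ(u^(ℓ^s) - 1) = v_ℓ(u-1) + s`, valid since `v_ℓ(u-1) ≥ 1`, and `≥ 2` if `ℓ = 2`) some power
`h'` of `h` has `h'(ζ) = ζ^(u')`, `u' = 1 + ℓ^(k-1) t'`, `ℓ ∤ t'`; the group generated by `h'` has order `ℓ`, it fixes
`F(ζ^ℓ)` and `[L : F(ζ^ℓ)] ≤ ℓ`, so its fixed field is `F(ζ^ℓ)`; `x` is fixed by `h'`. (Other proof of the last step:
by `ring_decomp`-like expansion `n x = ∑_{i<ℓ} ζ^i b_i` with `b_i ∈ F(ζ^ℓ)` and averaging over the powers of `h'`.) -/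
theorem wild_group {L : Type} [Field L] [NumberField L] (F : IntermediateField ℚ L) (ℓ k m : ℕ)
    (hℓ : ℓ.Prime) (hm : 1 ≤ m) (hk : m + 1 ≤ k) (h2 : ℓ = 2 → m + 2 ≤ k)
    (hd : ¬ (ℓ : ℤ) ∣ NumberField.discr F) (ζ : L) (hζ : IsPrimitiveRoot ζ (ℓ ^ k))
    (htop : F ⊔ ℚ⟮ζ⟯ = ⊤) :
    ∃ (H : Type) (_ : Group H) (_ : Fintype H) (ρ : H →* RingAut L),
      Fintype.card H = ℓ ^ m ∧ (∀ h : H, ∀ x ∈ F, (ρ h : L ≃+* L) x = x) ∧
      (∀ h : H, (ρ h : L ≃+* L) (ζ ^ (ℓ ^ m)) = ζ ^ (ℓ ^ m)) ∧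
      (∀ i, 0 < i → i < ℓ ^ m → ∑ h : H, (ρ h : L ≃+* L) (ζ ^ i) = 0) ∧
      (∀ h : H, h ≠ 1 → ∀ x : L, (ρ h : L ≃+* L) x = x → x ∈ F ⊔ ℚ⟮ζ ^ ℓ⟯) := by
  have hn0 : NeZero (ℓ ^ k) := ⟨pow_ne_zero _ hℓ.ne_zero⟩
  have hcyc := B1_cyc F ℓ k hℓ ζ hζ htop
  have hgal : IsGalois F L := IsCyclotomicExtension.isGalois {ℓ ^ k} F L
  have e2 : ℓ ^ k = ℓ ^ (k - m) * ℓ ^ m := by
    rw [← pow_add]
    congr 1
    omega
  -- the automorphisms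
  have hex : ∀ t : Fin (ℓ ^ m), ∃ σ : L ≃ₐ[F] L, σ ζ = ζ ^ (1 + ℓ ^ (k - m) * (t : ℕ)) := by
    intro t
    apply gal_action F ℓ k hℓ (by omega) hd ζ hζ htop
    have h1 : ℓ ∣ ℓ ^ (k - m) * (t : ℕ) := Dvd.dvd.mul_right (dvd_pow_self ℓ (by omega)) _
    apply Nat.Coprime.symm
    rw [Nat.Prime.coprime_iff_not_dvd hℓ]
    intro h
    have h3 : ℓ ∣ 1 := (Nat.dvd_add_left h1).1 h
    exact hℓ.one_lt.ne' (Nat.dvd_one.1 h3)
  choose σ hσ using hex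
  have hmem : ∀ t, σ t ∈ B1_sub F (ζ ^ ℓ ^ m) := by
    intro t
    rw [B1_mem, map_pow, hσ, ← pow_mul]
    have e : (1 + ℓ ^ (k - m) * (t : ℕ)) * ℓ ^ m = ℓ ^ m + ℓ ^ k * (t : ℕ) := by
      rw [e2]
      ring
    rw [e, pow_add, pow_mul, hζ.pow_eq_one, one_pow, mul_one]
  have hbij : Function.Bijective (fun t : Fin (ℓ ^ m) =>
      (⟨σ t, hmem t⟩ : B1_sub F (ζ ^ ℓ ^ m))) := by
    constructor
    · intro s t hst
      have h1 : σ s = σ t := congrArg Subtype.val hst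
      have h3 : ζ ^ (1 + ℓ ^ (k - m) * (s : ℕ)) = ζ ^ (1 + ℓ ^ (k - m) * (t : ℕ)) := by
        rw [← hσ s, ← hσ t, h1]
      have hlt : ∀ t : Fin (ℓ ^ m), 1 + ℓ ^ (k - m) * (t : ℕ) < ℓ ^ k := by
        intro t
        have h4 : (t : ℕ) + 1 ≤ ℓ ^ m := t.2
        have h5 : ℓ ^ (k - m) * ((t : ℕ) + 1) ≤ ℓ ^ (k - m) * ℓ ^ m := Nat.mul_le_mul_left _ h4
        have h6 : 2 ≤ ℓ ^ (k - m) := by
          have h7 : ℓ ^ 1 ≤ ℓ ^ (k - m) := Nat.pow_le_pow_right hℓ.pos (by omega)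
          have h8 := hℓ.two_le
          rw [pow_one] at h7
          exact h8.trans h7
        rw [e2]
        rw [mul_add, mul_one] at h5
        omega
      have h4 := hζ.pow_inj (hlt s) (hlt t) h3
      have h5 : ℓ ^ (k - m) * (s : ℕ) = ℓ ^ (k - m) * (t : ℕ) := by omega
      exact Fin.ext (Nat.eq_of_mul_eq_mul_left (pow_pos hℓ.pos _) h5)
    · rintro ⟨τ, hτ⟩
      obtain ⟨t, ht, hte⟩ := B1_exp F ℓ k m hℓ hk ζ hζ ((B1_mem F _ τ).1 hτ)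
      refine ⟨⟨t, ht⟩, ?_⟩
      apply Subtype.ext
      apply B1_ext F ℓ k hℓ ζ hζ htop
      show σ ⟨t, ht⟩ ζ = τ ζ
      rw [hσ, hte]
  let ρ : B1_sub F (ζ ^ ℓ ^ m) →* RingAut L :=
    { toFun := fun h => (h : L ≃ₐ[F] L).toRingEquiv
      map_one' := rfl
      map_mul' := fun _ _ => rfl }
  have hρ : ∀ (h : B1_sub F (ζ ^ ℓ ^ m)) (x : L), (ρ h : L ≃+* L) x = (h : L ≃ₐ[F] L) x :=
    fun _ _ => rfl
  classical
  let fin : Fintype (B1_sub F (ζ ^ ℓ ^ m)) := Fintype.ofBijective _ hbij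
  refine ⟨B1_sub F (ζ ^ ℓ ^ m), inferInstance, fin, ρ, ?_, ?_, ?_, ?_, ?_⟩
  · rw [← Fintype.card_of_bijective hbij, Fintype.card_fin]
  · intro h x hx
    rw [hρ]
    exact (h : L ≃ₐ[F] L).commutes ⟨x, hx⟩
  · intro h
    rw [hρ]
    exact h.2
  · intro i hi0 him
    have h1 : ∑ h : B1_sub F (ζ ^ ℓ ^ m), (ρ h : L ≃+* L) (ζ ^ i) =
        ∑ t : Fin (ℓ ^ m), ζ ^ i * (ζ ^ (ℓ ^ (k - m) * i)) ^ (t : ℕ) := by
      rw [← Function.Bijective.sum_comp hbij]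
      apply Finset.sum_congr rfl
      intro t _
      rw [hρ]
      show σ t (ζ ^ i) = _
      rw [map_pow, hσ, ← pow_mul, ← pow_mul, ← pow_add]
      congr 1
      ring
    rw [h1, ← Finset.mul_sum, Fin.sum_univ_eq_sum_range (fun t => (ζ ^ (ℓ ^ (k - m) * i)) ^ t)]
    have h3 : ζ ^ (ℓ ^ (k - m) * i) ≠ 1 := by
      intro h
      have h4 := hζ.dvd_of_pow_eq_one _ h
      rw [e2] at h4
      have h5 := Nat.dvd_of_mul_dvd_mul_left (pow_pos hℓ.pos _) h4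
      have h6 := Nat.le_of_dvd hi0 h5
      omega
    have h4 : (∑ t ∈ range (ℓ ^ m), (ζ ^ (ℓ ^ (k - m) * i)) ^ t) = 0 := by
      have h5 := geom_sum_mul (ζ ^ (ℓ ^ (k - m) * i)) (ℓ ^ m)
      have h6 : (ζ ^ (ℓ ^ (k - m) * i)) ^ ℓ ^ m = 1 := by
        rw [← pow_mul]
        have e : ℓ ^ (k - m) * i * ℓ ^ m = ℓ ^ k * i := by
          rw [e2]
          ring
        rw [e, pow_mul, hζ.pow_eq_one, one_pow]
      rw [h6, sub_self] at h5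
      exact (mul_eq_zero.1 h5).resolve_right (sub_ne_zero.2 h3)
    rw [h4, mul_zero]
  · intro h hne x hx
    rw [hρ] at hx
    obtain ⟨t, ht, hte⟩ := B1_exp F ℓ k m hℓ hk ζ hζ h.2
    have ht0 : 0 < t := by
      rcases Nat.eq_zero_or_pos t with h0 | h0
      · exfalso
        apply hne
        apply Subtype.ext
        apply B1_ext F ℓ k hℓ ζ hζ htop
        rw [hte, h0, mul_zero, add_zero, pow_one]
        rfl
      · exact h0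
    have hfix : ∀ n : ℕ, ((h : L ≃ₐ[F] L) ^ n) x = x := by
      intro n
      induction n with
      | zero => rfl
      | succ n ih => rw [pow_succ, AlgEquiv.mul_apply, hx, ih]
    have hK : x ∈ IntermediateField.adjoin F {ζ ^ ℓ} := by
      rw [← IsGalois.fixedField_fixingSubgroup (IntermediateField.adjoin F {ζ ^ ℓ})]
      rw [IntermediateField.mem_fixedField_iff]
      intro τ hτ
      have h5 : τ (ζ ^ ℓ ^ 1) = ζ ^ ℓ ^ 1 := by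
        rw [pow_one]
        exact (IntermediateField.mem_fixingSubgroup_iff _ _).1 hτ _
          (IntermediateField.mem_adjoin_simple_self F (ζ ^ ℓ))
      obtain ⟨c, -, hc⟩ := B1_exp F ℓ k 1 hℓ (by omega) ζ hζ h5
      obtain ⟨n, hn⟩ := B1_gen hℓ hm hk h2 ht0 ht c
      have h6 : (h : L ≃ₐ[F] L) ^ n = τ := by
        apply B1_ext F ℓ k hℓ ζ hζ htop
        rw [B1_pow F hte n, hc]
        exact pow_eq_pow_of_modEq hn hζ.pow_eq_one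
      rw [← h6]
      exact hfix n
    have hle : IntermediateField.adjoin F {ζ ^ ℓ} ≤
        IntermediateField.extendScalars (le_sup_left : F ≤ F ⊔ ℚ⟮ζ ^ ℓ⟯) := by
      rw [IntermediateField.adjoin_simple_le_iff, IntermediateField.mem_extendScalars]
      exact (le_sup_right : ℚ⟮ζ ^ ℓ⟯ ≤ F ⊔ ℚ⟮ζ ^ ℓ⟯)
        (IntermediateField.mem_adjoin_simple_self ℚ (ζ ^ ℓ))
    exact (IntermediateField.mem_extendScalars _).1 (hle hK)

end MP225
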