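import Pool.Agent.Lib_MP_225a87_nt.RelOrbit
import Pool.Agent.Lib_MP_225a87_nt.PowerSum
import Pool.Agent.Lib_MP_225a87_nt.Factor
import Pool.Agent.Lib_MP_225a87_nt.WildGroup
import Pool.Agent.Lib_MP_225a87_nt.WildAvg
import Pool.Agent.Lib_MP_225a87_nt.AMGM

open Polynomial Finset IntermediateField

namespace MP225

/-- a margin to the integers -/
theorem wildD_margin (c : ℝ) (hc : ∀ k : ℤ, (k : ℝ) ≠ c) :
    ∃ δ : ℝ, 0 < δ ∧ δ < 1 / 4 ∧ ∀ k : ℤ, δ < ((k : ℝ) - c) ^ 2 := by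
  have h0 : 0 < (c - round c) ^ 2 := by
    have h1 : c - round c ≠ 0 := by
      intro h
      exact hc (round c) (by linarith)
    positivity
  refine ⟨min (1 / 8) ((c - round c) ^ 2 / 2), ?_, ?_, ?_⟩
  · exact lt_min (by norm_num) (by linarith)
  · exact (min_le_left _ _).trans_lt (by norm_num)
  · intro k
    refine (min_le_right _ _).trans_lt ?_
    have h1 : |c - round c| ≤ |c - k| := round_le c k
    have h2 : (c - round c) ^ 2 ≤ (c - k) ^ 2 := sq_le_sq.2 h1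
    have h3 : ((k : ℝ) - c) ^ 2 = (c - k) ^ 2 := by ring
    rw [h3]
    linarith

/-- WILDD. Let `μ` be from `rm_orb a`. For each `1 ≤ d ≤ D` choose `j` with `d μ_j ∉ ℤ` and `0 < δ < 1/4` with
`δ < (k - d μ_j)²` for all integers `k`, and `r₁` from `rm_orb` for `(j, δ/d²)`; `P₀` = max of the `r₁`. Suppose some
coefficient of `g` is not in `F ⊔ ℚ⟮ζ^ℓ⟯`. Take `H, ρ` from `wild_group`: if `h ≠ 1` and `g.map (ρ h) = g` then all
coefficients are fixed by `ρ h`, so lie in `F ⊔ ℚ⟮ζ^ℓ⟯`: contradiction; so the stabiliser is trivial (card 1) and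
`r₁·1 ≤ ℓ^m = |H|`. `y` from `power_sum_int`, `b` from `wild_avg`: `φ(∑_h ρ h y)/(d ℓ^m) = φ(b)/d`, so
`∑_φ ‖φ b - d μ_j‖² ≤ δ·finrank`; `finish` (AMGM.lean) gives an integer `k` with `(k - d μ_j)² ≤ δ`: contradiction.
`factor_integral`, `factor_roots` give the hypotheses on `g`. -/
theorem wild_D (a : ℝ) (ha : ∀ n : ℤ, (n : ℝ) ≠ a) (D : ℕ) : ∃ P₀ : ℕ, ∀ (p : ℤ[X]), ConjIn a p →
    ∀ (L : Type) [Field L] [NumberField L] (F : IntermediateField ℚ L) (ℓ k m : ℕ), ℓ.Prime →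
      ¬ (ℓ : ℤ) ∣ NumberField.discr F → 1 ≤ m → m + 1 ≤ k → (ℓ = 2 → m + 2 ≤ k) → P₀ ≤ ℓ ^ m →
      ∀ ζ : L, IsPrimitiveRoot ζ (ℓ ^ k) → F ⊔ ℚ⟮ζ⟯ = ⊤ →
      ∀ g : L[X], g.Monic → Irreducible g → g ∣ p.map (Int.castRingHom L) → g.natDegree ≤ D →
      ∀ i, g.coeff i ∈ F ⊔ ℚ⟮ζ ^ ℓ⟯ := by
  obtain ⟨μ, hμ1, hμ2⟩ := rm_orb a
  have hch : ∀ d : ℕ, ∃ (j : ℕ) (δ : ℝ) (r₁ : ℕ), 0 < d → 0 < δ ∧ δ < 1 / 4 ∧
      (∀ k : ℤ, δ < ((k : ℝ) - ((d : ℝ) * μ j)) ^ 2) ∧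
      ∀ (L : Type) [Field L] [NumberField L] (H : Type)
      [Group H] [Fintype H] (ρ : H →* RingAut L) (g : L[X]) (y : L),
      g.Monic → Irreducible g → (∀ i, IsIntegral ℤ (g.coeff i)) →
      (∀ φ : L →+* ℂ, ∀ w ∈ (g.map φ).roots, w.im = 0 ∧ a ≤ w.re ∧ w.re ≤ a + 4) →
      (∀ φ : L →+* ℂ, φ y = ((g.map φ).roots.map fun w => w ^ j).sum) →
      r₁ * Nat.card {h : H // g.map ((ρ h : L ≃+* L) : L →+* L) = g} ≤ Fintype.card H →
      ∑ φ : L →+* ℂ, ‖φ (∑ h : H, (ρ h : L ≃+* L) y) / ((g.natDegree : ℂ) * (Fintype.card H : ℂ))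
        - (μ j : ℂ)‖ ^ 2 ≤ δ / (d : ℝ) ^ 2 * Module.finrank ℚ L := by
    intro d
    by_cases hd : 0 < d
    · obtain ⟨j, hj⟩ := hμ1 ha d hd
      obtain ⟨δ, hδ0, hδ1, hδ2⟩ := wildD_margin ((d : ℝ) * μ j) hj
      have hd' : (0 : ℝ) < d := by exact_mod_cast hd
      obtain ⟨r₁, hr₁⟩ := hμ2 j (δ / (d : ℝ) ^ 2) (by positivity)
      exact ⟨j, δ, r₁, fun _ => ⟨hδ0, hδ1, hδ2, hr₁⟩⟩
    · exact ⟨0, 0, 0, fun h => absurd h hd⟩
  choose J Δ r₁ hch using hch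
  refine ⟨∑ d ∈ range (D + 1), r₁ d, ?_⟩
  intro p hp L _ _ F ℓ k m hℓ hd hm hk h2 hP ζ hζ htop g hg hgi hdvd hD i
  by_contra hcon
  have hdpos : 0 < g.natDegree := hgi.natDegree_pos
  obtain ⟨hδ0, hδ1, hδ2, hrm⟩ := hch g.natDegree hdpos
  obtain ⟨H, _, _, ρ, hcard, hF, hfix, hsum, hst⟩ := wild_group F ℓ k m hℓ hm hk h2 hd ζ hζ htop
  have hint := factor_integral p hp.1 g hg hdvd
  obtain ⟨y, hy, hyφ⟩ := power_sum_int g hg hint (J g.natDegree)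
  obtain ⟨b, hb, hbsum⟩ := wild_avg F ℓ k m hℓ hm hk hd ζ hζ htop H ρ hcard hF hfix hsum y hy
  -- trivial stabiliser
  have hone : ∀ h : H, g.map ((ρ h : L ≃+* L) : L →+* L) = g → h = 1 := by
    intro h hh
    by_contra hne
    apply hcon
    apply hst h hne
    have h5 := congrArg (fun q : L[X] => q.coeff i) hh
    simp only [coeff_map] at h5
    exact h5
  have hcard1 : Nat.card {h : H // g.map ((ρ h : L ≃+* L) : L →+* L) = g} ≤ 1 := by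
    rw [Finite.card_le_one_iff_subsingleton]
    constructor
    rintro ⟨x, hx⟩ ⟨z, hz⟩
    rw [Subtype.mk.injEq, hone x hx, hone z hz]
  have hr : r₁ g.natDegree * Nat.card {h : H // g.map ((ρ h : L ≃+* L) : L →+* L) = g} ≤
      Fintype.card H := by
    rw [hcard]
    refine le_trans ?_ hP
    calc r₁ g.natDegree * Nat.card {h : H // g.map ((ρ h : L ≃+* L) : L →+* L) = g}
        ≤ r₁ g.natDegree * 1 := Nat.mul_le_mul_left _ hcard1
      _ = r₁ g.natDegree := mul_one _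
      _ ≤ ∑ d ∈ range (D + 1), r₁ d :=
          Finset.single_le_sum (f := r₁) (fun _ _ => Nat.zero_le _)
            (mem_range.2 (by omega))
  have hmain := hrm L H ρ g y hg hgi hint
    (fun φ w hw => factor_roots a p hp g hdvd φ w hw) hyφ hr
  have hd' : (0 : ℝ) < g.natDegree := by exact_mod_cast hdpos
  have hdC : (g.natDegree : ℂ) ≠ 0 := by exact_mod_cast hdpos.ne'
  have hℓC : ((ℓ : ℂ) ^ m) ≠ 0 := pow_ne_zero _ (by exact_mod_cast hℓ.ne_zero)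
  have hterm : ∀ φ : L →+* ℂ,
      ‖φ (∑ h : H, (ρ h : L ≃+* L) y) / ((g.natDegree : ℂ) * (Fintype.card H : ℂ))
        - (μ (J g.natDegree) : ℂ)‖ ^ 2 =
      ‖φ b - (((g.natDegree : ℝ) * μ (J g.natDegree) : ℝ) : ℂ)‖ ^ 2 /
        (g.natDegree : ℝ) ^ 2 := by
    intro φ
    have h1 : φ (∑ h : H, (ρ h : L ≃+* L) y) / ((g.natDegree : ℂ) * (Fintype.card H : ℂ))
        - (μ (J g.natDegree) : ℂ) =
        (φ b - (((g.natDegree : ℝ) * μ (J g.natDegree) : ℝ) : ℂ)) / (g.natDegree : ℂ) := by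
      rw [hbsum, hcard, map_mul, map_pow, map_natCast]
      push_cast
      field_simp
    rw [h1, norm_div, div_pow, Complex.norm_natCast]
  rw [Finset.sum_congr rfl (fun φ _ => hterm φ), ← Finset.sum_div] at hmain
  have hfin : ∑ φ : L →+* ℂ, ‖φ b - (((g.natDegree : ℝ) * μ (J g.natDegree) : ℝ) : ℂ)‖ ^ 2 ≤
      Δ g.natDegree * Module.finrank ℚ L := by
    rw [div_le_iff₀ (by positivity)] at hmain
    have h3 : Δ g.natDegree / (g.natDegree : ℝ) ^ 2 * (Module.finrank ℚ L : ℝ) *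
        (g.natDegree : ℝ) ^ 2 = Δ g.natDegree * Module.finrank ℚ L := by
      field_simp
    rw [h3] at hmain
    exact hmain
  obtain ⟨n, hn⟩ := finish b hb _ _ hδ1 hfin
  exact absurd hn (not_le.2 (hδ2 n))

end MP225
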